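import Pool.Agent.Y501.SY.PubV

/-!
Unbounded two-forms controlled by their values on complex lines, and almost complex structures
whose modulus of continuity is better than Hölder continuity of exponent one half: the definitions
used in the statement.
-/

set_option autoImplicit false

open Set Filter Topology MeasureTheory
open scoped Manifold ContDiff

noncomputable section

namespace Pool.Agent.V8H58.BF

open Pool.Agent.Y501.SYP

section forms

variable {V : Type} [NormedAddCommGroup V] [NormedSpace ℝ V]
  {X : Type} [TopologicalSpace X] [ChartedSpace V X]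

/-- The coefficients of `J` in the chart at `x` satisfy `|J_q - J_q'|² = o(|q - q'|)`, locally
uniformly near `x`. -/
def HalfHolderNear (J : End V X) (x : X) : Prop :=
  ∀ᶠ p in 𝓝 (chartAt V x x), ∀ δ : ℝ, 0 < δ → ∃ N ∈ 𝓝 p, ∀ q ∈ N, ∀ q' ∈ N, ∀ v : V,
    ‖inChart J x q v - inChart J x q' v‖ ^ 2 ≤ δ * ‖q - q'‖ * ‖v‖ ^ 2

/-- The values of `σ` off `K` near `x` are controlled by its values on the pairs `(v, J v)`, in the
chart at `x`. -/
def QuasiNear (σ : Form V X 2) (J : End V X) (K : Set X) (x : X) : Prop :=
  ∃ A : ℝ, ∀ᶠ p in 𝓝 (chartAt V x x), (chartAt V x).symm p ∉ K → ∀ v w : V,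
    |pb (chartAt V x).symm σ p ![v, w]| ≤
      A * (pb (chartAt V x).symm σ p ![v, inChart J x p v] +
        pb (chartAt V x).symm σ p ![w, inChart J x p w] + ‖v‖ ^ 2 + ‖w‖ ^ 2)

end forms

end Pool.Agent.V8H58.BF
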