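import Pool.Agent.V8H58.BF.QcG
import Pool.Agent.V8H58.BF.PubQ
import Pool.Agent.Y501.SY.FinalV

/-!
Bounded primitives of unbounded forms: all steps together.
-/

set_option autoImplicit false

open Set Filter Topology MeasureTheory
open scoped Manifold ContDiff

noncomputable section

namespace Pool.Agent.V8H58.BF

open Pool.Agent.Y501.SYP

attribute [local instance] cs mf

section

variable {d : ℕ} {X : Type} [TopologicalSpace X] [ChartedSpace (ES d) X]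
  [IsManifold 𝓘(ℝ, ES d) ∞ X]

omit [IsManifold 𝓘(ℝ, ES d) ∞ X] in
theorem holNear_of {J : End (ES d) X} {x : X} (h : HalfHolderNear J x) :
    HolNear (d := d) (X := X) J x := by
  unfold HolNear
  filter_upwards [h] with p hp δ hδ
  obtain ⟨N, hN, h1⟩ := hp δ hδ
  refine ⟨N, hN, fun q hq q' hq' => ?_⟩
  have h2 : 0 ≤ δ * ‖q - q'‖ := mul_nonneg hδ.le (norm_nonneg _)
  have h3 : ‖Pool.Agent.Y501.SY.inChart (d := d) (X := X) J x q -
      Pool.Agent.Y501.SY.inChart (d := d) (X := X) J x q'‖ ≤ Real.sqrt (δ * ‖q - q'‖) := by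
    refine ContinuousLinearMap.opNorm_le_bound _ (Real.sqrt_nonneg _) fun v => ?_
    have h4 := h1 q hq q' hq' v
    have h5 : Real.sqrt (δ * ‖q - q'‖ * ‖v‖ ^ 2) = Real.sqrt (δ * ‖q - q'‖) * ‖v‖ := by
      rw [Real.sqrt_mul h2, Real.sqrt_sq (norm_nonneg _)]
    rw [← h5]
    exact Real.le_sqrt_of_sq_le h4
  have h4 := pow_le_pow_left₀ (norm_nonneg _) h3 2
  rwa [Real.sq_sqrt h2] at h4

theorem unboundedClass [CompactSpace X] [T2Space X]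
    (hd : 1 ≤ d) (J : End (ES d) X) (hJ : IsAlmostComplex J) (K : Set X) (hK : IsClosed K)
    (hHol : ∀ x ∈ K, HalfHolderNear J x)
    (hH : ∀ x₀ : X, μH[(d : ℝ) - 1] (chartAt (ES d) x₀ '' (K ∩ (chartAt (ES d) x₀).source)) = 0)
    (σ₀ : Form (ES d) X 2) (hσ₀ : IsSmooth σ₀) (hσ₀c : IsClosedForm σ₀)
    (β : Form (ES d) X 1) (σ : Form (ES d) X 2) (hβ : SmoothOff β K) (hσ : SmoothOff σ K)
    (hβσ : EqPlusD σ σ₀ β K) (hb : ∀ x ∈ K, BddNearK β K x)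
    (hpos : ∀ x, x ∉ K → ∀ v : TangentSpace 𝓘(ℝ, ES d) x, 0 ≤ qd σ J x v)
    (hqc : ∀ x ∈ K, QuasiNear σ J K x)
    (hsmall : ∀ z ∈ Crit σ J K, SmallAll J (connectedComponentIn (Crit σ J K) z) z) :
    ∃ (α : Form (ES d) X 1) (ρ : Form (ES d) X 2), IsSmooth α ∧ IsSmooth ρ ∧ IsD α ρ ∧
      IsTamingSymplectic (addF σ₀ ρ) J ∧ ∀ τ : Form (ES d) X 2, (∀ x, TamesAt τ J x) →
        ∀ t : ℝ, 0 ≤ t → t ≤ 1 → NondegForm (segment τ (addF σ₀ ρ) t) := by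
  obtain ⟨α, ρ, h1, h2, h3, h4, h5⟩ := mainQ (d := d) (X := X) Pool.Agent.Y44.SY.t_IMM
    Pool.Agent.Y44.SY.t_QB Pool.Agent.Y689.SY.t_HH
    Pool.Agent.Y932.SY.Ker.t_KER Pool.Agent.Y394.SY.t_SM Pool.Agent.Y501.SY.t_CAP
    Pool.Agent.Y891.SY.t_PATCHP hd (J := J) (ac_of J hJ) (K := K) hK
    (fun x hx => holNear_of (hHol x hx)) hH (σ₀ := σ₀) ((smooth_iff σ₀).1 hσ₀)
    ((closed_iff σ₀).1 hσ₀c) (β := β) (σ := σ)
    (fun V φ hV hφ hp => hβ V φ ⟨hV, hφ⟩ hp)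
    (fun V φ hV hφ hp => hσ V φ ⟨hV, hφ⟩ hp)
    (fun V φ hV hφ hp p hpV => by
      exact (sub_eq_iff_eq_add'.2 (hβσ V φ ⟨hV, hφ⟩ hp p hpV)).symm)
    (fun x => by
      by_cases hx : x ∈ K
      · exact hb x hx
      · exact bddK_off hK hβ hx)
    (fun x => by
      by_cases hx : x ∈ K
      · exact hqc x hx
      · exact qcAt_of_bdd (d := d) (X := X) hpos (bddK_off hK hσ hx))
    hpos (fun z hz => smallAll_of hJ (hsmall z hz))
  have h6 : IsTamingSymplectic (addF σ₀ ρ) J :=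
    symp_of ((smooth_iff _).2 (((smooth_iff σ₀).1 hσ₀).add h2)) ((closed_iff _).2 h4) h5
  exact ⟨α, ρ, (smooth_iff α).2 h1, (smooth_iff ρ).2 h2, (isD_iff α ρ).2 h3, h6,
    fun τ hτ t ht0 ht1 => segment_nondeg hτ h6.tames t ht0 ht1⟩

end

end Pool.Agent.V8H58.BF
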