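import Pool.Agent.Y501.SY.PubV

/-!
One-forms which are Lipschitz near a point: the definition used in the statement.
-/

set_option autoImplicit false

open Set Filter Topology MeasureTheory
open scoped Manifold ContDiff

noncomputable section

namespace Pool.Agent.V8H58.BF

open Pool.Agent.Y501.SYP

/-- The coefficients of the one-form `β` in the chart at `x` are Lipschitz on a neighbourhood
of `x`. -/
def LipNear {V : Type} [NormedAddCommGroup V] [NormedSpace ℝ V]
    {X : Type} [TopologicalSpace X] [ChartedSpace V X] (β : Form V X 1) (x : X) : Prop :=
  ∃ C : NNReal, ∃ N ∈ 𝓝 (chartAt V x x), LipschitzOnWith C (pb (chartAt V x).symm β) N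

end Pool.Agent.V8H58.BF
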