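import Pool.Agent.V8H58.BF.LipG
import Pool.Agent.V8H58.BF.PubL
import Pool.Agent.Y501.SY.FinalV

/-!
Primitives which are locally Lipschitz off a small set: all steps together.
-/

set_option autoImplicit false

open Set Filter Topology MeasureTheory
open scoped Manifold ContDiff

noncomputable section

namespace Pool.Agent.V8H58.BF

open Pool.Agent.Y501.SYP

attribute [local instance] cs mf

/-- sets of Hausdorff measure zero in the top dimension are Lebesgue null -/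
theorem null_of_haus {d : ℕ} {S : Set (Pool.Agent.Y501.SY.E d)} (h : μH[(d : ℝ)] S = 0) :
    volume S = 0 := by
  have h1 : μH[(d : ℝ)] (WithLp.ofLp '' S : Set (Fin d → ℝ)) = 0 := by
    have h2 := (PiLp.lipschitzWith_ofLp 2 (fun _ : Fin d => ℝ)).hausdorffMeasure_image_le
      (d := (d : ℝ)) (by positivity) S
    rw [h, mul_zero] at h2
    exact le_antisymm h2 bot_le
  have h3 : (μH[(Fintype.card (Fin d) : ℝ)] : Measure (Fin d → ℝ)) = volume :=
    hausdorffMeasure_pi_real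
  rw [Fintype.card_fin] at h3
  rw [h3] at h1
  have h4 := (EuclideanSpace.volume_preserving_symm_measurableEquiv_toLp (Fin d)).measure_preimage_equiv
    (WithLp.ofLp '' S : Set (Fin d → ℝ))
  rw [h1] at h4
  refine measure_mono_null ?_ h4
  exact subset_preimage_image _ _

section

variable {d : ℕ} {X : Type} [TopologicalSpace X] [ChartedSpace (ES d) X]
  [IsManifold 𝓘(ℝ, ES d) ∞ X]

theorem bddK_lip {K : Set X} {β : Form (ES d) X 1} {x : X} (h : LipNear β x) :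
    BddNearK β K x := by
  obtain ⟨C, N, hN, hC⟩ := h
  have h1 : ContinuousAt (pb (chartAt (ES d) x).symm β) (chartAt (ES d) x x) :=
    hC.continuousOn.continuousAt hN
  refine ⟨‖pb (chartAt (ES d) x).symm β (chartAt (ES d) x x)‖ + 1, ?_⟩
  filter_upwards [h1.norm.eventually_lt_const (lt_add_one _)] with p hp _
  exact hp.le

theorem bddK_lip2 {K : Set X} (hK : IsClosed K) {σ₀ σ : Form (ES d) X 2} (hσ₀ : IsSmooth σ₀)
    {β : Form (ES d) X 1} (hβσ : EqPlusD σ σ₀ β K) {x : X} (h : LipNear β x) :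
    BddNearK σ K x := by
  obtain ⟨C, N, hN, hC⟩ := h
  have h0 : ContDiffOn ℝ ∞ (pb (chartAt (ES d) x).symm σ₀) (chartAt (ES d) x).target :=
    hσ₀ _ _ ⟨(chartAt (ES d) x).open_target, contMDiffOn_chart_symm⟩
  have h1 : ContinuousAt (pb (chartAt (ES d) x).symm σ₀) (chartAt (ES d) x x) :=
    h0.continuousOn.continuousAt
      ((chartAt (ES d) x).open_target.mem_nhds (mem_chart_target (ES d) x))
  have h2 : IsOpen ((chartAt (ES d) x).target ∩ (chartAt (ES d) x).symm ⁻¹' Kᶜ) :=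
    (chartAt (ES d) x).isOpen_inter_preimage_symm hK.isOpen_compl
  have h3 := hβσ _ (chartAt (ES d) x).symm ⟨h2, (contMDiffOn_chart_symm
    (I := 𝓘(ℝ, ES d))).mono inter_subset_left⟩ (fun p hp => hp.2)
  refine ⟨(‖pb (chartAt (ES d) x).symm σ₀ (chartAt (ES d) x x)‖ + 1) + 2 * C, ?_⟩
  filter_upwards [h1.norm.eventually_lt_const (lt_add_one _), eventually_mem_nhds_iff.2 hN,
    (chartAt (ES d) x).open_target.mem_nhds (mem_chart_target (ES d) x)] with p hp hpN hpt hpK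
  rw [h3 p ⟨hpt, hpK⟩]
  refine (norm_add_le _ _).trans (add_le_add hp.le ?_)
  have h4 := norm_fderiv_le_of_lipschitzOn ℝ hpN hC
  unfold extDeriv
  refine (ContinuousAlternatingMap.norm_alternatizeUncurryFin_le _).trans ?_
  push_cast
  linarith

theorem lipschitzClass [CompactSpace X] [T2Space X]
    (hd : 1 ≤ d) (J : End (ES d) X) (hJ : IsAlmostComplex J) (K K₁ : Set X) (hK : IsClosed K)
    (hK₁ : IsClosed K₁) (hKK : K₁ ⊆ K)
    (hH0 : ∀ x₀ : X, μH[(d : ℝ)] (chartAt (ES d) x₀ '' (K ∩ (chartAt (ES d) x₀).source)) = 0)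
    (hH : ∀ x₀ : X, μH[(d : ℝ) - 1] (chartAt (ES d) x₀ '' (K₁ ∩ (chartAt (ES d) x₀).source)) = 0)
    (σ₀ : Form (ES d) X 2) (hσ₀ : IsSmooth σ₀) (hσ₀c : IsClosedForm σ₀)
    (β : Form (ES d) X 1) (σ : Form (ES d) X 2) (hβ : SmoothOff β K) (hσ : SmoothOff σ K)
    (hβσ : EqPlusD σ σ₀ β K) (hLip : ∀ x ∈ K, x ∉ K₁ → LipNear β x)
    (hb : ∀ x ∈ K₁, BddNearK β K x ∧ BddNearK σ K x)
    (hpos : ∀ x, x ∉ K → ∀ v : TangentSpace 𝓘(ℝ, ES d) x, 0 ≤ qd σ J x v)
    (hsmall : ∀ z ∈ Crit σ J K, SmallAll J (connectedComponentIn (Crit σ J K) z) z) :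
    ∃ (α : Form (ES d) X 1) (ρ : Form (ES d) X 2), IsSmooth α ∧ IsSmooth ρ ∧ IsD α ρ ∧
      IsTamingSymplectic (addF σ₀ ρ) J ∧ ∀ τ : Form (ES d) X 2, (∀ x, TamesAt τ J x) →
        ∀ t : ℝ, 0 ≤ t → t ≤ 1 → NondegForm (segment τ (addF σ₀ ρ) t) := by
  have hLO : LipOff (d := d) (X := X) β K₁ := by
    refine lipOff_of_charts (K := K) hK (fun V φ hV hφ hp => hβ V φ ⟨hV, hφ⟩ hp) ?_
    intro x hx hx1 p hp
    rw [mem_singleton_iff] at hp
    obtain ⟨C, N, hN, hC⟩ := hLip x hx hx1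
    rw [hp]
    exact ⟨C, N, hN, hC⟩
  obtain ⟨α, ρ, h1, h2, h3, h4, h5⟩ := mainL (d := d) (X := X) Pool.Agent.Y44.SY.t_IMM
    Pool.Agent.Y44.SY.t_QB Pool.Agent.Y929.SY.t_GLOB Pool.Agent.Y689.SY.t_HH
    Pool.Agent.Y932.SY.Ker.t_KER Pool.Agent.Y394.SY.t_SM Pool.Agent.Y501.SY.t_CAP
    Pool.Agent.Y891.SY.t_PATCHP hd (J := J) (ac_of J hJ) (K := K) (K₁ := K₁) hK hK₁ hKK
    (fun x₀ => null_of_haus (hH0 x₀)) hH (σ₀ := σ₀) ((smooth_iff σ₀).1 hσ₀)
    ((closed_iff σ₀).1 hσ₀c) (β := β) (σ := σ)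
    (fun V φ hV hφ hp => hβ V φ ⟨hV, hφ⟩ hp)
    (fun V φ hV hφ hp => hσ V φ ⟨hV, hφ⟩ hp)
    (fun V φ hV hφ hp p hpV => by
      exact (sub_eq_iff_eq_add'.2 (hβσ V φ ⟨hV, hφ⟩ hp p hpV)).symm)
    hLO
    (fun x => by
      by_cases hx : x ∈ K
      · by_cases hx1 : x ∈ K₁
        · exact (hb x hx1).1
        · exact bddK_lip (hLip x hx hx1)
      · exact bddK_off hK hβ hx)
    (fun x => by
      by_cases hx : x ∈ K
      · by_cases hx1 : x ∈ K₁
        · exact (hb x hx1).2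
        · exact bddK_lip2 hK hσ₀ hβσ (hLip x hx hx1)
      · exact bddK_off hK hσ hx)
    hpos (fun z hz => smallAll_of hJ (hsmall z hz))
  have h6 : IsTamingSymplectic (addF σ₀ ρ) J :=
    symp_of ((smooth_iff _).2 (((smooth_iff σ₀).1 hσ₀).add h2)) ((closed_iff _).2 h4) h5
  exact ⟨α, ρ, (smooth_iff α).2 h1, (smooth_iff ρ).2 h2, (isD_iff α ρ).2 h3, h6,
    fun τ hτ t ht0 ht1 => segment_nondeg hτ h6.tames t ht0 ht1⟩

end

end Pool.Agent.V8H58.BF
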