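import Pool.Agent.Y501.SY.PubV

/-!
Domination of a taming form near a point: the definitions used in the statement.
-/

set_option autoImplicit false

open Set Filter Topology MeasureTheory
open scoped Manifold ContDiff

noncomputable section

namespace Pool.Agent.V8H58.BF

open Pool.Agent.Y501.SYP

section

variable {V : Type} [NormedAddCommGroup V] [NormedSpace ℝ V]
  {X : Type} [TopologicalSpace X] [ChartedSpace V X]

/-- For some `c > 0` the form `σ - c τ` is weakly taming at all points outside `F` of a
neighbourhood of `x`. -/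
def DomNear (σ τ : Form V X 2) (J : End V X) (F : Set X) (x : X) : Prop :=
  ∃ c : ℝ, 0 < c ∧ ∀ᶠ y in 𝓝 x, y ∉ F → ∀ v : TangentSpace 𝓘(ℝ, V) y,
    c * qd τ J y v ≤ qd σ J y v

/-- The exceptional set: the points near which `σ` does not dominate a positive multiple of `τ`
off `F`, and the points of `F` at which `σ₀` does not tame `J`. -/
def Exc2 (σ₀ σ τ : Form V X 2) (J : End V X) (F : Set X) : Set X :=
  {x | ¬ DomNear σ τ J F x} ∪ {x | x ∈ F ∧ ¬ TamesAt σ₀ J x}

/-- the number `(du ∧ β)(v, J v)` -/
def wedgeJ (u : X → ℝ) (β : Form V X 1) (J : End V X) (x : X) (v : TangentSpace 𝓘(ℝ, V) x) :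
    ℝ :=
  dd u x v * β x ![J x v] - dd u x (J x v) * β x ![v]

end

end Pool.Agent.V8H58.BF
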