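import Pool.Agent.V8H58.BF.GlueB
import Pool.Agent.V8H58.BF.PubF
import Pool.Agent.Y501.SY.BridgeV
import Pool.Agent.Y501.SY.FinalT

/-!
Gluing along a closed set by means of a function tending to `-∞`: comparison of the definitions.
-/

set_option autoImplicit false

open Set Filter Topology MeasureTheory
open scoped Manifold ContDiff

noncomputable section

namespace Pool.Agent.V8H58.BF

open Pool.Agent.Y501.SYP

attribute [local instance] cs mf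

section

variable {d : ℕ} {X : Type} [TopologicalSpace X] [ChartedSpace (ES d) X]
  [IsManifold 𝓘(ℝ, ES d) ∞ X]

theorem polarClass [CompactSpace X] [T2Space X]
    (hd : 1 ≤ d) (J : End (ES d) X) (hJ : IsAlmostComplex J)
    (τ : Form (ES d) X 2) (hτs : IsSmooth τ) (hτ : ∀ x, TamesAt τ J x)
    (F : Set X) (hF : IsClosed F)
    (σ₀ : Form (ES d) X 2) (hσ₀ : IsSmooth σ₀) (hσ₀c : IsClosedForm σ₀)
    (β : Form (ES d) X 1) (σ : Form (ES d) X 2) (hβ : SmoothOff β F) (hσ : SmoothOff σ F)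
    (hβσ : EqPlusD σ σ₀ β F)
    (hpos₀ : ∀ x ∈ F, ∀ v : TangentSpace 𝓘(ℝ, ES d) x, 0 ≤ qd σ₀ J x v)
    (hpos : ∀ x, x ∉ F → ∀ v : TangentSpace 𝓘(ℝ, ES d) x, 0 ≤ qd σ J x v)
    (u : X → ℝ) (hu : ContMDiffOn 𝓘(ℝ, ES d) 𝓘(ℝ, ℝ) ∞ u Fᶜ)
    (hlim : ∀ x ∈ F, ∀ B : ℝ, ∀ᶠ y in 𝓝 x, y ∉ F → u y < B) (C : ℝ)
    (hwedge : ∀ x ∈ F, ∀ᶠ y in 𝓝 x, y ∉ F → ∀ v : TangentSpace 𝓘(ℝ, ES d) y,
      -(C * qd τ J y v) ≤ wedgeJ u β J y v)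
    (hsmall : ∀ z ∈ Exc2 σ₀ σ τ J F,
      SmallAll J (connectedComponentIn (Exc2 σ₀ σ τ J F) z) z) :
    ∃ (α : Form (ES d) X 1) (ρ : Form (ES d) X 2), IsSmooth α ∧ IsSmooth ρ ∧ IsD α ρ ∧
      IsTamingSymplectic (addF σ₀ ρ) J ∧ ∀ τ' : Form (ES d) X 2, (∀ x, TamesAt τ' J x) →
        ∀ t : ℝ, 0 ≤ t → t ≤ 1 → NondegForm (segment τ' (addF σ₀ ρ) t) := by
  obtain ⟨α, ρ, h1, h2, h3, h5⟩ := glueF (d := d) (X := X) hd (J := J) (ac_of J hJ)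
    (τ := τ) ((smooth_iff τ).1 hτs) hτ (F := F) hF (σ₀ := σ₀) ((smooth_iff σ₀).1 hσ₀)
    (β := β) (σ := σ)
    (fun V φ hV hφ hp => hβ V φ ⟨hV, hφ⟩ hp)
    (fun V φ hV hφ hp => hσ V φ ⟨hV, hφ⟩ hp)
    (fun V φ hV hφ hp p hpV => by
      exact (sub_eq_iff_eq_add'.2 (hβσ V φ ⟨hV, hφ⟩ hp p hpV)).symm)
    hpos₀ hpos (u := u) hu hlim (C := C) hwedge (Exc2 σ₀ σ τ J F) rfl
    (fun z hz => smallAll_of hJ (hsmall z hz))
  have h4 : Pool.Agent.Y501.SY.IsClosedForm (d := d) (X := X) (addF σ₀ ρ) := by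
    have h6 := ((closed_iff σ₀).1 hσ₀c).add (Pool.Agent.Y501.SY.closed_of_isD h1 h2 h3)
      ((smooth_iff σ₀).1 hσ₀) h2
    rwa [add_zero] at h6
  have h6 : IsTamingSymplectic (addF σ₀ ρ) J :=
    symp_of ((smooth_iff _).2 (((smooth_iff σ₀).1 hσ₀).add h2)) ((closed_iff _).2 h4) h5
  exact ⟨α, ρ, (smooth_iff α).2 h1, (smooth_iff ρ).2 h2, (isD_iff α ρ).2 h3, h6,
    fun τ hτ t ht0 ht1 => segment_nondeg hτ h6.tames t ht0 ht1⟩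

end

end Pool.Agent.V8H58.BF
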