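import Pool.Agent.Y501.SY.PubV

/-!
Several forms on the members of an open cover: the definitions used in the statement.
-/

set_option autoImplicit false

open Set Filter Topology MeasureTheory
open scoped Manifold ContDiff

noncomputable section

namespace Pool.Agent.V8H58.BF

open Pool.Agent.Y501.SYP

section

variable {V : Type} [NormedAddCommGroup V] [NormedSpace ℝ V]
  {X : Type} [TopologicalSpace X] [ChartedSpace V X]

/-- the number `(d(u - u') ∧ (β - β'))(v, J v)` -/
def wedgeDiff (u u' : X → ℝ) (β β' : Form V X 1) (J : End V X) (x : X)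
    (v : TangentSpace 𝓘(ℝ, V) x) : ℝ :=
  (dd u x v - dd u' x v) * (β x ![J x v] - β' x ![J x v]) -
    (dd u x (J x v) - dd u' x (J x v)) * (β x ![v] - β' x ![v])

/-- The points with a nonzero tangent vector `v` such that `σ i (v, J v) = 0` for every `i` for
which the point lies outside `F i`. -/
def CommonNull {m : ℕ} (σ : Fin m → Form V X 2) (J : End V X) (F : Fin m → Set X) : Set X :=
  {x | ∃ v : TangentSpace 𝓘(ℝ, V) x, v ≠ 0 ∧ ∀ i, x ∉ F i → qd (σ i) J x v = 0}

end

end Pool.Agent.V8H58.BF
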