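import Pool.Agent.V8H58.BF.RgD
import Pool.Agent.V8H58.BF.PubR
import Pool.Agent.Y501.SY.BridgeV
import Pool.Agent.Y501.SY.FinalT

/-!
Gluing by the regularized maximum: comparison of the definitions.
-/

set_option autoImplicit false

open Set Filter Topology MeasureTheory
open scoped Manifold ContDiff

noncomputable section

namespace Pool.Agent.V8H58.BF

open Pool.Agent.Y501.SYP

attribute [local instance] cs mf

section

variable {d : ℕ} {X : Type} [TopologicalSpace X] [ChartedSpace (ES d) X]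
  [IsManifold 𝓘(ℝ, ES d) ∞ X]

theorem maxClass [CompactSpace X] [T2Space X]
    (hd : 1 ≤ d) (J : End (ES d) X) (hJ : IsAlmostComplex J)
    (τ : Form (ES d) X 2) (hτs : IsSmooth τ) (hτ : ∀ x, TamesAt τ J x)
    (m : ℕ) (F : Fin m → Set X) (hF : ∀ i, IsClosed (F i)) (hFe : ⋂ i, F i = ∅)
    (σ₀ : Form (ES d) X 2) (hσ₀ : IsSmooth σ₀) (hσ₀c : IsClosedForm σ₀)
    (β : Fin m → Form (ES d) X 1) (σ : Fin m → Form (ES d) X 2)
    (hβ : ∀ i, SmoothOff (β i) (F i)) (hσ : ∀ i, SmoothOff (σ i) (F i))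
    (hβσ : ∀ i, EqPlusD (σ i) σ₀ (β i) (F i))
    (hpos : ∀ i x, x ∉ F i → ∀ v : TangentSpace 𝓘(ℝ, ES d) x, 0 ≤ qd (σ i) J x v)
    (u : Fin m → X → ℝ) (hu : ∀ i, ContMDiffOn 𝓘(ℝ, ES d) 𝓘(ℝ, ℝ) ∞ (u i) (F i)ᶜ)
    (hlim : ∀ i, ∀ x ∈ F i, ∀ B : ℝ, ∀ᶠ y in 𝓝 x, y ∉ F i → u i y < B) (C : ℝ)
    (hwedge : ∀ i j, i < j → ∀ x, x ∉ F i → x ∉ F j → ∀ v : TangentSpace 𝓘(ℝ, ES d) x,
      -(C * qd τ J x v) ≤ wedgeDiff (u i) (u j) (β i) (β j) J x v)
    (hsmall : ∀ z ∈ CommonNull σ J F,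
      SmallAll J (connectedComponentIn (CommonNull σ J F) z) z) :
    ∃ (α : Form (ES d) X 1) (ρ : Form (ES d) X 2), IsSmooth α ∧ IsSmooth ρ ∧ IsD α ρ ∧
      IsTamingSymplectic (addF σ₀ ρ) J ∧ ∀ τ' : Form (ES d) X 2, (∀ x, TamesAt τ' J x) →
        ∀ t : ℝ, 0 ≤ t → t ≤ 1 → NondegForm (segment τ' (addF σ₀ ρ) t) := by
  obtain ⟨α, ρ, h1, h2, h3, h5⟩ := glueM (d := d) (X := X) hd (J := J) (ac_of J hJ)
    (τ := τ) ((smooth_iff τ).1 hτs) hτ (F := F) hF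
    (fun x => by
      by_contra hcon
      push Not at hcon
      have h1 : x ∈ ⋂ i, F i := mem_iInter.2 hcon
      rw [hFe] at h1
      exact h1)
    (σ₀ := σ₀) ((smooth_iff σ₀).1 hσ₀)
    (β := β) (σ := σ)
    (fun i V φ hV hφ hp => hβ i V φ ⟨hV, hφ⟩ hp)
    (fun i V φ hV hφ hp => hσ i V φ ⟨hV, hφ⟩ hp)
    (fun i V φ hV hφ hp p hpV => by
      exact (sub_eq_iff_eq_add'.2 (hβσ i V φ ⟨hV, hφ⟩ hp p hpV)).symm)
    hpos (u := u) hu hlim (C := C)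
    (fun i j hij x hi hj v => by
      rcases lt_or_gt_of_ne hij with h | h
      · exact hwedge i j h x hi hj v
      · refine (hwedge j i h x hj hi v).trans (le_of_eq ?_)
        change (dd (u j) x v - dd (u i) x v) * (β j x ![J x v] - β i x ![J x v]) -
          (dd (u j) x (J x v) - dd (u i) x (J x v)) * (β j x ![v] - β i x ![v]) =
          (dd (u i) x v - dd (u j) x v) * (β i x ![J x v] - β j x ![J x v]) -
          (dd (u i) x (J x v) - dd (u j) x (J x v)) * (β i x ![v] - β j x ![v])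
        ring)
    (CommonNull σ J F) rfl
    (fun z hz => smallAll_of hJ (hsmall z hz))
  have h4 : Pool.Agent.Y501.SY.IsClosedForm (d := d) (X := X) (addF σ₀ ρ) := by
    have h6 := ((closed_iff σ₀).1 hσ₀c).add (Pool.Agent.Y501.SY.closed_of_isD h1 h2 h3)
      ((smooth_iff σ₀).1 hσ₀) h2
    rwa [add_zero] at h6
  have h6 : IsTamingSymplectic (addF σ₀ ρ) J :=
    symp_of ((smooth_iff _).2 (((smooth_iff σ₀).1 hσ₀).add h2)) ((closed_iff _).2 h4) h5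
  exact ⟨α, ρ, (smooth_iff α).2 h1, (smooth_iff ρ).2 h2, (isD_iff α ρ).2 h3, h6,
    fun τ hτ t ht0 ht1 => segment_nondeg hτ h6.tames t ht0 ht1⟩

end

end Pool.Agent.V8H58.BF
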