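import Pool.Agent.Y501.SY.MainP
import Pool.Agent.Y658.SY.Prod

/-!
Gluing two primitives along the zero set of a function, with a logarithmic cut-off.
-/

set_option autoImplicit false

open Set Filter Topology MeasureTheory
open scoped Manifold ContDiff

noncomputable section

namespace Pool.Agent.V8H58.BF

open Pool.Agent.Y501.SY

/-- the logarithmic cut-off -/
theorem log_cut {ε δ : ℝ} (hε : 0 < ε) (hδ : 0 < δ) : ∃ θ : ℝ → ℝ, ContDiff ℝ ∞ θ ∧
    (∀ t, 0 ≤ θ t) ∧ (∀ t, θ t ≤ 1) ∧ (∀ t ≤ 0, θ t = 0) ∧ (∀ t, ε ≤ t → θ t = 1) ∧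
    (∀ t, 0 ≤ deriv θ t) ∧ (∀ t, t * deriv θ t ≤ δ) ∧ (∀ t, θ t = 0 → deriv θ t = 0) ∧
    (∀ t, θ t = 1 → deriv θ t = 0) := by
  set S : ℝ → ℝ := Real.smoothTransition with hS
  have hSc : ContDiff ℝ ∞ S := Real.smoothTransition.contDiff
  -- a bound for the derivative
  obtain ⟨M, hM⟩ : ∃ M, ∀ u ∈ Icc (0 : ℝ) 1, ‖deriv S u‖ ≤ M :=
    isCompact_Icc.exists_bound_of_continuousOn
      ((hSc.continuous_deriv (by simp)).continuousOn)
  have hM0 : 0 ≤ M := (norm_nonneg _).trans (hM 0 (by simp))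
  have hmin : ∀ (f : ℝ → ℝ) (u : ℝ), (∀ t, f u ≤ f t) → deriv f u = 0 := by
    intro f u h
    exact IsLocalMin.deriv_eq_zero (Eventually.of_forall h)
  have hmax : ∀ (f : ℝ → ℝ) (u : ℝ), (∀ t, f t ≤ f u) → deriv f u = 0 := by
    intro f u h
    exact IsLocalMax.deriv_eq_zero (Eventually.of_forall h)
  have hSb : ∀ u, deriv S u ≤ M := by
    intro u
    by_cases h0 : u < 0
    · have h1 : deriv S u = 0 := hmin S u fun t => by
        rw [hS, Real.smoothTransition.zero_of_nonpos h0.le]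
        exact Real.smoothTransition.nonneg t
      rw [h1]
      exact hM0
    · by_cases h1 : 1 < u
      · have h2 : deriv S u = 0 := hmax S u fun t => by
          rw [hS, Real.smoothTransition.one_of_one_le h1.le]
          exact Real.smoothTransition.le_one t
        rw [h2]
        exact hM0
      · rw [not_lt] at h0 h1
        exact (le_abs_self _).trans (hM u ⟨h0, h1⟩)
  have hS0 : ∀ u, 0 ≤ deriv S u := fun u => Real.smoothTransition.monotone.deriv_nonneg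
  set κ : ℝ := δ / (M + 1) with hκ
  have hκ0 : 0 < κ := by positivity
  have hκM : κ * M ≤ δ := by
    rw [hκ, div_mul_eq_mul_div, div_le_iff₀ (by positivity)]
    nlinarith
  set θ : ℝ → ℝ := fun t => if t ≤ 0 then 0 else S (1 + κ * Real.log (t / ε)) with hθ
  have hθpos : ∀ t, 0 < t → θ =ᶠ[𝓝 t] fun t => S (1 + κ * Real.log (t / ε)) := by
    intro t ht
    filter_upwards [lt_mem_nhds ht] with s hs
    rw [hθ]
    simp only
    rw [if_neg (not_le.2 hs)]
  -- the small values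
  set a : ℝ := ε * Real.exp (-(1 / κ)) with ha
  have ha0 : 0 < a := by positivity
  have hθa : ∀ t, t < a → θ t = 0 := by
    intro t ht
    rw [hθ]
    simp only
    split_ifs with h
    · rfl
    · rw [not_le] at h
      rw [hS]
      apply Real.smoothTransition.zero_of_nonpos
      have h1 : Real.log (t / ε) ≤ -(1 / κ) := by
        rw [Real.log_le_iff_le_exp (by positivity), div_le_iff₀ hε]
        have := ht.le
        rw [ha] at this
        linarith
      have h2 := mul_le_mul_of_nonneg_left h1 hκ0.le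
      have h3 : κ * -(1 / κ) = -1 := by field_simp
      linarith
  have hlog : ∀ t, 0 < t → HasDerivAt (fun t => 1 + κ * Real.log (t / ε)) (κ / t) t := by
    intro t ht
    have h1 : HasDerivAt (fun t : ℝ => t / ε) (1 / ε) t := (hasDerivAt_id t).div_const ε
    have h2 := h1.log (by positivity)
    have h3 := (h2.const_mul κ).const_add 1
    have h4 : κ * (1 / ε / (t / ε)) = κ / t := by
      rw [div_div_div_cancel_right₀ hε.ne', mul_one_div]
    rw [h4] at h3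
    exact h3
  have hθc : ContDiff ℝ ∞ θ := by
    rw [contDiff_iff_contDiffAt]
    intro t
    by_cases ht : 0 < t
    · have h1 : ContDiffAt ℝ ∞ (fun t => S (1 + κ * Real.log (t / ε))) t := by
        refine hSc.contDiffAt.comp t ?_
        refine contDiffAt_const.add (contDiffAt_const.mul ?_)
        exact (contDiffAt_id.div_const ε).log (by
          have : 0 < t / ε := by positivity
          exact this.ne')
      exact h1.congr_of_eventuallyEq (hθpos t ht)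
    · rw [not_lt] at ht
      have h1 : θ =ᶠ[𝓝 t] fun _ => 0 := by
        filter_upwards [gt_mem_nhds (lt_of_le_of_lt ht ha0)] with s hs
        exact hθa s hs
      exact contDiffAt_const.congr_of_eventuallyEq h1
  have hθ0 : ∀ t, 0 ≤ θ t := by
    intro t
    rw [hθ]
    simp only
    split_ifs
    · exact le_rfl
    · exact Real.smoothTransition.nonneg _
  have hθ1 : ∀ t, θ t ≤ 1 := by
    intro t
    rw [hθ]
    simp only
    split_ifs
    · exact zero_le_one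
    · exact Real.smoothTransition.le_one _
  have hθn : ∀ t ≤ 0, θ t = 0 := fun t ht => by
    rw [hθ]
    simp only
    rw [if_pos ht]
  have hder : ∀ t, 0 < t → deriv θ t = deriv S (1 + κ * Real.log (t / ε)) * (κ / t) := by
    intro t ht
    rw [(hθpos t ht).deriv_eq]
    have h1 : HasDerivAt S (deriv S (1 + κ * Real.log (t / ε))) (1 + κ * Real.log (t / ε)) :=
      ((hSc.differentiable (by simp)) _).hasDerivAt
    exact (h1.comp t (hlog t ht)).deriv
  have hz : ∀ t, θ t = 0 → deriv θ t = 0 := fun t ht => hmin θ t fun s => by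
    rw [ht]
    exact hθ0 s
  refine ⟨θ, hθc, hθ0, hθ1, hθn, ?_, ?_, ?_, hz, ?_⟩
  · intro t ht
    rw [hθ]
    simp only
    rw [if_neg (not_le.2 (hε.trans_le ht)), hS]
    apply Real.smoothTransition.one_of_one_le
    have h1 : 0 ≤ Real.log (t / ε) := Real.log_nonneg (by
      rw [le_div_iff₀ hε]
      linarith)
    nlinarith
  · intro t
    by_cases ht : 0 < t
    · rw [hder t ht]
      exact mul_nonneg (hS0 _) (by positivity)
    · rw [hz t (hθn t (not_lt.1 ht))]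
  · intro t
    by_cases ht : 0 < t
    · rw [hder t ht]
      have h1 := hSb (1 + κ * Real.log (t / ε))
      calc t * (deriv S (1 + κ * Real.log (t / ε)) * (κ / t))
          = κ * deriv S (1 + κ * Real.log (t / ε)) := by field_simp
        _ ≤ κ * M := mul_le_mul_of_nonneg_left h1 hκ0.le
        _ ≤ δ := hκM
    · rw [hz t (hθn t (not_lt.1 ht)), mul_zero]
      exact hδ.le
  · exact fun t ht => hmax θ t fun s => by
      rw [ht]
      exact hθ1 s

section

variable {d : ℕ} {X : Type} [TopologicalSpace X] [ChartedSpace (E d) X]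
  [IsManifold (𝓡 d) ∞ X]

/-- stability of taming -/
theorem tames_pert {J : End d X} (hJ : IsAlmostComplex J) {σ η : Form d X 2} (hσ : IsSmooth σ)
    (hη : IsSmooth η) {x : X} (h : TamesAt σ J x) :
    ∃ ε : ℝ, 0 < ε ∧ ∀ᶠ y in 𝓝 x, ∀ t : ℝ, |t| ≤ ε → TamesAt (σ + t • η) J y := by
  obtain ⟨ε, hε, hp⟩ := Pool.Agent.Y455.SY.t_PERT d X J hJ (Fin 1) σ (fun _ => η) hσ
    (fun _ => hη) x h
  refine ⟨ε, hε, ?_⟩
  filter_upwards [hp] with y hy t ht
  have h1 := hy (fun _ => t) (fun _ => ht)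
  simpa using h1

theorem glueG (hd : 1 ≤ d) [CompactSpace X] [T2Space X] {J : End d X} (hJ : IsAlmostComplex J)
    {τ : Form d X 2} (hτs : IsSmooth τ) (hτ : ∀ x, TamesAt τ J x)
    {σ₀ : Form d X 2} (hσ₀ : IsSmooth σ₀)
    {β₁ β₀ : Form d X 1} {ρ₁ ρ₀ : Form d X 2} (hβ₁ : IsSmooth β₁) (hρ₁ : IsSmooth ρ₁)
    (hD₁ : IsD β₁ ρ₁) (hβ₀ : IsSmooth β₀) (hρ₀ : IsSmooth ρ₀) (hD₀ : IsD β₀ ρ₀)
    {h : X → ℝ} (hh : SmoothFun (d := d) h) {C c : ℝ} (hc : 0 < c)
    (hjump : ∀ x, 0 < h x → h x < c → ∀ v : TangentSpace (𝓡 d) x,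
      -(C * h x * τ x ![v, J x v]) ≤ dd h x v * (β₁ x ![J x v] - β₀ x ![J x v]) -
        dd h x (J x v) * (β₁ x ![v] - β₀ x ![v]))
    (hpos₁ : ∀ x, 0 ≤ h x → ∀ v : TangentSpace (𝓡 d) x, 0 ≤ (σ₀ + ρ₁) x ![v, J x v])
    (hpos₀ : ∀ x, h x ≤ 0 → ∀ v : TangentSpace (𝓡 d) x, 0 ≤ (σ₀ + ρ₀) x ![v, J x v])
    (S : Set X) (hS : S = {x | (0 ≤ h x ∧ ¬ TamesAt (σ₀ + ρ₁) J x) ∨
      (h x ≤ 0 ∧ ¬ TamesAt (σ₀ + ρ₀) J x)})
    (hthin : ∀ z ∈ S, ThinAt2 0 0 J (connectedComponentIn S z) z) :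
    ∃ (α : Form d X 1) (ρ : Form d X 2), IsSmooth α ∧ IsSmooth ρ ∧ IsD α ρ ∧
      ∀ x, TamesAt (σ₀ + ρ) J x := by
  classical
  have hs₁ : IsSmooth (σ₀ + ρ₁) := hσ₀.add hρ₁
  have hs₀ : IsSmooth (σ₀ + ρ₀) := hσ₀.add hρ₀
  have hhc : Continuous h := hh.continuous
  have hP := Pool.Agent.Y455.SY.t_PERT
  -- the exceptional set is closed
  have hScl : IsClosed S := by
    have h1 : IsOpen {x | TamesAt (σ₀ + ρ₁) J x} := by
      rw [isOpen_iff_eventually]
      exact fun x hx => TamesAt.nhds hP hJ hs₁ hx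
    have h0 : IsOpen {x | TamesAt (σ₀ + ρ₀) J x} := by
      rw [isOpen_iff_eventually]
      exact fun x hx => TamesAt.nhds hP hJ hs₀ hx
    have e : S = ({x | 0 ≤ h x} ∩ {x | TamesAt (σ₀ + ρ₁) J x}ᶜ) ∪
        ({x | h x ≤ 0} ∩ {x | TamesAt (σ₀ + ρ₀) J x}ᶜ) := hS
    rw [e]
    exact ((isClosed_le continuous_const hhc).inter h1.isClosed_compl).union
      ((isClosed_le hhc continuous_const).inter h0.isClosed_compl)
  have hne : ∃ v : E d, v ≠ 0 := by
    have : Nontrivial (E d) := by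
      have : Nonempty (Fin d) := ⟨⟨0, hd⟩⟩
      infer_instance
    exact exists_ne 0
  have hD2 : D2 (0 : Form d X 2) 0 J S = S := by
    apply Subset.antisymm
    · exact fun x hx => hx.1
    · intro x hx
      obtain ⟨v, hv⟩ := hne
      exact ⟨hx, v, hv, rfl, rfl⟩
  obtain ⟨α₁, η, hpair, hη⟩ := level2 Pool.Agent.Y484.SY.t_GEN Pool.Agent.Y108.SY.t_PERT2
    Pool.Agent.Y925.SY.t_PLANAR hJ (σ := 0) (θ := 0) IsSmooth.zero IsSmooth.zero hScl (by
      rw [hD2]
      exact hthin)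
  obtain ⟨hα₁, hηs, hαη, hηc⟩ := hpair.props Pool.Agent.Y484.SY.t_GEN
  -- the multiple of the exact form
  obtain ⟨s, hs, hst⟩ := unif (isCompact_univ (X := X))
    (fun (ε : ℝ) (y : X) => ∀ s : ℝ, 0 < s → s ≤ ε →
      (0 ≤ h y → TamesAt (σ₀ + ρ₁ + s • η) J y) ∧ (h y ≤ 0 → TamesAt (σ₀ + ρ₀ + s • η) J y))
    (fun ε ε' y hle hp s hs hsε => hp s hs (hsε.trans hle))
    (fun x _ => by
      by_cases hxS : x ∈ S
      · have h1 : TamesAt η J x := fun v hv => hη x hxS v hv rfl rfl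
        refine ⟨1, one_pos, ?_⟩
        filter_upwards [TamesAt.nhds hP hJ hηs h1] with y hy s hs _
        refine ⟨fun hy0 v hv => ?_, fun hy0 v hv => ?_⟩
        · have h2 := hpos₁ y hy0 v
          have h3 := mul_pos hs (hy v hv)
          change 0 < (σ₀ + ρ₁) y ![v, J y v] + s * η y ![v, J y v]
          linarith
        · have h2 := hpos₀ y hy0 v
          have h3 := mul_pos hs (hy v hv)
          change 0 < (σ₀ + ρ₀) y ![v, J y v] + s * η y ![v, J y v]
          linarith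
      · rw [hS] at hxS
        have hx1 : 0 ≤ h x → TamesAt (σ₀ + ρ₁) J x := fun h1 => by
          by_contra h2
          exact hxS (Or.inl ⟨h1, h2⟩)
        have hx0 : h x ≤ 0 → TamesAt (σ₀ + ρ₀) J x := fun h1 => by
          by_contra h2
          exact hxS (Or.inr ⟨h1, h2⟩)
        have k1 : ∃ ε : ℝ, 0 < ε ∧ ∀ᶠ y in 𝓝 x, ∀ s : ℝ, 0 < s → s ≤ ε →
            0 ≤ h y → TamesAt (σ₀ + ρ₁ + s • η) J y := by
          by_cases h1 : 0 ≤ h x
          · obtain ⟨ε, hε, h2⟩ := tames_pert hJ hs₁ hηs (hx1 h1)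
            refine ⟨ε, hε, ?_⟩
            filter_upwards [h2] with y hy s hs hsε _
            exact hy s (by rw [abs_of_pos hs]; exact hsε)
          · rw [not_le] at h1
            refine ⟨1, one_pos, ?_⟩
            filter_upwards [(hhc.tendsto x).eventually_lt_const h1] with y hy s _ _ hy0
            exact absurd hy (not_lt.2 hy0)
        have k0 : ∃ ε : ℝ, 0 < ε ∧ ∀ᶠ y in 𝓝 x, ∀ s : ℝ, 0 < s → s ≤ ε →
            h y ≤ 0 → TamesAt (σ₀ + ρ₀ + s • η) J y := by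
          by_cases h1 : h x ≤ 0
          · obtain ⟨ε, hε, h2⟩ := tames_pert hJ hs₀ hηs (hx0 h1)
            refine ⟨ε, hε, ?_⟩
            filter_upwards [h2] with y hy s hs hsε _
            exact hy s (by rw [abs_of_pos hs]; exact hsε)
          · rw [not_le] at h1
            refine ⟨1, one_pos, ?_⟩
            filter_upwards [(hhc.tendsto x).eventually_const_lt h1] with y hy s _ _ hy0
            exact absurd hy (not_lt.2 hy0)
        obtain ⟨ε₁, hε₁, h1⟩ := k1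
        obtain ⟨ε₀, hε₀, h0⟩ := k0
        refine ⟨min ε₁ ε₀, lt_min hε₁ hε₀, ?_⟩
        filter_upwards [h1, h0] with y hy1 hy0 s hs hsε
        exact ⟨hy1 s hs (hsε.trans (min_le_left _ _)), hy0 s hs (hsε.trans (min_le_right _ _))⟩)
  have ht₁ : ∀ y, 0 ≤ h y → TamesAt (σ₀ + ρ₁ + s • η) J y := fun y =>
    (hst y (mem_univ y) s hs le_rfl).1
  have ht₀ : ∀ y, h y ≤ 0 → TamesAt (σ₀ + ρ₀ + s • η) J y := fun y =>
    (hst y (mem_univ y) s hs le_rfl).2
  have hsm₁ : IsSmooth (σ₀ + ρ₁ + s • η) := hs₁.add (hηs.smul s)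
  have hsm₀ : IsSmooth (σ₀ + ρ₀ + s • η) := hs₀.add (hηs.smul s)
  -- uniform taming near the zero set
  obtain ⟨ε, hε, hεt⟩ := unif (isCompact_univ (X := X))
    (fun (ε : ℝ) (y : X) => 0 ≤ h y → h y ≤ ε → ∀ v : TangentSpace (𝓡 d) y,
      ε * τ y ![v, J y v] ≤ (σ₀ + ρ₁ + s • η) y ![v, J y v] ∧
      ε * τ y ![v, J y v] ≤ (σ₀ + ρ₀ + s • η) y ![v, J y v])
    (fun ε ε' y hle hp hy0 hyε v => by
      have hτ0 : 0 ≤ τ y ![v, J y v] := by
        by_cases hv : v = 0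
        · have h1 : τ y ![v, J y v] = 0 :=
            (τ y).toAlternatingMap.map_coord_zero 0 (by rw [hv]; rfl)
          rw [h1]
        · exact (hτ y v hv).le
      have h1 := hp hy0 (hyε.trans hle) v
      have h2 := mul_le_mul_of_nonneg_right hle hτ0
      exact ⟨h2.trans h1.1, h2.trans h1.2⟩)
    (fun x _ => by
      rcases lt_trichotomy (h x) 0 with hx | hx | hx
      · refine ⟨1, one_pos, ?_⟩
        filter_upwards [(hhc.tendsto x).eventually_lt_const hx] with y hy hy0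
        exact absurd hy (not_lt.2 hy0)
      · obtain ⟨ε₁, hε₁, h1⟩ := tames_pert hJ hsm₁ hτs (ht₁ x hx.ge)
        obtain ⟨ε₀, hε₀, h0⟩ := tames_pert hJ hsm₀ hτs (ht₀ x hx.le)
        refine ⟨min ε₁ ε₀, lt_min hε₁ hε₀, ?_⟩
        filter_upwards [h1, h0] with y hy1 hy0 _ _ v
        have hm : 0 < min ε₁ ε₀ := lt_min hε₁ hε₀
        by_cases hv : v = 0
        · have hz : ∀ ω' : Form d X 2, ω' y ![v, J y v] = 0 := fun ω' =>
            (ω' y).toAlternatingMap.map_coord_zero 0 (by rw [hv]; rfl)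
          rw [hz τ, hz, hz, mul_zero]
          exact ⟨le_rfl, le_rfl⟩
        · have n1 := hy1 (-(min ε₁ ε₀)) (by
            rw [abs_neg, abs_of_pos hm]; exact min_le_left _ _) v hv
          have n0 := hy0 (-(min ε₁ ε₀)) (by
            rw [abs_neg, abs_of_pos hm]; exact min_le_right _ _) v hv
          change 0 < (σ₀ + ρ₁ + s • η) y ![v, J y v] + -(min ε₁ ε₀) * τ y ![v, J y v] at n1
          change 0 < (σ₀ + ρ₀ + s • η) y ![v, J y v] + -(min ε₁ ε₀) * τ y ![v, J y v] at n0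
          constructor <;> linarith
      · refine ⟨h x / 2, by linarith, ?_⟩
        filter_upwards [(hhc.tendsto x).eventually_const_lt (half_lt_self hx)] with y hy _ hy1
        exact absurd hy (not_lt.2 hy1))
  -- the cut-off
  obtain ⟨b, hb⟩ : ∃ b, b = min ε (c / 2) := ⟨_, rfl⟩
  have hb0 : 0 < b := by rw [hb]; exact lt_min hε (by linarith)
  have hbε : b ≤ ε := by rw [hb]; exact min_le_left _ _
  have hbc : b < c := by
    have : b ≤ c / 2 := by rw [hb]; exact min_le_right _ _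
    linarith
  obtain ⟨δ, hδ⟩ : ∃ δ, δ = ε / (2 * (|C| + 1)) := ⟨_, rfl⟩
  have hδ0 : 0 < δ := by rw [hδ]; positivity
  have hCδ : |C| * δ ≤ ε / 2 := by
    rw [hδ, mul_div_assoc', div_le_div_iff₀ (by positivity) two_pos]
    nlinarith [abs_nonneg C]
  obtain ⟨θ, hθc, hθ0, hθ1, hθn, hθb, hθd, hθδ, hθz, hθo⟩ := log_cut hb0 hδ0
  have hu : SmoothFun (d := d) (fun x => θ (h x)) := hh.comp1 hθc
  have hDd : IsD (β₁ + (-1 : ℝ) • β₀) (ρ₁ + (-1 : ℝ) • ρ₀) :=
    hD₁.add (hD₀.smul (-1)) hβ₁ (hβ₀.smul (-1))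
  obtain ⟨q1, q2, q3, -, q5⟩ := Pool.Agent.Y658.SY.t_PROD d X (fun x => θ (h x))
    (β₁ + (-1 : ℝ) • β₀) (ρ₁ + (-1 : ℝ) • ρ₀) hu (hβ₁.add (hβ₀.smul (-1)))
    (hρ₁.add (hρ₀.smul (-1))) hDd
  refine ⟨β₀ + s • α₁ + (fun x => θ (h x) • (β₁ + (-1 : ℝ) • β₀) x : Form d X 1),
    ρ₀ + s • η + prodD (fun x => θ (h x)) (β₁ + (-1 : ℝ) • β₀) (ρ₁ + (-1 : ℝ) • ρ₀),
    (hβ₀.add (hα₁.smul s)).add q1, (hρ₀.add (hηs.smul s)).add q2, ?_, ?_⟩
  · exact (hD₀.add (hαη.smul s) hβ₀ (hα₁.smul s)).add q3 (hβ₀.add (hα₁.smul s)) q1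
  intro x v hv
  have hval : (σ₀ + (ρ₀ + s • η + prodD (fun x => θ (h x)) (β₁ + (-1 : ℝ) • β₀)
      (ρ₁ + (-1 : ℝ) • ρ₀))) x ![v, J x v] =
      (1 - θ (h x)) * (σ₀ + ρ₀ + s • η) x ![v, J x v] +
      θ (h x) * (σ₀ + ρ₁ + s • η) x ![v, J x v] +
      deriv θ (h x) * (dd h x v * (β₁ x ![J x v] - β₀ x ![J x v]) -
        dd h x (J x v) * (β₁ x ![v] - β₀ x ![v])) := by
    have e0 := q5 x v (J x v)
    rw [dd_comp1 hθc hh, dd_comp1 hθc hh] at e0
    change σ₀ x ![v, J x v] + ((ρ₀ x ![v, J x v] + s * η x ![v, J x v]) +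
      prodD (fun x => θ (h x)) (β₁ + (-1 : ℝ) • β₀) (ρ₁ + (-1 : ℝ) • ρ₀) x ![v, J x v]) = _
    rw [e0]
    change σ₀ x ![v, J x v] + ((ρ₀ x ![v, J x v] + s * η x ![v, J x v]) +
      (deriv θ (h x) * dd h x v * (β₁ x ![J x v] + (-1) * β₀ x ![J x v]) -
        deriv θ (h x) * dd h x (J x v) * (β₁ x ![v] + (-1) * β₀ x ![v]) +
        θ (h x) * (ρ₁ x ![v, J x v] + (-1) * ρ₀ x ![v, J x v]))) =
      (1 - θ (h x)) * (σ₀ x ![v, J x v] + ρ₀ x ![v, J x v] + s * η x ![v, J x v]) +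
      θ (h x) * (σ₀ x ![v, J x v] + ρ₁ x ![v, J x v] + s * η x ![v, J x v]) + _
    ring
  rw [hval]
  by_cases hx0 : h x ≤ 0
  · have e0 := hθn _ hx0
    rw [hθz _ e0, e0]
    have := ht₀ x hx0 v hv
    linarith
  rw [not_le] at hx0
  by_cases hxb : b ≤ h x
  · have e1 := hθb _ hxb
    rw [hθo _ e1, e1]
    have := ht₁ x hx0.le v hv
    linarith
  rw [not_le] at hxb
  have hτp : 0 < τ x ![v, J x v] := hτ x v hv
  obtain ⟨m1, m0⟩ := hεt x (mem_univ x) hx0.le (hxb.le.trans hbε) v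
  have m2 := hjump x hx0 (hxb.trans hbc) v
  have m3 := mul_le_mul_of_nonneg_left m2 (hθd (h x))
  have m4 : -(ε / 2 * τ x ![v, J x v]) ≤ deriv θ (h x) * -(C * h x * τ x ![v, J x v]) := by
    have n1 : C * (h x * deriv θ (h x)) ≤ |C| * δ :=
      mul_le_mul (le_abs_self C) (hθδ (h x)) (mul_nonneg hx0.le (hθd _)) (abs_nonneg C)
    have n2 : C * (h x * deriv θ (h x)) * τ x ![v, J x v] ≤ ε / 2 * τ x ![v, J x v] :=
      mul_le_mul_of_nonneg_right (n1.trans hCδ) hτp.le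
    linarith
  have m5 := mul_le_mul_of_nonneg_left m0 (sub_nonneg.2 (hθ1 (h x)))
  have m6 := mul_le_mul_of_nonneg_left m1 (hθ0 (h x))
  have m7 := mul_pos hε hτp
  nlinarith

end

end Pool.Agent.V8H58.BF
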