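import Pool.Agent.V8H58.BF.GlueA

/-!
Gluing along a closed set `F` by means of a function tending to `-∞` at `F`.
-/

set_option autoImplicit false

open Set Filter Topology MeasureTheory
open scoped Manifold ContDiff

noncomputable section

namespace Pool.Agent.V8H58.BF

open Pool.Agent.Y501.SY Pool.Agent.Y484.SY Pool.Agent.Y658.SY

theorem deriv_zero_min (f : ℝ → ℝ) (u : ℝ) (h : ∀ t, f u ≤ f t) : deriv f u = 0 :=
  IsLocalMin.deriv_eq_zero (Eventually.of_forall h)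

theorem deriv_zero_max (f : ℝ → ℝ) (u : ℝ) (h : ∀ t, f t ≤ f u) : deriv f u = 0 :=
  IsLocalMax.deriv_eq_zero (Eventually.of_forall h)

/-- the derivative of the smooth step is bounded -/
theorem step_bd : ∃ M : ℝ, 0 ≤ M ∧ ∀ u, deriv Real.smoothTransition u ≤ M := by
  obtain ⟨M, hM⟩ : ∃ M, ∀ u ∈ Icc (0 : ℝ) 1, ‖deriv Real.smoothTransition u‖ ≤ M :=
    isCompact_Icc.exists_bound_of_continuousOn
      (((Real.smoothTransition.contDiff (n := ⊤)).continuous_deriv (by simp)).continuousOn)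
  have hM0 : 0 ≤ M := (norm_nonneg _).trans (hM 0 (by simp))
  refine ⟨M, hM0, fun u => ?_⟩
  by_cases h0 : u < 0
  · rw [deriv_zero_min _ u fun t => by
      rw [Real.smoothTransition.zero_of_nonpos h0.le]
      exact Real.smoothTransition.nonneg t]
    exact hM0
  · by_cases h1 : 1 < u
    · rw [deriv_zero_max _ u fun t => by
        rw [Real.smoothTransition.one_of_one_le h1.le]
        exact Real.smoothTransition.le_one t]
      exact hM0
    · rw [not_lt] at h0 h1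
      exact (le_abs_self _).trans (hM u ⟨h0, h1⟩)

section

variable {d : ℕ} {X : Type} [TopologicalSpace X] [ChartedSpace (E d) X]
  [IsManifold (𝓡 d) ∞ X]

omit [IsManifold (𝓡 d) ∞ X] in
/-- the chain rule at a point -/
theorem dd_comp_at {P : ℝ → ℝ} {f : X → ℝ} {x : X} (hP : DifferentiableAt ℝ P (f x))
    (hf : MDifferentiableAt (𝓡 d) 𝓘(ℝ, ℝ) f x) (v : TangentSpace (𝓡 d) x) :
    dd (d := d) (fun y => P (f y)) x v = deriv P (f x) * dd f x v := by
  have h1 : HasMFDerivAt 𝓘(ℝ, ℝ) 𝓘(ℝ, ℝ) P (f x) (fderiv ℝ P (f x)) :=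
    hP.hasFDerivAt.hasMFDerivAt
  have h2 := (h1.comp x hf.hasMFDerivAt).mfderiv
  have h3 := congrArg (fun L => L v) h2
  refine Eq.trans h3 ?_
  change fderiv ℝ P (f x) (dd f x v) = _
  rw [fderiv_eq_smul_deriv, smul_eq_mul, mul_comm]

/-- the product rule for a function vanishing near `F` and a form which is smooth off `F` -/
theorem cut_prod {F : Set X} (hF : IsClosed F) {u : X → ℝ} {β : Form d X 1} {ρ : Form d X 2}
    (hu : SmoothFun (d := d) u) (hu0 : ∀ x ∈ F, ∀ᶠ y in 𝓝 x, u y = 0) (hβ : SmoothOff β F)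
    (hρ : SmoothOff ρ F) (hD : IsDOff β ρ F) :
    IsSmooth (fun x => u x • β x : Form d X 1) ∧ IsSmooth (prodD u β ρ) ∧
      IsD (fun x => u x • β x : Form d X 1) (prodD u β ρ) := by
  -- near the points of `F`
  have keyF : ∀ (U : Set (E d)) (φ : E d → X), IsOpen U → ContMDiffOn (𝓡 d) (𝓡 d) ∞ φ U →
      ∀ p ∈ U, φ p ∈ F → pb φ (fun x => u x • β x : Form d X 1) =ᶠ[𝓝 p] (fun _ => 0) ∧
        pb φ (prodD u β ρ) =ᶠ[𝓝 p] (fun _ => 0) := by
    intro U φ hU hφ p hp hpF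
    have h1 : ∀ᶠ y in 𝓝 (φ p), ∀ᶠ z in 𝓝 y, u z = 0 := eventually_eventually_nhds.2 (hu0 _ hpF)
    have hc : ∀ q ∈ U, ContinuousAt φ q := fun q hq =>
      hφ.continuousOn.continuousAt (hU.mem_nhds hq)
    have h2 : ∀ᶠ q in 𝓝 p, ∀ᶠ z in 𝓝 (φ q), u z = 0 := (hc p hp).eventually h1
    constructor
    · filter_upwards [h2] with q hq
      have h3 : u (φ q) = 0 := hq.self_of_nhds
      unfold pb
      simp only [h3, zero_smul]
      ext v
      rfl
    · filter_upwards [h2, hU.mem_nhds hp] with q hq hqU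
      have h3 : u (φ q) = 0 := hq.self_of_nhds
      have h4 : (u ∘ φ) =ᶠ[𝓝 q] fun _ => 0 := (hc q hqU).eventually hq
      rw [pb_prodD hU hφ hu hqU, h4.fderiv_eq, Function.comp_apply, h3, zero_smul, add_zero]
      have h5 : fderiv ℝ (fun _ : E d => (0 : ℝ)) q = 0 := fderiv_const_apply _
      rw [h5]
      ext v
      rw [wedge1_apply]
      simp
  have hopen : ∀ (U : Set (E d)) (φ : E d → X), IsOpen U → ContMDiffOn (𝓡 d) (𝓡 d) ∞ φ U →
      IsOpen (U ∩ φ ⁻¹' Fᶜ) := fun U φ hU hφ =>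
    hφ.continuousOn.isOpen_inter_preimage hU hF.isOpen_compl
  refine ⟨?_, ?_, ?_⟩
  · intro U φ hU hφ p hp
    by_cases hpF : φ p ∈ F
    · exact (contDiffAt_const.congr_of_eventuallyEq (keyF U φ hU hφ p hp hpF).1).contDiffWithinAt
    · have h1 : ContDiffOn ℝ ∞ (pb φ (fun x => u x • β x : Form d X 1)) (U ∩ φ ⁻¹' Fᶜ) :=
        (comp_smooth (hφ.mono inter_subset_left) hu).smul
          (hβ _ φ (hopen U φ hU hφ) (hφ.mono inter_subset_left) fun q hq => hq.2)
      exact (h1.contDiffAt ((hopen U φ hU hφ).mem_nhds ⟨hp, hpF⟩)).contDiffWithinAt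
  · intro U φ hU hφ p hp
    by_cases hpF : φ p ∈ F
    · exact (contDiffAt_const.congr_of_eventuallyEq (keyF U φ hU hφ p hp hpF).2).contDiffWithinAt
    · have ho := hopen U φ hU hφ
      have hm : ContMDiffOn (𝓡 d) (𝓡 d) ∞ φ (U ∩ φ ⁻¹' Fᶜ) := hφ.mono inter_subset_left
      have h1 : ContDiffOn ℝ ∞ (pb φ (prodD u β ρ)) (U ∩ φ ⁻¹' Fᶜ) := by
        refine ContDiffOn.congr ?_ fun q hq => pb_prodD ho hm hu hq
        exact (smooth_wedge1 ((comp_smooth hm hu).fderiv_of_isOpen ho (by simp))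
          (hβ _ φ ho hm fun q hq => hq.2)).add
          ((comp_smooth hm hu).smul (hρ _ φ ho hm fun q hq => hq.2))
      exact (h1.contDiffAt (ho.mem_nhds ⟨hp, hpF⟩)).contDiffWithinAt
  · intro U φ hU hφ p hp
    by_cases hpF : φ p ∈ F
    · obtain ⟨h1, h2⟩ := keyF U φ hU hφ p hp hpF
      rw [h1.extDeriv_eq, h2.eq_of_nhds]
      unfold extDeriv
      rw [fderiv_fun_const]
      exact map_zero (ContinuousAlternatingMap.alternatizeUncurryFinCLM ℝ (E d) ℝ)
    · have ho := hopen U φ hU hφ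
      have hm : ContMDiffOn (𝓡 d) (𝓡 d) ∞ φ (U ∩ φ ⁻¹' Fᶜ) := hφ.mono inter_subset_left
      have hp' : p ∈ U ∩ φ ⁻¹' Fᶜ := ⟨hp, hpF⟩
      have hF' : DifferentiableAt ℝ (u ∘ φ) p :=
        ((comp_smooth hm hu).contDiffAt (ho.mem_nhds hp')).differentiableAt (by simp)
      have hB : DifferentiableAt ℝ (pb φ β) p :=
        ((hβ _ φ ho hm fun q hq => hq.2).contDiffAt (ho.mem_nhds hp')).differentiableAt (by simp)
      rw [pb_prodD ho hm hu hp', ← hD _ φ ho hm (fun q hq => hq.2) p hp', ← ext_prod hF' hB]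
      rfl

omit [IsManifold (𝓡 d) ∞ X] in
theorem prodD_apply (u : X → ℝ) (β : Form d X 1) (ρ : Form d X 2) (x : X)
    (v w : TangentSpace (𝓡 d) x) : prodD u β ρ x ![v, w] =
      dd u x v * β x ![w] - dd u x w * β x ![v] + u x * ρ x ![v, w] := by
  have h := wedge1_apply (V := E d) (dd u x) (β x) ![v, w]
  have ev : (fun _ : Fin 1 => v) = ![v] := by
    funext i
    rw [Subsingleton.elim i 0]
    rfl
  have ew : (fun _ : Fin 1 => w) = ![w] := by
    funext i
    rw [Subsingleton.elim i 0]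
    rfl
  refine (congrArg (fun t => t + u x * ρ x ![v, w]) h).trans ?_
  show dd u x v * β x (fun _ : Fin 1 => w) - dd u x w * β x (fun _ : Fin 1 => v) +
    u x * ρ x ![v, w] = _
  rw [ev, ew]

/-- `σ` dominates a positive multiple of `τ` off `F` near `x`. -/
def DomAt (σ τ : Form d X 2) (J : End d X) (F : Set X) (x : X) : Prop :=
  ∃ c : ℝ, 0 < c ∧ ∀ᶠ y in 𝓝 x, y ∉ F → ∀ v : TangentSpace (𝓡 d) y,
    c * τ y ![v, J y v] ≤ σ y ![v, J y v]

theorem tame_nonneg {J : End d X} {τ : Form d X 2} {y : X} (hτ : TamesAt τ J y)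
    (v : TangentSpace (𝓡 d) y) : 0 ≤ τ y ![v, J y v] := by
  by_cases hv : v = 0
  · have h1 : τ y ![v, J y v] = 0 := (τ y).toAlternatingMap.map_coord_zero 0 (by rw [hv]; rfl)
    rw [h1]
  · exact (hτ v hv).le

/-- a taming form dominates a positive multiple of any form, near a point -/
theorem dom_of_tames {J : End d X} (hJ : IsAlmostComplex J) {σ τ : Form d X 2} (hσ : IsSmooth σ)
    (hτ : IsSmooth τ) {x : X} (h : TamesAt σ J x) :
    ∃ ε : ℝ, 0 < ε ∧ ∀ᶠ y in 𝓝 x, ∀ t : ℝ, |t| ≤ ε → ∀ v : TangentSpace (𝓡 d) y,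
      t * τ y ![v, J y v] ≤ σ y ![v, J y v] := by
  obtain ⟨ε, hε, h1⟩ := tames_pert hJ hσ hτ h
  refine ⟨ε, hε, ?_⟩
  filter_upwards [h1] with y hy t ht v
  have h2 := tame_nonneg (hy (-t) (by rw [abs_neg]; exact ht)) v
  change 0 ≤ σ y ![v, J y v] + -t * τ y ![v, J y v] at h2
  linarith

theorem glueF (hd : 1 ≤ d) [CompactSpace X] [T2Space X] {J : End d X} (hJ : IsAlmostComplex J)
    {τ : Form d X 2} (hτs : IsSmooth τ) (hτ : ∀ x, TamesAt τ J x)
    {F : Set X} (hF : IsClosed F) {σ₀ : Form d X 2} (hσ₀ : IsSmooth σ₀)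
    {β : Form d X 1} {σ : Form d X 2} (hβ : SmoothOff β F) (hσ : SmoothOff σ F)
    (hD : IsDOff β (σ - σ₀) F)
    (hpos₀ : ∀ x ∈ F, ∀ v : TangentSpace (𝓡 d) x, 0 ≤ σ₀ x ![v, J x v])
    (hpos : ∀ x, x ∉ F → ∀ v : TangentSpace (𝓡 d) x, 0 ≤ σ x ![v, J x v])
    {u : X → ℝ} (hu : ContMDiffOn (𝓡 d) 𝓘(ℝ, ℝ) ∞ u Fᶜ)
    (hlim : ∀ x ∈ F, ∀ B : ℝ, ∀ᶠ y in 𝓝 x, y ∉ F → u y < B) {C : ℝ}
    (hjump : ∀ x ∈ F, ∀ᶠ y in 𝓝 x, y ∉ F → ∀ v : TangentSpace (𝓡 d) y,
      -(C * τ y ![v, J y v]) ≤ dd u y v * β y ![J y v] - dd u y (J y v) * β y ![v])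
    (S : Set X) (hS : S = {x | ¬ DomAt σ τ J F x} ∪ {x | x ∈ F ∧ ¬ TamesAt σ₀ J x})
    (hthin : ∀ z ∈ S, ThinAt2 0 0 J (connectedComponentIn S z) z) :
    ∃ (α : Form d X 1) (ρ : Form d X 2), IsSmooth α ∧ IsSmooth ρ ∧ IsD α ρ ∧
      ∀ x, TamesAt (σ₀ + ρ) J x := by
  classical
  have hP := Pool.Agent.Y455.SY.t_PERT
  -- the exceptional set is closed
  have hScl : IsClosed S := by
    have h1 : IsOpen {x | DomAt σ τ J F x} := by
      rw [isOpen_iff_eventually]
      rintro x ⟨c, hc, hx⟩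
      filter_upwards [eventually_eventually_nhds.2 hx] with y hy
      exact ⟨c, hc, hy⟩
    have h0 : IsOpen {x | TamesAt σ₀ J x} := by
      rw [isOpen_iff_eventually]
      exact fun x hx => TamesAt.nhds hP hJ hσ₀ hx
    rw [hS]
    exact h1.isClosed_compl.union (hF.inter h0.isClosed_compl)
  have hne : ∃ v : E d, v ≠ 0 := by
    have : Nontrivial (E d) := by
      have : Nonempty (Fin d) := ⟨⟨0, hd⟩⟩
      infer_instance
    exact exists_ne 0
  have hD2 : D2 (0 : Form d X 2) 0 J S = S := by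
    apply Subset.antisymm
    · exact fun x hx => hx.1
    · intro x hx
      obtain ⟨v, hv⟩ := hne
      exact ⟨hx, v, hv, rfl, rfl⟩
  obtain ⟨α₁, η, hpair, hη⟩ := level2 Pool.Agent.Y484.SY.t_GEN Pool.Agent.Y108.SY.t_PERT2
    Pool.Agent.Y925.SY.t_PLANAR hJ (σ := 0) (θ := 0) IsSmooth.zero IsSmooth.zero hScl (by
      rw [hD2]
      exact hthin)
  obtain ⟨hα₁, hηs, hαη, hηc⟩ := hpair.props Pool.Agent.Y484.SY.t_GEN
  -- the multiple of the exact form
  obtain ⟨s, hs, hst⟩ := unif (isCompact_univ (X := X))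
    (fun (ε : ℝ) (y : X) => ∀ s : ℝ, 0 < s → s ≤ ε →
      (y ∉ F → ∀ v : TangentSpace (𝓡 d) y,
        s * ε * τ y ![v, J y v] ≤ σ y ![v, J y v] + s * η y ![v, J y v]) ∧
      (y ∈ F → TamesAt (σ₀ + s • η) J y))
    (fun ε ε' y hle hp s hs hsε => by
      obtain ⟨h1, h2⟩ := hp s hs (hsε.trans hle)
      refine ⟨fun hy v => le_trans ?_ (h1 hy v), h2⟩
      exact mul_le_mul_of_nonneg_right (mul_le_mul_of_nonneg_left hle hs.le)
        (tame_nonneg (hτ y) v))
    (fun x _ => by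
      by_cases hxS : x ∈ S
      · have h1 : TamesAt η J x := fun v hv => hη x hxS v hv rfl rfl
        obtain ⟨ε, hε, h2⟩ := dom_of_tames hJ hηs hτs h1
        refine ⟨ε, hε, ?_⟩
        filter_upwards [h2, TamesAt.nhds hP hJ hηs h1] with y hy hyη s hs hsε
        refine ⟨fun hyF v => ?_, fun hyF v hv => ?_⟩
        · have h3 := hpos y hyF v
          have h4 := mul_le_mul_of_nonneg_left (hy ε (by rw [abs_of_pos hε]) v) hs.le
          linarith
        · have h3 := hpos₀ y hyF v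
          have h4 := mul_pos hs (hyη v hv)
          change 0 < σ₀ y ![v, J y v] + s * η y ![v, J y v]
          linarith
      · have hxD : DomAt σ τ J F x := by
          by_contra h1
          rw [hS] at hxS
          exact hxS (Or.inl h1)
        have hxT : x ∈ F → TamesAt σ₀ J x := fun h1 => by
          by_contra h2
          rw [hS] at hxS
          exact hxS (Or.inr ⟨h1, h2⟩)
        obtain ⟨c, hc, hcd⟩ := hxD
        obtain ⟨ε₂, hε₂, h2⟩ := dom_of_tames hJ hτs hηs (hτ x)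
        have k0 : ∃ ε : ℝ, 0 < ε ∧ ∀ᶠ y in 𝓝 x, ∀ s : ℝ, 0 < s → s ≤ ε →
            y ∈ F → TamesAt (σ₀ + s • η) J y := by
          by_cases h1 : x ∈ F
          · obtain ⟨ε, hε, h3⟩ := tames_pert hJ hσ₀ hηs (hxT h1)
            refine ⟨ε, hε, ?_⟩
            filter_upwards [h3] with y hy s hs hsε _
            exact hy s (by rw [abs_of_pos hs]; exact hsε)
          · refine ⟨1, one_pos, ?_⟩
            filter_upwards [hF.isOpen_compl.mem_nhds h1] with y hy s _ _ hyF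
            exact absurd hyF hy
        obtain ⟨ε₃, hε₃, h3⟩ := k0
        obtain ⟨ε, hεd⟩ : ∃ ε, ε = min (min (c * ε₂ / 2) (c / 2)) (min 1 ε₃) := ⟨_, rfl⟩
        have hε : 0 < ε := by
          rw [hεd]
          exact lt_min (lt_min (by positivity) (by positivity)) (lt_min one_pos hε₃)
        have e1 : ε ≤ c * ε₂ / 2 := by rw [hεd]; exact (min_le_left _ _).trans (min_le_left _ _)
        have e2 : ε ≤ c / 2 := by rw [hεd]; exact (min_le_left _ _).trans (min_le_right _ _)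
        have e3 : ε ≤ 1 := by rw [hεd]; exact (min_le_right _ _).trans (min_le_left _ _)
        have e4 : ε ≤ ε₃ := by rw [hεd]; exact (min_le_right _ _).trans (min_le_right _ _)
        refine ⟨ε, hε, ?_⟩
        filter_upwards [hcd, h2, h3] with y hy1 hy2 hy3 s hs hsε
        refine ⟨fun hyF v => ?_, hy3 s hs (hsε.trans e4)⟩
        have hτ0 := tame_nonneg (hτ y) v
        have n1 := hy1 hyF v
        have n2 := hy2 (-ε₂) (by rw [abs_neg, abs_of_pos hε₂]) v
        -- `η ≥ -τ / ε₂`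
        have n3 : -(c / 2 * τ y ![v, J y v]) ≤ s * η y ![v, J y v] := by
          have n4 : s * (-ε₂ * η y ![v, J y v]) ≤ s * τ y ![v, J y v] :=
            mul_le_mul_of_nonneg_left n2 hs.le
          have n5 : s * τ y ![v, J y v] ≤ (c * ε₂ / 2) * τ y ![v, J y v] :=
            mul_le_mul_of_nonneg_right (hsε.trans e1) hτ0
          have n6 : ε₂ * (-(c / 2 * τ y ![v, J y v])) ≤ ε₂ * (s * η y ![v, J y v]) := by
            nlinarith
          exact le_of_mul_le_mul_left n6 hε₂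
        have n7 : s * ε * τ y ![v, J y v] ≤ c / 2 * τ y ![v, J y v] := by
          refine mul_le_mul_of_nonneg_right ?_ hτ0
          calc s * ε ≤ 1 * (c / 2) := mul_le_mul (hsε.trans e3) e2 hε.le zero_le_one
            _ = c / 2 := one_mul _
        linarith)
  have hdom : ∀ y, y ∉ F → ∀ v : TangentSpace (𝓡 d) y,
      s * s * τ y ![v, J y v] ≤ σ y ![v, J y v] + s * η y ![v, J y v] := fun y =>
    (hst y (mem_univ y) s hs le_rfl).1
  have ht₀ : ∀ y ∈ F, TamesAt (σ₀ + s • η) J y := fun y =>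
    (hst y (mem_univ y) s hs le_rfl).2
  have hsm₀ : IsSmooth (σ₀ + s • η) := hσ₀.add (hηs.smul s)
  have hucont : ∀ x, x ∉ F → ContinuousAt u x := fun x hx =>
    hu.continuousOn.continuousAt (hF.isOpen_compl.mem_nhds hx)
  -- uniform taming near `F`
  obtain ⟨ε, hε, hεt⟩ := unif (isCompact_univ (X := X))
    (fun (ε : ℝ) (y : X) => 0 < ε → y ∉ F → u y < -(1 / ε) → ∀ v : TangentSpace (𝓡 d) y,
      ε * τ y ![v, J y v] ≤ (σ₀ + s • η) y ![v, J y v] ∧
      -(C * τ y ![v, J y v]) ≤ dd u y v * β y ![J y v] - dd u y (J y v) * β y ![v])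
    (fun ε ε' y hle hp hε' hyF hyu v => by
      have h1 : 1 / ε ≤ 1 / ε' := one_div_le_one_div_of_le hε' hle
      obtain ⟨h2, h3⟩ := hp (hε'.trans_le hle) hyF (lt_of_lt_of_le hyu (neg_le_neg h1)) v
      exact ⟨(mul_le_mul_of_nonneg_right hle (tame_nonneg (hτ y) v)).trans h2, h3⟩)
    (fun x _ => by
      by_cases hxF : x ∈ F
      · obtain ⟨ε₀, hε₀, h0⟩ := dom_of_tames hJ hsm₀ hτs (ht₀ x hxF)
        refine ⟨ε₀, hε₀, ?_⟩
        filter_upwards [h0, hjump x hxF] with y hy0 hy1 _ hyF _ v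
        exact ⟨hy0 ε₀ (by rw [abs_of_pos hε₀]) v, hy1 hyF v⟩
      · refine ⟨1 / (|u x| + 1), by positivity, ?_⟩
        have h1 : u x - 1 < u x := by linarith
        filter_upwards [(hucont x hxF).eventually_const_lt h1] with y hy _ _ hyu
        rw [one_div_one_div] at hyu
        have h2 := neg_abs_le (u x)
        linarith)
  have hεt' : ∀ y, y ∉ F → u y < -(1 / ε) → ∀ v : TangentSpace (𝓡 d) y,
      ε * τ y ![v, J y v] ≤ (σ₀ + s • η) y ![v, J y v] ∧
      -(C * τ y ![v, J y v]) ≤ dd u y v * β y ![J y v] - dd u y (J y v) * β y ![v] :=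
    fun y => hεt y (mem_univ y) hε
  -- the cut-off function
  obtain ⟨M, hM0, hM⟩ := step_bd
  obtain ⟨B, hB⟩ : ∃ B, B = -(1 / ε) := ⟨_, rfl⟩
  rw [← hB] at hεt'
  obtain ⟨a, ha⟩ : ∃ a, a = min ε (s * s) := ⟨_, rfl⟩
  have ha0 : 0 < a := by rw [ha]; exact lt_min hε (by positivity)
  obtain ⟨κ, hκ⟩ : ∃ κ, κ = a / (2 * (M * |C| + 1)) := ⟨_, rfl⟩
  have hMC : 0 ≤ M * |C| := mul_nonneg hM0 (abs_nonneg C)
  have hκ0 : 0 < κ := by rw [hκ]; positivity
  have hκC : κ * (M * |C|) ≤ a / 2 := by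
    rw [hκ, div_mul_eq_mul_div, div_le_div_iff₀ (by positivity) two_pos]
    nlinarith
  have hSt : ContDiff ℝ ∞ Real.smoothTransition := Real.smoothTransition.contDiff
  obtain ⟨Q, hQ⟩ : ∃ Q : ℝ → ℝ, Q = fun t => Real.smoothTransition (1 + κ * (t - B)) := ⟨_, rfl⟩
  have hQs : ContDiff ℝ ∞ Q := by
    rw [hQ]
    exact hSt.comp (contDiff_const.add (contDiff_const.mul (contDiff_id.sub contDiff_const)))
  have hQ0 : ∀ t, 0 ≤ Q t := fun t => by rw [hQ]; exact Real.smoothTransition.nonneg _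
  have hQ1 : ∀ t, Q t ≤ 1 := fun t => by rw [hQ]; exact Real.smoothTransition.le_one _
  have hQB : ∀ t, B ≤ t → Q t = 1 := fun t ht => by
    rw [hQ]
    apply Real.smoothTransition.one_of_one_le
    nlinarith
  have hQn : ∀ t, t < B - 1 / κ → Q t = 0 := fun t ht => by
    rw [hQ]
    apply Real.smoothTransition.zero_of_nonpos
    have h1 : κ * (t - B) ≤ κ * (-(1 / κ)) := mul_le_mul_of_nonneg_left (by linarith) hκ0.le
    have h2 : κ * (-(1 / κ)) = -1 := by field_simp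
    linarith
  have hQd : ∀ t, deriv Q t = deriv Real.smoothTransition (1 + κ * (t - B)) * κ := by
    intro t
    have h1 : HasDerivAt (fun t => 1 + κ * (t - B)) (κ * 1) t :=
      (((hasDerivAt_id t).sub_const B).const_mul κ).const_add 1
    have h2 : HasDerivAt Real.smoothTransition
        (deriv Real.smoothTransition (1 + κ * (t - B))) (1 + κ * (t - B)) :=
      ((hSt.differentiable (by simp)) _).hasDerivAt
    rw [hQ]
    have h3 := (h2.comp t h1).deriv
    rw [mul_one] at h3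
    exact h3
  have hQd0 : ∀ t, 0 ≤ deriv Q t := fun t => by
    rw [hQd]
    exact mul_nonneg Real.smoothTransition.monotone.deriv_nonneg hκ0.le
  have hQdM : ∀ t, deriv Q t ≤ M * κ := fun t => by
    rw [hQd]
    exact mul_le_mul_of_nonneg_right (hM _) hκ0.le
  obtain ⟨θ, hθ⟩ : ∃ θ : X → ℝ, θ = fun x => if x ∈ F then 0 else Q (u x) := ⟨_, rfl⟩
  have hθF : ∀ x ∈ F, ∀ᶠ y in 𝓝 x, θ y = 0 := by
    intro x hx
    filter_upwards [hlim x hx (B - 1 / κ)] with y hy
    rw [hθ]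
    simp only
    split_ifs with h1
    · rfl
    · exact hQn _ (hy h1)
  have hθe : ∀ x, x ∉ F → θ =ᶠ[𝓝 x] fun y => Q (u y) := by
    intro x hx
    filter_upwards [hF.isOpen_compl.mem_nhds hx] with y hy
    rw [hθ]
    simp only
    rw [if_neg hy]
  have humd : ∀ x, x ∉ F → ContMDiffAt (𝓡 d) 𝓘(ℝ, ℝ) ∞ u x := fun x hx =>
    hu.contMDiffAt (hF.isOpen_compl.mem_nhds hx)
  have hθs : SmoothFun (d := d) θ := by
    intro x
    by_cases hx : x ∈ F
    · exact contMDiffAt_const.congr_of_eventuallyEq (hθF x hx)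
    · have h1 : ContMDiffAt (𝓡 d) 𝓘(ℝ, ℝ) ∞ (fun y => Q (u y)) x :=
        hQs.contMDiff.contMDiffAt.comp x (humd x hx)
      exact h1.congr_of_eventuallyEq (hθe x hx)
  have hσd : SmoothOff (σ - σ₀) F := by
    intro U φ hU hφ hφF
    have h1 := (hσ U φ hU hφ hφF).sub (hσ₀ U φ hU hφ)
    exact h1
  obtain ⟨q1, q2, q3⟩ := cut_prod hF hθs hθF hβ hσd hD
  refine ⟨s • α₁ + (fun x => θ x • β x : Form d X 1), s • η + prodD θ β (σ - σ₀),
    (hα₁.smul s).add q1, (hηs.smul s).add q2, (hαη.smul s).add q3 (hα₁.smul s) q1, ?_⟩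
  intro x v hv
  have hval : (σ₀ + (s • η + prodD θ β (σ - σ₀))) x ![v, J x v] =
      (1 - θ x) * (σ₀ x ![v, J x v] + s * η x ![v, J x v]) +
      θ x * (σ x ![v, J x v] + s * η x ![v, J x v]) +
      (dd θ x v * β x ![J x v] - dd θ x (J x v) * β x ![v]) := by
    change σ₀ x ![v, J x v] + (s * η x ![v, J x v] + prodD θ β (σ - σ₀) x ![v, J x v]) = _
    rw [prodD_apply]
    change σ₀ x ![v, J x v] + (s * η x ![v, J x v] +
      (dd θ x v * β x ![J x v] - dd θ x (J x v) * β x ![v] +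
        θ x * (σ x ![v, J x v] - σ₀ x ![v, J x v]))) = _
    ring
  rw [hval]
  have hτp : 0 < τ x ![v, J x v] := hτ x v hv
  by_cases hxF : x ∈ F
  · rw [(hθF x hxF).self_of_nhds, dd_eventually_const (hθF x hxF), dd_eventually_const (hθF x hxF)]
    have h1 := ht₀ x hxF v hv
    change 0 < σ₀ x ![v, J x v] + s * η x ![v, J x v] at h1
    linarith
  have hdθ : ∀ w : TangentSpace (𝓡 d) x, dd (d := d) θ x w = deriv Q (u x) * dd u x w := by
    intro w
    have h1 : dd (d := d) θ x w = dd (d := d) (fun y => Q (u y)) x w := by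
      unfold dd
      rw [(hθe x hxF).mfderiv_eq]
    rw [h1]
    exact dd_comp_at ((hQs.differentiable (by simp)) _) ((humd x hxF).mdifferentiableAt (by simp)) w
  have hθx : θ x = Q (u x) := (hθe x hxF).self_of_nhds
  rw [hdθ v, hdθ (J x v), hθx]
  have m1 := hdom x hxF v
  by_cases hxB : B ≤ u x
  · rw [deriv_zero_max Q (u x) fun t => by rw [hQB _ hxB]; exact hQ1 t, hQB _ hxB]
    have h1 : 0 < s * s * τ x ![v, J x v] := by positivity
    linarith
  rw [not_le] at hxB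
  obtain ⟨m0, m2⟩ := hεt' x hxF hxB v
  change ε * τ x ![v, J x v] ≤ σ₀ x ![v, J x v] + s * η x ![v, J x v] at m0
  have m3 := mul_le_mul_of_nonneg_left m2 (hQd0 (u x))
  have m4 : -(a / 2 * τ x ![v, J x v]) ≤ deriv Q (u x) * -(C * τ x ![v, J x v]) := by
    have n1 : deriv Q (u x) * C ≤ a / 2 := by
      calc deriv Q (u x) * C ≤ deriv Q (u x) * |C| :=
            mul_le_mul_of_nonneg_left (le_abs_self C) (hQd0 _)
        _ ≤ (M * κ) * |C| := mul_le_mul_of_nonneg_right (hQdM _) (abs_nonneg C)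
        _ = κ * (M * |C|) := by ring
        _ ≤ a / 2 := hκC
    have n2 := mul_le_mul_of_nonneg_right n1 hτp.le
    linarith
  have b1 : a * τ x ![v, J x v] ≤ ε * τ x ![v, J x v] :=
    mul_le_mul_of_nonneg_right (by rw [ha]; exact min_le_left _ _) hτp.le
  have b2 : a * τ x ![v, J x v] ≤ s * s * τ x ![v, J x v] :=
    mul_le_mul_of_nonneg_right (by rw [ha]; exact min_le_right _ _) hτp.le
  have m5 := mul_le_mul_of_nonneg_left (b1.trans m0) (sub_nonneg.2 (hQ1 (u x)))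
  have m6 := mul_le_mul_of_nonneg_left (b2.trans m1) (hQ0 (u x))
  have m7 := mul_pos ha0 hτp
  have e1 : deriv Q (u x) * dd u x v * β x ![J x v] -
      deriv Q (u x) * dd u x (J x v) * β x ![v] =
      deriv Q (u x) * (dd u x v * β x ![J x v] - dd u x (J x v) * β x ![v]) := by ring
  rw [e1]
  nlinarith

end

end Pool.Agent.V8H58.BF
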