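import Pool.Agent.Y710.SY.J1

/-!
Averages of locally Lipschitz one-forms.
-/

set_option autoImplicit false

open Set Filter Topology MeasureTheory
open scoped Manifold ContDiff

noncomputable section

namespace Pool.Agent.V8H58.BF

open Pool.Agent.Y501.SY Pool.Agent.Y515.SY Pool.Agent.Y710.SY

variable {d : ℕ}

/-- locally Lipschitz at the points of a set -/
def LipOn {F G : Type*} [PseudoEMetricSpace F] [PseudoEMetricSpace G] (f : F → G) (U : Set F) :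
    Prop :=
  ∀ p ∈ U, ∃ C : NNReal, ∃ N ∈ 𝓝 p, LipschitzOnWith C f N

theorem LipOn.mono {F G : Type*} [PseudoEMetricSpace F] [PseudoEMetricSpace G] {f : F → G}
    {U V : Set F} (h : LipOn f U) (hVU : V ⊆ U) : LipOn f V := fun p hp => h p (hVU hp)

theorem LipOn.congr {F G : Type*} [PseudoEMetricSpace F] [PseudoEMetricSpace G] {f g : F → G}
    {U : Set F} (h : LipOn f U) (hfg : ∀ p ∈ U, g =ᶠ[𝓝 p] f) : LipOn g U := by
  intro p hp
  obtain ⟨C, N, hN, hC⟩ := h p hp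
  refine ⟨C, N ∩ {q | g q = f q}, inter_mem hN (hfg p hp), ?_⟩
  intro x hx y hy
  rw [hx.2, hy.2]
  exact hC hx.1 hy.1

theorem LipOn.continuousAt {F G : Type*} [PseudoEMetricSpace F] [PseudoEMetricSpace G] {f : F → G}
    {U : Set F} (h : LipOn f U) {p : F} (hp : p ∈ U) : ContinuousAt f p := by
  obtain ⟨C, N, hN, hC⟩ := h p hp
  exact hC.continuousOn.continuousAt hN

theorem lipOn_smooth {F G : Type*} [NormedAddCommGroup F] [NormedSpace ℝ F]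
    [NormedAddCommGroup G] [NormedSpace ℝ G] {f : F → G} {U : Set F} (hU : IsOpen U)
    (h : ContDiffOn ℝ ∞ f U) : LipOn f U := by
  intro p hp
  have h1 : ContDiffAt ℝ 1 f p := (h.contDiffAt (hU.mem_nhds hp)).of_le (by norm_cast)
  exact h1.exists_lipschitzOnWith

theorem LipOn.add {F G : Type*} [NormedAddCommGroup F] [NormedAddCommGroup G] {f g : F → G}
    {U : Set F} (hf : LipOn f U) (hg : LipOn g U) : LipOn (fun p => f p + g p) U := by
  intro p hp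
  obtain ⟨C, N, hN, hC⟩ := hf p hp
  obtain ⟨C', N', hN', hC'⟩ := hg p hp
  exact ⟨C + C', N ∩ N', inter_mem hN hN', (hC.mono inter_subset_left).add
    (hC'.mono inter_subset_right)⟩

theorem LL_sub (a a' : E d →L[ℝ] ℝ) (y : E d) :
    LL a y - LL a' y = (a - a').smulRight y := by
  ext v i
  simp [LL]
  ring

theorem comp1_sub (η : Al d 1) (T T' : E d →L[ℝ] E d) :
    η.compContinuousLinearMap T - η.compContinuousLinearMap T' =
      η.compContinuousLinearMap (T - T') := by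
  apply ContinuousAlternatingMap.ext
  intro v
  rw [one_eta v]
  change (η.compContinuousLinearMap T) ![v 0] - (η.compContinuousLinearMap T') ![v 0] = _
  rw [comp_one, comp_one, comp_one]
  have h := expand1 η (T (v 0)) (T' (v 0)) (-1)
  have e : (T - T') (v 0) = T (v 0) + (-1 : ℝ) • T' (v 0) := by
    rw [_root_.sub_apply, neg_one_smul]
    abel
  rw [e, h]
  ring

/-- the pull-backs of a Lipschitz one-form by the maps `p ↦ p + χ(p) y` are uniformly Lipschitz -/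
theorem F_lip {χ : E d → ℝ} (hχ : ContDiff ℝ ∞ χ) {Φ : E d → Al d 1} {p₀ : E d} {ε r b : ℝ}
    {C : NNReal} (hr : 0 < r) (hε : 0 ≤ ε)
    (hL : ∀ y, ‖y‖ ≤ ε → LipschitzOnWith C Φ (Metric.ball (p₀ + χ p₀ • y) r))
    (hb : ∀ q, ‖Φ q‖ ≤ b) :
    ∃ δ : ℝ, 0 < δ ∧ ∃ M : NNReal, ∀ y, ‖y‖ ≤ ε → LipschitzOnWith M
      (fun p => (Φ (p + χ p • y)).compContinuousLinearMap (LL (fderiv ℝ χ p) y))
      (Metric.ball p₀ δ) := by
  have hb0 : 0 ≤ b := (norm_nonneg _).trans (hb 0)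
  have hχ1 : ContDiffAt ℝ 1 χ p₀ := hχ.contDiffAt.of_le (by norm_cast)
  have hdχ : ContDiff ℝ ∞ (fderiv ℝ χ) := hχ.fderiv_right (by simp)
  have hχ2 : ContDiffAt ℝ 1 (fderiv ℝ χ) p₀ := hdχ.contDiffAt.of_le (by norm_cast)
  obtain ⟨K₁, t₁, ht₁, hK₁⟩ := hχ1.exists_lipschitzOnWith
  obtain ⟨K₂, t₂, ht₂, hK₂⟩ := hχ2.exists_lipschitzOnWith
  have h3 : {p | ‖fderiv ℝ χ p‖ < ‖fderiv ℝ χ p₀‖ + 1} ∈ 𝓝 p₀ :=
    (hdχ.continuous.norm.tendsto p₀).eventually_lt_const (lt_add_one _)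
  obtain ⟨δ₀, hδ₀, hδt⟩ := Metric.mem_nhds_iff.1 (inter_mem (inter_mem ht₁ ht₂) h3)
  have hK₁ε : 0 ≤ (K₁ : ℝ) * ε := mul_nonneg K₁.2 hε
  obtain ⟨D, hD⟩ : ∃ D, D = ‖fderiv ℝ χ p₀‖ + 1 := ⟨_, rfl⟩
  have hD0 : 0 ≤ D := by rw [hD]; positivity
  refine ⟨min δ₀ (r / (1 + K₁ * ε)), lt_min hδ₀ (by positivity),
    Real.toNNReal (C * (1 + K₁ * ε) * (1 + D * ε) + b * (K₂ * ε)), ?_⟩
  intro y hy
  apply LipschitzOnWith.of_dist_le_mul
  have hM : (0 : ℝ) ≤ C * (1 + K₁ * ε) * (1 + D * ε) + b * (K₂ * ε) := by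
    have := C.2
    have := K₂.2
    positivity
  rw [Real.coe_toNNReal _ hM]
  have hball : ∀ p ∈ Metric.ball p₀ (min δ₀ (r / (1 + K₁ * ε))), p ∈ t₁ ∧ p ∈ t₂ ∧
      ‖fderiv ℝ χ p‖ ≤ D ∧ dist p p₀ < r / (1 + K₁ * ε) := by
    intro p hp
    rw [Metric.mem_ball, lt_min_iff] at hp
    have h1 := hδt (Metric.mem_ball.2 hp.1)
    refine ⟨h1.1.1, h1.1.2, ?_, hp.2⟩
    rw [hD]
    exact (le_of_lt h1.2)
  have hTT : ∀ p ∈ t₁, ∀ q ∈ t₁, ‖(p + χ p • y) - (q + χ q • y)‖ ≤ (1 + K₁ * ε) * ‖p - q‖ := by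
    intro p hp q hq
    have e : (p + χ p • y) - (q + χ q • y) = (p - q) + (χ p - χ q) • y := by
      rw [sub_smul]
      abel
    rw [e]
    refine (norm_add_le _ _).trans ?_
    have h1 := hK₁.dist_le_mul p hp q hq
    rw [dist_eq_norm, dist_eq_norm] at h1
    rw [norm_smul]
    have h2 : ‖χ p - χ q‖ * ‖y‖ ≤ (K₁ * ‖p - q‖) * ε :=
      mul_le_mul h1 hy (norm_nonneg _) (by positivity)
    linarith
  have hT0 : ∀ p ∈ Metric.ball p₀ (min δ₀ (r / (1 + K₁ * ε))),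
      p + χ p • y ∈ Metric.ball (p₀ + χ p₀ • y) r := by
    intro p hp
    obtain ⟨h1, -, -, h4⟩ := hball p hp
    have hp₀ : p₀ ∈ t₁ := mem_of_mem_nhds ht₁
    rw [Metric.mem_ball, dist_eq_norm]
    refine (hTT p h1 p₀ hp₀).trans_lt ?_
    rw [dist_eq_norm, lt_div_iff₀ (by positivity)] at h4
    linarith
  intro p hp q hq
  obtain ⟨p1, p2, p3, p4⟩ := hball p hp
  obtain ⟨q1, q2, q3, q4⟩ := hball q hq
  rw [dist_eq_norm, dist_eq_norm]
  have e1 : (Φ (p + χ p • y)).compContinuousLinearMap (LL (fderiv ℝ χ p) y) -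
      (Φ (q + χ q • y)).compContinuousLinearMap (LL (fderiv ℝ χ q) y) =
      (Φ (p + χ p • y) - Φ (q + χ q • y)).compContinuousLinearMap (LL (fderiv ℝ χ p) y) +
      (Φ (q + χ q • y)).compContinuousLinearMap ((fderiv ℝ χ p - fderiv ℝ χ q).smulRight y) := by
    rw [← LL_sub, ← comp1_sub]
    apply ContinuousAlternatingMap.ext
    intro v
    change _ = ((Φ (p + χ p • y)) _ - (Φ (q + χ q • y)) _) + (_ - _)
    simp only [ContinuousAlternatingMap.sub_apply]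
    change (Φ (p + χ p • y)) _ - (Φ (q + χ q • y)) _ = ((Φ (p + χ p • y)) _ -
      (Φ (q + χ q • y)) _) + ((Φ (q + χ q • y)) _ - (Φ (q + χ q • y)) _)
    ring
  rw [e1]
  refine (norm_add_le _ _).trans ?_
  have n1 := comp1_norm (Φ (p + χ p • y) - Φ (q + χ q • y)) (LL (fderiv ℝ χ p) y)
  have n2 := comp1_norm (Φ (q + χ q • y)) ((fderiv ℝ χ p - fderiv ℝ χ q).smulRight y)
  have n3 := (hL y hy).dist_le_mul _ (hT0 p hp) _ (hT0 q hq)
  rw [dist_eq_norm, dist_eq_norm] at n3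
  have n4 := hTT p p1 q q1
  have n5 : ‖LL (fderiv ℝ χ p) y‖ ≤ 1 + D * ε := by
    refine (LL_norm _ _).trans ?_
    have := mul_le_mul p3 hy (norm_nonneg _) hD0
    linarith
  have n6 : ‖Φ (p + χ p • y) - Φ (q + χ q • y)‖ ≤ C * ((1 + K₁ * ε) * ‖p - q‖) :=
    n3.trans (mul_le_mul_of_nonneg_left n4 C.2)
  have n7 : ‖Φ (p + χ p • y) - Φ (q + χ q • y)‖ * ‖LL (fderiv ℝ χ p) y‖ ≤
      C * ((1 + K₁ * ε) * ‖p - q‖) * (1 + D * ε) := by
    refine mul_le_mul n6 n5 (norm_nonneg _) ?_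
    have := C.2
    positivity
  have n8 := hK₂.dist_le_mul p p2 q q2
  rw [dist_eq_norm, dist_eq_norm] at n8
  have n9 : ‖(fderiv ℝ χ p - fderiv ℝ χ q).smulRight y‖ ≤ (K₂ * ‖p - q‖) * ε := by
    rw [ContinuousLinearMap.norm_smulRight_apply]
    exact mul_le_mul n8 hy (norm_nonneg _) (by positivity)
  have n10 : ‖Φ (q + χ q • y)‖ * ‖(fderiv ℝ χ p - fderiv ℝ χ q).smulRight y‖ ≤
      b * ((K₂ * ‖p - q‖) * ε) := mul_le_mul (hb _) n9 (norm_nonneg _) hb0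
  calc _ ≤ C * ((1 + K₁ * ε) * ‖p - q‖) * (1 + D * ε) + b * ((K₂ * ‖p - q‖) * ε) :=
        add_le_add (n1.trans n7) (n2.trans n10)
    _ = _ := by ring

/-- the averages of a Lipschitz one-form are Lipschitz -/
theorem JJ1_lip {χ ρ : E d → ℝ} (hχ : ContDiff ℝ ∞ χ) {Φ : E d → Al d 1} {p₀ : E d} {ε b : ℝ}
    (hρ : Moll ε ρ) (hε : 0 ≤ ε) (hp : χ p₀ = 0) {C : NNReal} {N : Set (E d)} (hN : N ∈ 𝓝 p₀)
    (hL : LipschitzOnWith C Φ N) (hf : StronglyMeasurable Φ) (hb : ∀ q, ‖Φ q‖ ≤ b) :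
    ∃ M : NNReal, ∃ N' ∈ 𝓝 p₀, LipschitzOnWith M (JJ1 ρ χ Φ) N' := by
  obtain ⟨r, hr, hrN⟩ := Metric.mem_nhds_iff.1 hN
  obtain ⟨δ, hδ, M, hM⟩ := F_lip (ε := ε) hχ hr hε (fun y _ => by
    rw [hp, zero_smul, add_zero]
    exact hL.mono hrN) hb
  refine ⟨M, Metric.ball p₀ δ, Metric.ball_mem_nhds _ hδ, ?_⟩
  apply LipschitzOnWith.of_dist_le_mul
  intro p hpB q hqB
  rw [dist_eq_norm]
  unfold JJ1
  rw [← integral_sub (JJ1_int hρ.smooth.continuous (moll_cs hρ) hf hb p)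
    (JJ1_int hρ.smooth.continuous (moll_cs hρ) hf hb q)]
  have h1 : ∫ y, ρ y * (M * dist p q) = M * dist p q := by
    rw [integral_mul_const, hρ.int, one_mul]
  rw [← h1]
  refine norm_integral_le_of_norm_le ((moll_int hρ).mul_const _)
    (Eventually.of_forall fun y => ?_)
  have e2 : ρ y • (Φ (p + χ p • y)).compContinuousLinearMap (LL (fderiv ℝ χ p) y) -
      ρ y • (Φ (q + χ q • y)).compContinuousLinearMap (LL (fderiv ℝ χ q) y) =
      ρ y • ((Φ (p + χ p • y)).compContinuousLinearMap (LL (fderiv ℝ χ p) y) -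
      (Φ (q + χ q • y)).compContinuousLinearMap (LL (fderiv ℝ χ q) y)) := (smul_sub _ _ _).symm
  rw [e2, norm_smul, Real.norm_of_nonneg (hρ.nonneg y)]
  by_cases hy : ‖y‖ ≤ ε
  · refine mul_le_mul_of_nonneg_left ?_ (hρ.nonneg y)
    have h2 := (hM y hy).dist_le_mul p hpB q hqB
    rw [dist_eq_norm] at h2
    exact h2
  · rw [not_le] at hy
    rw [hρ.supp y hy.le, zero_mul, zero_mul]

end Pool.Agent.V8H58.BF
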