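import Pool.Agent.V8H58.BF.LipA

/-!
Averages of locally Lipschitz one-forms: the exterior derivative.
-/

set_option autoImplicit false

open Set Filter Topology MeasureTheory
open scoped Manifold ContDiff

noncomputable section

namespace Pool.Agent.V8H58.BF

open Pool.Agent.Y501.SY Pool.Agent.Y515.SY Pool.Agent.Y710.SY

variable {d : ℕ}

theorem LipOn.comp {F G H : Type*} [PseudoEMetricSpace F] [PseudoEMetricSpace G]
    [PseudoEMetricSpace H] {f : F → G} {g : G → H} {U : Set F} {W : Set G} (hg : LipOn g W)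
    (hf : LipOn f U) (hfW : ∀ p ∈ U, f p ∈ W) : LipOn (fun p => g (f p)) U := by
  intro p hp
  obtain ⟨C, N, hN, hC⟩ := hf p hp
  obtain ⟨C', N', hN', hC'⟩ := hg (f p) (hfW p hp)
  refine ⟨C' * C, N ∩ f ⁻¹' N', inter_mem hN ((hf.continuousAt hp).preimage_mem_nhds hN'), ?_⟩
  exact hC'.comp (hC.mono inter_subset_left) (fun x hx => hx.2)

/-- products -/
theorem LipOn.bilin {F G H K : Type*} [NormedAddCommGroup F] [NormedAddCommGroup G]
    [NormedAddCommGroup H] [NormedAddCommGroup K] {f : F → G} {g : F → H} {U : Set F}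
    (m : G → H → K)
    (hm : ∀ a a' c c', ‖m a c - m a' c'‖ ≤ ‖a - a'‖ * ‖c‖ + ‖a'‖ * ‖c - c'‖)
    (hf : LipOn f U) (hg : LipOn g U) : LipOn (fun p => m (f p) (g p)) U := by
  intro p hp
  obtain ⟨C, N, hN, hC⟩ := hf p hp
  obtain ⟨C', N', hN', hC'⟩ := hg p hp
  have h1 : ∀ᶠ q in 𝓝 p, ‖f q‖ < ‖f p‖ + 1 :=
    (hf.continuousAt hp).norm.eventually_lt_const (lt_add_one _)
  have h2 : ∀ᶠ q in 𝓝 p, ‖g q‖ < ‖g p‖ + 1 :=
    (hg.continuousAt hp).norm.eventually_lt_const (lt_add_one _)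
  refine ⟨Real.toNNReal (C * (‖g p‖ + 1) + (‖f p‖ + 1) * C'), _,
    inter_mem (inter_mem hN hN') (h1.and h2), ?_⟩
  have hC0 := C.2
  have hC0' := C'.2
  apply LipschitzOnWith.of_dist_le_mul
  rintro x ⟨⟨x1, x2⟩, x3, x4⟩ y ⟨⟨y1, y2⟩, y3, y4⟩
  rw [Real.coe_toNNReal _ (by positivity)]
  have n1 := hC.dist_le_mul x x1 y y1
  have n2 := hC'.dist_le_mul x x2 y y2
  rw [dist_eq_norm, dist_eq_norm] at n1 n2
  rw [dist_eq_norm, dist_eq_norm]
  have m1 : ‖f x - f y‖ * ‖g x‖ ≤ (C * ‖x - y‖) * (‖g p‖ + 1) :=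
    mul_le_mul n1 x4.le (norm_nonneg _) (by positivity)
  have m2 : ‖f y‖ * ‖g x - g y‖ ≤ (‖f p‖ + 1) * (C' * ‖x - y‖) :=
    mul_le_mul y3.le n2 (norm_nonneg _) (by positivity)
  calc _ ≤ ‖f x - f y‖ * ‖g x‖ + ‖f y‖ * ‖g x - g y‖ := hm _ _ _ _
    _ ≤ (C * ‖x - y‖) * (‖g p‖ + 1) + (‖f p‖ + 1) * (C' * ‖x - y‖) := add_le_add m1 m2
    _ = _ := by ring

theorem LipOn.smul {F G : Type*} [NormedAddCommGroup F] [NormedAddCommGroup G] [NormedSpace ℝ G]
    {f : F → ℝ} {g : F → G} {U : Set F} (hf : LipOn f U) (hg : LipOn g U) :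
    LipOn (fun p => f p • g p) U := by
  refine LipOn.bilin (fun a c => a • c) (fun a a' c c' => ?_) hf hg
  have e : a • c - a' • c' = (a - a') • c + a' • (c - c') := by
    rw [sub_smul, smul_sub]
    abel
  rw [e]
  refine (norm_add_le _ _).trans (le_of_eq ?_)
  rw [norm_smul, norm_smul]

theorem comp1_diff (η η' : Al d 1) (T T' : E d →L[ℝ] E d) :
    ‖η.compContinuousLinearMap T - η'.compContinuousLinearMap T'‖ ≤
      ‖η - η'‖ * ‖T‖ + ‖η'‖ * ‖T - T'‖ := by
  have e1 : η.compContinuousLinearMap T - η'.compContinuousLinearMap T' =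
      (η - η').compContinuousLinearMap T + η'.compContinuousLinearMap (T - T') := by
    rw [← comp1_sub]
    apply ContinuousAlternatingMap.ext
    intro v
    change η _ - η' _ = (η _ - η' _) + (η' _ - η' _)
    ring
  rw [e1]
  exact (norm_add_le _ _).trans (add_le_add (comp1_norm _ _) (comp1_norm _ _))

/-- pull-backs of locally Lipschitz one-forms -/
theorem LipOn.pull {b : E d → Al d 1} {f : E d → E d} {U W : Set (E d)} (hb : LipOn b W)
    (hU : IsOpen U) (hf : ContDiffOn ℝ ∞ f U) (hfW : ∀ p ∈ U, f p ∈ W) :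
    LipOn (fun p => (b (f p)).compContinuousLinearMap (fderiv ℝ f p)) U := by
  have h2 : LipOn f U := lipOn_smooth hU hf
  have h3 : LipOn (fderiv ℝ f) U := lipOn_smooth hU (hf.fderiv_of_isOpen hU (by simp))
  exact LipOn.bilin (fun (η : Al d 1) (T : E d →L[ℝ] E d) => η.compContinuousLinearMap T)
    (fun η η' T T' => comp1_diff η η' T T') (hb.comp h2 hfW) h3

/-- uniform balls -/
theorem unif_ball {G : Type*} [PseudoEMetricSpace G] {Φ : E d → G} {O : Set (E d)}
    (h : LipOn Φ O) {T : E d → E d} (hT : Continuous T) {ε : ℝ}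
    (hTO : ∀ y, ‖y‖ ≤ ε → T y ∈ O) :
    ∃ r : ℝ, 0 < r ∧ ∃ C : NNReal, ∀ y, ‖y‖ ≤ ε → LipschitzOnWith C Φ (Metric.ball (T y) r) := by
  have hc : IsCompact (Metric.closedBall (0 : E d) ε) := isCompact_closedBall 0 ε
  have key : ∃ r : ℝ, 0 < r ∧ ∃ C : NNReal, ∀ y ∈ Metric.closedBall (0 : E d) ε,
      LipschitzOnWith C Φ (Metric.ball (T y) r) := by
    refine hc.induction_on (p := fun S => ∃ r : ℝ, 0 < r ∧ ∃ C : NNReal, ∀ y ∈ S,
      LipschitzOnWith C Φ (Metric.ball (T y) r)) ?_ ?_ ?_ ?_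
    · exact ⟨1, one_pos, 0, fun y hy => absurd hy (notMem_empty y)⟩
    · rintro s t hst ⟨r, hr, C, hC⟩
      exact ⟨r, hr, C, fun y hy => hC y (hst hy)⟩
    · rintro s t ⟨r, hr, C, hC⟩ ⟨r', hr', C', hC'⟩
      refine ⟨min r r', lt_min hr hr', max C C', ?_⟩
      rintro y (hy | hy)
      · exact ((hC y hy).weaken (le_max_left _ _)).mono
          (Metric.ball_subset_ball (min_le_left _ _))
      · exact ((hC' y hy).weaken (le_max_right _ _)).mono
          (Metric.ball_subset_ball (min_le_right _ _))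
    · intro y hy
      obtain ⟨C, N, hN, hC⟩ := h (T y) (hTO y (mem_closedBall_zero_iff.1 hy))
      obtain ⟨r, hr, hrN⟩ := Metric.mem_nhds_iff.1 hN
      refine ⟨T ⁻¹' Metric.ball (T y) (r / 2), mem_nhdsWithin_of_mem_nhds
        (hT.continuousAt.preimage_mem_nhds (Metric.ball_mem_nhds _ (by linarith))),
        r / 2, by linarith, C, ?_⟩
      intro y' hy'
      refine hC.mono fun x hx => hrN ?_
      rw [Metric.mem_ball] at *
      have h1 : dist (T y') (T y) < r / 2 := hy'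
      have h2 := dist_triangle x (T y') (T y)
      linarith
  obtain ⟨r, hr, C, hC⟩ := key
  exact ⟨r, hr, C, fun y hy => hC y (mem_closedBall_zero_iff.2 hy)⟩

/-- the exterior derivative of the average of a Lipschitz one-form -/
theorem JJ1_der {χ ρ : E d → ℝ} (hχ : ContDiff ℝ ∞ χ) {Φ : E d → Al d 1} {p₀ : E d}
    {ε r b : ℝ} {C : NNReal} (hρ : Moll ε ρ) (hε : 0 ≤ ε) (hr : 0 < r)
    (hL : ∀ y, ‖y‖ ≤ ε → LipschitzOnWith C Φ (Metric.ball (p₀ + χ p₀ • y) r))
    (hf : StronglyMeasurable Φ) (hb : ∀ q, ‖Φ q‖ ≤ b) (hd : DifferentiableAt ℝ (JJ1 ρ χ Φ) p₀)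
    {Ψ : E d → Al d 2} {b' : ℝ} (hfΨ : StronglyMeasurable Ψ) (hbΨ : ∀ q, ‖Ψ q‖ ≤ b')
    (hae : ∀ᵐ y : E d, ‖y‖ ≤ ε → DifferentiableAt ℝ Φ (p₀ + χ p₀ • y) ∧
      extDeriv Φ (p₀ + χ p₀ • y) = Ψ (p₀ + χ p₀ • y)) :
    extDeriv (JJ1 ρ χ Φ) p₀ = JJ ρ χ Ψ p₀ := by
  have hρc := moll_cs hρ
  obtain ⟨δ, hδ, M, hM⟩ := F_lip hχ hr hε hL hb
  set F : E d → E d → Al d 1 := fun y p =>
    (Φ (p + χ p • y)).compContinuousLinearMap (LL (fderiv ℝ χ p) y) with hF
  have hFeq : ∀ y, F y = fun p => (Φ ((fun q => q + χ q • y) p)).compContinuousLinearMap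
      (fderiv ℝ (fun q => q + χ q • y) p) := by
    intro y
    funext p
    rw [T_fderiv hχ]
  have hTd : ∀ y, ContDiffAt ℝ ∞ (fun q => q + χ q • y) p₀ := fun y =>
    (contDiff_id.add (hχ.smul contDiff_const)).contDiffAt
  -- differentiability of the integrand
  have hFd : ∀ y, DifferentiableAt ℝ Φ (p₀ + χ p₀ • y) → DifferentiableAt ℝ (F y) p₀ := by
    intro y hy
    have hχd : DifferentiableAt ℝ χ p₀ := hχ.differentiable (by simp) p₀
    have h1 : DifferentiableAt ℝ (fun q => q + χ q • y) p₀ :=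
      (hTd y).differentiableAt (by simp)
    have h2 : DifferentiableAt ℝ (fun p => Φ (p + χ p • y)) p₀ :=
      DifferentiableAt.comp (f := fun q => q + χ q • y) p₀ hy h1
    have hdχ : ContDiff ℝ ∞ (fderiv ℝ χ) := hχ.fderiv_right (by simp)
    have h3 : DifferentiableAt ℝ (fun p => LL (fderiv ℝ χ p) y) p₀ := by
      have h4 : ContDiff ℝ ∞ (fun p => LL (fderiv ℝ χ p) y) := by
        unfold LL
        exact contDiff_const.add (hdχ.smulRight contDiff_const)
      exact h4.contDiffAt.differentiableAt (by simp)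
    have h5 : DifferentiableAt ℝ
        (fun q : Al d 1 × (E d →L[ℝ] E d) => q.1.compContinuousLinearMap q.2)
        (Φ (p₀ + χ p₀ • y), LL (fderiv ℝ χ p₀) y) := by
      have h6 : ContDiffAt ℝ ∞
          (fun q : Al d 1 × (E d →L[ℝ] E d) => q.1.compContinuousLinearMap q.2)
          (Φ (p₀ + χ p₀ • y), LL (fderiv ℝ χ p₀) y) :=
        comp1_contDiffAt contDiffAt_fst contDiffAt_snd
      exact h6.differentiableAt (by simp)
    exact DifferentiableAt.comp
      (f := fun p => (Φ (p + χ p • y), LL (fderiv ℝ χ p) y)) p₀ h5 (h2.prodMk h3)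
  have hFe : ∀ y, DifferentiableAt ℝ Φ (p₀ + χ p₀ • y) → extDeriv (F y) p₀ =
      (extDeriv Φ (p₀ + χ p₀ • y)).compContinuousLinearMap (LL (fderiv ℝ χ p₀) y) := by
    intro y hy
    have e3 := extDeriv_pullback (f := fun q => q + χ q • y) (r := ∞) (x := p₀)
      hy (hTd y) smooth2
    rw [hFeq y, e3, T_fderiv hχ]
  -- the directional derivatives
  have hder : ∀ (w : E d) (v : Fin 1 → E d),
      Integrable (fun y => ρ y * (fderiv ℝ (F y) p₀ w) v) ∧
      (fderiv ℝ (JJ1 ρ χ Φ) p₀ w) v = ∫ y, ρ y * (fderiv ℝ (F y) p₀ w) v := by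
    intro w v
    let ev : (Al d 1) →L[ℝ] ℝ := ContinuousAlternatingMap.apply ℝ (E d) ℝ v
    have hev : ∀ η : Al d 1, ev η = η v := fun η => rfl
    set G : ℝ → E d → ℝ := fun t y => ρ y * ev (F y (p₀ + t • w)) with hG
    have hGint : ∀ t, Integrable (G t) := by
      intro t
      have h1 := ev.integrable_comp (JJ1_int (χ := χ) hρ.smooth.continuous hρc hf hb (p₀ + t • w))
      refine h1.congr (Eventually.of_forall fun y => ?_)
      dsimp only
      rw [map_smul, smul_eq_mul]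
    have hGe : ∀ t, ∫ y, G t y = ev (JJ1 ρ χ Φ (p₀ + t • w)) := by
      intro t
      unfold JJ1
      rw [← ev.integral_comp_comm (JJ1_int (χ := χ) hρ.smooth.continuous hρc hf hb (p₀ + t • w))]
      refine integral_congr_ae (Eventually.of_forall fun y => ?_)
      dsimp only
      rw [map_smul, smul_eq_mul]
    have hline : HasDerivAt (fun t : ℝ => p₀ + t • w) w 0 := by
      have h1 : HasDerivAt (fun t : ℝ => t • w) ((1 : ℝ) • w) 0 :=
        (hasDerivAt_id (0 : ℝ)).smul_const w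
      rw [one_smul] at h1
      exact h1.const_add p₀
    have hz : p₀ + (0 : ℝ) • w = p₀ := by rw [zero_smul, add_zero]
    have hdiff : ∀ᵐ y : E d, HasDerivAt (fun t => G t y) (ρ y * ev (fderiv ℝ (F y) p₀ w)) 0 := by
      filter_upwards [hae] with y hy
      by_cases hyε : ‖y‖ ≤ ε
      · have h1 : HasFDerivAt (F y) (fderiv ℝ (F y) p₀) p₀ := (hFd y (hy hyε).1).hasFDerivAt
        have h2 : HasDerivAt (fun t : ℝ => F y (p₀ + t • w)) (fderiv ℝ (F y) p₀ w) 0 := by
          rw [← hz] at h1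
          have := h1.comp_hasDerivAt (0 : ℝ) hline
          rw [hz] at this
          exact this
        exact (ev.hasFDerivAt.comp_hasDerivAt (0 : ℝ) h2).const_mul (ρ y)
      · rw [not_le] at hyε
        have h0 : ρ y = 0 := hρ.supp y hyε.le
        simp only [hG, h0, zero_mul]
        exact hasDerivAt_const _ _
    -- the measurability of the derivative
    have hmeas : AEStronglyMeasurable (fun y => ρ y * ev (fderiv ℝ (F y) p₀ w)) volume := by
      have hlim : ∀ᵐ y : E d, Tendsto (fun n : ℕ => ((n : ℝ) + 1) * (G (1 / ((n : ℝ) + 1)) y - G 0 y))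
          atTop (𝓝 (ρ y * ev (fderiv ℝ (F y) p₀ w))) := by
        filter_upwards [hdiff] with y hy
        have h1 := hy.tendsto_slope
        have h2 : Tendsto (fun n : ℕ => (1 : ℝ) / ((n : ℝ) + 1)) atTop (𝓝[≠] 0) := by
          rw [tendsto_nhdsWithin_iff]
          refine ⟨tendsto_one_div_add_atTop_nhds_zero_nat, Eventually.of_forall fun n => ?_⟩
          have : (0 : ℝ) < (n : ℝ) + 1 := by positivity
          exact (one_div_pos.2 this).ne'
        have h3 := h1.comp h2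
        refine h3.congr fun n => ?_
        have : (0 : ℝ) < (n : ℝ) + 1 := by positivity
        simp only [Function.comp, slope, vsub_eq_sub, smul_eq_mul, sub_zero, one_div, inv_inv]
      refine aestronglyMeasurable_of_tendsto_ae atTop (fun n => ?_) hlim
      exact ((hGint _).sub (hGint 0)).const_mul _ |>.aestronglyMeasurable
    -- the Lipschitz bound
    obtain ⟨s, hs, hsδ⟩ : ∃ s ∈ 𝓝 (0 : ℝ), ∀ t ∈ s, p₀ + t • w ∈ Metric.ball p₀ δ := by
      have h1 : Tendsto (fun t : ℝ => p₀ + t • w) (𝓝 0) (𝓝 p₀) := by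
        have := hline.continuousAt.tendsto
        rwa [hz] at this
      exact ⟨_, h1 (Metric.ball_mem_nhds p₀ hδ), fun t ht => ht⟩
    have hevn : ∀ η : Al d 1, |ev η| ≤ ‖ev‖ * ‖η‖ := fun η => ev.le_opNorm η
    have hlip : ∀ᵐ y : E d, LipschitzOnWith (Real.nnabs (ρ y * (‖ev‖ * (M * ‖w‖))))
        (fun t => G t y) s := by
      refine Eventually.of_forall fun y => ?_
      apply LipschitzOnWith.of_dist_le_mul
      intro t ht t' ht'
      have hK0 : 0 ≤ ρ y * (‖ev‖ * (M * ‖w‖)) := by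
        have := hρ.nonneg y
        have := M.2
        positivity
      rw [Real.coe_nnabs, abs_of_nonneg hK0, Real.dist_eq]
      by_cases hyε : ‖y‖ ≤ ε
      · have h1 := (hM y hyε).dist_le_mul _ (hsδ t ht) _ (hsδ t' ht')
        have h2 : dist (p₀ + t • w) (p₀ + t' • w) = dist t t' * ‖w‖ := by
          rw [dist_eq_norm, Real.dist_eq, add_sub_add_left_eq_sub, ← sub_smul, norm_smul,
            Real.norm_eq_abs]
        rw [h2, dist_eq_norm] at h1
        have h3 : G t y - G t' y = ρ y * ev (F y (p₀ + t • w) - F y (p₀ + t' • w)) := by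
          simp only [hG]
          rw [map_sub]
          ring
        rw [h3, abs_mul, abs_of_nonneg (hρ.nonneg y)]
        have h4 := (hevn (F y (p₀ + t • w) - F y (p₀ + t' • w))).trans
          (mul_le_mul_of_nonneg_left h1 (norm_nonneg ev))
        calc ρ y * |ev (F y (p₀ + t • w) - F y (p₀ + t' • w))|
            ≤ ρ y * (‖ev‖ * (M * (dist t t' * ‖w‖))) :=
              mul_le_mul_of_nonneg_left h4 (hρ.nonneg y)
          _ = _ := by ring
      · rw [not_le] at hyε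
        have h0 : ρ y = 0 := hρ.supp y hyε.le
        simp only [hG, h0, zero_mul, sub_self, abs_zero, le_refl]
    have hbi : Integrable (fun y => ρ y * (‖ev‖ * (M * ‖w‖))) := (moll_int hρ).mul_const _
    obtain ⟨i1, i2⟩ := hasDerivAt_integral_of_dominated_loc_of_lip (μ := volume) (F := G)
      (F' := fun y => ρ y * ev (fderiv ℝ (F y) p₀ w)) hs
      (Eventually.of_forall fun t => (hGint t).aestronglyMeasurable) (hGint 0) hmeas hlip hbi hdiff
    refine ⟨i1, ?_⟩
    have h5 : HasDerivAt (fun t => ∫ y, G t y) (ev (fderiv ℝ (JJ1 ρ χ Φ) p₀ w)) 0 := by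
      simp_rw [hGe]
      have h6 : HasFDerivAt (JJ1 ρ χ Φ) (fderiv ℝ (JJ1 ρ χ Φ) p₀) p₀ := hd.hasFDerivAt
      have h7 : HasDerivAt (fun t : ℝ => JJ1 ρ χ Φ (p₀ + t • w)) (fderiv ℝ (JJ1 ρ χ Φ) p₀ w) 0 := by
        rw [← hz] at h6
        have := h6.comp_hasDerivAt (0 : ℝ) hline
        rw [hz] at this
        exact this
      exact ev.hasFDerivAt.comp_hasDerivAt (0 : ℝ) h7
    exact h5.unique i2
  apply ContinuousAlternatingMap.ext
  intro u
  have hL2 : extDeriv (JJ1 ρ χ Φ) p₀ u = ∑ i : Fin 2, (-1) ^ (i : ℕ) •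
      (fderiv ℝ (JJ1 ρ χ Φ) p₀ (u i)) (i.removeNth u) := by
    unfold extDeriv
    rw [ContinuousAlternatingMap.alternatizeUncurryFin_apply]
  have hR2 : JJ ρ χ Ψ p₀ u = ∫ y, ρ y *
      ((Ψ (p₀ + χ p₀ • y)).compContinuousLinearMap (LL (fderiv ℝ χ p₀) y)) u := by
    let ev : (Al d 2) →L[ℝ] ℝ := ContinuousAlternatingMap.apply ℝ (E d) ℝ u
    have hev : ∀ η : Al d 2, ev η = η u := fun η => rfl
    unfold JJ
    rw [← hev, ← ev.integral_comp_comm (JJ_int hρ.smooth.continuous hρc hfΨ hbΨ p₀)]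
    refine integral_congr_ae (Eventually.of_forall fun y => ?_)
    dsimp only
    rw [map_smul, smul_eq_mul]
    rfl
  rw [hL2, hR2]
  have h1 : ∀ i : Fin 2, (-1 : ℤ) ^ (i : ℕ) • (fderiv ℝ (JJ1 ρ χ Φ) p₀ (u i)) (i.removeNth u) =
      ∫ y, (-1 : ℤ) ^ (i : ℕ) • (ρ y * (fderiv ℝ (F y) p₀ (u i)) (i.removeNth u)) := by
    intro i
    rw [(hder (u i) (i.removeNth u)).2]
    rcases neg_one_pow_eq_or ℤ (i : ℕ) with h | h
    · rw [h]
      simp
    · rw [h]
      simp only [neg_smul, one_smul]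
      rw [integral_neg]
  have h2 : ∀ i : Fin 2, Integrable (fun y =>
      (-1 : ℤ) ^ (i : ℕ) • (ρ y * (fderiv ℝ (F y) p₀ (u i)) (i.removeNth u))) := by
    intro i
    have h3 := (hder (u i) (i.removeNth u)).1
    rcases neg_one_pow_eq_or ℤ (i : ℕ) with h | h
    · rw [h]
      simpa using h3
    · rw [h]
      simpa using h3.neg
  rw [Finset.sum_congr rfl (fun i _ => h1 i), ← integral_finsetSum _ (fun i _ => h2 i)]
  refine integral_congr_ae ?_
  filter_upwards [hae] with y hy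
  by_cases hyε : ‖y‖ ≤ ε
  · obtain ⟨hy1, hy2⟩ := hy hyε
    rw [← hy2, ← hFe y hy1]
    unfold extDeriv
    rw [ContinuousAlternatingMap.alternatizeUncurryFin_apply, Finset.mul_sum]
    refine Finset.sum_congr rfl fun i _ => ?_
    rcases neg_one_pow_eq_or ℤ (i : ℕ) with h | h <;> rw [h] <;> simp
  · rw [not_le] at hyε
    have h0 : ρ y = 0 := hρ.supp y hyε.le
    rw [h0]
    simp

end Pool.Agent.V8H58.BF
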