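import Pool.Agent.V8H58.BF.LipB

/-!
The exterior derivative commutes with the averages: one-forms which are locally Lipschitz off a
set of capacity zero and smooth off a closed null set.
-/

set_option autoImplicit false

open Set Filter Topology MeasureTheory
open scoped Manifold ContDiff

noncomputable section

namespace Pool.Agent.V8H58.BF

open Pool.Agent.Y501.SY Pool.Agent.Y515.SY Pool.Agent.Y710.SY

variable {d : ℕ}

/-- the bound extends by continuity -/
theorem bd_dense {V k k₁ : Set (E d)} (hVk₁ : IsOpen (V \ k₁)) (h0 : volume k = 0)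
    {b : E d → Al d 1} (hLip : LipOn b (V \ k₁)) {B : ℝ} (hB : ∀ p ∈ V \ k, ‖b p‖ ≤ B) :
    ∀ p ∈ V \ k₁, ‖b p‖ ≤ B := by
  intro p hp
  by_contra hn
  rw [not_le] at hn
  have h1 : ∀ᶠ q in 𝓝 p, B < ‖b q‖ := (hLip.continuousAt hp).norm.eventually_const_lt hn
  have h2 : k ∈ 𝓝 p := by
    filter_upwards [h1, hVk₁.mem_nhds hp] with q hq1 hq2
    by_contra hk
    exact absurd (hB q ⟨hq2.1, hk⟩) (not_le.2 hq1)
  exact absurd h0 (Measure.measure_pos_of_mem_nhds volume h2).ne'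

theorem ind_cont_sm {G : Type*} [NormedAddCommGroup G] [NormedSpace ℝ G] {W : Set (E d)}
    {s : E d → G} (hW : IsOpen W) (hs : ContinuousOn s W) : StronglyMeasurable (W.indicator s) := by
  refine stronglyMeasurable_of_restrict_of_restrict_compl hW.measurableSet ?_ ?_
  · have h1 : W.domRestrict (W.indicator s) = W.domRestrict s := by
      funext x
      exact indicator_of_mem x.2 s
    rw [h1]
    exact (continuousOn_iff_continuous_domRestrict.1 hs).stronglyMeasurable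
  · have h1 : (Wᶜ).domRestrict (W.indicator s) = fun _ => 0 := by
      funext x
      exact indicator_of_notMem x.2 s
    rw [h1]
    exact stronglyMeasurable_const

section

variable {V k k₁ : Set (E d)} {s : E d → Al d 1}

/-- the averages do not see a null set -/
theorem JJ1_null {ρ χ : E d → ℝ} (h0 : volume k = 0) (hk : k₁ ⊆ k) {p : E d} (hp : χ p ≠ 0) :
    JJ1 ρ χ ((V \ k).indicator s) p = JJ1 ρ χ ((V \ k₁).indicator s) p := by
  unfold JJ1
  refine integral_congr_ae ?_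
  filter_upwards [aff_null h0 p hp] with y hy
  have h1 : (V \ k).indicator s (p + χ p • y) = (V \ k₁).indicator s (p + χ p • y) := by
    by_cases hV : p + χ p • y ∈ V
    · rw [indicator_of_mem (show p + χ p • y ∈ V \ k from ⟨hV, hy⟩),
        indicator_of_mem (show p + χ p • y ∈ V \ k₁ from ⟨hV, fun h => hy (hk h)⟩)]
    · rw [indicator_of_notMem (fun h => hV h.1), indicator_of_notMem (fun h => hV h.1)]
  rw [h1]

/-- the case of points at which `χ` is positive -/
theorem J1L_ext (hK : S_KER) {ρ χ : E d → ℝ} {ε : ℝ} (hε : 0 ≤ ε)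
    (hρ : Moll ε ρ) (hχ : ContDiff ℝ ∞ χ)
    (hVk : IsOpen (V \ k)) (hVk₁ : IsOpen (V \ k₁)) (hk : k₁ ⊆ k) (h0 : volume k = 0)
    (hs : ContDiffOn ℝ ∞ s (V \ k)) (hLip : LipOn s (V \ k₁)) {b : ℝ} (hb0 : 0 ≤ b)
    (hsB : ∀ p ∈ V \ k, ‖s p‖ ≤ b) (hdB : ∀ p ∈ V \ k, ‖extDeriv s p‖ ≤ b)
    {Q : Set (E d)} (hQV : Q ⊆ V) (hcap : Cap (k₁ ∩ Q))
    {p₀ : E d} (hp : 0 < χ p₀) (hball : ∀ y, ‖y‖ ≤ ε → p₀ + χ p₀ • y ∈ Q) :
    extDeriv (JJ1 ρ χ ((V \ k).indicator s)) p₀ =
      JJ ρ χ ((V \ k).indicator (extDeriv s)) p₀ := by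
  have hsub : V \ k ⊆ V \ k₁ := fun q hq => ⟨hq.1, fun h => hq.2 (hk h)⟩
  have hsB1 : ∀ p ∈ V \ k₁, ‖s p‖ ≤ b := bd_dense hVk₁ h0 hLip hsB
  have hcs : ContinuousOn s (V \ k₁) := fun q hq => (hLip.continuousAt hq).continuousWithinAt
  have hevJ : JJ1 ρ χ ((V \ k).indicator s) =ᶠ[𝓝 p₀] JJ1 ρ χ ((V \ k₁).indicator s) := by
    filter_upwards [(hχ.continuous.tendsto p₀).eventually_const_lt hp] with p hp1
    exact JJ1_null h0 hk hp1.ne'
  rw [hevJ.extDeriv_eq]
  set Φ : E d → Al d 1 := (V \ k₁).indicator s with hΦ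
  set Ψ : E d → Al d 2 := (V \ k).indicator (extDeriv s) with hΨ
  have hf : StronglyMeasurable Φ := ind_cont_sm hVk₁ hcs
  have hb : ∀ q, ‖Φ q‖ ≤ b := ind1_bd hb0 hsB1
  have hfΨ : StronglyMeasurable Ψ := ind_sm hVk (ext_sm hVk hs)
  have hbΨ : ∀ q, ‖Ψ q‖ ≤ b := ind_bd hb0 hdB
  have hρc := moll_cs hρ
  rw [← sub_eq_zero]
  apply ContinuousAlternatingMap.ext
  intro u
  change (extDeriv (JJ1 ρ χ Φ) p₀ - JJ ρ χ Ψ p₀) u = 0
  choose Ci hCi0 hCi using fun i : Fin 2 =>
    JJ1_fd hK hχ hp hρ.smooth hρc (i.removeNth u 0)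
  obtain ⟨C1, hC1⟩ := (hK d ρ χ hρ.smooth hρc hχ p₀ hp).2
  set l : ℝ := 1 + ‖fderiv ℝ χ p₀‖ * ε with hl
  have hl0 : 0 ≤ l := by positivity
  have key : ∀ δ' : ℝ, 0 < δ' → |(extDeriv (JJ1 ρ χ Φ) p₀ - JJ ρ χ Ψ p₀) u| ≤
      ((3 * b * l ^ 2) * |C1| * (∏ i, ‖u i‖) + ∑ i, Ci i * b * ‖u i‖) * δ' := by
    intro δ' hδ'
    obtain ⟨η, hη, hη0, hη1, hηk, -, hηc, hηv, hηi⟩ :=
      hcap univ isOpen_univ (subset_univ _) δ' hδ'
    set s1 : E d → Al d 1 := fun q => (1 - η q) • Φ q with hs1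
    set s2 : E d → Al d 1 := fun q => η q • Φ q with hs2
    have hf1 : StronglyMeasurable s1 :=
      (continuous_const.sub hη.continuous).stronglyMeasurable.smul hf
    have hf2 : StronglyMeasurable s2 := hη.continuous.stronglyMeasurable.smul hf
    have hb1 : ∀ q, ‖s1 q‖ ≤ b := by
      intro q
      rw [hs1, norm_smul, Real.norm_of_nonneg (by linarith [hη1 q])]
      have h1 : (1 - η q) * ‖Φ q‖ ≤ 1 * b :=
        mul_le_mul (by linarith [hη0 q]) (hb q) (norm_nonneg _) zero_le_one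
      rwa [one_mul] at h1
    have hb2' : ∀ q, ‖s2 q‖ ≤ η q * b := by
      intro q
      rw [hs2, norm_smul, Real.norm_of_nonneg (hη0 q)]
      exact mul_le_mul_of_nonneg_left (hb q) (hη0 q)
    have hb2 : ∀ q, ‖s2 q‖ ≤ b := fun q => (hb2' q).trans
      (mul_le_of_le_one_left hb0 (hη1 q))
    have hsum : JJ1 ρ χ Φ = JJ1 ρ χ s1 + JJ1 ρ χ s2 := by
      funext p
      rw [Pi.add_apply, ← JJ1_add hρ.smooth.continuous hρc hf1 hb1 hf2 hb2]
      congr 1
      funext q
      simp only [hs1, hs2]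
      rw [← add_smul, sub_add_cancel, one_smul]
    have hd1 : DifferentiableAt ℝ (JJ1 ρ χ s1) p₀ :=
      (JJ1_smooth hK hχ hp hρ.smooth hρc hf1 hb1).differentiableAt (by simp)
    have hd2 : DifferentiableAt ℝ (JJ1 ρ χ s2) p₀ :=
      (JJ1_smooth hK hχ hp hρ.smooth hρc hf2 hb2).differentiableAt (by simp)
    rw [hsum, extDeriv_add hd1 hd2]
    -- the small part
    have hηI : Integrable η := hη.continuous.integrable_of_hasCompactSupport hηc
    have hi2 : Integrable s2 :=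
      (hηI.mul_const b).mono' hf2.aestronglyMeasurable (Eventually.of_forall hb2')
    have hv3 : (volume : Measure (E d)).real (Function.support η) ≤ δ' := by
      unfold Measure.real
      exact ENNReal.toReal_le_of_le_ofReal hδ'.le hηv.le
    have hm2 : ∫ x, ‖s2 x‖ ≤ b * δ' := by
      have h1 : ∫ x, ‖s2 x‖ = ∫ x in Function.support η, ‖s2 x‖ := by
        refine (setIntegral_eq_integral_of_forall_compl_eq_zero fun t ht => ?_).symm
        rw [Function.notMem_support] at ht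
        simp only [hs2]
        rw [ht, zero_smul, norm_zero]
      have h2 : ‖∫ x in Function.support η, ‖s2 x‖‖ ≤
          b * (volume : Measure (E d)).real (Function.support η) :=
        norm_setIntegral_le_of_norm_le_const (hηv.trans ENNReal.ofReal_lt_top) fun t _ => by
          rw [norm_norm]
          exact hb2 t
      rw [h1]
      exact (le_abs_self _).trans (h2.trans (mul_le_mul_of_nonneg_left hv3 hb0))
    have hmη : ∫ x, η x ≤ δ' := by
      have h1 : ∫ x, η x = ∫ x in Function.support η, η x := by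
        refine (setIntegral_eq_integral_of_forall_compl_eq_zero fun t ht => ?_).symm
        rw [Function.notMem_support] at ht
        exact ht
      have h2 : ‖∫ x in Function.support η, η x‖ ≤
          1 * (volume : Measure (E d)).real (Function.support η) :=
        norm_setIntegral_le_of_norm_le_const (hηv.trans ENNReal.ofReal_lt_top) fun t _ => by
          rw [Real.norm_of_nonneg (hη0 t)]
          exact hη1 t
      rw [h1]
      rw [one_mul] at h2
      exact (le_abs_self _).trans (h2.trans hv3)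
    have part2 : |extDeriv (JJ1 ρ χ s2) p₀ u| ≤ (∑ i, Ci i * b * ‖u i‖) * δ' := by
      rw [extDeriv_apply hd2, Finset.sum_mul]
      refine (Finset.abs_sum_le_sum_abs _ _).trans (Finset.sum_le_sum fun i _ => ?_)
      have h1 : |(-1 : ℤ) ^ i.val • fderiv ℝ (fun x => JJ1 ρ χ s2 x (i.removeNth u)) p₀ (u i)| =
          |fderiv ℝ (fun x => JJ1 ρ χ s2 x (i.removeNth u)) p₀ (u i)| := by
        rcases neg_one_pow_eq_or ℤ i.val with h | h <;> rw [h] <;> simp
      have h2 : |fderiv ℝ (fun x => JJ1 ρ χ s2 x (i.removeNth u)) p₀ (u i)| ≤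
          Ci i * b * ‖u i‖ * δ' := by
        have h3 := (fderiv ℝ (fun x => JJ1 ρ χ s2 x (i.removeNth u)) p₀).le_opNorm (u i)
        have h4 := hCi i s2 b hf2 hb2 hi2
        rw [← one_eta (i.removeNth u)] at h4
        rw [Real.norm_eq_abs] at h3
        refine h3.trans ?_
        calc _ ≤ Ci i * (b * δ') * ‖u i‖ :=
              mul_le_mul_of_nonneg_right (h4.trans (mul_le_mul_of_nonneg_left hm2 (hCi0 i)))
                (norm_nonneg _)
          _ = _ := by ring
      refine le_trans (le_of_eq ?_) h2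
      convert h1 using 2
    -- the Lipschitz part
    set O : Set (E d) := (V \ k₁) ∪ interior {x | η x = 1} with hO
    have hη' : ContDiff ℝ ∞ (fun x => 1 - η x) := contDiff_const.sub hη
    have hLs1 : LipOn s1 O := by
      intro q hq
      rcases hq with hq | hq
      · have h1 : LipOn (fun x => (1 - η x) • s x) (V \ k₁) :=
          LipOn.smul (lipOn_smooth hVk₁ hη'.contDiffOn) hLip
        refine (h1.congr fun p hpV => ?_) q hq
        filter_upwards [hVk₁.mem_nhds hpV] with x hx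
        simp only [hs1, hΦ]
        rw [indicator_of_mem hx]
      · refine ⟨0, interior {x | η x = 1}, isOpen_interior.mem_nhds hq, ?_⟩
        have h2 : ∀ x ∈ interior {x | η x = 1}, s1 x = 0 := by
          intro x hx
          have hx1 : x ∈ {x | η x = 1} := interior_subset hx
          rw [mem_ofPred_eq] at hx1
          simp only [hs1]
          rw [hx1, sub_self, zero_smul]
        intro x hx y hy
        rw [h2 x hx, h2 y hy, edist_self]
        exact bot_le
    have hkint : ∀ q ∈ k₁ ∩ Q, q ∈ interior {x | η x = 1} := by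
      intro q hq
      rw [mem_interior_iff_mem_nhds]
      exact (eventually_nhdsSet_iff_forall.1 hηk) q hq
    have hQO : ∀ y, ‖y‖ ≤ ε → p₀ + χ p₀ • y ∈ O := by
      intro y hy
      have h1 := hball y hy
      by_cases hk' : p₀ + χ p₀ • y ∈ k₁
      · exact Or.inr (hkint _ ⟨hk', h1⟩)
      · exact Or.inl ⟨hQV h1, hk'⟩
    have hev2 : ∀ q ∈ V \ k, s1 =ᶠ[𝓝 q] fun x => (1 - η x) • s x := by
      intro q hq
      filter_upwards [hVk.mem_nhds hq] with x hx
      simp only [hs1, hΦ]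
      rw [indicator_of_mem (hsub hx)]
    have hsm : ContDiffOn ℝ ∞ s1 (V \ k) := by
      intro q hq
      exact ((hη'.contDiffAt.smul (hs.contDiffAt (hVk.mem_nhds hq))).congr_of_eventuallyEq
        (hev2 q hq)).contDiffWithinAt
    have hdη : Continuous (fun x => ‖fderiv ℝ η x‖) := (hη.continuous_fderiv (by simp)).norm
    obtain ⟨M, hM⟩ : ∃ M, ∀ x, ‖fderiv ℝ η x‖ ≤ M :=
      (hη.continuous_fderiv (by simp)).bounded_above_of_compact_support (hηc.fderiv ℝ)
    have hM0 : 0 ≤ M := (norm_nonneg _).trans (hM 0)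
    -- the formula for the exterior derivative
    have h7 : ∀ q ∈ V \ k, extDeriv s1 q - extDeriv s q = -(η q • extDeriv s q) +
        ContinuousAlternatingMap.alternatizeUncurryFin
          ((fderiv ℝ (fun x => 1 - η x) q).smulRight (s q)) := by
      intro q hqVk
      rw [(hev2 q hqVk).extDeriv_eq, ext1_smul ((hη'.differentiable (by simp)) q)
        ((hs.contDiffAt (hVk.mem_nhds hqVk)).differentiableAt (by simp)), sub_smul,
        one_smul]
      abel
    set γ : E d → ℝ := fun x => η x + 2 * ‖fderiv ℝ η x‖ with hγ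
    have hγ0 : ∀ x, 0 ≤ γ x := fun x => by
      have := hη0 x
      simp only [hγ]
      positivity
    have hγc : Continuous γ := hη.continuous.add (continuous_const.mul hdη)
    have hγb : ∀ x, |γ x| ≤ 1 + 2 * M := fun x => by
      rw [abs_of_nonneg (hγ0 x)]
      have h1 := hη1 x
      have h2 := hM x
      simp only [hγ]
      linarith
    have hdiffq : ∀ q ∈ V \ k, ‖extDeriv s1 q - extDeriv s q‖ ≤ b * γ q := by
      intro q hqVk
      rw [h7 q hqVk]
      have h6 : fderiv ℝ (fun x => 1 - η x) q = -fderiv ℝ η q := fderiv_const_sub _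
      refine (norm_add_le _ _).trans ?_
      have h8 := wedge2_norm (fderiv ℝ (fun x => 1 - η x) q) (s q)
      rw [h6, norm_neg] at h8
      rw [h6, norm_neg, norm_smul, Real.norm_of_nonneg (hη0 q)]
      have h9 := mul_le_mul_of_nonneg_left (hsB q hqVk) (norm_nonneg (fderiv ℝ η q))
      have h10 := mul_le_mul_of_nonneg_left (hdB q hqVk) (hη0 q)
      have h11 : b * γ q = η q * b + 2 * (‖fderiv ℝ η q‖ * b) := by
        simp only [hγ]
        ring
      rw [h11]
      linarith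
    set Ψ1 : E d → Al d 2 := (V \ k).indicator (extDeriv s1) with hΨ1
    have hfΨ1 : StronglyMeasurable Ψ1 := ind_sm hVk (ext_sm hVk hsm)
    have hbΨ1 : ∀ q, ‖Ψ1 q‖ ≤ b + b * (1 + 2 * M) := by
      refine ind_bd (by positivity) fun q hq => ?_
      have h1 : extDeriv s1 q = extDeriv s q + (extDeriv s1 q - extDeriv s q) := by abel
      rw [h1]
      refine (norm_add_le _ _).trans (add_le_add (hdB q hq) ?_)
      refine (hdiffq q hq).trans (mul_le_mul_of_nonneg_left ?_ hb0)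
      exact (le_abs_self _).trans (hγb q)
    have hT : Continuous (fun y : E d => p₀ + χ p₀ • y) := by fun_prop
    obtain ⟨r, hr, CL, hCL⟩ := unif_ball hLs1 hT hQO
    have hnull := aff_null h0 p₀ hp.ne'
    have h2 : extDeriv (JJ1 ρ χ s1) p₀ = JJ ρ χ Ψ1 p₀ := by
      refine JJ1_der hχ hρ hε hr hCL hf1 hb1 hd1 hfΨ1 hbΨ1 ?_
      filter_upwards [hnull] with y hy hyε
      have hq : p₀ + χ p₀ • y ∈ V \ k := ⟨hQV (hball y hyε), hy⟩
      refine ⟨(hsm.contDiffAt (hVk.mem_nhds hq)).differentiableAt (by simp), ?_⟩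
      rw [hΨ1, indicator_of_mem hq]
    have hdηi : Integrable (fun x => ‖fderiv ℝ η x‖) :=
      hdη.integrable_of_hasCompactSupport (hηc.fderiv ℝ).norm
    have hγi : Integrable γ := hηI.add (hdηi.const_mul 2)
    have hγm : ∫ x, |γ x| ≤ 3 * δ' := by
      have h1 : ∫ x, |γ x| = ∫ x, (η x + 2 * ‖fderiv ℝ η x‖) := by
        refine integral_congr_ae (Eventually.of_forall fun x => ?_)
        exact abs_of_nonneg (hγ0 x)
      rw [h1, integral_add hηI (hdηi.const_mul 2), integral_const_mul]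
      linarith
    have hgi : Integrable (fun y => ρ y * γ (p₀ + χ p₀ • y)) :=
      II_int (χ := χ) hρ.smooth.continuous hρc hγc.stronglyMeasurable hγb p₀
    have hint1 := JJ_int (χ := χ) hρ.smooth.continuous hρc hfΨ1 hbΨ1 p₀
    have hint2 := JJ_int (χ := χ) hρ.smooth.continuous hρc hfΨ hbΨ p₀
    have hdiff : ‖JJ ρ χ Ψ1 p₀ - JJ ρ χ Ψ p₀‖ ≤
        ∫ y, (b * l ^ 2) * (ρ y * γ (p₀ + χ p₀ • y)) := by
      unfold JJ
      rw [← integral_sub hint1 hint2]
      refine norm_integral_le_of_norm_le (hgi.const_mul _) ?_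
      filter_upwards [hnull] with y hyk
      by_cases hy : ‖y‖ ≤ ε
      · set q : E d := p₀ + χ p₀ • y with hq
        have hqVk : q ∈ V \ k := ⟨hQV (hball y hy), hyk⟩
        have h4 : ‖Ψ1 q - Ψ q‖ ≤ b * γ q := by
          rw [hΨ1, hΨ, indicator_of_mem hqVk, indicator_of_mem hqVk]
          exact hdiffq q hqVk
        have h5 : ‖LL (fderiv ℝ χ p₀) y‖ ≤ l := by
          refine (LL_norm _ _).trans ?_
          rw [hl]
          have := mul_le_mul_of_nonneg_left hy (norm_nonneg (fderiv ℝ χ p₀))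
          linarith
        have h6 : ‖(Ψ1 q - Ψ q).compContinuousLinearMap (LL (fderiv ℝ χ p₀) y)‖ ≤
            (b * γ q) * l ^ 2 :=
          (comp_norm _ _).trans (mul_le_mul h4 (pow_le_pow_left₀ (norm_nonneg _) h5 2)
            (by positivity) (mul_nonneg hb0 (hγ0 q)))
        have h7 : ρ y • (Ψ1 q).compContinuousLinearMap (LL (fderiv ℝ χ p₀) y) -
            ρ y • (Ψ q).compContinuousLinearMap (LL (fderiv ℝ χ p₀) y) =
            ρ y • (Ψ1 q - Ψ q).compContinuousLinearMap (LL (fderiv ℝ χ p₀) y) :=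
          (smul_sub _ _ _).symm
        rw [h7, norm_smul, Real.norm_of_nonneg (hρ.nonneg y)]
        calc _ ≤ ρ y * ((b * γ q) * l ^ 2) :=
              mul_le_mul_of_nonneg_left h6 (hρ.nonneg y)
          _ = _ := by ring
      · rw [not_le] at hy
        rw [hρ.supp y hy.le, zero_smul, zero_smul, sub_zero, norm_zero, zero_mul, mul_zero]
    have part1 : |(extDeriv (JJ1 ρ χ s1) p₀ - JJ ρ χ Ψ p₀) u| ≤
        (3 * b * l ^ 2) * |C1| * (∏ i, ‖u i‖) * δ' := by
      rw [h2]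
      have h4 := (JJ ρ χ Ψ1 p₀ - JJ ρ χ Ψ p₀).le_opNorm u
      rw [Real.norm_eq_abs] at h4
      rw [integral_const_mul] at hdiff
      have h5 := (hC1 γ hγc.aestronglyMeasurable ⟨_, hγb⟩ hγi).1
      have h6 : ∫ y, ρ y * γ (p₀ + χ p₀ • y) ≤ |C1| * (3 * δ') := by
        refine (le_abs_self _).trans (h5.trans ?_)
        have h7 : 0 ≤ ∫ x, |γ x| := integral_nonneg fun x => abs_nonneg _
        calc C1 * ∫ x, |γ x| ≤ |C1| * ∫ x, |γ x| :=
              mul_le_mul_of_nonneg_right (le_abs_self _) h7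
          _ ≤ |C1| * (3 * δ') := mul_le_mul_of_nonneg_left hγm (abs_nonneg _)
      have h7 : 0 ≤ ∏ i, ‖u i‖ := Finset.prod_nonneg fun i _ => norm_nonneg _
      calc |(JJ ρ χ Ψ1 p₀ - JJ ρ χ Ψ p₀) u|
          ≤ ‖JJ ρ χ Ψ1 p₀ - JJ ρ χ Ψ p₀‖ * ∏ i, ‖u i‖ := h4
        _ ≤ (b * l ^ 2 * (|C1| * (3 * δ'))) * ∏ i, ‖u i‖ :=
            mul_le_mul_of_nonneg_right (hdiff.trans
              (mul_le_mul_of_nonneg_left h6 (by positivity))) h7
        _ = _ := by ring
    calc |(extDeriv (JJ1 ρ χ s1) p₀ + extDeriv (JJ1 ρ χ s2) p₀ - JJ ρ χ Ψ p₀) u|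
        = |(extDeriv (JJ1 ρ χ s1) p₀ - JJ ρ χ Ψ p₀) u + extDeriv (JJ1 ρ χ s2) p₀ u| := by
          congr 1
          change (extDeriv (JJ1 ρ χ s1) p₀ u + extDeriv (JJ1 ρ χ s2) p₀ u) - JJ ρ χ Ψ p₀ u =
            (extDeriv (JJ1 ρ χ s1) p₀ u - JJ ρ χ Ψ p₀ u) + extDeriv (JJ1 ρ χ s2) p₀ u
          ring
      _ ≤ _ := (abs_add_le _ _).trans (add_le_add part1 part2)
      _ = _ := by ring
  set Z : ℝ := (extDeriv (JJ1 ρ χ Φ) p₀ - JJ ρ χ Ψ p₀) u with hZ
  set Ct : ℝ := (3 * b * l ^ 2) * |C1| * (∏ i, ‖u i‖) + ∑ i, Ci i * b * ‖u i‖ with hCt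
  by_contra hne
  have hpos : 0 < |Z| := abs_pos.2 hne
  have hCt0 : 0 ≤ Ct := by
    have h1 := key 1 one_pos
    linarith [abs_nonneg Z]
  have h1 := key (|Z| / (2 * (Ct + 1))) (by positivity)
  have h2 : Ct * (|Z| / (2 * (Ct + 1))) ≤ |Z| / 2 := by
    rw [mul_div_assoc', div_le_div_iff₀ (by positivity) two_pos]
    nlinarith
  linarith

/-- the exterior derivative commutes with the averages -/
theorem t_J1L (hK : S_KER) (hSM : S_SM) {Q : Set (E d)} {χ ρ : E d → ℝ} {b : E d → Al d 1}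
    {B ε : ℝ} (hVk : IsOpen (V \ k)) (hVk₁ : IsOpen (V \ k₁)) (hk : k₁ ⊆ k) (h0 : volume k = 0)
    (hQV : Q ⊆ V) (hcap : Cap (k₁ ∩ Q)) (hχ : ContDiff ℝ ∞ χ) (hε : 0 < ε)
    (hρ : Moll ε ρ) (hb : ContDiffOn ℝ ∞ b (V \ k)) (hLip : LipOn b (V \ k₁)) (hB : 0 ≤ B)
    (hbB : ∀ p ∈ V \ k, ‖b p‖ ≤ B) (hdB : ∀ p ∈ V \ k, ‖extDeriv b p‖ ≤ B) {p₀ : E d}
    (hp₀ : (p₀ ∈ V \ k ∧ χ p₀ = 0) ∨ (0 < χ p₀ ∧ ∀ y, ‖y‖ ≤ ε → p₀ + χ p₀ • y ∈ Q)) :
    ContDiffAt ℝ ∞ (JJ1 ρ χ ((V \ k).indicator b)) p₀ ∧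
      extDeriv (JJ1 ρ χ ((V \ k).indicator b)) p₀ =
        JJ ρ χ ((V \ k).indicator (extDeriv b)) p₀ := by
  rcases hp₀ with ⟨hp, hp0⟩ | ⟨hp, hball⟩
  · exact JJ1_off hSM hρ hχ hVk hb hp hp0
  · refine ⟨JJ1_smooth hK hχ hp hρ.smooth (moll_cs hρ) (ind1_sm hVk hb) (ind1_bd hB hbB), ?_⟩
    exact J1L_ext hK hε.le hρ hχ hVk hVk₁ hk h0 hb hLip hB hbB hdB hQV hcap hp hball

end

end Pool.Agent.V8H58.BF
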