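import Pool.Agent.V8H58.BF.LipD
import Pool.Agent.Y501.SY.StepP
import Pool.Agent.Y891.SY.PatchP

/-!
One-forms on manifolds which are locally Lipschitz off a closed set.
-/

set_option autoImplicit false

open Set Filter Topology MeasureTheory
open scoped Manifold ContDiff

noncomputable section

namespace Pool.Agent.V8H58.BF

open Pool.Agent.Y501.SY
open Pool.Agent.Y455.SY (A B AB BA)
open Pool.Agent.Y487.SY (comp_chain)

theorem lip_pull_at {d : ℕ} {b : E d → Pool.Agent.Y515.SY.Al d 1} {f : E d → E d} {p : E d}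
    (hb : LipOn b {f p}) (hf : ContDiffAt ℝ ∞ f p) :
    LipOn (fun q => (b (f q)).compContinuousLinearMap (fderiv ℝ f q)) {p} := by
  have h2 : LipOn f {p} := by
    intro q hq
    rw [mem_singleton_iff] at hq
    rw [hq]
    exact (hf.of_le (by norm_cast) : ContDiffAt ℝ 1 f p).exists_lipschitzOnWith
  have h3 : LipOn (fderiv ℝ f) {p} := by
    intro q hq
    rw [mem_singleton_iff] at hq
    rw [hq]
    have h4 : ContDiffAt ℝ 1 (fderiv ℝ f) p := hf.fderiv_right (m := 1) (by norm_cast)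
    exact h4.exists_lipschitzOnWith
  exact LipOn.bilin (fun (η : Pool.Agent.Y515.SY.Al d 1) (T : E d →L[ℝ] E d) =>
    η.compContinuousLinearMap T) (fun η η' T T' => comp1_diff η η' T T')
    (hb.comp h2 fun q hq => by rw [mem_singleton_iff] at hq; rw [hq]; rfl) h3

section

variable {d : ℕ} {X : Type} [TopologicalSpace X] [ChartedSpace (E d) X]

/-- The one-form `β` is locally Lipschitz off `K₁`. -/
def LipOff (β : Form d X 1) (K₁ : Set X) : Prop :=
  ∀ (U : Set (E d)) (φ : E d → X), IsOpen U → ContMDiffOn (𝓡 d) (𝓡 d) ∞ φ U →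
    (∀ p ∈ U, φ p ∉ K₁) → LipOn (pb φ β) U

variable [IsManifold (𝓡 d) ∞ X]

/-- the pull-back of a form in terms of its pull-back by a chart -/
theorem pb_chart (x₀ : X) (β : Form d X 1) {U : Set (E d)} {φ : E d → X} (hU : IsOpen U)
    (hφ : ContMDiffOn (𝓡 d) (𝓡 d) ∞ φ U) {p₀ : E d} (hp₀ : p₀ ∈ U)
    (hps : φ p₀ ∈ (chartAt (E d) x₀).source) :
    ContDiffAt ℝ ∞ (chartAt (E d) x₀ ∘ φ) p₀ ∧ pb φ β =ᶠ[𝓝 p₀] fun p =>
      (pb (chartAt (E d) x₀).symm β ((chartAt (E d) x₀ ∘ φ) p)).compContinuousLinearMap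
        (fderiv ℝ (chartAt (E d) x₀ ∘ φ) p) := by
  have hcs : ContMDiffOn (𝓡 d) (𝓡 d) ∞ (chartAt (E d) x₀) (chartAt (E d) x₀).source :=
    contMDiffOn_chart
  have hU' : IsOpen (U ∩ φ ⁻¹' (chartAt (E d) x₀).source) :=
    hφ.continuousOn.isOpen_inter_preimage hU (chartAt (E d) x₀).open_source
  have hψm : ContMDiffOn (𝓡 d) (𝓡 d) ∞ (chartAt (E d) x₀ ∘ φ)
      (U ∩ φ ⁻¹' (chartAt (E d) x₀).source) :=
    hcs.comp (hφ.mono inter_subset_left) fun p hp => hp.2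
  have hψ : ContDiffOn ℝ ∞ (chartAt (E d) x₀ ∘ φ) (U ∩ φ ⁻¹' (chartAt (E d) x₀).source) :=
    contMDiffOn_iff_contDiffOn.1 hψm
  refine ⟨hψ.contDiffAt (hU'.mem_nhds ⟨hp₀, hps⟩), ?_⟩
  filter_upwards [hU'.mem_nhds ⟨hp₀, hps⟩] with p hp
  have hφp : MDifferentiableAt (𝓡 d) (𝓡 d) φ p :=
    ((hφ p hp.1).contMDiffAt (hU.mem_nhds hp.1)).mdifferentiableAt (by simp)
  have hcp : MDifferentiableAt (𝓡 d) (𝓡 d) (chartAt (E d) x₀) (φ p) :=
    ((hcs _ hp.2).contMDiffAt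
      ((chartAt (E d) x₀).open_source.mem_nhds hp.2)).mdifferentiableAt (by simp)
  rw [← comp_chain (pb (chartAt (E d) x₀).symm β ((chartAt (E d) x₀ ∘ φ) p)) hcp hφp]
  have ht : chartAt (E d) x₀ (φ p) ∈ (chartAt (E d) x₀).target :=
    (chartAt (E d) x₀).map_source hp.2
  have h1 : (pb (chartAt (E d) x₀).symm β (chartAt (E d) x₀ (φ p))).compContinuousLinearMap
      (mfderiv (𝓡 d) (𝓡 d) (chartAt (E d) x₀) (φ p)) = β (φ p) := by
    have h2 : ∀ q ∈ (chartAt (E d) x₀).target,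
        (pb (chartAt (E d) x₀).symm β q).compContinuousLinearMap
        (mfderiv (𝓡 d) (𝓡 d) (chartAt (E d) x₀) ((chartAt (E d) x₀).symm q)) =
          β ((chartAt (E d) x₀).symm q) := by
      intro q hq
      ext v
      show (β ((chartAt (E d) x₀).symm q) : (E d) [⋀^Fin 1]→L[ℝ] ℝ)
        (fun i => A x₀ q (B x₀ q (v i))) = (β ((chartAt (E d) x₀).symm q) :
          (E d) [⋀^Fin 1]→L[ℝ] ℝ) v
      congr 1
      funext i
      exact AB x₀ hq (v i)
    have h3 := h2 _ ht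
    rw [(chartAt (E d) x₀).left_inv hp.2] at h3
    exact h3
  unfold pb at h1 ⊢
  rw [Function.comp_apply, h1]
  rfl

theorem lipOff_of_charts {β : Form d X 1} {K K₁ : Set X} (hK : IsClosed K)
    (hβ : SmoothOff β K)
    (h : ∀ x ∈ K, x ∉ K₁ → LipOn (pb (chartAt (E d) x).symm β) {chartAt (E d) x x}) :
    LipOff β K₁ := by
  intro U φ hU hφ hφK p hp
  have hpx : LipOn (pb (chartAt (E d) (φ p)).symm β) {chartAt (E d) (φ p) (φ p)} := by
    by_cases hxK : φ p ∈ K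
    · exact h _ hxK (hφK p hp)
    · have h1 : IsOpen ((chartAt (E d) (φ p)).target ∩ (chartAt (E d) (φ p)).symm ⁻¹' Kᶜ) :=
        (chartAt (E d) (φ p)).isOpen_inter_preimage_symm hK.isOpen_compl
      have h2 := hβ _ (chartAt (E d) (φ p)).symm h1 (contMDiffOn_chart_symm.mono
        inter_subset_left) (fun q hq => hq.2)
      refine (lipOn_smooth h1 h2).mono ?_
      rw [singleton_subset_iff]
      refine ⟨mem_chart_target (E d) _, ?_⟩
      rw [mem_preimage, (chartAt (E d) (φ p)).left_inv (mem_chart_source (E d) (φ p))]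
      exact hxK
  obtain ⟨h1, h2⟩ := pb_chart (φ p) β hU hφ hp (mem_chart_source (E d) (φ p))
  have h3 := lip_pull_at (f := chartAt (E d) (φ p) ∘ φ) (p := p) hpx h1
  exact (h3.congr fun q hq => by rw [mem_singleton_iff] at hq; rw [hq]; exact h2) p rfl

omit [IsManifold (𝓡 d) ∞ X] in
theorem LipOff.add {β β' : Form d X 1} {K₁ : Set X} (h : LipOff β K₁) (h' : IsSmooth β') :
    LipOff (β + β') K₁ := by
  intro U φ hU hφ hK
  rw [pb_add]
  exact (h U φ hU hφ hK).add (lipOn_smooth hU (h' U φ hU hφ))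

/-- the Lipschitz property after patching -/
theorem patch_lip [T2Space X] {x₀ : X} {O K₁ K₁' : Set X} {N' : Set (E d)}
    {b' : E d → (E d) [⋀^Fin 1]→L[ℝ] ℝ} {β β₁ : Form d X 1}
    (hOs : O ⊆ (chartAt (E d) x₀).source) (hO : IsOpen O) (hK₁ : IsClosed K₁)
    (hN' : IsCompact N') (hN'O : N' ⊆ chartAt (E d) x₀ '' O)
    (hkN' : ∀ x ∈ K₁, x ∉ K₁' → x ∈ O)
    (hb' : LipOn b' ((chartAt (E d) x₀ '' O) \ (chartAt (E d) x₀ '' (K₁' ∩ O))))
    (hβ : LipOff β K₁)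
    (h4 : ∀ x, x ∉ O ∨ chartAt (E d) x₀ x ∉ N' → β₁ x = β x)
    (h5 : ∀ p ∈ chartAt (E d) x₀ '' O, pb (chartAt (E d) x₀).symm β₁ p = b' p) :
    LipOff β₁ K₁' := by
  intro U φ hU hφ hφK p hp
  have himt : chartAt (E d) x₀ '' O ⊆ (chartAt (E d) x₀).target := by
    rintro _ ⟨x, hx, rfl⟩
    exact (chartAt (E d) x₀).map_source (hOs hx)
  have hsymm : ∀ p ∈ chartAt (E d) x₀ '' O, (chartAt (E d) x₀).symm p ∈ O := by
    rintro _ ⟨x, hx, rfl⟩
    rw [(chartAt (E d) x₀).left_inv (hOs hx)]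
    exact hx
  have himg : IsOpen (chartAt (E d) x₀ '' O) :=
    (chartAt (E d) x₀).isOpen_image_of_subset_source hO hOs
  by_cases hpO : φ p ∈ O
  · obtain ⟨h1, h2⟩ := pb_chart x₀ β₁ hU hφ hp (hOs hpO)
    have hmem : chartAt (E d) x₀ (φ p) ∈
        (chartAt (E d) x₀ '' O) \ (chartAt (E d) x₀ '' (K₁' ∩ O)) := by
      refine ⟨⟨φ p, hpO, rfl⟩, ?_⟩
      rintro ⟨y, hy, hyx⟩
      have hyx' : y = φ p := (chartAt (E d) x₀).injOn (hOs hy.2) (hOs hpO) hyx
      exact hφK p hp (hyx' ▸ hy.1)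
    have h6 : LipOn (pb (chartAt (E d) x₀).symm β₁) {(chartAt (E d) x₀ ∘ φ) p} := by
      have h7 : LipOn b' {(chartAt (E d) x₀ ∘ φ) p} :=
        hb'.mono (singleton_subset_iff.2 hmem)
      refine h7.congr fun q hq => ?_
      rw [mem_singleton_iff] at hq
      rw [hq]
      filter_upwards [himg.mem_nhds hmem.1] with q' hq'
      exact h5 q' hq'
    have h3 := lip_pull_at h6 h1
    exact (h3.congr fun q hq => by rw [mem_singleton_iff] at hq; rw [hq]; exact h2) p rfl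
  · -- the compact set of `X` corresponding to `N'`
    obtain ⟨M, hM⟩ : ∃ M, M = (chartAt (E d) x₀).symm '' N' := ⟨_, rfl⟩
    have hMc : IsCompact M := by
      rw [hM]
      exact hN'.image_of_continuousOn
        ((chartAt (E d) x₀).continuousOn_symm.mono (hN'O.trans himt))
    have hMcl : IsClosed M := hMc.isClosed
    have hMO : M ⊆ O := by
      rw [hM]
      rintro _ ⟨p, hp, rfl⟩
      exact hsymm p (hN'O hp)
    have hMN : ∀ x ∈ O, x ∉ M → chartAt (E d) x₀ x ∉ N' := by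
      intro x hx hxM h
      apply hxM
      rw [hM]
      exact ⟨_, h, (chartAt (E d) x₀).left_inv (hOs hx)⟩
    have hU' : IsOpen (U ∩ φ ⁻¹' (Mᶜ ∩ K₁ᶜ)) :=
      hφ.continuousOn.isOpen_inter_preimage hU (hMcl.isOpen_compl.inter hK₁.isOpen_compl)
    have hp₀' : p ∈ U ∩ φ ⁻¹' (Mᶜ ∩ K₁ᶜ) :=
      ⟨hp, fun h => hpO (hMO h), fun h => hpO (hkN' _ h (hφK p hp))⟩
    have h1 := hβ _ φ hU' (hφ.mono inter_subset_left) (fun q hq => hq.2.2)
    refine (h1.congr fun q hq => ?_) p hp₀'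
    filter_upwards [hU'.mem_nhds hq] with q' hq'
    unfold pb
    rw [h4 (φ q') ?_]
    by_cases h : φ q' ∈ O
    · exact Or.inr (hMN _ h hq'.2.1)
    · exact Or.inl h

end

end Pool.Agent.V8H58.BF
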