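import Pool.Agent.V8H58.BF.LipE

/-!
One step of the regularization, for one-forms which are locally Lipschitz off a small set.
-/

set_option autoImplicit false

open Set Filter Topology MeasureTheory
open scoped Manifold ContDiff

noncomputable section

namespace Pool.Agent.V8H58.BF

open Pool.Agent.Y501.SY Pool.Agent.Y455.SY

theorem stepL (hI : S_IMM) (hQ : S_QB) (hHH : S_HH) (hKer : S_KER)
    (hSm : S_SM) (hCap : S_CAP) (hPa : S_PATCHP) (hL : S_LOCAL) (hG : S_GEN) (hP : S_PERT)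
    {d m : ℕ} {X : Type} [TopologicalSpace X] [ChartedSpace (E d) X] [IsManifold (𝓡 d) ∞ X]
    [T2Space X] {F : X → E m} (hF : ContMDiff (𝓡 d) (𝓡 m) ∞ F)
    (hFi : ∀ x, Function.Injective (mfderiv (𝓡 d) (𝓡 m) F x)) {J : End d X}
    (hJ : IsAlmostComplex J) (hd : 1 ≤ d) {σ₀ : Form d X 2} (hσ₀ : IsSmooth σ₀)
    (hσ₀c : IsClosedForm σ₀) (z : X) :
    ∃ W : Set X, IsOpen W ∧ z ∈ W ∧ ∀ (K K₁ : Set X) (β : Form d X 1) (w : Form d X 2),
      IsClosed K → IsClosed K₁ → K₁ ⊆ K →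
      (∀ x₀ : X, volume (chartAt (E d) x₀ '' (K ∩ (chartAt (E d) x₀).source)) = 0) →
      (∀ x₀ : X, μH[(d : ℝ) - 1] (chartAt (E d) x₀ '' (K₁ ∩ (chartAt (E d) x₀).source)) = 0) →
      UTP F J σ₀ β w K → LipOff β K₁ → ∃ (β' : Form d X 1) (w' : Form d X 2),
        UTP F J σ₀ β' w' (K \ W) ∧ LipOff β' (K₁ \ W) := by
  have hA : IsOpen (univ : Set X) := isOpen_univ
  have hz : z ∈ (univ : Set X) := mem_univ z
  -- the local taming form
  obtain ⟨g, Bc, hg, hτt⟩ := hL d X J hJ z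
  obtain ⟨τ, hτ⟩ : ∃ τ : Form d X 2, τ = ∑ j, ∑ k, Bc j k • dfdg (g j) (g k) := ⟨_, rfl⟩
  rw [← hτ] at hτt
  have hτs : IsSmooth τ ∧ IsClosedForm τ := by
    rw [hτ]
    refine closed_sum _ fun j _ => closed_sum _ fun k _ => closed_smul ?_ _
    have h1 := (Pair.gen (g j) (g k) (hg j) (hg k)).props hG
    exact ⟨h1.2.1, h1.2.2.2⟩
  -- the ball
  obtain ⟨r, hr, hball⟩ : ∃ r : ℝ, 0 < r ∧ ∀ p ∈ Metric.closedBall (chartAt (E d) z z) r,
      p ∈ (chartAt (E d) z).target ∧ (chartAt (E d) z).symm p ∈ (univ : Set X) ∧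
        TamesAt τ J ((chartAt (E d) z).symm p) := by
    have h1 : ContinuousAt (chartAt (E d) z).symm (chartAt (E d) z z) :=
      (chartAt (E d) z).continuousAt_symm (mem_chart_target (E d) z)
    have h2 : (chartAt (E d) z).symm (chartAt (E d) z z) = z :=
      (chartAt (E d) z).left_inv (mem_chart_source (E d) z)
    have h3 : ∀ᶠ x in 𝓝 ((chartAt (E d) z).symm (chartAt (E d) z z)), x ∈ (univ : Set X) ∧ TamesAt τ J x := by
      rw [h2]
      exact (show ∀ᶠ x in 𝓝 z, x ∈ (univ : Set X) from hA.mem_nhds hz).and (TamesAt.nhds hP hJ hτs.1 hτt)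
    have h4 := h1.eventually h3
    have h5 : ∀ᶠ p in 𝓝 (chartAt (E d) z z), p ∈ (chartAt (E d) z).target :=
      (chartAt (E d) z).open_target.mem_nhds (mem_chart_target (E d) z)
    obtain ⟨r, hr, h6⟩ := Metric.nhds_basis_closedBall.mem_iff.1 (h5.and h4)
    exact ⟨r, hr, fun p hp => ⟨(h6 hp).1, (h6 hp).2.1, (h6 hp).2.2⟩⟩
  obtain ⟨p₀, hp₀⟩ : ∃ p₀, p₀ = chartAt (E d) z z := ⟨_, rfl⟩
  rw [← hp₀] at hball
  obtain ⟨e, he⟩ : ∃ e, e = chartAt (E d) z := ⟨_, rfl⟩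
  have hzs : z ∈ e.source := by rw [he]; exact mem_chart_source (E d) z
  have hez : e z = p₀ := by rw [he, hp₀]
  have hVt : Metric.closedBall p₀ r ⊆ e.target := fun p hp => by
    rw [he]; exact (hball p hp).1
  have hV : Metric.ball p₀ r ⊆ e.target := Metric.ball_subset_closedBall.trans hVt
  have hN : IsCompact (Metric.closedBall p₀ r) := isCompact_closedBall p₀ r
  obtain ⟨ci, Ci, hci, hCi, hnm⟩ := hI d m X F hF hFi z (Metric.closedBall p₀ r) hN
    (by rw [← he]; exact hVt)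
  obtain ⟨⟨Cq, hCq, hq⟩, hlow⟩ := hQ d X J hJ τ hτs.1 z (Metric.closedBall p₀ r) hN
    (by rw [← he]; exact hVt)
  obtain ⟨cq, hcq, hlow⟩ := hlow fun p hp => (hball p hp).2.2
  obtain ⟨⟨Cs, hCs, hs₀b⟩, -⟩ := hQ d X J hJ σ₀ hσ₀ z (Metric.closedBall p₀ r) hN
    (by rw [← he]; exact hVt)
  have hW : IsOpen (e.source ∩ e ⁻¹' Metric.ball p₀ (r / 2)) :=
    e.isOpen_inter_preimage Metric.isOpen_ball
  have hO : IsOpen (e.source ∩ e ⁻¹' Metric.ball p₀ r) :=
    e.isOpen_inter_preimage Metric.isOpen_ball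
  obtain ⟨W, hWd⟩ : ∃ W, W = e.source ∩ e ⁻¹' Metric.ball p₀ (r / 2) := ⟨_, rfl⟩
  obtain ⟨O, hOd⟩ : ∃ O, O = e.source ∩ e ⁻¹' Metric.ball p₀ r := ⟨_, rfl⟩
  rw [← hWd] at hW
  rw [← hOd] at hO
  have heO : e '' O = Metric.ball p₀ r := by
    apply Subset.antisymm
    · rintro _ ⟨x, hx, rfl⟩
      rw [hOd] at hx
      exact hx.2
    · intro p hp
      refine ⟨e.symm p, ?_, e.right_inv (hV hp)⟩
      rw [hOd]
      refine ⟨e.map_target (hV hp), ?_⟩
      rw [mem_preimage, e.right_inv (hV hp)]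
      exact hp
  have hOs : O ⊆ e.source := by rw [hOd]; exact inter_subset_left
  have hWO : W ⊆ O := by
    rw [hWd, hOd]
    exact inter_subset_inter_right _ (preimage_mono (Metric.ball_subset_ball (by linarith)))
  have hWs : ∀ p ∈ Metric.ball p₀ r, e.symm p ∈ W ↔ p ∈ Metric.ball p₀ (r / 2) := by
    intro p hp
    rw [hWd]
    constructor
    · rintro ⟨_, h⟩
      rwa [mem_preimage, e.right_inv (hV hp)] at h
    · intro h
      refine ⟨e.map_target (hV hp), ?_⟩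
      rwa [mem_preimage, e.right_inv (hV hp)]
  -- the cut-off function
  obtain ⟨χ, hχ⟩ : ∃ χ : ContDiffBump p₀, χ.rOut = r / 2 :=
    ⟨⟨r / 4, r / 2, by positivity, by linarith⟩, rfl⟩
  have hχt : tsupport χ = Metric.closedBall p₀ (r / 2) := by rw [χ.tsupport_eq, hχ]
  have hχ0 : ∀ p, χ p = 0 ↔ p ∉ Metric.ball p₀ (r / 2) := by
    intro p
    rw [← hχ, ← χ.support_eq, Function.notMem_support]
  have htV : Metric.closedBall p₀ (r / 2) ⊆ Metric.ball p₀ r :=
    Metric.closedBall_subset_ball (by linarith)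
  refine ⟨W, hW, ?_, ?_⟩
  · rw [hWd]
    refine ⟨hzs, ?_⟩
    rw [mem_preimage, hez]
    exact Metric.mem_ball_self (by linarith)
  intro K K₁ β w hK hK₁ hKK hH0 hH hUT hLO
  obtain ⟨B₁, hB₁, hwB⟩ := hUT.bdd
  obtain ⟨B₂, hB₂, hβB⟩ := hUT.bddβ
  obtain ⟨c₁, hc₁, hwc⟩ := hUT.pos
  obtain ⟨k, hk⟩ : ∃ k, k = Metric.ball p₀ r ∩ e.symm ⁻¹' K := ⟨_, rfl⟩
  have hVk : Metric.ball p₀ r \ k = Metric.ball p₀ r ∩ e.symm ⁻¹' Kᶜ := by
    rw [hk]
    ext p
    simp only [Set.mem_sdiff, mem_inter_iff, mem_preimage, mem_compl_iff]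
    tauto
  have hVko : IsOpen (Metric.ball p₀ r \ k) := by
    rw [hVk]
    have h1 : IsOpen (e.target ∩ e.symm ⁻¹' Kᶜ) := e.isOpen_inter_preimage_symm hK.isOpen_compl
    have h2 : Metric.ball p₀ r ∩ e.symm ⁻¹' Kᶜ = Metric.ball p₀ r ∩ (e.target ∩ e.symm ⁻¹' Kᶜ) := by
      rw [← inter_assoc, inter_eq_left.2 hV]
    rw [h2]
    exact Metric.isOpen_ball.inter h1
  have hsK : ∀ p ∈ Metric.ball p₀ r \ k, e.symm p ∉ K := by
    intro p hp
    rw [hVk] at hp
    exact hp.2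
  obtain ⟨k₁, hk₁⟩ : ∃ k₁, k₁ = Metric.ball p₀ r ∩ e.symm ⁻¹' K₁ := ⟨_, rfl⟩
  have hkk : k₁ ⊆ k := by
    rw [hk, hk₁]
    exact inter_subset_inter_right _ (preimage_mono hKK)
  have hVk₁ : Metric.ball p₀ r \ k₁ = Metric.ball p₀ r ∩ e.symm ⁻¹' K₁ᶜ := by
    rw [hk₁]
    ext p
    simp only [Set.mem_sdiff, mem_inter_iff, mem_preimage, mem_compl_iff]
    tauto
  have hVk₁o : IsOpen (Metric.ball p₀ r \ k₁) := by
    rw [hVk₁]
    have h1 : IsOpen (e.target ∩ e.symm ⁻¹' K₁ᶜ) := e.isOpen_inter_preimage_symm hK₁.isOpen_compl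
    have h2 : Metric.ball p₀ r ∩ e.symm ⁻¹' K₁ᶜ =
        Metric.ball p₀ r ∩ (e.target ∩ e.symm ⁻¹' K₁ᶜ) := by
      rw [← inter_assoc, inter_eq_left.2 hV]
    rw [h2]
    exact Metric.isOpen_ball.inter h1
  have hk0 : volume k = 0 := by
    refine measure_mono_null ?_ (hH0 z)
    rw [hk]
    rintro p ⟨hp, hpK⟩
    rw [← he]
    exact ⟨e.symm p, ⟨hpK, e.map_target (hV hp)⟩, e.right_inv (hV hp)⟩
  have hcapk : ∀ Q : Set (E d), IsCompact Q → Q ⊆ Metric.ball p₀ r → Cap (k₁ ∩ Q) := by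
    intro Q hQc hQV
    have h1 : k₁ ∩ Q = Q ∩ e.symm ⁻¹' K₁ := by
      rw [hk₁]
      ext p
      simp only [mem_inter_iff, mem_preimage]
      exact ⟨fun h => ⟨h.2, h.1.2⟩, fun h => ⟨⟨hQV h.1, h.2⟩, h.1⟩⟩
    have h2 : IsClosed (Q ∩ e.symm ⁻¹' K₁) :=
      (e.continuousOn_symm.mono (hQV.trans hV)).preimage_isClosed_of_isClosed hQc.isClosed hK₁
    rw [h1]
    refine hCap d hd _ (hQc.of_isClosed_subset h2 inter_subset_left) ?_
    refine measure_mono_null ?_ (hH z)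
    rintro p ⟨hp, hpK⟩
    rw [← he]
    exact ⟨e.symm p, ⟨hpK, e.map_target (hV (hQV hp))⟩, e.right_inv (hV (hQV hp))⟩
  have hsymm : ContMDiffOn (𝓡 d) (𝓡 d) ∞ (chartAt (E d) z).symm (Metric.ball p₀ r) :=
    contMDiffOn_chart_symm.mono (by rw [← he]; exact hV)
  have hb1 : ContDiffOn ℝ ∞ (pb (chartAt (E d) z).symm β) (Metric.ball p₀ r \ k) :=
    hUT.smβ _ _ hVko (hsymm.mono sdiff_subset) (by rw [← he]; exact hsK)
  have hLb : LipOn (pb (chartAt (E d) z).symm β) (Metric.ball p₀ r \ k₁) :=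
    hLO _ _ hVk₁o (hsymm.mono sdiff_subset) (by
      rw [← he, hVk₁]
      exact fun p hp => hp.2)
  have hs2 : ∀ p ∈ Metric.ball p₀ r \ k, pb (chartAt (E d) z).symm σ₀ p +
      extDeriv (pb (chartAt (E d) z).symm β) p = pb (chartAt (E d) z).symm w p := by
    intro p hp
    have h1 := hUT.isD _ _ hVko (hsymm.mono sdiff_subset) (by rw [← he]; exact hsK) p hp
    rw [h1]
    have h2 : pb (chartAt (E d) z).symm (w - σ₀) p = pb (chartAt (E d) z).symm w p -
      pb (chartAt (E d) z).symm σ₀ p := rfl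
    rw [h2]
    abel
  have hb3 : ∀ p ∈ Metric.ball p₀ r \ k, ‖pb (chartAt (E d) z).symm β p‖ ≤ B₂ * Ci := by
    intro p hp
    refine norm_le1 _ (by positivity) fun v => ?_
    rw [pb_app1]
    have hpc : p ∈ Metric.closedBall p₀ r := Metric.ball_subset_closedBall hp.1
    have h1 := hβB ((chartAt (E d) z).symm p) (by rw [← he]; exact hsK p hp)
      (mfderiv (𝓡 d) (𝓡 d) (chartAt (E d) z).symm p v)
    refine h1.trans ?_
    have h2 := (hnm p hpc v).2
    calc _ ≤ B₂ * (Ci * ‖v‖) := by gcongr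
      _ = B₂ * Ci * ‖v‖ := by ring
  have hs3 : ∀ p ∈ Metric.ball p₀ r \ k, ‖pb (chartAt (E d) z).symm w p‖ ≤ B₁ * Ci * Ci := by
    intro p hp
    refine norm_le2 _ (by positivity) fun v u => ?_
    rw [pb_app2]
    have hpc : p ∈ Metric.closedBall p₀ r := Metric.ball_subset_closedBall hp.1
    have h1 := hwB _ (by rw [← he]; exact hsK p hp)
      (mfderiv (𝓡 d) (𝓡 d) (chartAt (E d) z).symm p v)
      (mfderiv (𝓡 d) (𝓡 d) (chartAt (E d) z).symm p u)
    refine h1.trans ?_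
    have h2 := (hnm p hpc v).2
    have h3 := (hnm p hpc u).2
    have h4 : 0 ≤ nm F ((chartAt (E d) z).symm p)
      (mfderiv (𝓡 d) (𝓡 d) (chartAt (E d) z).symm p u) := norm_nonneg _
    calc _ ≤ B₁ * (Ci * ‖v‖) * (Ci * ‖u‖) := by gcongr
      _ = B₁ * Ci * Ci * ‖v‖ * ‖u‖ := by ring
  have hs4 : ∀ p ∈ Metric.ball p₀ r \ k, ∀ v : E d, c₁ * ci ^ 2 * ‖v‖ ^ 2 ≤
      pb (chartAt (E d) z).symm w p ![v, inChart J z p v] := by
    intro p hp v
    have hpc : p ∈ Metric.closedBall p₀ r := Metric.ball_subset_closedBall hp.1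
    have h0 := Q_eq w J z (p := p) (by rw [← he]; exact hV hp.1) v
    unfold Q at h0
    rw [h0]
    have h1 := hwc ((chartAt (E d) z).symm p) (by rw [← he]; exact hsK p hp)
      (Pool.Agent.Y455.SY.A z p v)
    refine le_trans ?_ h1
    have h2 := (hnm p hpc v).1
    have h3 : (ci * ‖v‖) ^ 2 ≤ nm F ((chartAt (E d) z).symm p)
        (Pool.Agent.Y455.SY.A z p v) ^ 2 := by
      have : 0 ≤ ci * ‖v‖ := by positivity
      exact pow_le_pow_left₀ this h2 2
    calc _ = c₁ * (ci * ‖v‖) ^ 2 := by ring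
      _ ≤ _ := by gcongr
  have ht1 : ContDiffOn ℝ ∞ (pb (chartAt (E d) z).symm τ) (Metric.ball p₀ r) :=
    hτs.1 _ _ Metric.isOpen_ball hsymm
  have ht2 : ∀ p ∈ Metric.ball p₀ r, extDeriv (pb (chartAt (E d) z).symm τ) p = 0 := by
    intro p hp
    have h1 := hτs.2 _ _ Metric.isOpen_ball hsymm p hp
    rw [h1, pb_zero]
    rfl
  have hJc : ContinuousOn (inChart J z) (Metric.ball p₀ r) := (hJ.cont z).mono (by
    rw [← he]; exact hV)
  have hz1 : ContDiffOn ℝ ∞ (pb (chartAt (E d) z).symm σ₀) (Metric.ball p₀ r) :=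
    hσ₀ _ _ Metric.isOpen_ball hsymm
  have hz2 : ∀ p ∈ Metric.ball p₀ r, extDeriv (pb (chartAt (E d) z).symm σ₀) p = 0 := by
    intro p hp
    have h1 := hσ₀c _ _ Metric.isOpen_ball hsymm p hp
    rw [h1, pb_zero]
    rfl
  obtain ⟨b', B', c', hc', g1, gL, g2, g3, g4, g5⟩ := t_RGL hKer hSm hHH
    (V := Metric.ball p₀ r) (k := k) (k₁ := k₁) (χ := χ)
    (s₀ := pb (chartAt (E d) z).symm σ₀) (t := pb (chartAt (E d) z).symm τ)
    (b := pb (chartAt (E d) z).symm β)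
    (Js := inChart J z) (B := max (max (B₁ * Ci * Ci) (B₂ * Ci)) (max Cq Cs))
    (c := min (c₁ * ci ^ 2) cq)
    (lt_min (by positivity) hcq)
    Metric.isOpen_ball hkk hVko hVk₁o hk0 hcapk χ.contDiff
    (fun p => χ.nonneg) χ.hasCompactSupport (by rw [hχt]; exact htV) hz1 hz2
    (fun p hp => ((hs₀b p (Metric.ball_subset_closedBall hp)).1).trans
      ((le_max_right _ _).trans (le_max_right _ _))) ht1 ht2
    (fun p hp => ((hq p (Metric.ball_subset_closedBall hp)).1).trans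
      ((le_max_left _ _).trans (le_max_right _ _))) hb1 hLb
    (fun p hp => (hb3 p hp).trans ((le_max_right _ _).trans (le_max_left _ _)))
    (fun p hp => by
      rw [hs2 p hp]
      exact (hs3 p hp).trans ((le_max_left _ _).trans (le_max_left _ _))) hJc
    (fun p hp => ((hq p (Metric.ball_subset_closedBall hp)).2.1).trans
      ((le_max_left _ _).trans (le_max_right _ _)))
    (fun p hp v => (mul_le_mul_of_nonneg_right (min_le_right _ _) (by positivity)).trans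
      (hlow p (Metric.ball_subset_closedBall hp) v))
    (fun p hp v => by
      rw [hs2 p hp]
      exact (mul_le_mul_of_nonneg_right (min_le_left _ _) (by positivity)).trans (hs4 p hp v))
  -- the new singular set
  have hKW : IsClosed (K \ W) := by
    rw [sdiff_eq]
    exact hK.inter hW.isClosed_compl
  have hset : (chartAt (E d) z '' O) \ (chartAt (E d) z '' ((K \ W) ∩ O)) =
      Metric.ball p₀ r \ (k ∩ {p | χ p = 0}) := by
    rw [← he, heO]
    ext p
    constructor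
    · rintro ⟨hp, hn⟩
      refine ⟨hp, ?_⟩
      rintro ⟨h1, h2⟩
      apply hn
      rw [hk] at h1
      refine ⟨e.symm p, ⟨⟨h1.2, ?_⟩, ?_⟩, e.right_inv (hV hp)⟩
      · rw [hWs p hp]
        exact (hχ0 p).1 h2
      · rw [hOd]
        refine ⟨e.map_target (hV hp), ?_⟩
        rwa [mem_preimage, e.right_inv (hV hp)]
    · rintro ⟨hp, hn⟩
      refine ⟨hp, ?_⟩
      rintro ⟨x, ⟨⟨hxK, hxW⟩, hxO⟩, rfl⟩
      apply hn
      have hxs := hOs hxO
      refine ⟨?_, ?_⟩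
      · rw [hk]
        refine ⟨hp, ?_⟩
        change e.symm (e x) ∈ K
        rwa [e.left_inv hxs]
      · change χ (e x) = 0
        rw [hχ0, ← hWs _ hp, e.left_inv hxs]
        exact hxW
  have hset₁ : (chartAt (E d) z '' O) \ (chartAt (E d) z '' ((K₁ \ W) ∩ O)) =
      Metric.ball p₀ r \ (k₁ ∩ {p | χ p = 0}) := by
    rw [← he, heO]
    ext p
    constructor
    · rintro ⟨hp, hn⟩
      refine ⟨hp, ?_⟩
      rintro ⟨h1, h2⟩
      apply hn
      rw [hk₁] at h1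
      refine ⟨e.symm p, ⟨⟨h1.2, ?_⟩, ?_⟩, e.right_inv (hV hp)⟩
      · rw [hWs p hp]
        exact (hχ0 p).1 h2
      · rw [hOd]
        refine ⟨e.map_target (hV hp), ?_⟩
        rwa [mem_preimage, e.right_inv (hV hp)]
    · rintro ⟨hp, hn⟩
      refine ⟨hp, ?_⟩
      rintro ⟨x, ⟨⟨hxK, hxW⟩, hxO⟩, rfl⟩
      apply hn
      have hxs := hOs hxO
      refine ⟨?_, ?_⟩
      · rw [hk₁]
        refine ⟨hp, ?_⟩
        change e.symm (e x) ∈ K₁
        rwa [e.left_inv hxs]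
      · change χ (e x) = 0
        rw [hχ0, ← hWs _ hp, e.left_inv hxs]
        exact hxW
  obtain ⟨β₁, w₁, f1, f2, f3, f4, f5, f6⟩ := hPa d X z O K (K \ W)
    (Metric.closedBall p₀ (r / 2)) b' β σ₀ w hO
    (by rw [← he]; exact hOs) hKW sdiff_subset (isCompact_closedBall _ _)
    (by rw [← he, heO]; exact htV)
    (by
      intro x hx hx2
      have hxW : x ∈ W := by
        by_contra h
        exact hx2 ⟨hx, h⟩
      refine ⟨hWO hxW, ?_⟩
      rw [← he]
      rw [hWd] at hxW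
      exact Metric.ball_subset_closedBall hxW.2)
    (by rw [hset]; exact g1)
    (by
      intro p hp
      apply g4
      rw [hχ0]
      exact fun h => hp.2 (Metric.ball_subset_closedBall h))
    hσ₀ hσ₀c hUT.smβ hUT.smooth hUT.isD
  have hout : ∀ x, x ∉ O → β₁ x = β x ∧ w₁ x = w x := fun x hx => f4 x (Or.inl hx)
  have hin : ∀ x ∈ O, x ∉ K \ W → ∃ p ∈ Metric.ball p₀ r \ (k ∩ {p | χ p = 0}), e.symm p = x := by
    intro x hx hx2
    refine ⟨e x, ?_, e.left_inv (hOs hx)⟩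
    rw [← hset, ← he]
    refine ⟨⟨x, hx, rfl⟩, ?_⟩
    rintro ⟨y, hy, hyx⟩
    have : y = x := e.injOn (hOs hy.2) (hOs hx) hyx
    rw [this] at hy
    exact hx2 hy.1
  refine ⟨β₁, w₁, ⟨f1, f2, f3, ?_, ?_, ?_⟩, ?_⟩
  · refine ⟨max B₂ (|B'| * ci⁻¹), lt_max_of_lt_left hB₂, ?_⟩
    intro x hx v
    by_cases hxO : x ∈ O
    · obtain ⟨p, hp, rfl⟩ := hin x hxO hx
      have hpc : p ∈ Metric.closedBall p₀ r := Metric.ball_subset_closedBall hp.1
      have hpt : p ∈ (chartAt (E d) z).target := by rw [← he]; exact hV hp.1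
      subst he
      have hv := AB z hpt v
      obtain ⟨v', hv'⟩ : ∃ v', v' = Pool.Agent.Y455.SY.B z p v := ⟨_, rfl⟩
      rw [← hv'] at hv
      have h1 : β₁ ((chartAt (E d) z).symm p) ![v] = b' p ![v'] := by
        have h2 := f5 p (by rw [heO]; exact hp.1)
        rw [← h2, pb_app1]
        change _ = β₁ ((chartAt (E d) z).symm p) ![Pool.Agent.Y455.SY.A z p v']
        rw [hv]
      rw [h1]
      have h3 := le_norm1 (b' p) v'
      have h4 := (hnm p hpc v').1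
      change ci * ‖v'‖ ≤ nm F ((chartAt (E d) z).symm p) (Pool.Agent.Y455.SY.A z p v') at h4
      rw [hv] at h4
      have h6 : ‖v'‖ ≤ ci⁻¹ * nm F ((chartAt (E d) z).symm p) v := by
        rw [inv_mul_eq_div, le_div_iff₀ hci, mul_comm]
        exact h4
      have h8 : ‖b' p‖ ≤ |B'| := (g2 p hp).trans (le_abs_self _)
      have n1 : 0 ≤ nm F ((chartAt (E d) z).symm p) v := norm_nonneg _
      calc |b' p ![v']| ≤ ‖b' p‖ * ‖v'‖ := h3
        _ ≤ |B'| * (ci⁻¹ * nm F ((chartAt (E d) z).symm p) v) := by gcongr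
        _ = (|B'| * ci⁻¹) * nm F ((chartAt (E d) z).symm p) v := by ring
        _ ≤ _ := by
          have := le_max_right B₂ (|B'| * ci⁻¹)
          gcongr
    · rw [(hout x hxO).1]
      have hxK : x ∉ K := fun h => hx ⟨h, fun h' => hxO (hWO h')⟩
      refine (hβB x hxK v).trans ?_
      have := le_max_left B₂ (|B'| * ci⁻¹)
      have n1 : 0 ≤ nm F x v := norm_nonneg _
      gcongr
  · refine ⟨max B₁ (|B'| * ci⁻¹ * ci⁻¹), lt_max_of_lt_left hB₁, ?_⟩
    intro x hx v u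
    by_cases hxO : x ∈ O
    · obtain ⟨p, hp, rfl⟩ := hin x hxO hx
      have hpc : p ∈ Metric.closedBall p₀ r := Metric.ball_subset_closedBall hp.1
      have hpt : p ∈ (chartAt (E d) z).target := by rw [← he]; exact hV hp.1
      subst he
      have hv := AB z hpt v
      have hu := AB z hpt u
      obtain ⟨v', hv'⟩ : ∃ v', v' = Pool.Agent.Y455.SY.B z p v := ⟨_, rfl⟩
      obtain ⟨u', hu'⟩ : ∃ u', u' = Pool.Agent.Y455.SY.B z p u := ⟨_, rfl⟩
      rw [← hv'] at hv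
      rw [← hu'] at hu
      have h1 : w₁ ((chartAt (E d) z).symm p) ![v, u] =
          (pb (chartAt (E d) z).symm σ₀ p + extDeriv b' p) ![v', u'] := by
        have h2 := f6 p (by rw [hset]; exact hp)
        rw [← h2, pb_app2]
        change _ = w₁ ((chartAt (E d) z).symm p) ![Pool.Agent.Y455.SY.A z p v',
          Pool.Agent.Y455.SY.A z p u']
        rw [hv, hu]
      rw [h1]
      have h3 := le_norm2 (pb (chartAt (E d) z).symm σ₀ p + extDeriv b' p) v' u'
      have h4 := (hnm p hpc v').1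
      have h5 := (hnm p hpc u').1
      change ci * ‖v'‖ ≤ nm F ((chartAt (E d) z).symm p) (Pool.Agent.Y455.SY.A z p v') at h4
      change ci * ‖u'‖ ≤ nm F ((chartAt (E d) z).symm p) (Pool.Agent.Y455.SY.A z p u') at h5
      rw [hv] at h4
      rw [hu] at h5
      have h6 : ‖v'‖ ≤ ci⁻¹ * nm F ((chartAt (E d) z).symm p) v := by
        rw [inv_mul_eq_div, le_div_iff₀ hci, mul_comm]
        exact h4
      have h7 : ‖u'‖ ≤ ci⁻¹ * nm F ((chartAt (E d) z).symm p) u := by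
        rw [inv_mul_eq_div, le_div_iff₀ hci, mul_comm]
        exact h5
      have h8 : ‖pb (chartAt (E d) z).symm σ₀ p + extDeriv b' p‖ ≤ |B'| :=
        (g3 p hp).trans (le_abs_self _)
      have n1 : 0 ≤ nm F ((chartAt (E d) z).symm p) v := norm_nonneg _
      have n2 : 0 ≤ nm F ((chartAt (E d) z).symm p) u := norm_nonneg _
      calc |(pb (chartAt (E d) z).symm σ₀ p + extDeriv b' p) ![v', u']|
          ≤ ‖pb (chartAt (E d) z).symm σ₀ p + extDeriv b' p‖ * ‖v'‖ * ‖u'‖ := h3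
        _ ≤ |B'| * (ci⁻¹ * nm F ((chartAt (E d) z).symm p) v) *
            (ci⁻¹ * nm F ((chartAt (E d) z).symm p) u) := by gcongr
        _ = (|B'| * ci⁻¹ * ci⁻¹) * nm F ((chartAt (E d) z).symm p) v *
            nm F ((chartAt (E d) z).symm p) u := by ring
        _ ≤ _ := by
          have := le_max_right B₁ (|B'| * ci⁻¹ * ci⁻¹)
          gcongr
    · rw [(hout x hxO).2]
      have hxK : x ∉ K := fun h => hx ⟨h, fun h' => hxO (hWO h')⟩
      refine (hwB x hxK v u).trans ?_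
      have := le_max_left B₁ (|B'| * ci⁻¹ * ci⁻¹)
      have n1 : 0 ≤ nm F x v := norm_nonneg _
      have n2 : 0 ≤ nm F x u := norm_nonneg _
      gcongr
  · refine ⟨min c₁ (c' * (Ci⁻¹) ^ 2), lt_min hc₁ (by positivity), ?_⟩
    intro x hx v
    by_cases hxO : x ∈ O
    · obtain ⟨p, hp, rfl⟩ := hin x hxO hx
      have hpc : p ∈ Metric.closedBall p₀ r := Metric.ball_subset_closedBall hp.1
      have hpt : p ∈ (chartAt (E d) z).target := by rw [← he]; exact hV hp.1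
      subst he
      have hv := AB z hpt v
      obtain ⟨v', hv'⟩ : ∃ v', v' = Pool.Agent.Y455.SY.B z p v := ⟨_, rfl⟩
      rw [← hv'] at hv
      have h0 := Q_eq w₁ J z hpt v'
      unfold Q at h0
      rw [hv, f6 p (by rw [hset]; exact hp)] at h0
      rw [← h0]
      refine le_trans ?_ (g5 p hp v')
      have h4 := (hnm p hpc v').2
      change nm F ((chartAt (E d) z).symm p) (Pool.Agent.Y455.SY.A z p v') ≤ Ci * ‖v'‖ at h4
      rw [hv] at h4
      have n1 : 0 ≤ nm F ((chartAt (E d) z).symm p) v := norm_nonneg _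
      have h6 : Ci⁻¹ * nm F ((chartAt (E d) z).symm p) v ≤ ‖v'‖ := by
        rw [inv_mul_eq_div, div_le_iff₀ hCi, mul_comm]
        exact h4
      have h7 : (Ci⁻¹ * nm F ((chartAt (E d) z).symm p) v) ^ 2 ≤ ‖v'‖ ^ 2 :=
        pow_le_pow_left₀ (by positivity) h6 2
      calc min c₁ (c' * (Ci⁻¹) ^ 2) * nm F ((chartAt (E d) z).symm p) v ^ 2
          ≤ (c' * (Ci⁻¹) ^ 2) * nm F ((chartAt (E d) z).symm p) v ^ 2 := by
            have := min_le_right c₁ (c' * (Ci⁻¹) ^ 2)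
            gcongr
        _ = c' * (Ci⁻¹ * nm F ((chartAt (E d) z).symm p) v) ^ 2 := by ring
        _ ≤ c' * ‖v'‖ ^ 2 := by gcongr
    · rw [(hout x hxO).2]
      have hxK : x ∉ K := fun h => hx ⟨h, fun h' => hxO (hWO h')⟩
      refine le_trans ?_ (hwc x hxK v)
      have := min_le_left c₁ (c' * (Ci⁻¹) ^ 2)
      gcongr
  · refine patch_lip (x₀ := z) (O := O) (K₁ := K₁) (N' := Metric.closedBall p₀ (r / 2))
      (b' := b') (β := β) (by rw [← he]; exact hOs) hO hK₁ (isCompact_closedBall _ _)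
      (by rw [← he, heO]; exact htV) ?_ ?_ hLO (fun x hx => (f4 x hx).1) f5
    · intro x hx hx2
      have hxW : x ∈ W := by
        by_contra h
        exact hx2 ⟨hx, h⟩
      exact hWO hxW
    · rw [hset₁]
      exact gL

end Pool.Agent.V8H58.BF
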