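import Pool.Agent.V8H58.BF.LipF
import Pool.Agent.Y501.SY.MainP

/-!
Primitives which are locally Lipschitz off a small set: the main theorem.
-/

set_option autoImplicit false

open Set Filter Topology MeasureTheory
open scoped Manifold ContDiff

noncomputable section

namespace Pool.Agent.V8H58.BF

open Pool.Agent.Y501.SY

section

variable {d : ℕ} {X : Type} [TopologicalSpace X] [ChartedSpace (E d) X]
  [IsManifold (𝓡 d) ∞ X]

theorem mainL (hI : S_IMM) (hQ : S_QB) (hGl : S_GLOB) (hHH : S_HH)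
    (hKer : S_KER) (hSm : S_SM) (hCap : S_CAP) (hPa : S_PATCHP) (hd : 1 ≤ d)
    [CompactSpace X] [T2Space X] {J : End d X} (hJ : IsAlmostComplex J) {K K₁ : Set X}
    (hK : IsClosed K) (hK₁ : IsClosed K₁) (hKK : K₁ ⊆ K)
    (hH0 : ∀ x₀ : X, volume (chartAt (E d) x₀ '' (K ∩ (chartAt (E d) x₀).source)) = 0)
    (hH : ∀ x₀ : X, μH[(d : ℝ) - 1] (chartAt (E d) x₀ '' (K₁ ∩ (chartAt (E d) x₀).source)) = 0)
    {σ₀ : Form d X 2} (hσ₀ : IsSmooth σ₀) (hσ₀c : IsClosedForm σ₀) {β : Form d X 1}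
    {σ : Form d X 2} (hβ : SmoothOff β K) (hσ : SmoothOff σ K) (hβσ : IsDOff β (σ - σ₀) K)
    (hLO : LipOff β K₁) (hb1 : ∀ x, BddAt1 β K x) (hb : ∀ x, BddAt σ K x)
    (hpos : ∀ x, x ∉ K → ∀ v : TangentSpace (𝓡 d) x, 0 ≤ σ x ![v, J x v])
    (hthin : ∀ z, ¬ UTAt σ J K z →
      ThinAt2 0 0 J (connectedComponentIn {x | ¬ UTAt σ J K x} z) z) :
    ∃ (α : Form d X 1) (ρ : Form d X 2), IsSmooth α ∧ IsSmooth ρ ∧ IsD α ρ ∧
      IsClosedForm (σ₀ + ρ) ∧ ∀ x, TamesAt (σ₀ + ρ) J x := by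
  classical
  obtain ⟨m, F, hF, -, hFi⟩ := exists_embedding_euclidean_of_compact (I := 𝓡 d) (M := X)
  have hσc : IsDOff σ 0 K := closedOff_of hσ₀ hσ₀c hβ hβσ
  have hFc : IsClosed {x | ¬ UTAt σ J K x} :=
    (isOpen_UTAt hI hF hFi σ J K).isClosed_compl
  have hne : ∃ v : E d, v ≠ 0 := by
    have : Nontrivial (E d) := by
      have : Nonempty (Fin d) := ⟨⟨0, hd⟩⟩
      infer_instance
    exact exists_ne 0
  have hD2 : D2 (0 : Form d X 2) 0 J {x | ¬ UTAt σ J K x} = {x | ¬ UTAt σ J K x} := by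
    apply Subset.antisymm
    · exact fun x hx => hx.1
    · intro x hx
      obtain ⟨v, hv⟩ := hne
      exact ⟨hx, v, hv, rfl, rfl⟩
  obtain ⟨α₁, η, hpair, hη⟩ := level2 Pool.Agent.Y484.SY.t_GEN Pool.Agent.Y108.SY.t_PERT2
    Pool.Agent.Y925.SY.t_PLANAR hJ (σ := 0) (θ := 0) IsSmooth.zero IsSmooth.zero hFc (by
      rw [hD2]
      exact hthin)
  obtain ⟨hα₁, hηs, hαη, hηc⟩ := hpair.props Pool.Agent.Y484.SY.t_GEN
  obtain ⟨s, hs, hUT⟩ := hGl hI hQ d m X F hF hFi J hJ σ η K hK hσ hσc hηs hηc hb hpos (by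
    intro x
    by_cases h : UTAt σ J K x
    · exact Or.inl h
    · exact Or.inr fun v hv => hη x h v hv rfl rfl)
  have hstart : UTP F J σ₀ (β + s • α₁) (σ + s • η) K := by
    refine ⟨hβ.addSmooth (hα₁.smul s), hUT.smooth, ?_, ?_, hUT.bdd, hUT.pos⟩
    · intro U φ hU hφ hKφ p hp
      have h1 := hβσ U φ hU hφ hKφ p hp
      have h2 := (hαη.smul s) U φ hU hφ p hp
      rw [pb_add, extDeriv_add (hβ.diffAt hU hφ hKφ hp) ((hα₁.smul s).diffAt hU hφ hp), h1, h2]
      have h3 : pb φ (σ + s • η - σ₀) p = pb φ (σ - σ₀) p + pb φ (s • η) p := by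
        have e : σ + s • η - σ₀ = (σ - σ₀) + s • η := by abel
        rw [e, pb_add]
        rfl
      rw [h3]
    · refine bdd1_glob hI hF hFi fun x => ?_
      obtain ⟨B, hB⟩ := hb1 x
      have h1 : ContDiffOn ℝ ∞ (pb (chartAt (E d) x).symm (s • α₁)) (chartAt (E d) x).target :=
        (hα₁.smul s) _ _ (chartAt (E d) x).open_target contMDiffOn_chart_symm
      have h2 : ContinuousAt (pb (chartAt (E d) x).symm (s • α₁)) (chartAt (E d) x x) :=
        h1.continuousOn.continuousAt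
          ((chartAt (E d) x).open_target.mem_nhds (mem_chart_target (E d) x))
      refine ⟨B + (‖pb (chartAt (E d) x).symm (s • α₁) (chartAt (E d) x x)‖ + 1), ?_⟩
      filter_upwards [hB, h2.norm.eventually_lt_const (lt_add_one _)] with p hp hp2 hpK
      rw [pb_add, Pi.add_apply]
      exact (norm_add_le _ _).trans (add_le_add (hp hpK) hp2.le)
  have hstartL : LipOff (β + s • α₁) K₁ := hLO.add (hα₁.smul s)
  choose W hWo hWz hW using fun z : X => stepL hI hQ hHH hKer hSm hCap hPa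
    Pool.Agent.Y363.SY.t_LOCAL Pool.Agent.Y484.SY.t_GEN Pool.Agent.Y455.SY.t_PERT hF hFi hJ hd
    hσ₀ hσ₀c z
  have hfin : ∀ t : Finset X, ∃ (β' : Form d X 1) (w : Form d X 2),
      UTP F J σ₀ β' w (K \ ⋃ z ∈ t, W z) ∧ LipOff β' (K₁ \ ⋃ z ∈ t, W z) := by
    intro t
    induction t using Finset.induction_on with
    | empty =>
      refine ⟨β + s • α₁, σ + s • η, ?_⟩
      have h1 : K \ ⋃ z ∈ (∅ : Finset X), W z = K := by simp
      have h2 : K₁ \ ⋃ z ∈ (∅ : Finset X), W z = K₁ := by simp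
      rw [h1, h2]
      exact ⟨hstart, hstartL⟩
    | insert a t ha ih =>
      obtain ⟨β', w, hw, hwL⟩ := ih
      have hop : IsOpen (⋃ z ∈ t, W z) := isOpen_biUnion fun z _ => hWo z
      have hcl : IsClosed (K \ ⋃ z ∈ t, W z) := by
        rw [sdiff_eq]
        exact hK.inter hop.isClosed_compl
      have hcl₁ : IsClosed (K₁ \ ⋃ z ∈ t, W z) := by
        rw [sdiff_eq]
        exact hK₁.inter hop.isClosed_compl
      obtain ⟨β'', w', hw', hwL'⟩ := hW a _ _ β' w hcl hcl₁ (sdiff_subset_sdiff_left hKK)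
        (fun x₀ => measure_mono_null (image_mono (inter_subset_inter_left _ sdiff_subset))
          (hH0 x₀))
        (fun x₀ => measure_mono_null (image_mono (inter_subset_inter_left _ sdiff_subset))
          (hH x₀)) hw hwL
      refine ⟨β'', w', ?_⟩
      have h1 : ∀ K : Set X, K \ ⋃ z ∈ insert a t, W z = (K \ ⋃ z ∈ t, W z) \ W a := by
        intro K
        rw [Finset.set_biUnion_insert, union_comm, sdiff_sdiff_left]
        rfl
      rw [h1, h1]
      exact ⟨hw', hwL'⟩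
  obtain ⟨t, -, htc⟩ := hK.isCompact.elim_nhds_subcover W
    (fun z _ => (hWo z).mem_nhds (hWz z))
  obtain ⟨β', w, hw, -⟩ := hfin t
  have hempty : K \ ⋃ z ∈ t, W z = ∅ := by
    rw [sdiff_eq_empty]
    exact htc
  rw [hempty] at hw
  obtain ⟨c, hc, hwc⟩ := hw.pos
  have hβs : IsSmooth β' := fun V φ hV hφ => hw.smβ V φ hV hφ fun p _ => notMem_empty _
  have hws : IsSmooth w := fun V φ hV hφ => hw.smooth V φ hV hφ fun p _ => notMem_empty _
  have hρ : IsSmooth (w - σ₀) := by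
    have h7 := hws.add (hσ₀.smul (-1))
    have h8 : w + (-1 : ℝ) • σ₀ = w - σ₀ := by
      funext x
      ext u
      change w x u + (-1 : ℝ) * σ₀ x u = w x u - σ₀ x u
      ring
    rwa [h8] at h7
  have hd' : IsD β' (w - σ₀) := fun V φ hV hφ => hw.isD V φ hV hφ fun p _ => notMem_empty _
  have hcl : IsClosedForm (σ₀ + (w - σ₀)) := by
    have h1 := hσ₀c.add (closed_of_isD hβs hρ hd') hσ₀ hρ
    rwa [add_zero] at h1
  refine ⟨β', w - σ₀, hβs, hρ, hd', hcl, fun x v hv => ?_⟩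
  rw [add_sub_cancel]
  refine lt_of_lt_of_le ?_ (hwc x (notMem_empty _) v)
  have h1 : 0 < nm F x v := by
    refine lt_of_le_of_ne (norm_nonneg _) fun h => hv ?_
    have h2 : (mfderiv (𝓡 d) (𝓡 m) F x v : E m) = 0 := norm_eq_zero.1 h.symm
    apply hFi x
    rw [map_zero]
    exact h2
  positivity

end

end Pool.Agent.V8H58.BF
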