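import Pool.Agent.V8H58.BF.LipC

/-!
Averages of unbounded two-forms: preliminaries.
-/

set_option autoImplicit false

open Set Filter Topology MeasureTheory
open scoped Manifold ContDiff

noncomputable section

namespace Pool.Agent.V8H58.BF

open Pool.Agent.Y501.SY Pool.Agent.Y515.SY Pool.Agent.Y710.SY

variable {d : ℕ}

/-- the square of the derivative of a nonnegative function is bounded by the function -/
theorem chi_sq {χ : E d → ℝ} (hχ : ContDiff ℝ ∞ χ) (hχ0 : ∀ p, 0 ≤ χ p)
    (hχc : HasCompactSupport χ) : ∃ M : ℝ, 0 ≤ M ∧ ∀ p, ‖fderiv ℝ χ p‖ ^ 2 ≤ M * χ p := by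
  have hdχ : ContDiff ℝ ∞ (fderiv ℝ χ) := hχ.fderiv_right (by simp)
  obtain ⟨D, hD⟩ := ContDiff.lipschitzWith_of_hasCompactSupport (hχc.fderiv ℝ) hdχ (by simp)
  have hD0 : (0 : ℝ) ≤ D := D.2
  refine ⟨4 * (D + 1), by positivity, fun p => ?_⟩
  -- the expansion
  have hexp : ∀ q : E d, χ q ≤ χ p + fderiv ℝ χ p (q - p) + D * ‖q - p‖ ^ 2 := by
    intro q
    have h1 : ∀ x ∈ Metric.closedBall p ‖q - p‖, DifferentiableAt ℝ χ x := fun x _ =>
      hχ.differentiable (by simp) x
    have h2 : ∀ x ∈ Metric.closedBall p ‖q - p‖, ‖fderiv ℝ χ x - fderiv ℝ χ p‖ ≤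
        D * ‖q - p‖ := by
      intro x hx
      have h3 := hD.dist_le_mul x p
      rw [dist_eq_norm] at h3
      rw [Metric.mem_closedBall] at hx
      exact h3.trans (mul_le_mul_of_nonneg_left hx hD0)
    have h3 := (convex_closedBall p ‖q - p‖).norm_image_sub_le_of_norm_fderiv_le' h1 h2
      (Metric.mem_closedBall_self (norm_nonneg _)) (show q ∈ Metric.closedBall p ‖q - p‖ by
        rw [Metric.mem_closedBall, dist_eq_norm])
    have h4 := (le_abs_self _).trans h3
    nlinarith
  -- the gradient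
  obtain ⟨n, hn1, hn2⟩ : ∃ n : E d, ‖n‖ = ‖fderiv ℝ χ p‖ ∧ fderiv ℝ χ p n = ‖n‖ ^ 2 := by
    refine ⟨(InnerProductSpace.toDual ℝ (E d)).symm (fderiv ℝ χ p), ?_, ?_⟩
    · exact LinearIsometryEquiv.norm_map _ _
    · rw [← InnerProductSpace.toDual_symm_apply, real_inner_self_eq_norm_sq]
  obtain ⟨t, ht⟩ : ∃ t : ℝ, t = 1 / (2 * (D + 1)) := ⟨_, rfl⟩
  have ht0 : 0 < t := by rw [ht]; positivity
  have h5 := hexp (p - t • n)
  have h6 := hχ0 (p - t • n)
  have e1 : p - t • n - p = -(t • n) := by abel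
  rw [e1, map_neg, map_smul, norm_neg, norm_smul, hn2, smul_eq_mul, Real.norm_of_nonneg ht0.le,
    mul_pow] at h5
  rw [← hn1]
  have h7 : D * t ≤ 1 / 2 := by
    rw [ht, mul_one_div, div_le_div_iff₀ (by positivity) two_pos]
    linarith
  have h8 : D * (t ^ 2 * ‖n‖ ^ 2) ≤ 1 / 2 * (t * ‖n‖ ^ 2) := by
    have := mul_le_mul_of_nonneg_right h7 (show 0 ≤ t * ‖n‖ ^ 2 by positivity)
    nlinarith
  have h9 : t * ‖n‖ ^ 2 ≤ 2 * χ p := by linarith
  have h10 : 2 * (D + 1) * t = 1 := by
    rw [ht]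
    field_simp
  calc ‖n‖ ^ 2 = 2 * (D + 1) * (t * ‖n‖ ^ 2) := by rw [← mul_assoc, h10, one_mul]
    _ ≤ 2 * (D + 1) * (2 * χ p) := mul_le_mul_of_nonneg_left h9 (by positivity)
    _ = _ := by ring

/-- change of variables -/
theorem cov {F : Type*} [NormedAddCommGroup F] [NormedSpace ℝ F] (f : E d → F) (p : E d) {c : ℝ}
    (hc : 0 < c) : ∫ y, f (p + c • y) = (c ^ d)⁻¹ • ∫ x, f x := by
  have h1 := Measure.integral_comp_smul_of_nonneg (volume : Measure (E d))
    (fun x => f (p + x)) c (hR := hc.le)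
  rw [h1, integral_add_left_eq_self f p, finrank_euclideanSpace_fin]

theorem cov_int {F : Type*} [NormedAddCommGroup F] {f : E d → F}
    (hf : Integrable f) (p : E d) {c : ℝ} (hc : 0 < c) :
    Integrable (fun y => f (p + c • y)) :=
  (hf.comp_add_left p).comp_smul hc.ne'

/-- mollifiers with a bound -/
theorem moll_bound : ∃ P : ℝ, 0 ≤ P ∧ ∀ ε : ℝ, 0 < ε → ∃ ρ : E d → ℝ, Moll ε ρ ∧
    ∀ y, ρ y ≤ P * (ε ^ d)⁻¹ := by
  obtain ⟨ρ₁, hρ₁⟩ := moll_exists (d := d) one_pos
  obtain ⟨P, hP⟩ := hρ₁.smooth.continuous.bounded_above_of_compact_support (moll_cs hρ₁)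
  have hP0 : 0 ≤ P := (norm_nonneg _).trans (hP 0)
  refine ⟨P, hP0, fun ε hε => ?_⟩
  have hεd : 0 < (ε ^ d)⁻¹ := by positivity
  refine ⟨fun y => (ε ^ d)⁻¹ * ρ₁ (ε⁻¹ • y), ⟨?_, ?_, ?_, ?_⟩, ?_⟩
  · exact contDiff_const.mul (hρ₁.smooth.comp (contDiff_const_smul _))
  · intro y
    exact mul_nonneg hεd.le (hρ₁.nonneg _)
  · intro y hy
    have h1 : ρ₁ (ε⁻¹ • y) = 0 := by
      apply hρ₁.supp
      rw [norm_smul, norm_inv, Real.norm_of_nonneg hε.le, ← div_eq_inv_mul, le_div_iff₀ hε,
        one_mul]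
      exact hy
    rw [h1, mul_zero]
  · have h1 := Measure.integral_comp_smul_of_nonneg (volume : Measure (E d)) ρ₁ ε⁻¹
      (hR := (inv_pos.2 hε).le)
    rw [integral_const_mul, h1, hρ₁.int, finrank_euclideanSpace_fin, smul_eq_mul, mul_one,
      inv_pow, inv_inv]
    exact inv_mul_cancel₀ (by positivity)
  · intro y
    change (ε ^ d)⁻¹ * ρ₁ (ε⁻¹ • y) ≤ P * (ε ^ d)⁻¹
    rw [mul_comm P]
    refine mul_le_mul_of_nonneg_left ?_ hεd.le
    exact (le_abs_self _).trans (hP _)

/-- truncation -/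
theorem int_of_trunc {κ f : E d → ℝ} (hκ : Measurable κ) (hκ0 : ∀ x, 0 ≤ κ x)
    (hf : Measurable f) (hf0 : ∀ x, 0 ≤ f x) {C : ℝ}
    (h : ∀ M : ℕ, Integrable (fun x => κ x * min (f x) M) ∧ ∫ x, κ x * min (f x) M ≤ C) :
    Integrable (fun x => κ x * f x) ∧ ∫ x, κ x * f x ≤ C := by
  have hC : 0 ≤ C := by
    refine le_trans ?_ (h 0).2
    refine integral_nonneg fun x => mul_nonneg (hκ0 x) ?_
    exact le_min (hf0 x) (by positivity)
  have h1 : Tendsto (fun M : ℕ => ∫⁻ x, ENNReal.ofReal (κ x * min (f x) M)) atTop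
      (𝓝 (∫⁻ x, ENNReal.ofReal (κ x * f x))) := by
    refine lintegral_tendsto_of_tendsto_of_monotone (fun M => ?_) (Eventually.of_forall
      fun x => ?_) (Eventually.of_forall fun x => ?_)
    · exact (ENNReal.measurable_ofReal.comp (hκ.mul (hf.min measurable_const))).aemeasurable
    · intro m n hmn
      refine ENNReal.ofReal_le_ofReal (mul_le_mul_of_nonneg_left ?_ (hκ0 x))
      exact min_le_min_left _ (by exact_mod_cast hmn)
    · refine (ENNReal.continuous_ofReal.tendsto _).comp ?_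
      refine tendsto_const_nhds.mul ?_
      obtain ⟨n, hn⟩ := exists_nat_ge (f x)
      refine tendsto_const_nhds.congr' ?_
      filter_upwards [eventually_ge_atTop n] with m hm
      rw [min_eq_left]
      exact hn.trans (by exact_mod_cast hm)
  have h2 : ∫⁻ x, ENNReal.ofReal (κ x * f x) ≤ ENNReal.ofReal C := by
    refine le_of_tendsto' h1 fun M => ?_
    rw [← ofReal_integral_eq_lintegral_ofReal (h M).1 (Eventually.of_forall fun x =>
      mul_nonneg (hκ0 x) (le_min (hf0 x) (by positivity)))]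
    exact ENNReal.ofReal_le_ofReal (h M).2
  have h3 : Integrable (fun x => κ x * f x) := by
    refine ⟨(hκ.mul hf).aestronglyMeasurable, ?_⟩
    rw [hasFiniteIntegral_iff_ofReal (Eventually.of_forall fun x => mul_nonneg (hκ0 x) (hf0 x))]
    exact h2.trans_lt ENNReal.ofReal_lt_top
  refine ⟨h3, ?_⟩
  rw [← ofReal_integral_eq_lintegral_ofReal h3 (Eventually.of_forall fun x =>
    mul_nonneg (hκ0 x) (hf0 x))] at h2
  exact (ENNReal.ofReal_le_ofReal_iff hC).1 h2

/-- the integral of a derivative of a compactly supported function -/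
theorem int_fd {f : E d → ℝ} (hf : ContDiff ℝ ∞ f) (hfc : HasCompactSupport f) (v : E d) :
    ∫ x, fderiv ℝ f x v = 0 := by
  have hdf : Continuous (fun x => fderiv ℝ f x v) :=
    (hf.continuous_fderiv (by simp)).clm_apply continuous_const
  have hdc : HasCompactSupport (fun x => fderiv ℝ f x v) := by
    refine (hfc.fderiv ℝ).comp_left (g := fun T : E d →L[ℝ] ℝ => T v) ?_
    rfl
  have h1 := integral_mul_fderiv_eq_neg_fderiv_mul_of_integrable (μ := (volume : Measure (E d)))
    (f := fun _ : E d => (1 : ℝ)) (g := f) (v := v) (by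
      have : (fun x : E d => fderiv ℝ (fun _ : E d => (1 : ℝ)) x v * f x) = fun _ => 0 := by
        funext x
        rw [fderiv_fun_const]
        change (0 : ℝ) * f x = 0
        rw [zero_mul]
      rw [this]
      exact integrable_zero _ _ _) (by
      simp only [one_mul]
      exact hdf.integrable_of_hasCompactSupport hdc) (by
      simp only [one_mul]
      exact hf.continuous.integrable_of_hasCompactSupport hfc)
      (fun x _ => differentiableAt_const _) (fun x _ => hf.differentiable (by simp) x)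
  have h2 : ∫ x, fderiv ℝ (fun _ : E d => (1 : ℝ)) x v * f x = 0 := by
    have : (fun x : E d => fderiv ℝ (fun _ : E d => (1 : ℝ)) x v * f x) = fun _ => 0 := by
      funext x
      rw [fderiv_fun_const]
      change (0 : ℝ) * f x = 0
      rw [zero_mul]
    rw [this, integral_zero]
  rw [h2, neg_zero] at h1
  simpa using h1

/-- the exterior derivative of a one-form in terms of directional derivatives -/
theorem ext_pair {G : E d → Al d 1} (e w q : E d) :
    (extDeriv G q) ![e, w] = (fderiv ℝ G q e) ![w] - (fderiv ℝ G q w) ![e] := by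
  unfold extDeriv
  rw [ContinuousAlternatingMap.alternatizeUncurryFin_apply, Fin.sum_univ_two]
  have e0 : (0 : Fin 2).removeNth ![e, w] = ![w] := by
    funext i
    fin_cases i
    rfl
  have e1 : (1 : Fin 2).removeNth ![e, w] = ![e] := by
    funext i
    fin_cases i
    rfl
  rw [e0, e1]
  simp
  ring

/-- Stokes for constant vectors -/
theorem int_ext {G : E d → Al d 1} (hG : ContDiff ℝ ∞ G) (hGc : HasCompactSupport G)
    (e w : E d) : Integrable (fun q => (extDeriv G q) ![e, w]) ∧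
      ∫ q, (extDeriv G q) ![e, w] = 0 := by
  have key : ∀ u v : E d, (fun q => (fderiv ℝ G q u) ![v]) =
      fun q => fderiv ℝ (fun q => G q ![v]) q u := by
    intro u v
    funext q
    have h1 : HasFDerivAt G (fderiv ℝ G q) q := (hG.differentiable (by simp) q).hasFDerivAt
    have h2 := (ContinuousAlternatingMap.apply ℝ (E d) ℝ ![v]).hasFDerivAt.comp q h1
    have h3 := congrArg (fun T : E d →L[ℝ] ℝ => T u) h2.fderiv
    exact h3.symm
  have hs : ∀ v : E d, ContDiff ℝ ∞ (fun q => G q ![v]) := fun v =>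
    (ContinuousAlternatingMap.apply ℝ (E d) ℝ ![v]).contDiff.comp hG
  have hc : ∀ v : E d, HasCompactSupport (fun q => G q ![v]) := fun v => by
    refine hGc.comp_left (g := fun η : Al d 1 => η ![v]) ?_
    rfl
  have hint : ∀ u v : E d, Integrable (fun q => (fderiv ℝ G q u) ![v]) := by
    intro u v
    rw [key]
    refine Continuous.integrable_of_hasCompactSupport ?_ ?_
    · exact ((hs v).continuous_fderiv (by simp)).clm_apply continuous_const
    · refine ((hc v).fderiv ℝ).comp_left (g := fun T : E d →L[ℝ] ℝ => T u) ?_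
      rfl
  have e1 : (fun q => (extDeriv G q) ![e, w]) =
      fun q => (fderiv ℝ G q e) ![w] - (fderiv ℝ G q w) ![e] := by
    funext q
    exact ext_pair e w q
  rw [e1]
  refine ⟨(hint e w).sub (hint w e), ?_⟩
  rw [integral_sub (hint e w) (hint w e), key, key, int_fd (hs w) (hc w), int_fd (hs e) (hc e),
    sub_zero]

end Pool.Agent.V8H58.BF
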