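import Pool.Agent.V8H58.BF.QcA

/-!
The mass of an unbounded two-form which dominates its values on complex lines.
-/

set_option autoImplicit false

open Set Filter Topology MeasureTheory
open scoped Manifold ContDiff

noncomputable section

namespace Pool.Agent.V8H58.BF

open Pool.Agent.Y501.SY Pool.Agent.Y515.SY Pool.Agent.Y710.SY

variable {d : ℕ}

theorem smul_pair (η : Al d 2) (v w : E d) (a b : ℝ) :
    η ![a • v, b • w] = a * b * η ![v, w] := by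
  rw [← lL_apply, map_smul, lL_apply, ← lR_apply, map_smul, lR_apply, smul_eq_mul, smul_eq_mul,
    mul_assoc]

theorem add_pair (η : Al d 2) (v w w' : E d) :
    η ![v, w + w'] = η ![v, w] + η ![v, w'] := by
  rw [← lR_apply, map_add, lR_apply, lR_apply]

/-- the values are controlled by the values on complex lines -/
def QC (A : ℝ) (η : Al d 2) (J' : E d →L[ℝ] E d) : Prop :=
  ∀ v w : E d, |η ![v, w]| ≤ A * (η ![v, J' v] + η ![w, J' w])

theorem QC.scale {A : ℝ} {η : Al d 2} {J' : E d →L[ℝ] E d} (h : QC A η J') {t : ℝ} (ht : 0 < t)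
    (v w : E d) : |η ![v, w]| ≤ A * (t * η ![v, J' v] + t⁻¹ * η ![w, J' w]) := by
  have h1 := h (Real.sqrt t • v) ((Real.sqrt t)⁻¹ • w)
  have hs : 0 < Real.sqrt t := Real.sqrt_pos.2 ht
  have e1 : Real.sqrt t * (Real.sqrt t)⁻¹ = 1 := mul_inv_cancel₀ hs.ne'
  have e2 : Real.sqrt t * Real.sqrt t = t := Real.mul_self_sqrt ht.le
  rw [map_smul, map_smul, smul_pair, smul_pair, smul_pair, e1, one_mul, ← mul_inv, e2] at h1
  exact h1

/-- the pointwise estimate for the averages -/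
theorem QC.low {A : ℝ} (hA : 0 < A) {η : Al d 2} {J' : E d →L[ℝ] E d} (h : QC A η J')
    (J₀ T : E d →L[ℝ] E d) {S : ℝ} (hS : ‖J'‖ ≤ S) (v : E d) :
    3 / 4 * η ![T v, J' (T v)] - 4 * A ^ 2 * (S * (‖T.comp J₀ - J'.comp T‖ ^ 2 * ‖η‖)) * ‖v‖ ^ 2
      ≤ η ![T v, T (J₀ v)] := by
  obtain ⟨R, hR⟩ : ∃ R : E d →L[ℝ] E d, R = T.comp J₀ - J'.comp T := ⟨_, rfl⟩
  rw [← hR]
  have e1 : T (J₀ v) = J' (T v) + R v := by
    rw [hR]
    change T (J₀ v) = J' (T v) + (T (J₀ v) - J' (T v))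
    abel
  rw [e1, add_pair]
  have h1 := h.scale (t := 1 / (4 * A)) (by positivity) (T v) (R v)
  have e2 : A * (1 / (4 * A) * η ![T v, J' (T v)] + (1 / (4 * A))⁻¹ * η ![R v, J' (R v)]) =
      1 / 4 * η ![T v, J' (T v)] + 4 * A ^ 2 * η ![R v, J' (R v)] := by
    field_simp
  rw [e2] at h1
  have h2 := neg_abs_le (η ![T v, R v])
  have h3 := (le_abs_self _).trans (two_bound η (R v) (J' (R v)))
  have h4 : ‖R v‖ ≤ ‖R‖ * ‖v‖ := R.le_opNorm v
  have h5 : ‖J' (R v)‖ ≤ S * (‖R‖ * ‖v‖) :=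
    (J'.le_opNorm _).trans (mul_le_mul hS h4 (norm_nonneg _) ((norm_nonneg _).trans hS))
  have h6 : ‖η‖ * (‖R v‖ * ‖J' (R v)‖) ≤ ‖η‖ * ((‖R‖ * ‖v‖) * (S * (‖R‖ * ‖v‖))) :=
    mul_le_mul_of_nonneg_left (mul_le_mul h4 h5 (norm_nonneg _) (by positivity)) (norm_nonneg _)
  have h7 : η ![R v, J' (R v)] ≤ (S * (‖R‖ ^ 2 * ‖η‖)) * ‖v‖ ^ 2 := by
    refine h3.trans (h6.trans (le_of_eq ?_))
    ring
  have h8 := mul_le_mul_of_nonneg_left h7 (show 0 ≤ 4 * A ^ 2 by positivity)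
  nlinarith

/-- the norm and the trace -/
theorem QC.trace {A : ℝ} (hA : 0 < A) {η : Al d 2} {J' : E d →L[ℝ] E d} (h : QC A η J')
    (hp : ∀ v : E d, 0 ≤ η ![v, J' v]) :
    ‖η‖ ≤ 2 * d * A * ∑ i : Fin d, η ![bs i, J' (bs i)] := by
  have hN : 0 ≤ ∑ i : Fin d, η ![bs i, J' (bs i)] := Finset.sum_nonneg fun i _ => hp _
  refine ContinuousAlternatingMap.opNorm_le_bound η (mul_nonneg (by positivity) hN) fun u => ?_
  rw [pair_eta u, both_sum, Real.norm_eq_abs, Fin.prod_univ_two]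
  obtain ⟨v, hv⟩ : ∃ v, v = u 0 := ⟨_, rfl⟩
  obtain ⟨w, hw⟩ : ∃ w, w = u 1 := ⟨_, rfl⟩
  rw [← hv, ← hw]
  change |_| ≤ _ * (‖v‖ * ‖w‖)
  obtain ⟨n, hn⟩ : ∃ n : Fin d → ℝ, n = fun i => η ![bs i, J' (bs i)] := ⟨_, rfl⟩
  have hterm : ∀ i j : Fin d, |v i * w j * η ![bs i, bs j]| ≤
      (‖v‖ * ‖w‖) * (A * (n i + n j)) := by
    intro i j
    rw [abs_mul, abs_mul]
    have h1 : |v i| ≤ ‖v‖ := PiLp.norm_apply_le v i
    have h2 : |w j| ≤ ‖w‖ := PiLp.norm_apply_le w j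
    have h3 := h (bs i) (bs j)
    rw [hn]
    exact mul_le_mul (mul_le_mul h1 h2 (abs_nonneg _) (norm_nonneg _)) h3 (abs_nonneg _)
      (by positivity)
  have hsum : ∑ i : Fin d, ∑ j : Fin d, (‖v‖ * ‖w‖) * (A * (n i + n j)) =
      2 * d * A * (∑ i, n i) * (‖v‖ * ‖w‖) := by
    simp_rw [mul_add, Finset.sum_add_distrib, Finset.sum_const, Finset.card_univ,
      Fintype.card_fin, nsmul_eq_mul, ← Finset.mul_sum]
    ring
  refine (Finset.abs_sum_le_sum_abs _ _).trans ?_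
  refine (Finset.sum_le_sum fun i _ => Finset.abs_sum_le_sum_abs _ _).trans ?_
  refine (Finset.sum_le_sum fun i _ => Finset.sum_le_sum fun j _ => hterm i j).trans ?_
  rw [hsum, hn]

theorem QC.trace₀ {A : ℝ} (hA : 0 < A) {η : Al d 2} {J' J₀ : E d →L[ℝ] E d} (h : QC A η J')
    (hp : ∀ v : E d, 0 ≤ η ![v, J' v]) {ω' : ℝ} (hω : ‖J' - J₀‖ ≤ ω')
    (hsm : 4 * d ^ 2 * A * ω' ≤ 1) :
    ‖η‖ ≤ 4 * d * A * ∑ i : Fin d, η ![bs i, J₀ (bs i)] := by
  have h1 := h.trace hA hp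
  have hN : 0 ≤ ∑ i : Fin d, η ![bs i, J' (bs i)] := Finset.sum_nonneg fun i _ => hp _
  have hω0 : 0 ≤ ω' := (norm_nonneg _).trans hω
  have h2 : ∀ i : Fin d, η ![bs i, J' (bs i)] - ‖η‖ * ω' ≤ η ![bs i, J₀ (bs i)] := by
    intro i
    have e1 : J' (bs i) = J₀ (bs i) + (J' - J₀) (bs i) := by
      change _ = J₀ (bs i) + (J' (bs i) - J₀ (bs i))
      abel
    have e2 := add_pair η (bs i) (J₀ (bs i)) ((J' - J₀) (bs i))
    rw [← e1] at e2
    have h3 := (le_abs_self _).trans (two_bound η (bs i) ((J' - J₀) (bs i)))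
    have h4 : ‖(J' - J₀) (bs i)‖ ≤ ω' := by
      refine ((J' - J₀).le_opNorm _).trans ?_
      rw [bs_norm, mul_one]
      exact hω
    rw [bs_norm, one_mul] at h3
    have h5 := mul_le_mul_of_nonneg_left h4 (norm_nonneg η)
    linarith
  have h3 : (∑ i : Fin d, η ![bs i, J' (bs i)]) - d * (‖η‖ * ω') ≤
      ∑ i : Fin d, η ![bs i, J₀ (bs i)] := by
    have h4 := Finset.sum_le_sum fun i (_ : i ∈ Finset.univ) => h2 i
    rw [Finset.sum_sub_distrib, Finset.sum_const, Finset.card_univ, Fintype.card_fin,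
      nsmul_eq_mul] at h4
    exact h4
  obtain ⟨N, hNd⟩ : ∃ N, N = ∑ i : Fin d, η ![bs i, J' (bs i)] := ⟨_, rfl⟩
  obtain ⟨N₀, hN₀d⟩ : ∃ N₀, N₀ = ∑ i : Fin d, η ![bs i, J₀ (bs i)] := ⟨_, rfl⟩
  rw [← hNd] at h1 h3 hN
  rw [← hN₀d] at h3 ⊢
  have hd0 : (0 : ℝ) ≤ d := Nat.cast_nonneg d
  have h5 : d * (‖η‖ * ω') ≤ N / 2 := by
    have h6 : d * (‖η‖ * ω') ≤ d * ((2 * d * A * N) * ω') := by gcongr
    have h7 := mul_le_mul_of_nonneg_right hsm hN
    nlinarith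
  have h8 : N ≤ 2 * N₀ := by linarith
  calc ‖η‖ ≤ 2 * d * A * N := h1
    _ ≤ 2 * d * A * (2 * N₀) := by gcongr
    _ = _ := by ring

section cut

variable {V k Q' : Set (E d)} {κ η : E d → ℝ}

theorem cut_ev {W : Type*} [NormedAddCommGroup W] [NormedSpace ℝ W] {f : E d → W}
    (hκV : tsupport κ ⊆ Q') (hQ' : Q' ⊆ V) (hη : ∀ᶠ x in 𝓝ˢ (k ∩ Q'), η x = 1) {q : E d}
    (hq : q ∉ V \ k) : (fun q => (κ q * (1 - η q)) • (V \ k).indicator f q) =ᶠ[𝓝 q] fun _ => 0 := by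
  by_cases h : q ∈ tsupport κ
  · have h1 : q ∈ k ∩ Q' := by
      refine ⟨?_, hκV h⟩
      by_contra hk
      exact hq ⟨hQ' (hκV h), hk⟩
    filter_upwards [eventually_nhdsSet_iff_forall.1 hη q h1] with x hx
    rw [hx, sub_self, mul_zero, zero_smul]
  · filter_upwards [notMem_tsupport_iff_eventuallyEq.1 h] with x hx
    rw [hx]
    simp

theorem cut_smooth {W : Type*} [NormedAddCommGroup W] [NormedSpace ℝ W] {f : E d → W}
    (hVk : IsOpen (V \ k)) (hf : ContDiffOn ℝ ∞ f (V \ k)) (hκ : ContDiff ℝ ∞ κ)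
    (hκV : tsupport κ ⊆ Q') (hQ' : Q' ⊆ V) (hηs : ContDiff ℝ ∞ η)
    (hη : ∀ᶠ x in 𝓝ˢ (k ∩ Q'), η x = 1) :
    ContDiff ℝ ∞ (fun q => (κ q * (1 - η q)) • (V \ k).indicator f q) := by
  rw [contDiff_iff_contDiffAt]
  intro q
  by_cases h : q ∈ V \ k
  · have h1 : (fun q => (κ q * (1 - η q)) • (V \ k).indicator f q) =ᶠ[𝓝 q]
        fun q => (κ q * (1 - η q)) • f q := by
      filter_upwards [hVk.mem_nhds h] with x hx
      rw [indicator_of_mem hx]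
    refine ContDiffAt.congr_of_eventuallyEq ?_ h1
    exact (hκ.contDiffAt.mul (contDiffAt_const.sub hηs.contDiffAt)).smul
      (hf.contDiffAt (hVk.mem_nhds h))
  · exact contDiffAt_const.congr_of_eventuallyEq (cut_ev hκV hQ' hη h)

/-- the exterior derivative of the cut-off one-form -/
theorem cut_ext {b : E d → Al d 1} {B : ℝ} (hB : 0 ≤ B) (hVk : IsOpen (V \ k))
    (hb : ContDiffOn ℝ ∞ b (V \ k)) (hbB : ∀ p ∈ V \ k, ‖b p‖ ≤ B) (hκ : ContDiff ℝ ∞ κ)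
    (hκV : tsupport κ ⊆ Q') (hQ' : Q' ⊆ V) (hηs : ContDiff ℝ ∞ η)
    (hη : ∀ᶠ x in 𝓝ˢ (k ∩ Q'), η x = 1) (q : E d) :
    ‖(κ q * (1 - η q)) • (V \ k).indicator (extDeriv b) q -
      extDeriv (fun q => (κ q * (1 - η q)) • (V \ k).indicator b q) q‖ ≤
      2 * B * ‖fderiv ℝ (fun q => κ q * (1 - η q)) q‖ := by
  by_cases h : q ∈ V \ k
  · have h1 : (fun q => (κ q * (1 - η q)) • (V \ k).indicator b q) =ᶠ[𝓝 q]
        fun q => (κ q * (1 - η q)) • b q := by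
      filter_upwards [hVk.mem_nhds h] with x hx
      rw [indicator_of_mem hx]
    have hθ : ContDiff ℝ ∞ (fun q => κ q * (1 - η q)) := hκ.mul (contDiff_const.sub hηs)
    rw [h1.extDeriv_eq, ext1_smul (hθ.differentiable (by simp) q)
      ((hb.contDiffAt (hVk.mem_nhds h)).differentiableAt (by simp)), indicator_of_mem h,
      sub_add_cancel_left, norm_neg]
    refine (wedge2_norm _ _).trans ?_
    have h2 := mul_le_mul_of_nonneg_left (hbB q h)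
      (norm_nonneg (fderiv ℝ (fun q => κ q * (1 - η q)) q))
    linarith
  · rw [ext1_zero (cut_ev hκV hQ' hη h), indicator_of_notMem h, smul_zero, sub_self, norm_zero]
    positivity

end cut

end Pool.Agent.V8H58.BF
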