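import Pool.Agent.V8H58.BF.QcB

/-!
The mass of an unbounded two-form on small balls.
-/

set_option autoImplicit false

open Set Filter Topology MeasureTheory
open scoped Manifold ContDiff

noncomputable section

namespace Pool.Agent.V8H58.BF

open Pool.Agent.Y501.SY Pool.Agent.Y515.SY Pool.Agent.Y710.SY

variable {d : ℕ}

theorem int_cut_le {η : E d → ℝ} (hη0 : ∀ x, 0 ≤ η x) (hη1 : ∀ x, η x ≤ 1) {δ : ℝ} (hδ : 0 < δ)
    (hv : volume (Function.support η) < ENNReal.ofReal δ) : ∫ x, η x ≤ δ := by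
  have hv3 : (volume : Measure (E d)).real (Function.support η) ≤ δ := by
    unfold Measure.real
    exact ENNReal.toReal_le_of_le_ofReal hδ.le hv.le
  have h1 : ∫ x, η x = ∫ x in Function.support η, η x := by
    refine (setIntegral_eq_integral_of_forall_compl_eq_zero fun t ht => ?_).symm
    rw [Function.notMem_support] at ht
    exact ht
  have h2 : ‖∫ x in Function.support η, η x‖ ≤
      1 * (volume : Measure (E d)).real (Function.support η) :=
    norm_setIntegral_le_of_norm_le_const (hv.trans ENNReal.ofReal_lt_top) fun t _ => by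
      rw [Real.norm_of_nonneg (hη0 t)]
      exact hη1 t
  rw [h1]
  rw [one_mul] at h2
  exact (le_abs_self _).trans (h2.trans hv3)

section

variable {V k : Set (E d)} {s₀ : E d → Al d 2} {b : E d → Al d 1}
  {Js : E d → (E d →L[ℝ] E d)} {A B : ℝ}

theorem mass1 {Q' : Set (E d)} {κ : E d → ℝ} {J₀ : E d →L[ℝ] E d} {S ω' : ℝ} (hA : 0 < A)
    (hB : 0 ≤ B) (hS : ‖J₀‖ ≤ S) (hVk : IsOpen (V \ k)) (hs₀c : ContDiffOn ℝ ∞ s₀ V)
    (hs₀ : ∀ p ∈ V, ‖s₀ p‖ ≤ B) (hb : ContDiffOn ℝ ∞ b (V \ k))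
    (hbB : ∀ p ∈ V \ k, ‖b p‖ ≤ B)
    (hqc : ∀ p ∈ V \ k, QC A (s₀ p + extDeriv b p) (Js p))
    (hpos : ∀ p ∈ V \ k, ∀ v : E d, 0 ≤ (s₀ p + extDeriv b p) ![v, Js p v])
    (hκ : ContDiff ℝ ∞ κ) (hκc : HasCompactSupport κ) (hκ0 : ∀ x, 0 ≤ κ x) (hκ1 : ∀ x, κ x ≤ 1)
    (hκV : tsupport κ ⊆ Q') (hQ' : Q' ⊆ V) (hcap : Cap (k ∩ Q'))
    (hω : ∀ q ∈ Q', ‖Js q - J₀‖ ≤ ω') (hsm : 4 * d ^ 2 * A * ω' ≤ 1) :
    Integrable (fun q => κ q * ‖(V \ k).indicator (fun p => s₀ p + extDeriv b p) q‖) ∧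
      ∫ q, κ q * ‖(V \ k).indicator (fun p => s₀ p + extDeriv b p) q‖ ≤
        4 * d * A * (d * (B * S)) * ((∫ q, κ q) + 2 * ∫ q, ‖fderiv ℝ κ q‖) := by
  have hS0 : 0 ≤ S := (norm_nonneg _).trans hS
  obtain ⟨Ψ, hΨ⟩ : ∃ Ψ : E d → Al d 2,
    Ψ = (V \ k).indicator (fun p => s₀ p + extDeriv b p) := ⟨_, rfl⟩
  rw [← hΨ]
  have hΨm : StronglyMeasurable Ψ := by
    rw [hΨ]
    exact ind_sm hVk ((hs₀c.mono sdiff_subset).add (ext_sm hVk hb))
  have hd0 : (0 : ℝ) ≤ d := Nat.cast_nonneg d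
  have hκi : Integrable κ := hκ.continuous.integrable_of_hasCompactSupport hκc
  have hdκ : Continuous (fun x => ‖fderiv ℝ κ x‖) := (hκ.continuous_fderiv (by simp)).norm
  have hdκi : Integrable (fun x => ‖fderiv ℝ κ x‖) :=
    hdκ.integrable_of_hasCompactSupport (hκc.fderiv ℝ).norm
  refine int_of_trunc (C := 4 * d * A * (d * (B * S)) * ((∫ q, κ q) + 2 * ∫ q, ‖fderiv ℝ κ q‖))
    hκ.continuous.measurable hκ0 hΨm.norm.measurable (fun x => norm_nonneg _) fun M => ?_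
  have hM0 : (0 : ℝ) ≤ M := Nat.cast_nonneg M
  have hti : Integrable (fun x => κ x * min ‖Ψ x‖ (M : ℝ)) := by
    refine (hκi.mul_const (M : ℝ)).mono' ?_ (Eventually.of_forall fun x => ?_)
    · exact (hκ.continuous.stronglyMeasurable.mul
        (hΨm.norm.measurable.min measurable_const).stronglyMeasurable).aestronglyMeasurable
    · rw [norm_mul, Real.norm_of_nonneg (hκ0 x), Real.norm_of_nonneg
        (le_min (norm_nonneg _) hM0)]
      exact mul_le_mul_of_nonneg_left (min_le_right _ _) (hκ0 x)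
  refine ⟨hti, ?_⟩
  -- the estimate with a cut-off function
  have key : ∀ δ : ℝ, 0 < δ → ∫ x, κ x * min ‖Ψ x‖ (M : ℝ) ≤
      4 * d * A * (d * (B * S)) * ((∫ q, κ q) + 2 * ∫ q, ‖fderiv ℝ κ q‖) +
        (4 * d * A * (d * (B * S)) * 2 + M) * δ := by
    intro δ hδ
    obtain ⟨η, hη, hη0, hη1, hηk, -, hηc, hηv, hηi⟩ := hcap univ isOpen_univ (subset_univ _) δ hδ
    obtain ⟨θ, hθ⟩ : ∃ θ : E d → ℝ, θ = fun q => κ q * (1 - η q) := ⟨_, rfl⟩
    have hθs : ContDiff ℝ ∞ θ := by rw [hθ]; exact hκ.mul (contDiff_const.sub hη)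
    have hθ0 : ∀ q, 0 ≤ θ q := fun q => by
      rw [hθ]; exact mul_nonneg (hκ0 q) (by linarith [hη1 q])
    have hθκ : ∀ q, θ q ≤ κ q := fun q => by
      rw [hθ]
      exact mul_le_of_le_one_right (hκ0 q) (by linarith [hη0 q])
    have hθc : HasCompactSupport θ := by rw [hθ]; exact hκc.mul_right
    have hθd : ∀ q, ‖fderiv ℝ θ q‖ ≤ ‖fderiv ℝ κ q‖ + ‖fderiv ℝ η q‖ := by
      intro q
      have h1 : fderiv ℝ θ q = κ q • (-fderiv ℝ η q) + (1 - η q) • fderiv ℝ κ q := by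
        have h0 : DifferentiableAt ℝ (fun q => 1 - η q) q :=
          (differentiableAt_const _).sub (hη.differentiable (by simp) q)
        rw [hθ, fderiv_fun_mul (hκ.differentiable (by simp) q) h0, fderiv_const_sub]
      rw [h1]
      refine (norm_add_le _ _).trans ?_
      rw [norm_smul, norm_smul, norm_neg, Real.norm_of_nonneg (hκ0 q), Real.norm_of_nonneg
        (show 0 ≤ 1 - η q by linarith [hη1 q])]
      have h2 := mul_le_mul_of_nonneg_right (hκ1 q) (norm_nonneg (fderiv ℝ η q))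
      have h3 := mul_le_mul_of_nonneg_right (show 1 - η q ≤ 1 by linarith [hη0 q])
        (norm_nonneg (fderiv ℝ κ q))
      linarith
    obtain ⟨G, hG⟩ : ∃ G : E d → Al d 1, G = fun q => θ q • (V \ k).indicator b q := ⟨_, rfl⟩
    have hGs : ContDiff ℝ ∞ G := by
      rw [hG, hθ]; exact cut_smooth hVk hb hκ hκV hQ' hη hηk
    have hGc : HasCompactSupport G := by rw [hG]; exact hθc.smul_right
    have hGe : ∀ q, ‖θ q • (V \ k).indicator (extDeriv b) q - extDeriv G q‖ ≤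
        2 * B * ‖fderiv ℝ θ q‖ := by
      intro q
      rw [hG, hθ]
      exact cut_ext hB hVk hb hbB hκ hκV hQ' hη hηk q
    -- one pair of vectors
    have h1 : ∀ (i : Fin d) (q : E d), θ q * Ψ q ![bs i, J₀ (bs i)] ≤
        B * S * κ q + (extDeriv G q) ![bs i, J₀ (bs i)] + 2 * (B * S) * ‖fderiv ℝ θ q‖ := by
      intro i q
      have hw : ‖J₀ (bs i)‖ ≤ S := by
        refine (J₀.le_opNorm _).trans ?_
        rw [bs_norm, mul_one]
        exact hS
      have e1 : Ψ q = (V \ k).indicator s₀ q + (V \ k).indicator (extDeriv b) q := by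
        rw [hΨ]
        by_cases hq : q ∈ V \ k
        · rw [indicator_of_mem hq, indicator_of_mem hq, indicator_of_mem hq]
        · rw [indicator_of_notMem hq, indicator_of_notMem hq, indicator_of_notMem hq, add_zero]
      have e2 : Ψ q ![bs i, J₀ (bs i)] = (V \ k).indicator s₀ q ![bs i, J₀ (bs i)] +
          (V \ k).indicator (extDeriv b) q ![bs i, J₀ (bs i)] := by
        rw [e1]; rfl
      have n1 : ‖(V \ k).indicator s₀ q‖ ≤ B := ind_bd hB (fun p hp => hs₀ p hp.1) q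
      have n2 : (V \ k).indicator s₀ q ![bs i, J₀ (bs i)] ≤ B * S := by
        refine (le_abs_self _).trans ((two_bound _ _ _).trans ?_)
        rw [bs_norm, one_mul]
        exact mul_le_mul n1 hw (norm_nonneg _) hB
      have n3 : θ q * (V \ k).indicator s₀ q ![bs i, J₀ (bs i)] ≤ B * S * κ q := by
        have m1 := mul_le_mul_of_nonneg_left n2 (hθ0 q)
        have m2 := mul_le_mul_of_nonneg_right (hθκ q) (mul_nonneg hB hS0)
        linarith
      have n4 : θ q * (V \ k).indicator (extDeriv b) q ![bs i, J₀ (bs i)] -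
          (extDeriv G q) ![bs i, J₀ (bs i)] ≤ 2 * (B * S) * ‖fderiv ℝ θ q‖ := by
        have m1 := (le_abs_self _).trans (two_bound (θ q • (V \ k).indicator (extDeriv b) q -
          extDeriv G q) (bs i) (J₀ (bs i)))
        rw [bs_norm, one_mul] at m1
        have m2 := mul_le_mul (hGe q) hw (norm_nonneg _) (by positivity)
        have m3 : (θ q • (V \ k).indicator (extDeriv b) q - extDeriv G q) ![bs i, J₀ (bs i)] =
            θ q * (V \ k).indicator (extDeriv b) q ![bs i, J₀ (bs i)] -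
              (extDeriv G q) ![bs i, J₀ (bs i)] := rfl
        rw [m3] at m1
        linarith
      rw [e2, mul_add]
      linarith
    obtain ⟨R, hR⟩ : ∃ R : E d → ℝ, R = fun q => d * (B * S) * κ q +
      (∑ i : Fin d, (extDeriv G q) ![bs i, J₀ (bs i)]) +
        2 * (d * (B * S)) * ‖fderiv ℝ θ q‖ := ⟨_, rfl⟩
    have h2 : ∀ q, θ q * ∑ i : Fin d, Ψ q ![bs i, J₀ (bs i)] ≤ R q := by
      intro q
      have h3 := Finset.sum_le_sum fun i (_ : i ∈ Finset.univ) => h1 i q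
      rw [← Finset.mul_sum, Finset.sum_add_distrib, Finset.sum_add_distrib, Finset.sum_const,
        Finset.sum_const, Finset.card_univ, Fintype.card_fin, nsmul_eq_mul, nsmul_eq_mul] at h3
      rw [hR]
      refine h3.trans (le_of_eq ?_)
      ring
    have h3 : ∀ q, θ q * ‖Ψ q‖ ≤ 4 * d * A * (θ q * ∑ i : Fin d, Ψ q ![bs i, J₀ (bs i)]) := by
      intro q
      by_cases hκq : κ q = 0
      · have : θ q = 0 := by rw [hθ]; simp only; rw [hκq, zero_mul]
        rw [this, zero_mul, zero_mul, mul_zero]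
      · have hqQ : q ∈ Q' := hκV (subset_tsupport κ hκq)
        by_cases hq : q ∈ V \ k
        · have e1 : Ψ q = s₀ q + extDeriv b q := by rw [hΨ, indicator_of_mem hq]
          have h4 := (hqc q hq).trace₀ hA (hpos q hq) (hω q hqQ) hsm
          rw [← e1] at h4
          have h5 := mul_le_mul_of_nonneg_left h4 (hθ0 q)
          linarith
        · have e1 : Ψ q = 0 := by rw [hΨ, indicator_of_notMem hq]
          rw [e1, norm_zero, mul_zero]
          have e2 : ∑ i : Fin d, (0 : Al d 2) ![bs i, J₀ (bs i)] = 0 :=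
            Finset.sum_eq_zero fun i _ => rfl
          rw [e2, mul_zero, mul_zero]
    have hdA : 0 ≤ 4 * d * A := by positivity
    have h4 : ∀ q, κ q * min ‖Ψ q‖ (M : ℝ) ≤ 4 * d * A * R q + M * η q := by
      intro q
      have e1 : κ q * min ‖Ψ q‖ (M : ℝ) = θ q * min ‖Ψ q‖ (M : ℝ) +
          κ q * η q * min ‖Ψ q‖ (M : ℝ) := by
        rw [hθ]
        ring
      have h5 := mul_le_mul_of_nonneg_left (min_le_left ‖Ψ q‖ (M : ℝ)) (hθ0 q)
      have h6 := mul_le_mul_of_nonneg_left (h2 q) hdA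
      have h7 : κ q * η q * min ‖Ψ q‖ (M : ℝ) ≤ M * η q := by
        have m1 : κ q * η q ≤ η q := mul_le_of_le_one_left (hη0 q) (hκ1 q)
        have m2 := mul_le_mul m1 (min_le_right ‖Ψ q‖ (M : ℝ)) (le_min (norm_nonneg _) hM0)
          (hη0 q)
        linarith
      rw [e1]
      linarith [h3 q]
    -- integration
    have hηI : Integrable η := hη.continuous.integrable_of_hasCompactSupport hηc
    have hdηI : Integrable (fun x => ‖fderiv ℝ η x‖) :=
      (hη.continuous_fderiv (by simp)).norm.integrable_of_hasCompactSupport (hηc.fderiv ℝ).norm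
    have hdθI : Integrable (fun x => ‖fderiv ℝ θ x‖) :=
      (hθs.continuous_fderiv (by simp)).norm.integrable_of_hasCompactSupport (hθc.fderiv ℝ).norm
    have i1 : Integrable (fun q => ∑ i : Fin d, (extDeriv G q) ![bs i, J₀ (bs i)]) :=
      integrable_finsetSum _ fun i _ => (int_ext hGs hGc _ _).1
    have i2 : ∫ q, ∑ i : Fin d, (extDeriv G q) ![bs i, J₀ (bs i)] = 0 := by
      rw [integral_finsetSum _ fun i _ => (int_ext hGs hGc _ _).1]
      exact Finset.sum_eq_zero fun i _ => (int_ext hGs hGc _ _).2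
    have i3 : Integrable (fun q => d * (B * S) * κ q +
        ∑ i : Fin d, (extDeriv G q) ![bs i, J₀ (bs i)]) := (hκi.const_mul _).add i1
    have i4 : Integrable R := by
      rw [hR]
      exact i3.add (hdθI.const_mul _)
    have i5 : ∫ q, R q = d * (B * S) * (∫ q, κ q) +
        2 * (d * (B * S)) * ∫ q, ‖fderiv ℝ θ q‖ := by
      rw [hR, integral_add i3 (hdθI.const_mul _), integral_add (hκi.const_mul _) i1, i2,
        integral_const_mul, integral_const_mul, add_zero]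
    have i6 : ∫ q, ‖fderiv ℝ θ q‖ ≤ (∫ q, ‖fderiv ℝ κ q‖) + δ := by
      have m1 : ∫ q, ‖fderiv ℝ θ q‖ ≤ ∫ q, (‖fderiv ℝ κ q‖ + ‖fderiv ℝ η q‖) :=
        integral_mono hdθI (hdκi.add hdηI) hθd
      rw [integral_add hdκi hdηI] at m1
      linarith
    have i7 : ∫ q, κ q * min ‖Ψ q‖ (M : ℝ) ≤ ∫ q, (4 * d * A * R q + M * η q) :=
      integral_mono hti ((i4.const_mul _).add (hηI.const_mul _)) h4
    rw [integral_add (i4.const_mul _) (hηI.const_mul _), integral_const_mul,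
      integral_const_mul, i5] at i7
    have i8 := int_cut_le hη0 hη1 hδ hηv
    have i9 := mul_le_mul_of_nonneg_left i8 hM0
    have hBS : 0 ≤ d * (B * S) := by positivity
    have i10 := mul_le_mul_of_nonneg_left i6 (mul_nonneg hdA (mul_nonneg zero_le_two hBS))
    nlinarith
  refine le_of_forall_pos_le_add fun ε hε => ?_
  obtain ⟨K, hK⟩ : ∃ K, K = 4 * d * A * (d * (B * S)) * 2 + M := ⟨_, rfl⟩
  have hK0 : 0 ≤ K := by rw [hK]; positivity
  refine (key (ε / (K + 1)) (by positivity)).trans ?_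
  rw [← hK]
  have h1 : K * (ε / (K + 1)) ≤ ε := by
    rw [mul_div_assoc', div_le_iff₀ (by positivity)]
    nlinarith
  linarith

/-- the mass on small balls -/
theorem mass2 {Q : Set (E d)} (hA : 0 < A) (hB : 0 ≤ B) (hV : IsOpen V)
    (hVk : IsOpen (V \ k)) (hs₀c : ContDiffOn ℝ ∞ s₀ V)
    (hs₀ : ∀ p ∈ V, ‖s₀ p‖ ≤ B) (hb : ContDiffOn ℝ ∞ b (V \ k))
    (hbB : ∀ p ∈ V \ k, ‖b p‖ ≤ B)
    (hqc : ∀ p ∈ V \ k, QC A (s₀ p + extDeriv b p) (Js p))
    (hpos : ∀ p ∈ V \ k, ∀ v : E d, 0 ≤ (s₀ p + extDeriv b p) ![v, Js p v])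
    (hcap : ∀ Q : Set (E d), IsCompact Q → Q ⊆ V → Cap (k ∩ Q))
    (hJ : ContinuousOn Js V) (hJB : ∀ p ∈ V, ‖Js p‖ ≤ B) (hQ : IsCompact Q) (hQV : Q ⊆ V) :
    ∃ C r₀ : ℝ, 0 ≤ C ∧ 0 < r₀ ∧ ∀ q₀ ∈ Q, ∀ r : ℝ, 0 < r → r ≤ r₀ →
      IntegrableOn ((V \ k).indicator (fun p => s₀ p + extDeriv b p))
        (Metric.closedBall q₀ r) ∧
      r * ∫ q in Metric.closedBall q₀ r,
        ‖(V \ k).indicator (fun p => s₀ p + extDeriv b p) q‖ ≤ C * r ^ d := by
  obtain ⟨ρ₁, hρ₁, hρ₁V⟩ := hQ.exists_cthickening_subset_open hV hQV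
  have hQ₁ : IsCompact (Metric.cthickening ρ₁ Q) := hQ.cthickening
  obtain ⟨w, hw⟩ : ∃ w : ℝ, w = 1 / (4 * d ^ 2 * A + 1) := ⟨_, rfl⟩
  have hw0 : 0 < w := by rw [hw]; positivity
  have hsm : 4 * d ^ 2 * A * w ≤ 1 := by
    rw [hw, mul_one_div, div_le_one (by positivity)]
    linarith
  obtain ⟨r₃, hr₃, hr₃'⟩ := Metric.uniformContinuousOn_iff.1
    (hQ₁.uniformContinuousOn_of_continuous (hJ.mono hρ₁V)) w hw0
  let κ₁ : ContDiffBump (0 : E d) := ⟨1, 2, one_pos, one_lt_two⟩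
  have hκ₁s : ContDiff ℝ ∞ κ₁ := κ₁.contDiff
  obtain ⟨I₀, hI₀⟩ : ∃ I₀ : ℝ, I₀ = ∫ x, κ₁ x := ⟨_, rfl⟩
  obtain ⟨I₁, hI₁⟩ : ∃ I₁ : ℝ, I₁ = ∫ x, ‖fderiv ℝ κ₁ x‖ := ⟨_, rfl⟩
  have hI₀0 : 0 ≤ I₀ := by rw [hI₀]; exact integral_nonneg fun x => κ₁.nonneg
  have hI₁0 : 0 ≤ I₁ := by rw [hI₁]; exact integral_nonneg fun x => norm_nonneg _
  obtain ⟨C₀, hC₀⟩ : ∃ C₀ : ℝ, C₀ = 4 * d * A * (d * (B * B)) := ⟨_, rfl⟩
  have hC₀0 : 0 ≤ C₀ := by rw [hC₀]; positivity
  refine ⟨C₀ * (I₀ + 2 * I₁), min 1 (min (ρ₁ / 2) (r₃ / 4)), by positivity,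
    lt_min one_pos (lt_min (by positivity) (by positivity)), ?_⟩
  intro q₀ hq₀ r hr hrr
  have hr1 : r ≤ 1 := hrr.trans (min_le_left _ _)
  have hr2 : r ≤ ρ₁ / 2 := hrr.trans ((min_le_right _ _).trans (min_le_left _ _))
  have hr4 : r ≤ r₃ / 4 := hrr.trans ((min_le_right _ _).trans (min_le_right _ _))
  have hball : Metric.closedBall q₀ (2 * r) ⊆ Metric.cthickening ρ₁ Q := by
    intro q hq
    rw [Metric.mem_closedBall] at hq
    exact Metric.mem_cthickening_of_dist_le q q₀ _ _ hq₀ (by linarith)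
  obtain ⟨κ, hκd⟩ : ∃ κ : E d → ℝ, κ = fun q => κ₁ (-(r⁻¹ • q₀) + r⁻¹ • q) := ⟨_, rfl⟩
  have hri : 0 < r⁻¹ := inv_pos.2 hr
  have hnorm : ∀ q : E d, ‖-(r⁻¹ • q₀) + r⁻¹ • q‖ = r⁻¹ * dist q q₀ := by
    intro q
    have e1 : -(r⁻¹ • q₀) + r⁻¹ • q = r⁻¹ • (q - q₀) := by
      rw [smul_sub]
      abel
    rw [e1, norm_smul, Real.norm_of_nonneg hri.le, dist_eq_norm]
  have hκs : ContDiff ℝ ∞ κ := by
    rw [hκd]
    exact hκ₁s.comp (contDiff_const.add (contDiff_const_smul _))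
  have hκz : ∀ q, q ∉ Metric.closedBall q₀ (2 * r) → κ q = 0 := by
    intro q hq
    rw [hκd]
    apply κ₁.zero_of_le_dist
    rw [dist_zero_right, hnorm]
    rw [Metric.mem_closedBall, not_le] at hq
    change (2 : ℝ) ≤ _
    rw [inv_mul_eq_div, le_div_iff₀ hr]
    exact hq.le
  have hκc : HasCompactSupport κ := HasCompactSupport.intro (isCompact_closedBall q₀ (2 * r)) hκz
  have hκV : tsupport κ ⊆ Metric.closedBall q₀ (2 * r) := by
    refine closure_minimal ?_ Metric.isClosed_closedBall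
    intro q hq
    by_contra h
    exact hq (hκz q h)
  have hκ0 : ∀ q, 0 ≤ κ q := fun q => by rw [hκd]; exact κ₁.nonneg
  have hκ1 : ∀ q, κ q ≤ 1 := fun q => by rw [hκd]; exact κ₁.le_one
  have hκone : ∀ q ∈ Metric.closedBall q₀ r, κ q = 1 := by
    intro q hq
    rw [hκd]
    apply κ₁.one_of_mem_closedBall
    rw [mem_closedBall_zero_iff, hnorm]
    rw [Metric.mem_closedBall] at hq
    change _ ≤ (1 : ℝ)
    rw [inv_mul_eq_div, div_le_one hr]
    exact hq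
  have hq₀V : q₀ ∈ V := hQV hq₀
  obtain ⟨m1, m2⟩ := mass1 (Q' := Metric.closedBall q₀ (2 * r)) (κ := κ) (J₀ := Js q₀) (S := B)
    (ω' := w) hA hB (hJB q₀ hq₀V) hVk hs₀c hs₀ hb hbB hqc hpos hκs hκc hκ0 hκ1 hκV
    (hball.trans hρ₁V) (hcap _ (isCompact_closedBall _ _) (hball.trans hρ₁V)) (fun q hq => by
      have h1 : dist q q₀ < r₃ := by
        rw [Metric.mem_closedBall] at hq
        linarith
      have h2 := hr₃' q (hball hq) q₀ (Metric.self_subset_cthickening _ hq₀) h1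
      rw [dist_eq_norm] at h2
      exact h2.le) hsm
  obtain ⟨Ψ, hΨ⟩ : ∃ Ψ : E d → Al d 2,
    Ψ = (V \ k).indicator (fun p => s₀ p + extDeriv b p) := ⟨_, rfl⟩
  rw [← hΨ] at m1 m2 ⊢
  rw [← hC₀] at m2
  have hΨm : StronglyMeasurable Ψ := by
    rw [hΨ]
    exact ind_sm hVk ((hs₀c.mono sdiff_subset).add (ext_sm hVk hb))
  have hI1 : IntegrableOn (fun q => ‖Ψ q‖) (Metric.closedBall q₀ r) := by
    refine (m1.integrableOn).congr_fun (fun q hq => ?_) Metric.isClosed_closedBall.measurableSet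
    dsimp only
    rw [hκone q hq, one_mul]
  refine ⟨?_, ?_⟩
  · exact (integrable_norm_iff hΨm.aestronglyMeasurable.restrict).1 hI1
  · have n1 : ∫ q in Metric.closedBall q₀ r, ‖Ψ q‖ ≤ ∫ q, κ q * ‖Ψ q‖ := by
      have n2 : ∫ q in Metric.closedBall q₀ r, ‖Ψ q‖ =
          ∫ q in Metric.closedBall q₀ r, κ q * ‖Ψ q‖ := by
        refine setIntegral_congr_fun Metric.isClosed_closedBall.measurableSet fun q hq => ?_
        rw [hκone q hq, one_mul]
      rw [n2]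
      exact setIntegral_le_integral m1 (Eventually.of_forall fun q =>
        mul_nonneg (hκ0 q) (norm_nonneg _))
    have n3 : ∫ q, κ q = r ^ d * I₀ := by
      rw [hκd, cov κ₁ (-(r⁻¹ • q₀)) hri, hI₀, smul_eq_mul, inv_pow, inv_inv]
    have hdκ : ∀ q, ‖fderiv ℝ κ q‖ ≤ r⁻¹ * ‖fderiv ℝ κ₁ (-(r⁻¹ • q₀) + r⁻¹ • q)‖ := by
      intro q
      have h1 : HasFDerivAt (fun q : E d => -(r⁻¹ • q₀) + r⁻¹ • q)
          (r⁻¹ • ContinuousLinearMap.id ℝ (E d)) q :=
        ((hasFDerivAt_id q).const_smul r⁻¹).const_add _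
      have h2 := ((hκ₁s.differentiable (by simp)) (-(r⁻¹ • q₀) + r⁻¹ • q)).hasFDerivAt.comp q h1
      have h3 : fderiv ℝ κ q = (fderiv ℝ κ₁ (-(r⁻¹ • q₀) + r⁻¹ • q)).comp
          (r⁻¹ • ContinuousLinearMap.id ℝ (E d)) := by
        rw [hκd]
        exact h2.fderiv
      rw [h3]
      refine (ContinuousLinearMap.opNorm_comp_le _ _).trans ?_
      rw [norm_smul, Real.norm_of_nonneg hri.le, mul_comm]
      have h4 := ContinuousLinearMap.norm_id_le (𝕜 := ℝ) (E := E d)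
      have h5 := mul_le_mul_of_nonneg_left h4 hri.le
      rw [mul_one] at h5
      exact mul_le_mul_of_nonneg_right h5 (norm_nonneg _)
    have hdκ₁i : Integrable (fun x => ‖fderiv ℝ κ₁ x‖) :=
      (hκ₁s.continuous_fderiv (by simp)).norm.integrable_of_hasCompactSupport
        (κ₁.hasCompactSupport.fderiv ℝ).norm
    have hdκi : Integrable (fun x => ‖fderiv ℝ κ x‖) :=
      (hκs.continuous_fderiv (by simp)).norm.integrable_of_hasCompactSupport
        (hκc.fderiv ℝ).norm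
    have n4 : ∫ q, ‖fderiv ℝ κ q‖ ≤ r⁻¹ * (r ^ d * I₁) := by
      have h1 : ∫ q, ‖fderiv ℝ κ q‖ ≤ ∫ q, r⁻¹ * ‖fderiv ℝ κ₁ (-(r⁻¹ • q₀) + r⁻¹ • q)‖ :=
        integral_mono hdκi ((cov_int hdκ₁i (-(r⁻¹ • q₀)) hri).const_mul _) hdκ
      rw [integral_const_mul, cov (fun x => ‖fderiv ℝ κ₁ x‖) (-(r⁻¹ • q₀)) hri, smul_eq_mul,
        inv_pow, inv_inv, ← hI₁] at h1
      exact h1
    have hrd : 0 ≤ r ^ d := by positivity
    have n5 : ∫ q, κ q * ‖Ψ q‖ ≤ C₀ * (r ^ d * I₀ + 2 * (r⁻¹ * (r ^ d * I₁))) := by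
      refine m2.trans (mul_le_mul_of_nonneg_left ?_ hC₀0)
      rw [n3]
      linarith
    have n6 := mul_le_mul_of_nonneg_left (n1.trans n5) hr.le
    have e1 : r * (C₀ * (r ^ d * I₀ + 2 * (r⁻¹ * (r ^ d * I₁)))) =
        C₀ * (r ^ d * (r * I₀) + 2 * (r ^ d * I₁)) := by
      field_simp
    rw [e1] at n6
    refine n6.trans ?_
    have n7 : r * I₀ ≤ I₀ := mul_le_of_le_one_left hI₀0 hr1
    have n8 := mul_le_mul_of_nonneg_left n7 hrd
    have n9 := mul_le_mul_of_nonneg_left n8 hC₀0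
    nlinarith

end

end Pool.Agent.V8H58.BF
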