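import Pool.Agent.V8H58.BF.QcC

/-!
Averages of unbounded two-forms.
-/

set_option autoImplicit false

open Set Filter Topology MeasureTheory
open scoped Manifold ContDiff

noncomputable section

namespace Pool.Agent.V8H58.BF

open Pool.Agent.Y501.SY Pool.Agent.Y515.SY Pool.Agent.Y710.SY

variable {d : ℕ}

/-- averages of integrable functions -/
theorem avg_int {ρ χ : E d → ℝ} {ε P : ℝ} (hρ : Moll ε ρ) (hP : ∀ y, ρ y ≤ P) {g : E d → ℝ}
    (hg : Integrable g) (hg0 : ∀ x, 0 ≤ g x) {p : E d} (hp : 0 < χ p) :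
    Integrable (fun y => ρ y * g (p + χ p • y)) ∧
      ∫ y, ρ y * g (p + χ p • y) ≤ P * (((χ p) ^ d)⁻¹ * ∫ x, g x) := by
  have h1 : Integrable (fun y => g (p + χ p • y)) := cov_int hg p hp
  have h2 : Integrable (fun y => P * g (p + χ p • y)) := h1.const_mul P
  have h3 : Integrable (fun y => ρ y * g (p + χ p • y)) := by
    refine h2.mono' ?_ (Eventually.of_forall fun y => ?_)
    · exact (hρ.smooth.continuous.aestronglyMeasurable).mul h1.aestronglyMeasurable
    · rw [Real.norm_of_nonneg (mul_nonneg (hρ.nonneg y) (hg0 _))]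
      exact mul_le_mul_of_nonneg_right (hP y) (hg0 _)
  refine ⟨h3, ?_⟩
  have h4 : ∫ y, ρ y * g (p + χ p • y) ≤ ∫ y, P * g (p + χ p • y) :=
    integral_mono h3 h2 fun y => mul_le_mul_of_nonneg_right (hP y) (hg0 _)
  rw [integral_const_mul, cov g p hp, smul_eq_mul] at h4
  exact h4

theorem mem_ball_of {p y : E d} {c ε : ℝ} (hc : 0 < c) (hy : ‖y‖ ≤ ε) :
    p + c • y ∈ Metric.closedBall p (c * ε) := by
  rw [Metric.mem_closedBall, dist_eq_norm, add_sub_cancel_left, norm_smul,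
    Real.norm_of_nonneg hc.le]
  exact mul_le_mul_of_nonneg_left hy hc.le

theorem JU_int {ρ χ : E d → ℝ} {ε P : ℝ} (hρ : Moll ε ρ) (hP : ∀ y, ρ y ≤ P)
    {Ψ : E d → Al d 2} (hΨ : StronglyMeasurable Ψ) {p : E d} (hp : 0 < χ p)
    (hI : IntegrableOn Ψ (Metric.closedBall p (χ p * ε))) :
    Integrable (fun y => ρ y * ‖Ψ (p + χ p • y)‖) ∧
      ∫ y, ρ y * ‖Ψ (p + χ p • y)‖ ≤
        P * (((χ p) ^ d)⁻¹ * ∫ q in Metric.closedBall p (χ p * ε), ‖Ψ q‖) ∧
      Integrable (fun y => ρ y •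
        (Ψ (p + χ p • y)).compContinuousLinearMap (LL (fderiv ℝ χ p) y)) := by
  obtain ⟨g, hg⟩ : ∃ g : E d → ℝ,
    g = (Metric.closedBall p (χ p * ε)).indicator (fun q => ‖Ψ q‖) := ⟨_, rfl⟩
  have hgi : Integrable g := by
    rw [hg]
    exact IntegrableOn.integrable_indicator hI.norm Metric.isClosed_closedBall.measurableSet
  have hg0 : ∀ x, 0 ≤ g x := fun x => by
    rw [hg]
    exact indicator_nonneg (fun q _ => norm_nonneg _) x
  have heq : ∀ y, ρ y * ‖Ψ (p + χ p • y)‖ = ρ y * g (p + χ p • y) := by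
    intro y
    by_cases hy : ‖y‖ ≤ ε
    · rw [hg, indicator_of_mem (mem_ball_of hp hy)]
    · rw [not_le] at hy
      rw [hρ.supp y hy.le, zero_mul, zero_mul]
  obtain ⟨h1, h2⟩ := avg_int hρ hP hgi hg0 hp
  have h3 : ∫ x, g x = ∫ q in Metric.closedBall p (χ p * ε), ‖Ψ q‖ := by
    rw [hg, integral_indicator Metric.isClosed_closedBall.measurableSet]
  rw [h3] at h2
  have i1 : Integrable (fun y => ρ y * ‖Ψ (p + χ p • y)‖) := by
    refine h1.congr (Eventually.of_forall fun y => ?_)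
    exact (heq y).symm
  refine ⟨i1, ?_, ?_⟩
  · have e1 : (fun y => ρ y * ‖Ψ (p + χ p • y)‖) = fun y => ρ y * g (p + χ p • y) := by
      funext y
      exact heq y
    rw [e1]
    exact h2
  · have hc : Continuous (fun y : E d => LL (fderiv ℝ χ p) y) := by
      unfold LL
      exact continuous_const.add
        ((ContinuousLinearMap.smulRightL ℝ (E d) (E d) (fderiv ℝ χ p)).continuous)
    refine (i1.mul_const ((1 + ‖fderiv ℝ χ p‖ * ε) ^ 2)).mono' ?_
      (Eventually.of_forall fun y => ?_)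
    · refine (hρ.smooth.continuous.stronglyMeasurable.smul ?_).aestronglyMeasurable
      refine comp_cont.comp_stronglyMeasurable (StronglyMeasurable.prodMk ?_ hc.stronglyMeasurable)
      exact hΨ.comp_measurable (aff_meas _ _)
    · rw [norm_smul, Real.norm_of_nonneg (hρ.nonneg y)]
      by_cases hy : ‖y‖ ≤ ε
      · have h5 : ‖LL (fderiv ℝ χ p) y‖ ≤ 1 + ‖fderiv ℝ χ p‖ * ε := by
          refine (LL_norm _ _).trans ?_
          have := mul_le_mul_of_nonneg_left hy (norm_nonneg (fderiv ℝ χ p))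
          linarith
        have h6 : ‖(Ψ (p + χ p • y)).compContinuousLinearMap (LL (fderiv ℝ χ p) y)‖ ≤
            ‖Ψ (p + χ p • y)‖ * (1 + ‖fderiv ℝ χ p‖ * ε) ^ 2 :=
          (comp_norm _ _).trans (mul_le_mul_of_nonneg_left
            (pow_le_pow_left₀ (norm_nonneg _) h5 2) (norm_nonneg _))
        have h7 := mul_le_mul_of_nonneg_left h6 (hρ.nonneg y)
        linarith
      · rw [not_le] at hy
        rw [hρ.supp y hy.le, zero_mul, zero_mul, zero_mul]

/-- the value of the averages -/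
theorem JU_eval {ρ χ : E d → ℝ} {p : E d} {Ψ : E d → Al d 2}
    (hI : Integrable (fun y => ρ y •
      (Ψ (p + χ p • y)).compContinuousLinearMap (LL (fderiv ℝ χ p) y))) (v w : E d) :
    Integrable (fun y => ρ y * Ψ (p + χ p • y) ![LL (fderiv ℝ χ p) y v,
      LL (fderiv ℝ χ p) y w]) ∧
    JJ ρ χ Ψ p ![v, w] = ∫ y, ρ y * Ψ (p + χ p • y) ![LL (fderiv ℝ χ p) y v,
      LL (fderiv ℝ χ p) y w] := by
  let L : (Al d 2) →L[ℝ] ℝ := ContinuousAlternatingMap.apply ℝ (E d) ℝ ![v, w]
  have hL : ∀ η : Al d 2, L η = η ![v, w] := fun η => rfl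
  have e1 : ∀ y, L (ρ y • (Ψ (p + χ p • y)).compContinuousLinearMap (LL (fderiv ℝ χ p) y)) =
      ρ y * Ψ (p + χ p • y) ![LL (fderiv ℝ χ p) y v, LL (fderiv ℝ χ p) y w] := by
    intro y
    rw [map_smul, smul_eq_mul, hL, comp_pair]
  constructor
  · exact (L.integrable_comp hI).congr (Eventually.of_forall e1)
  · unfold JJ
    rw [← hL, ← L.integral_comp_comm hI]
    exact integral_congr_ae (Eventually.of_forall e1)

section

variable {V k : Set (E d)} {b : E d → Al d 1}

/-- the exterior derivative commutes with the averages: bounded one-forms with integrable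
exterior derivative -/
theorem J1U_ext (hK : S_KER) (hSM : S_SM) {ρ χ : E d → ℝ} {ε P : ℝ} (hε : 0 ≤ ε)
    (hρ : Moll ε ρ) (hP : ∀ y, ρ y ≤ P) (hχ : ContDiff ℝ ∞ χ) (hVk : IsOpen (V \ k))
    (hs : ContDiffOn ℝ ∞ b (V \ k)) {B : ℝ} (hB0 : 0 ≤ B) (hsB : ∀ p ∈ V \ k, ‖b p‖ ≤ B)
    {Q : Set (E d)} (hQV : Q ⊆ V) (hcap : Cap (k ∩ Q))
    {p₀ : E d} (hp : 0 < χ p₀) (hball : ∀ y, ‖y‖ ≤ ε → p₀ + χ p₀ • y ∈ Q)
    (hI : IntegrableOn ((V \ k).indicator (extDeriv b)) (Metric.closedBall p₀ (χ p₀ * ε))) :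
    extDeriv (JJ1 ρ χ ((V \ k).indicator b)) p₀ =
      JJ ρ χ ((V \ k).indicator (extDeriv b)) p₀ := by
  set Φ : E d → Al d 1 := (V \ k).indicator b with hΦ
  set Ψ : E d → Al d 2 := (V \ k).indicator (extDeriv b) with hΨ
  have hf : StronglyMeasurable Φ := ind1_sm hVk hs
  have hb : ∀ q, ‖Φ q‖ ≤ B := ind1_bd hB0 hsB
  have hfΨ : StronglyMeasurable Ψ := ind_sm hVk (ext_sm hVk hs)
  have hρc := moll_cs hρ
  have hP0 : 0 ≤ P := (hρ.nonneg 0).trans (hP 0)
  obtain ⟨-, -, hint2⟩ := JU_int hρ hP hfΨ hp hI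
  rw [← sub_eq_zero]
  apply ContinuousAlternatingMap.ext
  intro u
  change (extDeriv (JJ1 ρ χ Φ) p₀ - JJ ρ χ Ψ p₀) u = 0
  choose Ci hCi0 hCi using fun i : Fin 2 =>
    JJ1_fd hK hχ hp hρ.smooth hρc (i.removeNth u 0)
  set l : ℝ := 1 + ‖fderiv ℝ χ p₀‖ * ε with hl
  have hl0 : 0 ≤ l := by positivity
  obtain ⟨D, hD⟩ : ∃ D : Set (E d), D = Metric.closedBall p₀ (χ p₀ * ε) := ⟨_, rfl⟩
  have hDm : MeasurableSet D := by rw [hD]; exact Metric.isClosed_closedBall.measurableSet
  rw [← hD] at hI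
  obtain ⟨g, hg⟩ : ∃ g : E d → ℝ, g = D.indicator (fun q => ‖Ψ q‖) := ⟨_, rfl⟩
  have hgi : Integrable g := by
    rw [hg]; exact IntegrableOn.integrable_indicator hI.norm hDm
  have hg0 : ∀ x, 0 ≤ g x := fun x => by
    rw [hg]
    exact indicator_nonneg (fun q _ => norm_nonneg _) x
  obtain ⟨c', hc'⟩ : ∃ c' : ℝ, c' = P * ((χ p₀) ^ d)⁻¹ := ⟨_, rfl⟩
  have hc'0 : 0 ≤ c' := by rw [hc']; positivity
  have key : ∀ δ' : ℝ, 0 < δ' → |(extDeriv (JJ1 ρ χ Φ) p₀ - JJ ρ χ Ψ p₀) u| ≤
      (l ^ 2 * (c' * (1 + 2 * B)) * (∏ i, ‖u i‖) + ∑ i, Ci i * B * ‖u i‖) * δ' := by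
    intro δ' hδ'
    -- absolute continuity
    obtain ⟨δ₂, hδ₂, hac⟩ := exists_pos_setLIntegral_lt_of_measure_lt (μ := volume)
      (f := fun x : E d => ENNReal.ofReal (g x)) (by
        have h1 := hgi.2
        rw [hasFiniteIntegral_iff_ofReal (Eventually.of_forall hg0)] at h1
        exact h1.ne) (ε := ENNReal.ofReal δ') (by
        rw [Ne, ENNReal.ofReal_eq_zero, not_le]
        exact hδ')
    obtain ⟨δ₃, hδ₃0, hδ₃⟩ := ENNReal.lt_iff_exists_nnreal_btwn.1 (show (0 : ENNReal) < δ₂ from hδ₂)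
    have hδ₃0' : (0 : ℝ) < δ₃ := by exact_mod_cast hδ₃0
    obtain ⟨η, hη, hη0, hη1, hηk, -, hηc, hηv, hηi⟩ :=
      hcap univ isOpen_univ (subset_univ _) (min δ' δ₃) (lt_min hδ' hδ₃0')
    have hηv1 : volume (Function.support η) < ENNReal.ofReal δ' :=
      hηv.trans_le (ENNReal.ofReal_le_ofReal (min_le_left _ _))
    have hηv2 : volume (Function.support η) < δ₂ := by
      refine (hηv.trans_le (ENNReal.ofReal_le_ofReal (min_le_right _ _))).trans ?_
      rw [ENNReal.ofReal_coe_nnreal]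
      exact hδ₃
    have hηi1 : ∫ x, ‖fderiv ℝ η x‖ ≤ δ' := hηi.le.trans (min_le_left _ _)
    set s1 : E d → Al d 1 := fun q => (1 - η q) • Φ q with hs1
    set s2 : E d → Al d 1 := fun q => η q • Φ q with hs2
    have hf1 : StronglyMeasurable s1 :=
      (continuous_const.sub hη.continuous).stronglyMeasurable.smul hf
    have hf2 : StronglyMeasurable s2 := hη.continuous.stronglyMeasurable.smul hf
    have hb1 : ∀ q, ‖s1 q‖ ≤ B := by
      intro q
      rw [hs1, norm_smul, Real.norm_of_nonneg (by linarith [hη1 q])]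
      have h1 : (1 - η q) * ‖Φ q‖ ≤ 1 * B :=
        mul_le_mul (by linarith [hη0 q]) (hb q) (norm_nonneg _) zero_le_one
      rwa [one_mul] at h1
    have hb2' : ∀ q, ‖s2 q‖ ≤ η q * B := by
      intro q
      rw [hs2, norm_smul, Real.norm_of_nonneg (hη0 q)]
      exact mul_le_mul_of_nonneg_left (hb q) (hη0 q)
    have hb2 : ∀ q, ‖s2 q‖ ≤ B := fun q => (hb2' q).trans
      (mul_le_of_le_one_left hB0 (hη1 q))
    have hsum : JJ1 ρ χ Φ = JJ1 ρ χ s1 + JJ1 ρ χ s2 := by
      funext p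
      rw [Pi.add_apply, ← JJ1_add hρ.smooth.continuous hρc hf1 hb1 hf2 hb2]
      congr 1
      funext q
      simp only [hs1, hs2]
      rw [← add_smul, sub_add_cancel, one_smul]
    have hd1 : DifferentiableAt ℝ (JJ1 ρ χ s1) p₀ :=
      (JJ1_smooth hK hχ hp hρ.smooth hρc hf1 hb1).differentiableAt (by simp)
    have hd2 : DifferentiableAt ℝ (JJ1 ρ χ s2) p₀ :=
      (JJ1_smooth hK hχ hp hρ.smooth hρc hf2 hb2).differentiableAt (by simp)
    rw [hsum, extDeriv_add hd1 hd2]
    -- the small part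
    have hηI : Integrable η := hη.continuous.integrable_of_hasCompactSupport hηc
    have hi2 : Integrable s2 :=
      (hηI.mul_const B).mono' hf2.aestronglyMeasurable (Eventually.of_forall hb2')
    have hmη : ∫ x, η x ≤ δ' := int_cut_le hη0 hη1 hδ' hηv1
    have hm2 : ∫ x, ‖s2 x‖ ≤ B * δ' := by
      have h1 : ∫ x, ‖s2 x‖ ≤ ∫ x, η x * B := integral_mono hi2.norm (hηI.mul_const B) hb2'
      rw [integral_mul_const] at h1
      refine h1.trans ?_
      rw [mul_comm]
      exact mul_le_mul_of_nonneg_left hmη hB0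
    have part2 : |extDeriv (JJ1 ρ χ s2) p₀ u| ≤ (∑ i, Ci i * B * ‖u i‖) * δ' := by
      rw [extDeriv_apply hd2, Finset.sum_mul]
      refine (Finset.abs_sum_le_sum_abs _ _).trans (Finset.sum_le_sum fun i _ => ?_)
      have h1 : |(-1 : ℤ) ^ i.val • fderiv ℝ (fun x => JJ1 ρ χ s2 x (i.removeNth u)) p₀ (u i)| =
          |fderiv ℝ (fun x => JJ1 ρ χ s2 x (i.removeNth u)) p₀ (u i)| := by
        rcases neg_one_pow_eq_or ℤ i.val with h | h <;> rw [h] <;> simp
      have h2 : |fderiv ℝ (fun x => JJ1 ρ χ s2 x (i.removeNth u)) p₀ (u i)| ≤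
          Ci i * B * ‖u i‖ * δ' := by
        have h3 := (fderiv ℝ (fun x => JJ1 ρ χ s2 x (i.removeNth u)) p₀).le_opNorm (u i)
        have h4 := hCi i s2 B hf2 hb2 hi2
        rw [← one_eta (i.removeNth u)] at h4
        rw [Real.norm_eq_abs] at h3
        refine h3.trans ?_
        calc _ ≤ Ci i * (B * δ') * ‖u i‖ :=
              mul_le_mul_of_nonneg_right (h4.trans (mul_le_mul_of_nonneg_left hm2 (hCi0 i)))
                (norm_nonneg _)
          _ = _ := by ring
      refine le_trans (le_of_eq ?_) h2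
      convert h1 using 2
    -- the smooth part
    set O : Set (E d) := (V \ k) ∪ interior {x | η x = 1} with hO
    have hOo : IsOpen O := hVk.union isOpen_interior
    have hev1 : ∀ q ∈ interior {x | η x = 1}, s1 =ᶠ[𝓝 q] fun _ => 0 := by
      intro q hq
      filter_upwards [isOpen_interior.mem_nhds hq] with x hx
      have hx1 : x ∈ {x | η x = 1} := interior_subset hx
      rw [mem_ofPred_eq] at hx1
      simp only [hs1]
      rw [hx1, sub_self, zero_smul]
    have hev2 : ∀ q ∈ V \ k, s1 =ᶠ[𝓝 q] fun x => (1 - η x) • b x := by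
      intro q hq
      filter_upwards [ind1_ev (s := b) hVk hq] with x hx
      simp only [hs1, hΦ]
      rw [hx]
    have hη' : ContDiff ℝ ∞ (fun x => 1 - η x) := contDiff_const.sub hη
    have hsm1 : ContDiffOn ℝ ∞ s1 O := by
      intro q hq
      refine ContDiffAt.contDiffWithinAt ?_
      rcases hq with hq | hq
      · exact (hη'.contDiffAt.smul (hs.contDiffAt (hVk.mem_nhds hq))).congr_of_eventuallyEq
          (hev2 q hq)
      · exact contDiffAt_const.congr_of_eventuallyEq (hev1 q hq)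
    have hkint : ∀ q ∈ k ∩ Q, q ∈ interior {x | η x = 1} := by
      intro q hq
      rw [mem_interior_iff_mem_nhds]
      exact (eventually_nhdsSet_iff_forall.1 hηk) q hq
    have hQO : ∀ y, ‖y‖ ≤ ε → p₀ + χ p₀ • y ∈ O := by
      intro y hy
      have h1 := hball y hy
      by_cases hk' : p₀ + χ p₀ • y ∈ k
      · exact Or.inr (hkint _ ⟨hk', h1⟩)
      · exact Or.inl ⟨hQV h1, hk'⟩
    obtain ⟨-, hint1, h2⟩ := JJ1_sm hSM hρ hχ hOo hsm1 hQO
    have hdη : Continuous (fun x => ‖fderiv ℝ η x‖) := (hη.continuous_fderiv (by simp)).norm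
    have hdηi : Integrable (fun x => ‖fderiv ℝ η x‖) :=
      hdη.integrable_of_hasCompactSupport (hηc.fderiv ℝ).norm
    -- the error
    obtain ⟨γ, hγ⟩ : ∃ γ : E d → ℝ, γ = fun x => η x * g x + 2 * B * ‖fderiv ℝ η x‖ := ⟨_, rfl⟩
    have hγ0 : ∀ x, 0 ≤ γ x := fun x => by
      have h1 := hη0 x
      have h2 := hg0 x
      rw [hγ]
      positivity
    have hηg : Integrable (fun x => η x * g x) := by
      refine hgi.mono' (hη.continuous.aestronglyMeasurable.mul hgi.aestronglyMeasurable)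
        (Eventually.of_forall fun x => ?_)
      rw [Real.norm_of_nonneg (mul_nonneg (hη0 x) (hg0 x))]
      exact mul_le_of_le_one_left (hg0 x) (hη1 x)
    have hγi : Integrable γ := by rw [hγ]; exact hηg.add (hdηi.const_mul _)
    have hηg2 : ∫ x, η x * g x ≤ δ' := by
      have h1 : ∫ x, η x * g x = ∫ x in Function.support η, η x * g x := by
        refine (setIntegral_eq_integral_of_forall_compl_eq_zero fun t ht => ?_).symm
        rw [Function.notMem_support] at ht
        rw [ht, zero_mul]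
      have h3 : ∫ x in Function.support η, η x * g x ≤ ∫ x in Function.support η, g x :=
        integral_mono hηg.integrableOn hgi.integrableOn fun x =>
          mul_le_of_le_one_left (hg0 x) (hη1 x)
      have h4 : ENNReal.ofReal (∫ x in Function.support η, g x) ≤ ENNReal.ofReal δ' := by
        rw [ofReal_integral_eq_lintegral_ofReal hgi.integrableOn (Eventually.of_forall hg0)]
        exact (hac _ hηv2).le
      rw [h1]
      exact h3.trans ((ENNReal.ofReal_le_ofReal_iff hδ'.le).1 h4)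
    have hγm : ∫ x, γ x ≤ (1 + 2 * B) * δ' := by
      rw [hγ, integral_add hηg (hdηi.const_mul _), integral_const_mul]
      have h1 := mul_le_mul_of_nonneg_left hηi1 (show 0 ≤ 2 * B by positivity)
      linarith
    obtain ⟨hgi2, hgm2⟩ := avg_int hρ hP hγi hγ0 hp
    have hdiff : ‖JJ ρ χ (extDeriv s1) p₀ - JJ ρ χ Ψ p₀‖ ≤
        ∫ y, l ^ 2 * (ρ y * γ (p₀ + χ p₀ • y)) := by
      unfold JJ
      rw [← integral_sub hint1 hint2]
      refine norm_integral_le_of_norm_le (hgi2.const_mul _) (Eventually.of_forall fun y => ?_)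
      by_cases hy : ‖y‖ ≤ ε
      · set q : E d := p₀ + χ p₀ • y with hq
        have hqQ : q ∈ Q := hball y hy
        have hqD : q ∈ D := by rw [hD]; exact mem_ball_of hp hy
        have hgq : g q = ‖Ψ q‖ := by rw [hg, indicator_of_mem hqD]
        have h4 : ‖extDeriv s1 q - Ψ q‖ ≤ γ q := by
          by_cases hqk : q ∈ k
          · have hqn : q ∉ V \ k := fun h => h.2 hqk
            have h5 : Ψ q = 0 := indicator_of_notMem hqn _
            rw [ext1_zero (hev1 q (hkint q ⟨hqk, hqQ⟩)), h5, sub_self, norm_zero]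
            exact hγ0 q
          · have hqVk : q ∈ V \ k := ⟨hQV hqQ, hqk⟩
            have h5 : Ψ q = extDeriv b q := indicator_of_mem hqVk _
            have h6 : fderiv ℝ (fun x => 1 - η x) q = -fderiv ℝ η q := fderiv_const_sub _
            have h7 : extDeriv s1 q - Ψ q = -(η q • extDeriv b q) +
                ContinuousAlternatingMap.alternatizeUncurryFin
                  ((fderiv ℝ (fun x => 1 - η x) q).smulRight (b q)) := by
              rw [(hev2 q hqVk).extDeriv_eq, ext1_smul ((hη'.differentiable (by simp)) q)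
                ((hs.contDiffAt (hVk.mem_nhds hqVk)).differentiableAt (by simp)), h5, sub_smul,
                one_smul]
              abel
            rw [h7]
            refine (norm_add_le _ _).trans ?_
            have h8 := wedge2_norm (fderiv ℝ (fun x => 1 - η x) q) (b q)
            rw [h6, norm_neg] at h8
            rw [h6, norm_neg, norm_smul, Real.norm_of_nonneg (hη0 q)]
            have h9 := mul_le_mul_of_nonneg_left (hsB q hqVk) (norm_nonneg (fderiv ℝ η q))
            have h11 : γ q = η q * ‖extDeriv b q‖ + 2 * B * ‖fderiv ℝ η q‖ := by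
              rw [hγ]
              simp only
              rw [hgq, h5]
            rw [h11]
            linarith
        have h5 : ‖LL (fderiv ℝ χ p₀) y‖ ≤ l := by
          refine (LL_norm _ _).trans ?_
          rw [hl]
          have := mul_le_mul_of_nonneg_left hy (norm_nonneg (fderiv ℝ χ p₀))
          linarith
        have h6 : ‖(extDeriv s1 q - Ψ q).compContinuousLinearMap (LL (fderiv ℝ χ p₀) y)‖ ≤
            γ q * l ^ 2 :=
          (comp_norm _ _).trans (mul_le_mul h4 (pow_le_pow_left₀ (norm_nonneg _) h5 2)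
            (by positivity) (hγ0 q))
        have h7 : ρ y • (extDeriv s1 q).compContinuousLinearMap (LL (fderiv ℝ χ p₀) y) -
            ρ y • (Ψ q).compContinuousLinearMap (LL (fderiv ℝ χ p₀) y) =
            ρ y • (extDeriv s1 q - Ψ q).compContinuousLinearMap (LL (fderiv ℝ χ p₀) y) :=
          (smul_sub _ _ _).symm
        rw [h7, norm_smul, Real.norm_of_nonneg (hρ.nonneg y)]
        calc _ ≤ ρ y * (γ q * l ^ 2) :=
              mul_le_mul_of_nonneg_left h6 (hρ.nonneg y)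
          _ = _ := by ring
      · rw [not_le] at hy
        rw [hρ.supp y hy.le, zero_smul, zero_smul, sub_zero, norm_zero, zero_mul, mul_zero]
    have part1 : |(extDeriv (JJ1 ρ χ s1) p₀ - JJ ρ χ Ψ p₀) u| ≤
        l ^ 2 * (c' * (1 + 2 * B)) * (∏ i, ‖u i‖) * δ' := by
      rw [h2]
      have h4 := (JJ ρ χ (extDeriv s1) p₀ - JJ ρ χ Ψ p₀).le_opNorm u
      rw [Real.norm_eq_abs] at h4
      rw [integral_const_mul] at hdiff
      have h6 : ∫ y, ρ y * γ (p₀ + χ p₀ • y) ≤ c' * ((1 + 2 * B) * δ') := by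
        refine hgm2.trans ?_
        rw [← mul_assoc, ← hc']
        exact mul_le_mul_of_nonneg_left hγm hc'0
      have h7 : 0 ≤ ∏ i, ‖u i‖ := Finset.prod_nonneg fun i _ => norm_nonneg _
      calc |(JJ ρ χ (extDeriv s1) p₀ - JJ ρ χ Ψ p₀) u|
          ≤ ‖JJ ρ χ (extDeriv s1) p₀ - JJ ρ χ Ψ p₀‖ * ∏ i, ‖u i‖ := h4
        _ ≤ (l ^ 2 * (c' * ((1 + 2 * B) * δ'))) * ∏ i, ‖u i‖ :=
            mul_le_mul_of_nonneg_right (hdiff.trans
              (mul_le_mul_of_nonneg_left h6 (by positivity))) h7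
        _ = _ := by ring
    calc |(extDeriv (JJ1 ρ χ s1) p₀ + extDeriv (JJ1 ρ χ s2) p₀ - JJ ρ χ Ψ p₀) u|
        = |(extDeriv (JJ1 ρ χ s1) p₀ - JJ ρ χ Ψ p₀) u + extDeriv (JJ1 ρ χ s2) p₀ u| := by
          congr 1
          change (extDeriv (JJ1 ρ χ s1) p₀ u + extDeriv (JJ1 ρ χ s2) p₀ u) - JJ ρ χ Ψ p₀ u =
            (extDeriv (JJ1 ρ χ s1) p₀ u - JJ ρ χ Ψ p₀ u) + extDeriv (JJ1 ρ χ s2) p₀ u
          ring
      _ ≤ _ := (abs_add_le _ _).trans (add_le_add part1 part2)
      _ = _ := by ring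
  set Z : ℝ := (extDeriv (JJ1 ρ χ Φ) p₀ - JJ ρ χ Ψ p₀) u with hZ
  set Ct : ℝ := l ^ 2 * (c' * (1 + 2 * B)) * (∏ i, ‖u i‖) + ∑ i, Ci i * B * ‖u i‖ with hCt
  by_contra hne
  have hpos : 0 < |Z| := abs_pos.2 hne
  have hCt0 : 0 ≤ Ct := by
    have h1 := key 1 one_pos
    linarith [abs_nonneg Z]
  have h1 := key (|Z| / (2 * (Ct + 1))) (by positivity)
  have h2 : Ct * (|Z| / (2 * (Ct + 1))) ≤ |Z| / 2 := by
    rw [mul_div_assoc', div_le_div_iff₀ (by positivity) two_pos]
    nlinarith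
  linarith

end

end Pool.Agent.V8H58.BF
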