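import Pool.Agent.V8H58.BF.QcD
import Pool.Agent.Y972.SY.RGP

/-!
Local regularization of a bounded primitive of an unbounded form.
-/

set_option autoImplicit false

open Set Filter Topology MeasureTheory
open scoped Manifold ContDiff

noncomputable section

namespace Pool.Agent.V8H58.BF

open Pool.Agent.Y501.SY Pool.Agent.Y515.SY Pool.Agent.Y710.SY Pool.Agent.Y972.SY

variable {d : ℕ}

theorem QC.mono {A A' : ℝ} {η : Al d 2} {J' : E d →L[ℝ] E d} (h : QC A η J') (hA : A ≤ A')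
    (hp : ∀ v : E d, 0 ≤ η ![v, J' v]) : QC A' η J' := fun v w =>
  (h v w).trans (mul_le_mul_of_nonneg_right hA (add_nonneg (hp v) (hp w)))

/-- the comparison of the almost complex structures -/
theorem R_bound (a : E d →L[ℝ] ℝ) (J₁ J₂ : E d →L[ℝ] E d) {S ε : ℝ} (h1 : ‖J₁‖ ≤ S)
    (h2 : ‖J₂‖ ≤ S) {y : E d} (hy : ‖y‖ ≤ ε) :
    ‖(LL a y).comp J₁ - J₂.comp (LL a y)‖ ^ 2 ≤
      2 * ‖J₁ - J₂‖ ^ 2 + 8 * (‖a‖ ^ 2 * (S ^ 2 * ε ^ 2)) := by
  have hS0 : 0 ≤ S := (norm_nonneg _).trans h1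
  have hε0 : 0 ≤ ε := (norm_nonneg _).trans hy
  have hn : ‖(LL a y).comp J₁ - J₂.comp (LL a y)‖ ≤ ‖J₁ - J₂‖ + 2 * (‖a‖ * (S * ε)) := by
    refine ContinuousLinearMap.opNorm_le_bound _ (by positivity) fun v => ?_
    have e1 : ((LL a y).comp J₁ - J₂.comp (LL a y)) v =
        (J₁ - J₂) v + (a (J₁ v) • y - a v • J₂ y) := by
      change LL a y (J₁ v) - J₂ (LL a y v) = (J₁ v - J₂ v) + _
      rw [LL_apply, LL_apply, map_add, map_smul]
      abel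
    rw [e1]
    have n1 := (J₁ - J₂).le_opNorm v
    have n2 : ‖a (J₁ v) • y‖ ≤ ‖a‖ * (S * ε) * ‖v‖ := by
      rw [norm_smul]
      have m1 := a.le_opNorm (J₁ v)
      have m2 : ‖J₁ v‖ ≤ S * ‖v‖ :=
        (J₁.le_opNorm v).trans (mul_le_mul_of_nonneg_right h1 (norm_nonneg _))
      have m3 : ‖a (J₁ v)‖ ≤ ‖a‖ * (S * ‖v‖) :=
        m1.trans (mul_le_mul_of_nonneg_left m2 (norm_nonneg _))
      calc ‖a (J₁ v)‖ * ‖y‖ ≤ (‖a‖ * (S * ‖v‖)) * ε :=
            mul_le_mul m3 hy (norm_nonneg _) (by positivity)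
        _ = _ := by ring
    have n3 : ‖a v • J₂ y‖ ≤ ‖a‖ * (S * ε) * ‖v‖ := by
      rw [norm_smul]
      have m1 := a.le_opNorm v
      have m2 : ‖J₂ y‖ ≤ S * ε :=
        (J₂.le_opNorm y).trans (mul_le_mul h2 hy (norm_nonneg _) hS0)
      calc ‖a v‖ * ‖J₂ y‖ ≤ (‖a‖ * ‖v‖) * (S * ε) :=
            mul_le_mul m1 m2 (norm_nonneg _) (by positivity)
        _ = _ := by ring
    have n4 := norm_add_le ((J₁ - J₂) v) (a (J₁ v) • y - a v • J₂ y)
    have n5 := norm_sub_le (a (J₁ v) • y) (a v • J₂ y)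
    nlinarith
  have h3 := pow_le_pow_left₀ (norm_nonneg _) hn 2
  refine h3.trans ?_
  nlinarith [sq_nonneg (‖J₁ - J₂‖ - 2 * (‖a‖ * (S * ε)))]

section

variable {V k Q : Set (E d)} {s : E d → Al d 2} {Js : E d → (E d →L[ℝ] E d)}

/-- the averages at the points at which `χ` is positive -/
theorem JU_low {ρ χ : E d → ℝ} {ε P A c S X D : ℝ} (hρ : Moll ε ρ) (hP : ∀ y, ρ y ≤ P)
    (hVk : IsOpen (V \ k)) (hs : ContDiffOn ℝ ∞ s (V \ k)) (hA : 0 < A) (hc : 0 < c)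
    (hqc : ∀ p ∈ V \ k, QC A (s p) (Js p))
    (hpos : ∀ p ∈ V \ k, ∀ v : E d, c * ‖v‖ ^ 2 ≤ s p ![v, Js p v]) (hQV : Q ⊆ V)
    (hkQ : volume (k ∩ Q) = 0) {p : E d} (hp : 0 < χ p)
    (hball : ∀ y, ‖y‖ ≤ ε → p + χ p • y ∈ Q)
    (hI : IntegrableOn ((V \ k).indicator s) (Metric.closedBall p (χ p * ε)))
    (hS0 : 0 ≤ S) (hS : ∀ q ∈ Q, ‖Js q‖ ≤ S) (hD : ‖fderiv ℝ χ p‖ ≤ D) (hDε : D * ε ≤ 1 / 8)
    (hX : ∀ y, ‖y‖ ≤ ε → ‖(LL (fderiv ℝ χ p) y).comp (Js p) -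
      (Js (p + χ p • y)).comp (LL (fderiv ℝ χ p) y)‖ ^ 2 ≤ X)
    (hm : 4 * A ^ 2 * (S * X) * ∫ y, ρ y * ‖(V \ k).indicator s (p + χ p • y)‖ ≤ c / 8) :
    (∀ v : E d, c / 4 * ‖v‖ ^ 2 ≤ JJ ρ χ ((V \ k).indicator s) p ![v, Js p v]) ∧
      QC (2 * A) (JJ ρ χ ((V \ k).indicator s) p) (Js p) := by
  obtain ⟨Ψ, hΨ⟩ : ∃ Ψ : E d → Al d 2, Ψ = (V \ k).indicator s := ⟨_, rfl⟩
  rw [← hΨ] at hI hm ⊢
  have hΨm : StronglyMeasurable Ψ := by rw [hΨ]; exact ind_sm hVk hs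
  obtain ⟨hmi, -, hint⟩ := JU_int hρ hP hΨm hp hI
  have hX0 : 0 ≤ X ∨ ε < 0 := by
    by_cases h : 0 ≤ ε
    · exact Or.inl ((sq_nonneg _).trans (hX 0 (by rw [norm_zero]; exact h)))
    · exact Or.inr (not_le.1 h)
  obtain ⟨T, hT⟩ : ∃ T : E d → (E d →L[ℝ] E d), T = fun y => LL (fderiv ℝ χ p) y := ⟨_, rfl⟩
  obtain ⟨X', hX'⟩ : ∃ X' : ℝ, X' = 4 * A ^ 2 * (S * X) := ⟨_, rfl⟩
  rw [← hX'] at hm
  have hev := fun v w => JU_eval (ρ := ρ) (χ := χ) (p := p) (Ψ := Ψ) hint v w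
  -- pointwise estimates
  have hpt : ∀ᵐ y : E d, ∀ v : E d, ‖y‖ < ε → Ψ (p + χ p • y) = s (p + χ p • y) ∧
      (p + χ p • y ∈ V \ k) ∧
      3 / 4 * Ψ (p + χ p • y) ![T y v, Js (p + χ p • y) (T y v)] ≤
        Ψ (p + χ p • y) ![T y v, T y (Js p v)] + X' * ‖Ψ (p + χ p • y)‖ * ‖v‖ ^ 2 ∧
      2 / 3 * c * ‖v‖ ^ 2 ≤ Ψ (p + χ p • y) ![T y v, Js (p + χ p • y) (T y v)] := by
    filter_upwards [aff_null hkQ p hp.ne'] with y hy v hyε
    obtain ⟨q, hq⟩ : ∃ q, q = p + χ p • y := ⟨_, rfl⟩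
    rw [← hq] at hy ⊢
    have hqQ : q ∈ Q := by rw [hq]; exact hball y hyε.le
    have hqVk : q ∈ V \ k := ⟨hQV hqQ, fun h => hy ⟨h, hqQ⟩⟩
    have e1 : Ψ q = s q := by rw [hΨ, indicator_of_mem hqVk]
    refine ⟨e1, hqVk, ?_, ?_⟩
    · have h1 := (hqc q hqVk).low hA (Js p) (T y) (hS q hqQ) v
      have h2 := hX y hyε.le
      rw [← hq] at h2
      rw [e1]
      have h3 : 4 * A ^ 2 * (S * (‖(T y).comp (Js p) - (Js q).comp (T y)‖ ^ 2 * ‖s q‖)) *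
          ‖v‖ ^ 2 ≤ X' * ‖s q‖ * ‖v‖ ^ 2 := by
        have h4 : ‖(T y).comp (Js p) - (Js q).comp (T y)‖ ^ 2 ≤ X := by rw [hT]; exact h2
        have h5 : ‖(T y).comp (Js p) - (Js q).comp (T y)‖ ^ 2 * ‖s q‖ ≤ X * ‖s q‖ :=
          mul_le_mul_of_nonneg_right h4 (norm_nonneg _)
        have h6 := mul_le_mul_of_nonneg_left h5 hS0
        have h7 := mul_le_mul_of_nonneg_left h6 (show 0 ≤ 4 * A ^ 2 by positivity)
        have h8 := mul_le_mul_of_nonneg_right h7 (sq_nonneg ‖v‖)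
        rw [hX']
        refine h8.trans (le_of_eq ?_)
        ring
      linarith
    · have h1 := hpos q hqVk (T y v)
      rw [e1]
      refine le_trans ?_ h1
      have h2 : 7 / 8 * ‖v‖ ≤ ‖T y v‖ := by
        have e2 : T y v = v + fderiv ℝ χ p v • y := by rw [hT]; rfl
        have h3 : ‖fderiv ℝ χ p v • y‖ ≤ 1 / 8 * ‖v‖ := by
          rw [norm_smul]
          have h4 : ‖fderiv ℝ χ p v‖ ≤ D * ‖v‖ :=
            ((fderiv ℝ χ p).le_opNorm v).trans (mul_le_mul_of_nonneg_right hD (norm_nonneg _))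
          have hD0 : 0 ≤ D := (norm_nonneg _).trans hD
          calc ‖fderiv ℝ χ p v‖ * ‖y‖ ≤ (D * ‖v‖) * ε :=
                mul_le_mul h4 hyε.le (norm_nonneg _) (by positivity)
            _ = D * ε * ‖v‖ := by ring
            _ ≤ _ := mul_le_mul_of_nonneg_right hDε (norm_nonneg _)
        have h5 : ‖v‖ ≤ ‖v + fderiv ℝ χ p v • y‖ + ‖fderiv ℝ χ p v • y‖ := by
          have h6 := norm_sub_le (v + fderiv ℝ χ p v • y) (fderiv ℝ χ p v • y)
          rwa [add_sub_cancel_right] at h6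
        rw [e2]
        linarith
      have h3 := pow_le_pow_left₀ (by positivity) h2 2
      have h4 := mul_le_mul_of_nonneg_left h3 hc.le
      nlinarith [sq_nonneg ‖v‖, mul_nonneg hc.le (sq_nonneg ‖v‖)]
  -- the lower bound
  have hlow : ∀ v : E d, 3 / 8 * c * ‖v‖ ^ 2 ≤ JJ ρ χ Ψ p ![v, Js p v] := by
    intro v
    rw [(hev v (Js p v)).2]
    have h1 : ∫ y, (ρ y * (c / 2 * ‖v‖ ^ 2) - X' * ‖v‖ ^ 2 * (ρ y * ‖Ψ (p + χ p • y)‖)) ≤
        ∫ y, ρ y * Ψ (p + χ p • y) ![LL (fderiv ℝ χ p) y v, LL (fderiv ℝ χ p) y (Js p v)] := by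
      refine integral_mono_ae (((moll_int hρ).mul_const _).sub (hmi.const_mul _))
        (hev v (Js p v)).1 ?_
      filter_upwards [hpt] with y hy
      by_cases hyε : ‖y‖ < ε
      · obtain ⟨-, -, h2, h3⟩ := hy v hyε
        rw [hT] at h2 h3
        have h4 : c / 2 * ‖v‖ ^ 2 - X' * ‖Ψ (p + χ p • y)‖ * ‖v‖ ^ 2 ≤
            Ψ (p + χ p • y) ![LL (fderiv ℝ χ p) y v, LL (fderiv ℝ χ p) y (Js p v)] := by
          linarith
        have h5 := mul_le_mul_of_nonneg_left h4 (hρ.nonneg y)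
        refine le_trans (le_of_eq ?_) h5
        ring
      · rw [not_lt] at hyε
        rw [hρ.supp y hyε]
        simp
    refine le_trans ?_ h1
    rw [integral_sub ((moll_int hρ).mul_const _) (hmi.const_mul _), integral_mul_const, hρ.int,
      integral_const_mul, one_mul]
    have h2 := mul_le_mul_of_nonneg_right hm (sq_nonneg ‖v‖)
    linarith
  refine ⟨fun v => ?_, fun v w => ?_⟩
  · have h1 := hlow v
    have h2 := mul_nonneg hc.le (sq_nonneg ‖v‖)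
    linarith
  · -- the upper bound
    have h1 : |JJ ρ χ Ψ p ![v, w]| ≤ ∫ y, (4 / 3 * A * ((ρ y * Ψ (p + χ p • y)
        ![LL (fderiv ℝ χ p) y v, LL (fderiv ℝ χ p) y (Js p v)] + ρ y * Ψ (p + χ p • y)
        ![LL (fderiv ℝ χ p) y w, LL (fderiv ℝ χ p) y (Js p w)]) +
        X' * (‖v‖ ^ 2 + ‖w‖ ^ 2) * (ρ y * ‖Ψ (p + χ p • y)‖))) := by
      rw [(hev v w).2, ← Real.norm_eq_abs]
      refine norm_integral_le_of_norm_le (((((hev v (Js p v)).1.add (hev w (Js p w)).1).add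
        (hmi.const_mul _)).const_mul _)) ?_
      filter_upwards [hpt] with y hy
      by_cases hyε : ‖y‖ < ε
      · obtain ⟨e1, h0, h2, -⟩ := hy v hyε
        obtain ⟨-, -, h3, -⟩ := hy w hyε
        have h4 := hqc _ h0 (T y v) (T y w)
        rw [← e1] at h4
        rw [hT] at h2 h3 h4
        rw [norm_mul, Real.norm_of_nonneg (hρ.nonneg y), Real.norm_eq_abs]
        have h5 : |Ψ (p + χ p • y) ![LL (fderiv ℝ χ p) y v, LL (fderiv ℝ χ p) y w]| ≤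
            4 / 3 * A * ((Ψ (p + χ p • y)
            ![LL (fderiv ℝ χ p) y v, LL (fderiv ℝ χ p) y (Js p v)] + Ψ (p + χ p • y)
            ![LL (fderiv ℝ χ p) y w, LL (fderiv ℝ χ p) y (Js p w)]) +
            X' * (‖v‖ ^ 2 + ‖w‖ ^ 2) * ‖Ψ (p + χ p • y)‖) := by
          have h6 := add_le_add h2 h3
          have h7 := mul_le_mul_of_nonneg_left h6 (show 0 ≤ 4 / 3 * A by positivity)
          refine h4.trans ?_
          refine le_trans (le_of_eq ?_) (h7.trans (le_of_eq ?_))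
          · ring
          · ring
        have h8 := mul_le_mul_of_nonneg_left h5 (hρ.nonneg y)
        refine h8.trans (le_of_eq ?_)
        ring
      · rw [not_lt] at hyε
        rw [hρ.supp y hyε]
        simp
    have j1 : Integrable (fun y => ρ y * Ψ (p + χ p • y)
        ![LL (fderiv ℝ χ p) y v, LL (fderiv ℝ χ p) y (Js p v)] + ρ y * Ψ (p + χ p • y)
        ![LL (fderiv ℝ χ p) y w, LL (fderiv ℝ χ p) y (Js p w)]) :=
      (hev v (Js p v)).1.add (hev w (Js p w)).1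
    have j2 : Integrable (fun y => X' * (‖v‖ ^ 2 + ‖w‖ ^ 2) * (ρ y * ‖Ψ (p + χ p • y)‖)) :=
      hmi.const_mul _
    rw [integral_const_mul, integral_add j1 j2, integral_add (hev v (Js p v)).1
      (hev w (Js p w)).1,
      integral_const_mul, ← (hev v (Js p v)).2, ← (hev w (Js p w)).2] at h1
    refine h1.trans ?_
    have h2 := hlow v
    have h3 := hlow w
    have h4 := mul_le_mul_of_nonneg_right hm (sq_nonneg ‖v‖)
    have h5 := mul_le_mul_of_nonneg_right hm (sq_nonneg ‖w‖)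
    have h6 : JJ ρ χ Ψ p ![v, Js p v] + JJ ρ χ Ψ p ![w, Js p w] +
        X' * (‖v‖ ^ 2 + ‖w‖ ^ 2) * ∫ y, ρ y * ‖Ψ (p + χ p • y)‖ ≤
        3 / 2 * (JJ ρ χ Ψ p ![v, Js p v] + JJ ρ χ Ψ p ![w, Js p w]) := by
      nlinarith [mul_nonneg hc.le (sq_nonneg ‖v‖), mul_nonneg hc.le (sq_nonneg ‖w‖)]
    have h7 := mul_le_mul_of_nonneg_left h6 (show 0 ≤ 4 / 3 * A by positivity)
    refine h7.trans (le_of_eq ?_)
    ring

/-- uniformity of the modulus of continuity on compact sets -/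
theorem half_unif (hQ : IsCompact Q) (hQV : Q ⊆ V)
    (hJH : ∀ δ : ℝ, 0 < δ → ∀ p ∈ V, ∃ N ∈ 𝓝 p, ∀ q ∈ N, ∀ q' ∈ N,
      ‖Js q - Js q'‖ ^ 2 ≤ δ * ‖q - q'‖) {δ : ℝ} (hδ : 0 < δ) :
    ∃ r : ℝ, 0 < r ∧ ∀ p ∈ Q, ∀ q, dist p q < r → ‖Js p - Js q‖ ^ 2 ≤ δ * ‖p - q‖ := by
  choose N hN hNd using fun p : V => hJH δ hδ p p.2
  obtain ⟨r, hr, h⟩ := lebesgue_number_lemma_of_metric hQ (c := fun p : V => interior (N p))
    (fun p => isOpen_interior) (fun p hp => mem_iUnion.2 ⟨⟨p, hQV hp⟩,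
      mem_interior_iff_mem_nhds.2 (hN ⟨p, hQV hp⟩)⟩)
  refine ⟨r, hr, fun p hp q hpq => ?_⟩
  obtain ⟨i, hi⟩ := h p hp
  have h1 : p ∈ N i := interior_subset (hi (Metric.mem_ball_self hr))
  have h2 : q ∈ N i := interior_subset (hi (by rw [Metric.mem_ball, dist_comm]; exact hpq))
  exact hNd i p h1 q h2

end

theorem t_RGU (hK : S_KER) (hSM : S_SM) (hHH : S_HH) {V k : Set (E d)} {χ : E d → ℝ}
    {s₀ : E d → Al d 2} {b : E d → Al d 1} {Js : E d → (E d →L[ℝ] E d)} {A B c : ℝ}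
    (hA : 0 < A) (hB : 0 ≤ B) (hc : 0 < c) (hV : IsOpen V) (hVk : IsOpen (V \ k))
    (hcap : ∀ Q : Set (E d), IsCompact Q → Q ⊆ V → Cap (k ∩ Q))
    (hχ : ContDiff ℝ ∞ χ) (hχ0 : ∀ p, 0 ≤ χ p) (hχc : HasCompactSupport χ) (hχV : tsupport χ ⊆ V)
    (hs1 : ContDiffOn ℝ ∞ s₀ V) (hs2 : ∀ p ∈ V, extDeriv s₀ p = 0) (hs3 : ∀ p ∈ V, ‖s₀ p‖ ≤ B)
    (hb1 : ContDiffOn ℝ ∞ b (V \ k)) (hb2 : ∀ p ∈ V \ k, ‖b p‖ ≤ B)
    (hJ : ContinuousOn Js V) (hJB : ∀ p ∈ V, ‖Js p‖ ≤ B)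
    (hJH : ∀ δ : ℝ, 0 < δ → ∀ p ∈ V, ∃ N ∈ 𝓝 p, ∀ q ∈ N, ∀ q' ∈ N,
      ‖Js q - Js q'‖ ^ 2 ≤ δ * ‖q - q'‖)
    (hqc : ∀ p ∈ V \ k, QC A (s₀ p + extDeriv b p) (Js p))
    (hsp : ∀ p ∈ V \ k, ∀ v : E d, c * ‖v‖ ^ 2 ≤ (s₀ p + extDeriv b p) ![v, Js p v]) :
    ∃ (b' : E d → Al d 1) (B' c' : ℝ), 0 < c' ∧
      ContDiffOn ℝ ∞ b' (V \ (k ∩ {p | χ p = 0})) ∧
      (∀ p ∈ V \ (k ∩ {p | χ p = 0}), ‖b' p‖ ≤ B') ∧
      (∀ p ∈ V \ (k ∩ {p | χ p = 0}), QC (2 * A) (s₀ p + extDeriv b' p) (Js p)) ∧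
      (∀ p, χ p = 0 → b' p = b p) ∧
      ∀ p ∈ V \ (k ∩ {p | χ p = 0}), ∀ v : E d,
        c' * ‖v‖ ^ 2 ≤ (s₀ p + extDeriv b' p) ![v, Js p v] := by
  obtain ⟨a, had⟩ : ∃ a : E d → Al d 2, a = fun p => s₀ p + extDeriv b p := ⟨_, rfl⟩
  have hdb : ContDiffOn ℝ ∞ (extDeriv b) (V \ k) := ext_smooth hVk hb1
  have hac : ContDiffOn ℝ ∞ a (V \ k) := by rw [had]; exact (hs1.mono sdiff_subset).add hdb
  have hpos0 : ∀ p ∈ V \ k, ∀ v : E d, 0 ≤ (s₀ p + extDeriv b p) ![v, Js p v] := fun p hp v =>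
    le_trans (by positivity) (hsp p hp v)
  -- the parameters
  obtain ⟨r, hr, hrV⟩ := IsCompact.exists_cthickening_subset_open hχc hV hχV
  set Q : Set (E d) := Metric.cthickening r (tsupport χ) with hQdef
  have hQ : IsCompact Q := IsCompact.cthickening hχc
  have hNQ : tsupport χ ⊆ Q := Metric.self_subset_cthickening _
  have hcapQ : Cap (k ∩ Q) := hcap Q hQ hrV
  have hkQ : volume (k ∩ Q) = 0 := vol_zero hcapQ
  obtain ⟨Cm, r₀, hCm, hr₀, hmass⟩ := mass2 (Q := Q) hA hB hV hVk hs1 hs3 hb1 hb2 hqc hpos0 hcap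
    hJ hJB hQ hrV
  obtain ⟨M, hM0, hM⟩ := chi_sq hχ hχ0 hχc
  obtain ⟨P, hP0, hP⟩ := moll_bound (d := d)
  obtain ⟨D, hD⟩ := (hχ.continuous_fderiv (by simp)).bounded_above_of_compact_support
    (hχc.fderiv ℝ)
  have hD0 : 0 ≤ D := (norm_nonneg _).trans (hD 0)
  obtain ⟨X, hX⟩ := hχ.continuous.bounded_above_of_compact_support hχc
  have hX0 : 0 ≤ X := (norm_nonneg _).trans (hX 0)
  obtain ⟨Y₁, hY₁⟩ : ∃ Y₁ : ℝ, Y₁ = A ^ 2 * B * (P * Cm) := ⟨_, rfl⟩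
  have hY₁0 : 0 ≤ Y₁ := by rw [hY₁]; positivity
  obtain ⟨Y₂, hY₂⟩ : ∃ Y₂ : ℝ, Y₂ = A ^ 2 * B * (M * B ^ 2) * (P * Cm) := ⟨_, rfl⟩
  have hY₂0 : 0 ≤ Y₂ := by rw [hY₂]; positivity
  obtain ⟨δ₁, hδ₁def⟩ : ∃ δ₁ : ℝ, δ₁ = c / (128 * (Y₁ + 1)) := ⟨_, rfl⟩
  have hδ₁ : 0 < δ₁ := by rw [hδ₁def]; positivity
  have hδY : 8 * (Y₁ * δ₁) ≤ c / 16 := by
    have h1 : Y₁ * δ₁ * (128 * (Y₁ + 1)) = Y₁ * c := by
      rw [hδ₁def]
      field_simp
    nlinarith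
  obtain ⟨r₃, hr₃, hr₃'⟩ := half_unif hQ hrV hJH hδ₁
  obtain ⟨ε, hεdef⟩ : ∃ ε : ℝ, ε = min (min (r / (X + 1)) (r₃ / (2 * (X + 1))))
    (min (min (r₀ / (X + 1)) (1 / (8 * (D + 1)))) (c / (512 * (Y₂ + 1)))) := ⟨_, rfl⟩
  have hε : 0 < ε := by
    rw [hεdef]
    refine lt_min (lt_min (by positivity) (by positivity)) (lt_min (lt_min (by positivity)
      (by positivity)) (by positivity))
  have hεa : ε ≤ r / (X + 1) := by rw [hεdef]; exact (min_le_left _ _).trans (min_le_left _ _)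
  have hεb : ε ≤ r₃ / (2 * (X + 1)) := by
    rw [hεdef]; exact (min_le_left _ _).trans (min_le_right _ _)
  have hεc : ε ≤ r₀ / (X + 1) := by
    rw [hεdef]; exact (min_le_right _ _).trans ((min_le_left _ _).trans (min_le_left _ _))
  have hεd : ε ≤ 1 / (8 * (D + 1)) := by
    rw [hεdef]; exact (min_le_right _ _).trans ((min_le_left _ _).trans (min_le_right _ _))
  have hεe : ε ≤ c / (512 * (Y₂ + 1)) := by
    rw [hεdef]; exact (min_le_right _ _).trans (min_le_right _ _)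
  rw [le_div_iff₀ (by positivity)] at hεa hεb hεc hεd hεe
  have hDε : D * ε ≤ 1 / 8 := by nlinarith
  have hεY : 32 * (Y₂ * ε) ≤ c / 16 := by nlinarith
  obtain ⟨ρ, hρ, hρP⟩ := hP ε hε
  have hmove : ∀ p y : E d, ‖y‖ ≤ ε → ‖χ p • y‖ ≤ X * ε := by
    intro p y hy
    rw [norm_smul]
    exact mul_le_mul (hX p) hy (norm_nonneg _) hX0
  have hball : ∀ p ∈ tsupport χ, ∀ y, ‖y‖ ≤ ε → p + χ p • y ∈ Q := by
    intro p hp y hy
    refine Metric.mem_cthickening_of_dist_le _ p _ _ hp ?_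
    rw [dist_eq_norm, add_sub_cancel_left]
    refine (hmove p y hy).trans ?_
    nlinarith
  have hin : ∀ p, χ p ≠ 0 → p ∈ tsupport χ := fun p hp => subset_tsupport χ hp
  have hfd : ∀ p, χ p = 0 → fderiv ℝ χ p = 0 := by
    intro p hp
    apply IsLocalMin.fderiv_eq_zero
    refine Eventually.of_forall fun x => ?_
    rw [hp]
    exact hχ0 x
  -- the homotopy
  obtain ⟨h, hh1, hh2, hh3⟩ := hHH hSM d V χ ρ s₀ ε hV hχ hχ0 hχc hε hρ hs1 hs2 (by
    intro p hp y hy u hu0 hu1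
    by_cases h0 : χ p = 0
    · rw [h0, mul_zero, zero_smul, add_zero]
      exact hp
    · apply hrV
      refine Metric.mem_cthickening_of_dist_le _ p _ _ (hin p h0) ?_
      rw [dist_eq_norm, add_sub_cancel_left, mul_smul, norm_smul, Real.norm_of_nonneg hu0]
      have h1 := hmove p y hy
      have h2 : u * ‖χ p • y‖ ≤ 1 * (X * ε) := mul_le_mul hu1 h1 (norm_nonneg _) zero_le_one
      refine h2.trans ?_
      nlinarith)
  obtain ⟨H, hH⟩ := (show IsCompact (tsupport χ) from hχc).exists_bound_of_continuousOn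
    (hh1.continuousOn.mono hχV)
  -- the open set
  classical
  set J : E d → Al d 2 := JJ ρ χ ((V \ k).indicator a) with hJdef
  set Ω : Set (E d) := V \ (k ∩ {p | χ p = 0}) with hΩ
  have hsplit : ∀ p ∈ Ω, (χ p = 0 ∧ p ∈ V \ k) ∨ (0 < χ p ∧ p ∈ V) := by
    intro p hp
    by_cases h : χ p = 0
    · exact Or.inl ⟨h, hp.1, fun hk => hp.2 ⟨hk, h⟩⟩
    · exact Or.inr ⟨lt_of_le_of_ne (hχ0 p) (Ne.symm h), hp.1⟩
  have hΩo : IsOpen Ω := by
    have h1 : Ω = (V \ k) ∪ (V ∩ {p | χ p ≠ 0}) := by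
      ext p
      constructor
      · intro hp
        rcases hsplit p hp with h | h
        · exact Or.inl h.2
        · exact Or.inr ⟨h.2, h.1.ne'⟩
      · rintro (h | h)
        · exact ⟨h.1, fun h' => h.2 h'.1⟩
        · exact ⟨h.1, fun h' => h.2 h'.2⟩
    rw [h1]
    exact hVk.union (hV.inter (isOpen_ne_fun hχ.continuous continuous_const))
  have hindb : ∀ q, ‖(V \ k).indicator b q‖ ≤ B := ind1_bd hB hb2
  -- integrability on the balls
  have hrad : ∀ p, 0 < χ p → 0 < χ p * ε ∧ χ p * ε ≤ r₀ := by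
    intro p hp
    have h1 : χ p ≤ X := (le_abs_self _).trans (hX p)
    refine ⟨by positivity, ?_⟩
    nlinarith
  have hIa : ∀ p, 0 < χ p → IntegrableOn ((V \ k).indicator a)
      (Metric.closedBall p (χ p * ε)) := by
    intro p hp
    rw [had]
    exact (hmass p (hNQ (hin p hp.ne')) _ (hrad p hp).1 (hrad p hp).2).1
  have hs₀i : ∀ p r, IntegrableOn ((V \ k).indicator s₀) (Metric.closedBall p r) := by
    intro p r
    haveI : IsFiniteMeasure (volume.restrict (Metric.closedBall p r)) :=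
      ⟨by rw [Measure.restrict_apply_univ]; exact measure_closedBall_lt_top⟩
    refine Integrable.mono' (integrable_const B) (ind_sm hVk
      (hs1.mono sdiff_subset)).aestronglyMeasurable.restrict (Eventually.of_forall fun q => ?_)
    exact ind_bd hB (fun p hp => hs3 p hp.1) q
  have hIb : ∀ p, 0 < χ p → IntegrableOn ((V \ k).indicator (extDeriv b))
      (Metric.closedBall p (χ p * ε)) := by
    intro p hp
    have h1 : (V \ k).indicator (extDeriv b) = fun q =>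
        (V \ k).indicator a q - (V \ k).indicator s₀ q := by
      funext q
      by_cases hq : q ∈ V \ k
      · rw [indicator_of_mem hq, indicator_of_mem hq, indicator_of_mem hq, had]
        change _ = s₀ q + extDeriv b q - s₀ q
        abel
      · rw [indicator_of_notMem hq, indicator_of_notMem hq, indicator_of_notMem hq, sub_zero]
    rw [h1]
    exact (hIa p hp).sub (hs₀i p _)
  have hJ1' : ∀ p ∈ Ω, ContDiffAt ℝ ∞ (JJ1 ρ χ ((V \ k).indicator b)) p ∧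
      extDeriv (JJ1 ρ χ ((V \ k).indicator b)) p = JJ ρ χ ((V \ k).indicator (extDeriv b)) p := by
    intro p hp
    rcases hsplit p hp with h' | h'
    · exact JJ1_off hSM hρ hχ hVk hb1 h'.2 h'.1
    · exact ⟨JJ1_smooth hK hχ h'.1 hρ.smooth (moll_cs hρ) (ind1_sm hVk hb1) hindb,
        J1U_ext hK hSM hε.le hρ hρP hχ hVk hb1 hB hb2 hrV hcapQ h'.1 (hball p (hin p h'.1.ne'))
          (hIb p h'.1)⟩
  obtain ⟨b1, hb1d⟩ : ∃ b1 : E d → Al d 1, b1 = fun p =>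
      JJ1 ρ χ ((V \ k).indicator b) p + h p := ⟨_, rfl⟩
  obtain ⟨b', hb'⟩ : ∃ b' : E d → Al d 1, ∀ p, b' p = if χ p = 0 then b p else b1 p :=
    ⟨_, fun _ => rfl⟩
  have hb'1 : ∀ p ∈ Ω, b' p = b1 p := by
    intro p hp
    rw [hb' p]
    split_ifs with h0
    · rcases hsplit p hp with h' | h'
      · rw [hb1d]
        change b p = JJ1 ρ χ ((V \ k).indicator b) p + h p
        rw [JJ1_eq hρ _ h0 (hfd p h0), indicator_of_mem h'.2, hh2 p h0, add_zero]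
      · exact absurd h0 h'.1.ne'
    · rfl
  have hev : ∀ p ∈ Ω, b' =ᶠ[𝓝 p] b1 := by
    intro p hp
    filter_upwards [hΩo.mem_nhds hp] with q hq using hb'1 q hq
  have hhc : ∀ p ∈ V, ContDiffAt ℝ ∞ h p := fun p hp => hh1.contDiffAt (hV.mem_nhds hp)
  have hb1c : ∀ p ∈ Ω, ContDiffAt ℝ ∞ b1 p := by
    intro p hp
    rw [hb1d]
    exact (hJ1' p hp).1.add (hhc p hp.1)
  have hb1e : ∀ p ∈ Ω, extDeriv b1 p =
      JJ ρ χ ((V \ k).indicator (extDeriv b)) p + (JJ ρ χ s₀ p - s₀ p) := by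
    intro p hp
    have h1 := extDeriv_fun_add ((hJ1' p hp).1.differentiableAt (by simp))
      ((hhc p hp.1).differentiableAt (by simp))
    rw [hb1d, h1, (hJ1' p hp).2, hh3 p hp.1]
  -- the sum
  have hsum : ∀ p ∈ Ω, JJ ρ χ ((V \ k).indicator (extDeriv b)) p + JJ ρ χ s₀ p = J p := by
    intro p hp
    rcases hsplit p hp with h' | h'
    · rw [hJdef, JJ_eq hρ _ h'.1 (hfd p h'.1), JJ_eq hρ _ h'.1 (hfd p h'.1),
        JJ_eq hρ _ h'.1 (hfd p h'.1), indicator_of_mem h'.2, indicator_of_mem h'.2, had]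
      exact add_comm _ _
    · rw [JJ_ind (V := V) (k := k) (s := s₀) hρ hrV hkQ h'.1.ne' (hball p (hin p h'.1.ne')), hJdef]
      have i1 := (JU_int hρ hρP (ind_sm hVk hdb) h'.1 (hIb p h'.1)).2.2
      have i2 := (JU_int hρ hρP (ind_sm hVk (hs1.mono sdiff_subset)) h'.1 (hs₀i p _)).2.2
      unfold JJ
      rw [← integral_add i1 i2]
      refine integral_congr_ae (Eventually.of_forall fun y => ?_)
      dsimp only
      by_cases hq : p + χ p • y ∈ V \ k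
      · rw [indicator_of_mem hq, indicator_of_mem hq, indicator_of_mem hq, had, ← smul_add]
        congr 1
        apply ContinuousAlternatingMap.ext
        intro u
        change extDeriv b _ _ + s₀ _ _ = s₀ _ _ + extDeriv b _ _
        exact add_comm _ _
      · rw [indicator_of_notMem hq, indicator_of_notMem hq, indicator_of_notMem hq]
        apply ContinuousAlternatingMap.ext
        intro u
        change ρ y * 0 + ρ y * 0 = ρ y * 0
        ring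
  have hfin : ∀ p ∈ Ω, s₀ p + extDeriv b' p = J p := by
    intro p hp
    rw [(hev p hp).extDeriv_eq, hb1e p hp, ← hsum p hp]
    abel
  -- the estimates at the points at which `χ` is positive
  have hest : ∀ p, 0 < χ p → (∀ v : E d, c / 4 * ‖v‖ ^ 2 ≤ J p ![v, Js p v]) ∧
      QC (2 * A) (J p) (Js p) := by
    intro p hp
    have hpN : p ∈ tsupport χ := hin p hp.ne'
    have hp0 := (hrad p hp).1
    have hXb : ∀ y, ‖y‖ ≤ ε → ‖(LL (fderiv ℝ χ p) y).comp (Js p) -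
        (Js (p + χ p • y)).comp (LL (fderiv ℝ χ p) y)‖ ^ 2 ≤
          (χ p * ε) * (2 * δ₁ + 8 * (M * B ^ 2 * ε)) := by
      intro y hy
      refine (R_bound _ _ _ (hJB p (hχV hpN)) (hJB _ (hrV (hball p hpN y hy))) hy).trans ?_
      have h1 : ‖Js p - Js (p + χ p • y)‖ ^ 2 ≤ δ₁ * (χ p * ε) := by
        have h2 : dist p (p + χ p • y) < r₃ := by
          rw [dist_eq_norm, sub_add_cancel_left, norm_neg]
          refine lt_of_le_of_lt (hmove p y hy) ?_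
          nlinarith
        have h3 := hr₃' p (hNQ hpN) _ h2
        rw [sub_add_cancel_left, norm_neg, norm_smul, Real.norm_of_nonneg hp.le] at h3
        exact h3.trans (mul_le_mul_of_nonneg_left (mul_le_mul_of_nonneg_left hy hp.le) hδ₁.le)
      have h2 : ‖fderiv ℝ χ p‖ ^ 2 * (B ^ 2 * ε ^ 2) ≤ (M * χ p) * (B ^ 2 * ε ^ 2) :=
        mul_le_mul_of_nonneg_right (hM p) (by positivity)
      nlinarith
    obtain ⟨hm1, hm2⟩ := hmass p (hNQ hpN) _ (hrad p hp).1 (hrad p hp).2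
    rw [← had] at hm1 hm2
    refine JU_low (V := V) (k := k) (Q := Q) hρ hρP hVk hac hA hc (by rw [had]; exact hqc)
      (by rw [had]; exact hsp) hrV hkQ hp (hball p hpN) hm1 hB
      (fun q hq => hJB q (hrV hq)) (hD p) hDε hXb ?_
    obtain ⟨-, hm3, -⟩ := JU_int hρ hρP (ind_sm hVk hac) hp hm1
    obtain ⟨m, hmd⟩ : ∃ m : ℝ, m = ∫ y, ρ y * ‖(V \ k).indicator a (p + χ p • y)‖ := ⟨_, rfl⟩
    obtain ⟨I, hId⟩ : ∃ I : ℝ, I = ∫ q in Metric.closedBall p (χ p * ε),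
      ‖(V \ k).indicator a q‖ := ⟨_, rfl⟩
    rw [← hmd] at hm3 ⊢
    rw [← hId] at hm2 hm3
    have h1 : (χ p * ε) * m ≤ P * Cm := by
      have h2 := mul_le_mul_of_nonneg_left hm3 hp0.le
      have h3 : (χ p * ε) * (P * (ε ^ d)⁻¹ * (((χ p) ^ d)⁻¹ * I)) =
          P * ((ε ^ d)⁻¹ * ((χ p) ^ d)⁻¹) * ((χ p * ε) * I) := by ring
      rw [h3] at h2
      have h4 : 0 ≤ P * ((ε ^ d)⁻¹ * ((χ p) ^ d)⁻¹) := by positivity
      have h5 := mul_le_mul_of_nonneg_left hm2 h4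
      refine h2.trans (h5.trans (le_of_eq ?_))
      rw [mul_pow]
      have e1 : ε ^ d ≠ 0 := by positivity
      have e2 : (χ p) ^ d ≠ 0 := by positivity
      field_simp
    have h2 : 0 ≤ 4 * A ^ 2 * (B * (2 * δ₁ + 8 * (M * B ^ 2 * ε))) := by positivity
    have h3 := mul_le_mul_of_nonneg_left h1 h2
    calc 4 * A ^ 2 * (B * ((χ p * ε) * (2 * δ₁ + 8 * (M * B ^ 2 * ε)))) * m
        = 4 * A ^ 2 * (B * (2 * δ₁ + 8 * (M * B ^ 2 * ε))) * ((χ p * ε) * m) := by ring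
      _ ≤ 4 * A ^ 2 * (B * (2 * δ₁ + 8 * (M * B ^ 2 * ε))) * (P * Cm) := h3
      _ = 8 * (Y₁ * δ₁) + 32 * (Y₂ * ε) := by rw [hY₁, hY₂]; ring
      _ ≤ c / 8 := by linarith
  refine ⟨b', max B (B * (1 + D * ε) + H), c / 4, by positivity, ?_, ?_, ?_, ?_, ?_⟩
  · intro p hp
    exact ((hb1c p hp).congr_of_eventuallyEq (hev p hp)).contDiffWithinAt
  · intro p hp
    have hm1 := le_max_left B (B * (1 + D * ε) + H)
    have hm2 := le_max_right B (B * (1 + D * ε) + H)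
    rcases hsplit p hp with h' | h'
    · rw [hb' p, if_pos h'.1]
      exact (hb2 p h'.2).trans hm1
    · rw [hb'1 p hp, hb1d]
      change ‖JJ1 ρ χ ((V \ k).indicator b) p + h p‖ ≤ _
      have h1 := norm_add_le (JJ1 ρ χ ((V \ k).indicator b) p) (h p)
      have h2 := JJ1_bd hρ hindb (hD p)
      have h3 := hH p (hin p h'.1.ne')
      linarith
  · intro p hp
    rw [hfin p hp]
    rcases hsplit p hp with h' | h'
    · rw [hJdef, JJ_eq hρ _ h'.1 (hfd p h'.1), indicator_of_mem h'.2, had]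
      exact (hqc p h'.2).mono (by linarith) (hpos0 p h'.2)
    · exact (hest p h'.1).2
  · intro p hp
    rw [hb' p, if_pos hp]
  · intro p hp v
    rw [hfin p hp]
    rcases hsplit p hp with h' | h'
    · rw [hJdef, JJ_eq hρ _ h'.1 (hfd p h'.1), indicator_of_mem h'.2, had]
      have h1 := hsp p h'.2 v
      have h2 := mul_nonneg hc.le (sq_nonneg ‖v‖)
      linarith
    · exact (hest p h'.1).1 v

end Pool.Agent.V8H58.BF
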