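import Pool.Agent.V8H58.BF.QcE
import Pool.Agent.Y501.SY.StepP
import Pool.Agent.Y891.SY.PatchP
import Pool.Agent.Y929.SY.Glob

/-!
One step of the regularization, for bounded one-forms with unbounded exterior derivative.
-/

set_option autoImplicit false

open Set Filter Topology MeasureTheory
open scoped Manifold ContDiff

noncomputable section

namespace Pool.Agent.V8H58.BF

open Pool.Agent.Y501.SY Pool.Agent.Y455.SY

section

variable {d : ℕ} {X : Type} [TopologicalSpace X] [ChartedSpace (E d) X]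

/-- one-forms, bounded and smooth off `K`, such that `σ = σ₀ + dβ` is uniformly taming off `K` and
controlled by its values on complex lines -/
structure UTQ {m : ℕ} (F : X → E m) (J : End d X) (σ₀ : Form d X 2) (β : Form d X 1)
    (σ : Form d X 2) (K : Set X) : Prop where
  smβ : SmoothOff β K
  smooth : SmoothOff σ K
  isD : IsDOff β (σ - σ₀) K
  bddβ : ∃ B : ℝ, 0 < B ∧ ∀ x, x ∉ K → ∀ v : TangentSpace (𝓡 d) x, |β x ![v]| ≤ B * nm F x v
  qc : ∃ A : ℝ, 0 < A ∧ ∀ x, x ∉ K → ∀ v w : TangentSpace (𝓡 d) x,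
    |σ x ![v, w]| ≤ A * (σ x ![v, J x v] + σ x ![w, J x w])
  pos : ∃ c : ℝ, 0 < c ∧ ∀ x, x ∉ K → ∀ v : TangentSpace (𝓡 d) x,
    c * nm F x v ^ 2 ≤ σ x ![v, J x v]

/-- the modulus of continuity of `J` near a point, in the chart at this point -/
def HolNear (J : End d X) (x : X) : Prop :=
  ∀ᶠ p in 𝓝 (chartAt (E d) x x), ∀ δ : ℝ, 0 < δ → ∃ N ∈ 𝓝 p, ∀ q ∈ N, ∀ q' ∈ N,
    ‖inChart J x q - inChart J x q'‖ ^ 2 ≤ δ * ‖q - q'‖

end

theorem stepQ (hI : S_IMM) (hQ : S_QB) (hHH : S_HH) (hKer : S_KER)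
    (hSm : S_SM) (hCap : S_CAP) (hPa : S_PATCHP)
    {d m : ℕ} {X : Type} [TopologicalSpace X] [ChartedSpace (E d) X] [IsManifold (𝓡 d) ∞ X]
    [T2Space X] {F : X → E m} (hF : ContMDiff (𝓡 d) (𝓡 m) ∞ F)
    (hFi : ∀ x, Function.Injective (mfderiv (𝓡 d) (𝓡 m) F x)) {J : End d X}
    (hJ : IsAlmostComplex J) (hd : 1 ≤ d) {σ₀ : Form d X 2} (hσ₀ : IsSmooth σ₀)
    (hσ₀c : IsClosedForm σ₀) (z : X) (hz : HolNear J z) :
    ∃ W : Set X, IsOpen W ∧ z ∈ W ∧ ∀ (K : Set X) (β : Form d X 1) (w : Form d X 2),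
      IsClosed K →
      (∀ x₀ : X, μH[(d : ℝ) - 1] (chartAt (E d) x₀ '' (K ∩ (chartAt (E d) x₀).source)) = 0) →
      UTQ F J σ₀ β w K → ∃ (β' : Form d X 1) (w' : Form d X 2), UTQ F J σ₀ β' w' (K \ W) := by
  -- the ball
  obtain ⟨r, hr, hball⟩ : ∃ r : ℝ, 0 < r ∧ ∀ p ∈ Metric.closedBall (chartAt (E d) z z) r,
      p ∈ (chartAt (E d) z).target ∧ ∀ δ : ℝ, 0 < δ → ∃ N ∈ 𝓝 p, ∀ q ∈ N, ∀ q' ∈ N,
    ‖inChart J z q - inChart J z q'‖ ^ 2 ≤ δ * ‖q - q'‖ := by
    have h5 : ∀ᶠ p in 𝓝 (chartAt (E d) z z), p ∈ (chartAt (E d) z).target :=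
      (chartAt (E d) z).open_target.mem_nhds (mem_chart_target (E d) z)
    obtain ⟨r, hr, h6⟩ := Metric.nhds_basis_closedBall.mem_iff.1 (h5.and hz)
    exact ⟨r, hr, fun p hp => ⟨(h6 hp).1, (h6 hp).2⟩⟩
  obtain ⟨p₀, hp₀⟩ : ∃ p₀, p₀ = chartAt (E d) z z := ⟨_, rfl⟩
  rw [← hp₀] at hball
  obtain ⟨e, he⟩ : ∃ e, e = chartAt (E d) z := ⟨_, rfl⟩
  have hzs : z ∈ e.source := by rw [he]; exact mem_chart_source (E d) z
  have hez : e z = p₀ := by rw [he, hp₀]
  have hVt : Metric.closedBall p₀ r ⊆ e.target := fun p hp => by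
    rw [he]; exact (hball p hp).1
  have hV : Metric.ball p₀ r ⊆ e.target := Metric.ball_subset_closedBall.trans hVt
  have hN : IsCompact (Metric.closedBall p₀ r) := isCompact_closedBall p₀ r
  obtain ⟨ci, Ci, hci, hCi, hnm⟩ := hI d m X F hF hFi z (Metric.closedBall p₀ r) hN
    (by rw [← he]; exact hVt)
  obtain ⟨⟨Cs, hCs, hs₀b⟩, -⟩ := hQ d X J hJ σ₀ hσ₀ z (Metric.closedBall p₀ r) hN
    (by rw [← he]; exact hVt)
  have hW : IsOpen (e.source ∩ e ⁻¹' Metric.ball p₀ (r / 2)) :=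
    e.isOpen_inter_preimage Metric.isOpen_ball
  have hO : IsOpen (e.source ∩ e ⁻¹' Metric.ball p₀ r) :=
    e.isOpen_inter_preimage Metric.isOpen_ball
  obtain ⟨W, hWd⟩ : ∃ W, W = e.source ∩ e ⁻¹' Metric.ball p₀ (r / 2) := ⟨_, rfl⟩
  obtain ⟨O, hOd⟩ : ∃ O, O = e.source ∩ e ⁻¹' Metric.ball p₀ r := ⟨_, rfl⟩
  rw [← hWd] at hW
  rw [← hOd] at hO
  have heO : e '' O = Metric.ball p₀ r := by
    apply Subset.antisymm
    · rintro _ ⟨x, hx, rfl⟩
      rw [hOd] at hx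
      exact hx.2
    · intro p hp
      refine ⟨e.symm p, ?_, e.right_inv (hV hp)⟩
      rw [hOd]
      refine ⟨e.map_target (hV hp), ?_⟩
      rw [mem_preimage, e.right_inv (hV hp)]
      exact hp
  have hOs : O ⊆ e.source := by rw [hOd]; exact inter_subset_left
  have hWO : W ⊆ O := by
    rw [hWd, hOd]
    exact inter_subset_inter_right _ (preimage_mono (Metric.ball_subset_ball (by linarith)))
  have hWs : ∀ p ∈ Metric.ball p₀ r, e.symm p ∈ W ↔ p ∈ Metric.ball p₀ (r / 2) := by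
    intro p hp
    rw [hWd]
    constructor
    · rintro ⟨_, h⟩
      rwa [mem_preimage, e.right_inv (hV hp)] at h
    · intro h
      refine ⟨e.map_target (hV hp), ?_⟩
      rwa [mem_preimage, e.right_inv (hV hp)]
  -- the cut-off function
  obtain ⟨χ, hχ⟩ : ∃ χ : ContDiffBump p₀, χ.rOut = r / 2 :=
    ⟨⟨r / 4, r / 2, by positivity, by linarith⟩, rfl⟩
  have hχt : tsupport χ = Metric.closedBall p₀ (r / 2) := by rw [χ.tsupport_eq, hχ]
  have hχ0 : ∀ p, χ p = 0 ↔ p ∉ Metric.ball p₀ (r / 2) := by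
    intro p
    rw [← hχ, ← χ.support_eq, Function.notMem_support]
  have htV : Metric.closedBall p₀ (r / 2) ⊆ Metric.ball p₀ r :=
    Metric.closedBall_subset_ball (by linarith)
  refine ⟨W, hW, ?_, ?_⟩
  · rw [hWd]
    refine ⟨hzs, ?_⟩
    rw [mem_preimage, hez]
    exact Metric.mem_ball_self (by linarith)
  intro K β w hK hH hUT
  obtain ⟨A₁, hA₁, hwA⟩ := hUT.qc
  obtain ⟨B₂, hB₂, hβB⟩ := hUT.bddβ
  obtain ⟨c₁, hc₁, hwc⟩ := hUT.pos
  obtain ⟨k, hk⟩ : ∃ k, k = Metric.ball p₀ r ∩ e.symm ⁻¹' K := ⟨_, rfl⟩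
  have hVk : Metric.ball p₀ r \ k = Metric.ball p₀ r ∩ e.symm ⁻¹' Kᶜ := by
    rw [hk]
    ext p
    simp only [Set.mem_sdiff, mem_inter_iff, mem_preimage, mem_compl_iff]
    tauto
  have hVko : IsOpen (Metric.ball p₀ r \ k) := by
    rw [hVk]
    have h1 : IsOpen (e.target ∩ e.symm ⁻¹' Kᶜ) := e.isOpen_inter_preimage_symm hK.isOpen_compl
    have h2 : Metric.ball p₀ r ∩ e.symm ⁻¹' Kᶜ = Metric.ball p₀ r ∩ (e.target ∩ e.symm ⁻¹' Kᶜ) := by
      rw [← inter_assoc, inter_eq_left.2 hV]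
    rw [h2]
    exact Metric.isOpen_ball.inter h1
  have hsK : ∀ p ∈ Metric.ball p₀ r \ k, e.symm p ∉ K := by
    intro p hp
    rw [hVk] at hp
    exact hp.2
  have hcapk : ∀ Q : Set (E d), IsCompact Q → Q ⊆ Metric.ball p₀ r → Cap (k ∩ Q) := by
    intro Q hQc hQV
    have h1 : k ∩ Q = Q ∩ e.symm ⁻¹' K := by
      rw [hk]
      ext p
      simp only [mem_inter_iff, mem_preimage]
      exact ⟨fun h => ⟨h.2, h.1.2⟩, fun h => ⟨⟨hQV h.1, h.2⟩, h.1⟩⟩
    have h2 : IsClosed (Q ∩ e.symm ⁻¹' K) :=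
      (e.continuousOn_symm.mono (hQV.trans hV)).preimage_isClosed_of_isClosed hQc.isClosed hK
    rw [h1]
    refine hCap d hd _ (hQc.of_isClosed_subset h2 inter_subset_left) ?_
    refine measure_mono_null ?_ (hH z)
    rintro p ⟨hp, hpK⟩
    rw [← he]
    exact ⟨e.symm p, ⟨hpK, e.map_target (hV (hQV hp))⟩, e.right_inv (hV (hQV hp))⟩
  have hsymm : ContMDiffOn (𝓡 d) (𝓡 d) ∞ (chartAt (E d) z).symm (Metric.ball p₀ r) :=
    contMDiffOn_chart_symm.mono (by rw [← he]; exact hV)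
  have hb1 : ContDiffOn ℝ ∞ (pb (chartAt (E d) z).symm β) (Metric.ball p₀ r \ k) :=
    hUT.smβ _ _ hVko (hsymm.mono sdiff_subset) (by rw [← he]; exact hsK)
  have hs2 : ∀ p ∈ Metric.ball p₀ r \ k, pb (chartAt (E d) z).symm σ₀ p +
      extDeriv (pb (chartAt (E d) z).symm β) p = pb (chartAt (E d) z).symm w p := by
    intro p hp
    have h1 := hUT.isD _ _ hVko (hsymm.mono sdiff_subset) (by rw [← he]; exact hsK) p hp
    rw [h1]
    have h2 : pb (chartAt (E d) z).symm (w - σ₀) p = pb (chartAt (E d) z).symm w p -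
      pb (chartAt (E d) z).symm σ₀ p := rfl
    rw [h2]
    abel
  have hb3 : ∀ p ∈ Metric.ball p₀ r \ k, ‖pb (chartAt (E d) z).symm β p‖ ≤ B₂ * Ci := by
    intro p hp
    refine norm_le1 _ (by positivity) fun v => ?_
    rw [pb_app1]
    have hpc : p ∈ Metric.closedBall p₀ r := Metric.ball_subset_closedBall hp.1
    have h1 := hβB ((chartAt (E d) z).symm p) (by rw [← he]; exact hsK p hp)
      (mfderiv (𝓡 d) (𝓡 d) (chartAt (E d) z).symm p v)
    refine h1.trans ?_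
    have h2 := (hnm p hpc v).2
    calc _ ≤ B₂ * (Ci * ‖v‖) := by gcongr
      _ = B₂ * Ci * ‖v‖ := by ring
  have hqeq : ∀ (w : Form d X 2) (p : E d), p ∈ Metric.ball p₀ r → ∀ v : E d,
      pb (chartAt (E d) z).symm w p ![v, inChart J z p v] =
      w ((chartAt (E d) z).symm p) ![Pool.Agent.Y455.SY.A z p v,
        J ((chartAt (E d) z).symm p) (Pool.Agent.Y455.SY.A z p v)] := by
    intro w p hp v
    have h0 := Q_eq w J z (p := p) (by rw [← he]; exact hV hp) v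
    unfold Q at h0
    exact h0
  have hs5 : ∀ p ∈ Metric.ball p₀ r \ k, QC A₁ (pb (chartAt (E d) z).symm w p)
      (inChart J z p) := by
    intro p hp v u
    rw [hqeq w p hp.1 v, hqeq w p hp.1 u, pb_app2]
    exact hwA ((chartAt (E d) z).symm p) (by rw [← he]; exact hsK p hp) _ _
  have hs4 : ∀ p ∈ Metric.ball p₀ r \ k, ∀ v : E d, c₁ * ci ^ 2 * ‖v‖ ^ 2 ≤
      pb (chartAt (E d) z).symm w p ![v, inChart J z p v] := by
    intro p hp v
    have hpc : p ∈ Metric.closedBall p₀ r := Metric.ball_subset_closedBall hp.1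
    rw [hqeq w p hp.1 v]
    have h1 := hwc ((chartAt (E d) z).symm p) (by rw [← he]; exact hsK p hp)
      (Pool.Agent.Y455.SY.A z p v)
    refine le_trans ?_ h1
    have h2 := (hnm p hpc v).1
    have h3 : (ci * ‖v‖) ^ 2 ≤ nm F ((chartAt (E d) z).symm p)
        (Pool.Agent.Y455.SY.A z p v) ^ 2 := by
      have : 0 ≤ ci * ‖v‖ := by positivity
      exact pow_le_pow_left₀ this h2 2
    calc _ = c₁ * (ci * ‖v‖) ^ 2 := by ring
      _ ≤ _ := by gcongr
  have hJc : ContinuousOn (inChart J z) (Metric.ball p₀ r) := (hJ.cont z).mono (by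
    rw [← he]; exact hV)
  have hz1 : ContDiffOn ℝ ∞ (pb (chartAt (E d) z).symm σ₀) (Metric.ball p₀ r) :=
    hσ₀ _ _ Metric.isOpen_ball hsymm
  have hz2 : ∀ p ∈ Metric.ball p₀ r, extDeriv (pb (chartAt (E d) z).symm σ₀) p = 0 := by
    intro p hp
    have h1 := hσ₀c _ _ Metric.isOpen_ball hsymm p hp
    rw [h1, pb_zero]
    rfl
  obtain ⟨b', B', c', hc', g1, g2, g3, g4, g5⟩ := t_RGU hKer hSm hHH
    (V := Metric.ball p₀ r) (k := k) (χ := χ)
    (s₀ := pb (chartAt (E d) z).symm σ₀)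
    (b := pb (chartAt (E d) z).symm β)
    (Js := inChart J z) (A := A₁) (B := max (B₂ * Ci) Cs)
    (c := c₁ * ci ^ 2) hA₁ (le_max_of_le_right hCs.le) (by positivity)
    Metric.isOpen_ball hVko hcapk χ.contDiff
    (fun p => χ.nonneg) χ.hasCompactSupport (by rw [hχt]; exact htV) hz1 hz2
    (fun p hp => ((hs₀b p (Metric.ball_subset_closedBall hp)).1).trans (le_max_right _ _)) hb1
    (fun p hp => (hb3 p hp).trans (le_max_left _ _)) hJc
    (fun p hp => ((hs₀b p (Metric.ball_subset_closedBall hp)).2.1).trans (le_max_right _ _))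
    (fun δ hδ p hp => (hball p (Metric.ball_subset_closedBall hp)).2 δ hδ)
    (fun p hp => by
      rw [hs2 p hp]
      exact hs5 p hp)
    (fun p hp v => by
      rw [hs2 p hp]
      exact hs4 p hp v)
  -- the new singular set
  have hKW : IsClosed (K \ W) := by
    rw [sdiff_eq]
    exact hK.inter hW.isClosed_compl
  have hset : (chartAt (E d) z '' O) \ (chartAt (E d) z '' ((K \ W) ∩ O)) =
      Metric.ball p₀ r \ (k ∩ {p | χ p = 0}) := by
    rw [← he, heO]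
    ext p
    constructor
    · rintro ⟨hp, hn⟩
      refine ⟨hp, ?_⟩
      rintro ⟨h1, h2⟩
      apply hn
      rw [hk] at h1
      refine ⟨e.symm p, ⟨⟨h1.2, ?_⟩, ?_⟩, e.right_inv (hV hp)⟩
      · rw [hWs p hp]
        exact (hχ0 p).1 h2
      · rw [hOd]
        refine ⟨e.map_target (hV hp), ?_⟩
        rwa [mem_preimage, e.right_inv (hV hp)]
    · rintro ⟨hp, hn⟩
      refine ⟨hp, ?_⟩
      rintro ⟨x, ⟨⟨hxK, hxW⟩, hxO⟩, rfl⟩
      apply hn
      have hxs := hOs hxO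
      refine ⟨?_, ?_⟩
      · rw [hk]
        refine ⟨hp, ?_⟩
        change e.symm (e x) ∈ K
        rwa [e.left_inv hxs]
      · change χ (e x) = 0
        rw [hχ0, ← hWs _ hp, e.left_inv hxs]
        exact hxW
  obtain ⟨β₁, w₁, f1, f2, f3, f4, f5, f6⟩ := hPa d X z O K (K \ W)
    (Metric.closedBall p₀ (r / 2)) b' β σ₀ w hO
    (by rw [← he]; exact hOs) hKW sdiff_subset (isCompact_closedBall _ _)
    (by rw [← he, heO]; exact htV)
    (by
      intro x hx hx2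
      have hxW : x ∈ W := by
        by_contra h
        exact hx2 ⟨hx, h⟩
      refine ⟨hWO hxW, ?_⟩
      rw [← he]
      rw [hWd] at hxW
      exact Metric.ball_subset_closedBall hxW.2)
    (by rw [hset]; exact g1)
    (by
      intro p hp
      apply g4
      rw [hχ0]
      exact fun h => hp.2 (Metric.ball_subset_closedBall h))
    hσ₀ hσ₀c hUT.smβ hUT.smooth hUT.isD
  have hout : ∀ x, x ∉ O → β₁ x = β x ∧ w₁ x = w x := fun x hx => f4 x (Or.inl hx)
  have hin : ∀ x ∈ O, x ∉ K \ W → ∃ p ∈ Metric.ball p₀ r \ (k ∩ {p | χ p = 0}), e.symm p = x := by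
    intro x hx hx2
    refine ⟨e x, ?_, e.left_inv (hOs hx)⟩
    rw [← hset, ← he]
    refine ⟨⟨x, hx, rfl⟩, ?_⟩
    rintro ⟨y, hy, hyx⟩
    have : y = x := e.injOn (hOs hy.2) (hOs hx) hyx
    rw [this] at hy
    exact hx2 hy.1
  refine ⟨β₁, w₁, ⟨f1, f2, f3, ?_, ?_, ?_⟩⟩
  · refine ⟨max B₂ (|B'| * ci⁻¹), lt_max_of_lt_left hB₂, ?_⟩
    intro x hx v
    by_cases hxO : x ∈ O
    · obtain ⟨p, hp, rfl⟩ := hin x hxO hx
      have hpc : p ∈ Metric.closedBall p₀ r := Metric.ball_subset_closedBall hp.1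
      have hpt : p ∈ (chartAt (E d) z).target := by rw [← he]; exact hV hp.1
      subst he
      have hv := AB z hpt v
      obtain ⟨v', hv'⟩ : ∃ v', v' = Pool.Agent.Y455.SY.B z p v := ⟨_, rfl⟩
      rw [← hv'] at hv
      have h1 : β₁ ((chartAt (E d) z).symm p) ![v] = b' p ![v'] := by
        have h2 := f5 p (by rw [heO]; exact hp.1)
        rw [← h2, pb_app1]
        change _ = β₁ ((chartAt (E d) z).symm p) ![Pool.Agent.Y455.SY.A z p v']
        rw [hv]
      rw [h1]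
      have h3 := le_norm1 (b' p) v'
      have h4 := (hnm p hpc v').1
      change ci * ‖v'‖ ≤ nm F ((chartAt (E d) z).symm p) (Pool.Agent.Y455.SY.A z p v') at h4
      rw [hv] at h4
      have h6 : ‖v'‖ ≤ ci⁻¹ * nm F ((chartAt (E d) z).symm p) v := by
        rw [inv_mul_eq_div, le_div_iff₀ hci, mul_comm]
        exact h4
      have h8 : ‖b' p‖ ≤ |B'| := (g2 p hp).trans (le_abs_self _)
      have n1 : 0 ≤ nm F ((chartAt (E d) z).symm p) v := norm_nonneg _
      calc |b' p ![v']| ≤ ‖b' p‖ * ‖v'‖ := h3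
        _ ≤ |B'| * (ci⁻¹ * nm F ((chartAt (E d) z).symm p) v) := by gcongr
        _ = (|B'| * ci⁻¹) * nm F ((chartAt (E d) z).symm p) v := by ring
        _ ≤ _ := by
          have := le_max_right B₂ (|B'| * ci⁻¹)
          gcongr
    · rw [(hout x hxO).1]
      have hxK : x ∉ K := fun h => hx ⟨h, fun h' => hxO (hWO h')⟩
      refine (hβB x hxK v).trans ?_
      have := le_max_left B₂ (|B'| * ci⁻¹)
      have n1 : 0 ≤ nm F x v := norm_nonneg _
      gcongr
  · refine ⟨2 * A₁, by positivity, ?_⟩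
    intro x hx v u
    by_cases hxO : x ∈ O
    · obtain ⟨p, hp, rfl⟩ := hin x hxO hx
      have hpc : p ∈ Metric.closedBall p₀ r := Metric.ball_subset_closedBall hp.1
      have hpt : p ∈ (chartAt (E d) z).target := by rw [← he]; exact hV hp.1
      subst he
      have hv := AB z hpt v
      have hu := AB z hpt u
      obtain ⟨v', hv'⟩ : ∃ v', v' = Pool.Agent.Y455.SY.B z p v := ⟨_, rfl⟩
      obtain ⟨u', hu'⟩ : ∃ u', u' = Pool.Agent.Y455.SY.B z p u := ⟨_, rfl⟩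
      rw [← hv'] at hv
      rw [← hu'] at hu
      have h6 := f6 p (by rw [hset]; exact hp)
      have h1 : w₁ ((chartAt (E d) z).symm p) ![v, u] =
          (pb (chartAt (E d) z).symm σ₀ p + extDeriv b' p) ![v', u'] := by
        rw [← h6, pb_app2]
        change _ = w₁ ((chartAt (E d) z).symm p) ![Pool.Agent.Y455.SY.A z p v',
          Pool.Agent.Y455.SY.A z p u']
        rw [hv, hu]
      have h2 := hqeq w₁ p hp.1 v'
      have h3 := hqeq w₁ p hp.1 u'
      rw [hv, h6] at h2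
      rw [hu, h6] at h3
      have h4 := g3 p hp v' u'
      rw [h2, h3] at h4
      rw [h1]
      exact h4
    · rw [(hout x hxO).2]
      have hxK : x ∉ K := fun h => hx ⟨h, fun h' => hxO (hWO h')⟩
      refine (hwA x hxK v u).trans ?_
      have n1 : 0 ≤ w x ![v, J x v] := le_trans (by positivity) (hwc x hxK v)
      have n2 : 0 ≤ w x ![u, J x u] := le_trans (by positivity) (hwc x hxK u)
      nlinarith
  · refine ⟨min c₁ (c' * (Ci⁻¹) ^ 2), lt_min hc₁ (by positivity), ?_⟩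
    intro x hx v
    by_cases hxO : x ∈ O
    · obtain ⟨p, hp, rfl⟩ := hin x hxO hx
      have hpc : p ∈ Metric.closedBall p₀ r := Metric.ball_subset_closedBall hp.1
      have hpt : p ∈ (chartAt (E d) z).target := by rw [← he]; exact hV hp.1
      subst he
      have hv := AB z hpt v
      obtain ⟨v', hv'⟩ : ∃ v', v' = Pool.Agent.Y455.SY.B z p v := ⟨_, rfl⟩
      rw [← hv'] at hv
      have h0 := Q_eq w₁ J z hpt v'
      unfold Q at h0
      rw [hv, f6 p (by rw [hset]; exact hp)] at h0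
      rw [← h0]
      refine le_trans ?_ (g5 p hp v')
      have h4 := (hnm p hpc v').2
      change nm F ((chartAt (E d) z).symm p) (Pool.Agent.Y455.SY.A z p v') ≤ Ci * ‖v'‖ at h4
      rw [hv] at h4
      have n1 : 0 ≤ nm F ((chartAt (E d) z).symm p) v := norm_nonneg _
      have h6 : Ci⁻¹ * nm F ((chartAt (E d) z).symm p) v ≤ ‖v'‖ := by
        rw [inv_mul_eq_div, div_le_iff₀ hCi, mul_comm]
        exact h4
      have h7 : (Ci⁻¹ * nm F ((chartAt (E d) z).symm p) v) ^ 2 ≤ ‖v'‖ ^ 2 :=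
        pow_le_pow_left₀ (by positivity) h6 2
      calc min c₁ (c' * (Ci⁻¹) ^ 2) * nm F ((chartAt (E d) z).symm p) v ^ 2
          ≤ (c' * (Ci⁻¹) ^ 2) * nm F ((chartAt (E d) z).symm p) v ^ 2 := by
            have := min_le_right c₁ (c' * (Ci⁻¹) ^ 2)
            gcongr
        _ = c' * (Ci⁻¹ * nm F ((chartAt (E d) z).symm p) v) ^ 2 := by ring
        _ ≤ c' * ‖v'‖ ^ 2 := by gcongr
    · rw [(hout x hxO).2]
      have hxK : x ∉ K := fun h => hx ⟨h, fun h' => hxO (hWO h')⟩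
      refine le_trans ?_ (hwc x hxK v)
      have := min_le_left c₁ (c' * (Ci⁻¹) ^ 2)
      gcongr

end Pool.Agent.V8H58.BF
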