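import Pool.Agent.V8H58.BF.QcF
import Pool.Agent.Y501.SY.MainP

/-!
Bounded primitives of unbounded forms: the main theorem.
-/

set_option autoImplicit false

open Set Filter Topology MeasureTheory
open scoped Manifold ContDiff

noncomputable section

namespace Pool.Agent.V8H58.BF

open Pool.Agent.Y501.SY Pool.Agent.Y929.SY
open Pool.Agent.Y455.SY (A B AB BA A_surj Q Q_eq Q_sum)

section

variable {d : ℕ} {X : Type} [TopologicalSpace X] [ChartedSpace (E d) X]

/-- The values of `σ` off `K` near `x` are controlled by the values on complex lines. -/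
def QCAt (σ : Form d X 2) (J : End d X) (K : Set X) (x : X) : Prop :=
  ∃ a : ℝ, ∀ᶠ p in 𝓝 (chartAt (E d) x x), (chartAt (E d) x).symm p ∉ K → ∀ v w : E d,
    |pb (chartAt (E d) x).symm σ p ![v, w]| ≤
      a * (pb (chartAt (E d) x).symm σ p ![v, inChart J x p v] +
        pb (chartAt (E d) x).symm σ p ![w, inChart J x p w] + ‖v‖ ^ 2 + ‖w‖ ^ 2)

variable [IsManifold (𝓡 d) ∞ X]

/-- bounded forms -/
theorem qcAt_of_bdd {σ : Form d X 2} {J : End d X} {K : Set X} {x : X}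
    (hnn : ∀ x, x ∉ K → ∀ v : TangentSpace (𝓡 d) x, 0 ≤ σ x ![v, J x v])
    (h : BddAt σ K x) : QCAt σ J K x := by
  obtain ⟨B₀, hB₀⟩ := h
  refine ⟨|B₀|, ?_⟩
  filter_upwards [hB₀, (chartAt (E d) x).open_target.mem_nhds (mem_chart_target (E d) x)]
    with p hp hpt hpK v w
  have hq : ∀ v : E d, 0 ≤ pb (chartAt (E d) x).symm σ p ![v, inChart J x p v] := by
    intro v
    have h1 := Q_eq σ J x hpt v
    unfold Q at h1
    rw [h1]
    exact hnn _ hpK _
  have h2 : |pb (chartAt (E d) x).symm σ p ![v, w]| ≤ |B₀| * (‖v‖ * ‖w‖) := by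
    have h3 := (pb (chartAt (E d) x).symm σ p).le_opNorm ![v, w]
    rw [Fin.prod_univ_two] at h3
    exact h3.trans (mul_le_mul_of_nonneg_right ((hp hpK).trans (le_abs_self _))
      (mul_nonneg (norm_nonneg _) (norm_nonneg _)))
  have h4 : ‖v‖ * ‖w‖ ≤ ‖v‖ ^ 2 + ‖w‖ ^ 2 := by
    nlinarith [sq_nonneg (‖v‖ - ‖w‖), sq_nonneg ‖v‖, sq_nonneg ‖w‖]
  refine h2.trans (mul_le_mul_of_nonneg_left ?_ (abs_nonneg _))
  linarith [hq v, hq w]

/-- the control near a point, after adding a form which makes the form uniformly taming -/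
theorem qc_near (hI : S_IMM) (hQ : S_QB) {m : ℕ} (F : X → E m)
    (hF : ContMDiff (𝓡 d) (𝓡 m) ∞ F)
    (hinj : ∀ x, Function.Injective (mfderiv (𝓡 d) (𝓡 m) F x))
    (J : End d X) (hJ : IsAlmostComplex J) (σ η : Form d X 2) (K : Set X) (hη : IsSmooth η)
    (s : ℝ) {c : ℝ} (hc : 0 < c)
    (hpos : ∀ x, x ∉ K → ∀ v : TangentSpace (𝓡 d) x,
      c * nm F x v ^ 2 ≤ (σ + s • η) x ![v, J x v]) (x₀ : X) (h : QCAt σ J K x₀) :
    ∃ ε : ℝ, 0 < ε ∧ ∀ᶠ y in 𝓝 x₀, y ∉ K →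
      ∀ v w : TangentSpace (𝓡 d) y, ε * |(σ + s • η) y ![v, w]| ≤
        (σ + s • η) y ![v, J y v] + (σ + s • η) y ![w, J y w] := by
  have htar : (chartAt (E d) x₀).target ∈ 𝓝 (chartAt (E d) x₀ x₀) :=
    (chartAt (E d) x₀).open_target.mem_nhds (mem_chart_target (E d) x₀)
  obtain ⟨a, ha⟩ := h
  obtain ⟨N, hN, hN1, hN2⟩ := near htar
  obtain ⟨c₁, C₁, hc₁, hC₁, hnm⟩ := hI d m X F hF hinj x₀ N hN hN2
  obtain ⟨⟨C₂, hC₂, hb⟩, -⟩ := hQ d X J hJ η hη x₀ N hN hN2
  obtain ⟨S, hS⟩ : ∃ S : ℝ, S = |s| * C₂ := ⟨_, rfl⟩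
  have hS0 : 0 ≤ S := by rw [hS]; positivity
  obtain ⟨M, hM⟩ : ∃ M : ℝ, M = |a| + (|a| * (1 + S) + S) / (c * c₁ ^ 2) + 1 := ⟨_, rfl⟩
  have hM0 : 0 < M := by
    rw [hM]
    positivity
  refine ⟨1 / M, by positivity, ev_of_chart (d := d) ?_⟩
  filter_upwards [hN1, ha] with p hp hpB hpK v w
  obtain ⟨v', rfl⟩ := A_surj x₀ (hN2 hp) v
  obtain ⟨w', rfl⟩ := A_surj x₀ (hN2 hp) w
  have h1 : (σ + s • η) ((chartAt (E d) x₀).symm p) ![A x₀ p v', A x₀ p w'] =
      pb (chartAt (E d) x₀).symm σ p ![v', w'] + s * pb (chartAt (E d) x₀).symm η p ![v', w'] := by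
    rw [pb_apply2, pb_apply2]
    rfl
  have hno : ∀ f : (E d) [⋀^Fin 2]→L[ℝ] ℝ, |f ![v', w']| ≤ ‖f‖ * (‖v'‖ * ‖w'‖) := by
    intro f
    have h2 := f.le_opNorm ![v', w']
    rw [Fin.prod_univ_two] at h2
    exact h2
  -- the quadratic forms
  have hq : ∀ u : E d, (σ + s • η) ((chartAt (E d) x₀).symm p)
      ![A x₀ p u, J ((chartAt (E d) x₀).symm p) (A x₀ p u)] =
      pb (chartAt (E d) x₀).symm σ p ![u, inChart J x₀ p u] +
        s * pb (chartAt (E d) x₀).symm η p ![u, inChart J x₀ p u] := by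
    intro u
    have h2 := Q_eq (σ + s • η) J x₀ (hN2 hp) u
    rw [Q_add] at h2
    exact h2.symm
  have hlow : ∀ u : E d, c * c₁ ^ 2 * ‖u‖ ^ 2 ≤ (σ + s • η) ((chartAt (E d) x₀).symm p)
      ![A x₀ p u, J ((chartAt (E d) x₀).symm p) (A x₀ p u)] := by
    intro u
    refine le_trans ?_ (hpos _ hpK _)
    have h5 : c₁ * ‖u‖ ≤ nm F ((chartAt (E d) x₀).symm p) (A x₀ p u) := (hnm p hp u).1
    have h6 := pow_le_pow_left₀ (by positivity) h5 2
    calc c * c₁ ^ 2 * ‖u‖ ^ 2 = c * (c₁ * ‖u‖) ^ 2 := by ring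
      _ ≤ _ := mul_le_mul_of_nonneg_left h6 hc.le
  have hup : ∀ u : E d, pb (chartAt (E d) x₀).symm σ p ![u, inChart J x₀ p u] ≤
      (σ + s • η) ((chartAt (E d) x₀).symm p)
      ![A x₀ p u, J ((chartAt (E d) x₀).symm p) (A x₀ p u)] + S * ‖u‖ ^ 2 := by
    intro u
    have h2 := (hb p hp).2.2 u
    have h3 := mul_le_mul_of_nonneg_left h2 (abs_nonneg s)
    rw [← abs_mul] at h3
    have h4 := neg_abs_le (s * pb (chartAt (E d) x₀).symm η p ![u, inChart J x₀ p u])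
    have h5 := hq u
    rw [hS]
    linarith
  obtain ⟨nv, hnv⟩ : ∃ nv, nv = (σ + s • η) ((chartAt (E d) x₀).symm p)
      ![A x₀ p v', J ((chartAt (E d) x₀).symm p) (A x₀ p v')] := ⟨_, rfl⟩
  obtain ⟨nw, hnw⟩ : ∃ nw, nw = (σ + s • η) ((chartAt (E d) x₀).symm p)
      ![A x₀ p w', J ((chartAt (E d) x₀).symm p) (A x₀ p w')] := ⟨_, rfl⟩
  have lv := hlow v'
  have lw := hlow w'
  have uv := hup v'
  have uw := hup w'
  rw [← hnv] at lv uv ⊢
  rw [← hnw] at lw uw ⊢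
  have hcc : 0 < c * c₁ ^ 2 := by positivity
  have hv2 : 0 ≤ ‖v'‖ ^ 2 := sq_nonneg _
  have hw2 : 0 ≤ ‖w'‖ ^ 2 := sq_nonneg _
  have h2 : |pb (chartAt (E d) x₀).symm σ p ![v', w']| ≤
      |a| * (nv + nw + (1 + S) * (‖v'‖ ^ 2 + ‖w'‖ ^ 2)) := by
    have h3 := hpB hpK v' w'
    have h4 : 0 ≤ pb (chartAt (E d) x₀).symm σ p ![v', inChart J x₀ p v'] +
        pb (chartAt (E d) x₀).symm σ p ![w', inChart J x₀ p w'] + ‖v'‖ ^ 2 + ‖w'‖ ^ 2 ∨
        pb (chartAt (E d) x₀).symm σ p ![v', inChart J x₀ p v'] +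
        pb (chartAt (E d) x₀).symm σ p ![w', inChart J x₀ p w'] + ‖v'‖ ^ 2 + ‖w'‖ ^ 2 < 0 :=
      le_or_gt _ _
    have h7 : 0 ≤ nv + nw + (1 + S) * (‖v'‖ ^ 2 + ‖w'‖ ^ 2) := by
      have h8 : 0 ≤ nv := le_trans (by positivity) lv
      have h9 : 0 ≤ nw := le_trans (by positivity) lw
      positivity
    rcases h4 with h4 | h4
    · refine h3.trans ?_
      have h5 := mul_le_mul_of_nonneg_right (le_abs_self a) h4
      refine h5.trans (mul_le_mul_of_nonneg_left ?_ (abs_nonneg _))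
      linarith
    · have h10 : 0 ≤ (σ + s • η) ((chartAt (E d) x₀).symm p)
          ![A x₀ p v', J ((chartAt (E d) x₀).symm p) (A x₀ p v')] := by
        rw [← hnv]
        exact le_trans (by positivity) lv
      by_cases ha0 : 0 ≤ a
      · have h11 := mul_nonpos_of_nonneg_of_nonpos ha0 h4.le
        have h12 := abs_nonneg (pb (chartAt (E d) x₀).symm σ p ![v', w'])
        have h13 := mul_nonneg (abs_nonneg a) h7
        linarith
      · rw [not_le] at ha0
        -- replace `v', w'` by zero vectors is not needed: both sides are compared directly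
        have h14 : a * (pb (chartAt (E d) x₀).symm σ p ![v', inChart J x₀ p v'] +
            pb (chartAt (E d) x₀).symm σ p ![w', inChart J x₀ p w'] + ‖v'‖ ^ 2 + ‖w'‖ ^ 2) ≤
            |a| * |pb (chartAt (E d) x₀).symm σ p ![v', inChart J x₀ p v'] +
            pb (chartAt (E d) x₀).symm σ p ![w', inChart J x₀ p w'] + ‖v'‖ ^ 2 + ‖w'‖ ^ 2| := by
          rw [← abs_mul]
          exact le_abs_self _
        refine h3.trans (h14.trans (mul_le_mul_of_nonneg_left ?_ (abs_nonneg _)))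
        rw [abs_of_neg h4]
        -- lower bounds for the values of `σ`
        have hlo : ∀ u : E d, -(S * ‖u‖ ^ 2) ≤
            pb (chartAt (E d) x₀).symm σ p ![u, inChart J x₀ p u] := by
          intro u
          have k2 := (hb p hp).2.2 u
          have k3 := mul_le_mul_of_nonneg_left k2 (abs_nonneg s)
          rw [← abs_mul] at k3
          have k4 := le_abs_self (s * pb (chartAt (E d) x₀).symm η p ![u, inChart J x₀ p u])
          have k5 := hq u
          have k6 : 0 ≤ (σ + s • η) ((chartAt (E d) x₀).symm p)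
              ![A x₀ p u, J ((chartAt (E d) x₀).symm p) (A x₀ p u)] :=
            le_trans (by positivity) (hlow u)
          rw [hS]
          linarith
        have k7 := hlo v'
        have k8 := hlo w'
        have k9 : 0 ≤ nv := le_trans (by positivity) lv
        have k10 : 0 ≤ nw := le_trans (by positivity) lw
        nlinarith
  have h3 : |s * pb (chartAt (E d) x₀).symm η p ![v', w']| ≤ S * (‖v'‖ ^ 2 + ‖w'‖ ^ 2) := by
    rw [abs_mul, hS, mul_assoc]
    refine mul_le_mul_of_nonneg_left ?_ (abs_nonneg _)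
    refine (hno _).trans ((mul_le_mul_of_nonneg_right (hb p hp).1 (by positivity)).trans ?_)
    refine mul_le_mul_of_nonneg_left ?_ hC₂.le
    nlinarith [sq_nonneg (‖v'‖ - ‖w'‖)]
  have h4 : |(σ + s • η) ((chartAt (E d) x₀).symm p) ![A x₀ p v', A x₀ p w']| ≤
      |a| * (nv + nw) + (|a| * (1 + S) + S) * (‖v'‖ ^ 2 + ‖w'‖ ^ 2) := by
    rw [h1]
    refine (abs_add_le _ _).trans ?_
    linarith
  have h5 : (|a| * (1 + S) + S) * (‖v'‖ ^ 2 + ‖w'‖ ^ 2) ≤
      (|a| * (1 + S) + S) / (c * c₁ ^ 2) * (nv + nw) := by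
    have h6 : ‖v'‖ ^ 2 + ‖w'‖ ^ 2 ≤ (nv + nw) / (c * c₁ ^ 2) := by
      rw [le_div_iff₀ hcc]
      linarith
    have h7 : 0 ≤ |a| * (1 + S) + S := by positivity
    calc _ ≤ (|a| * (1 + S) + S) * ((nv + nw) / (c * c₁ ^ 2)) :=
          mul_le_mul_of_nonneg_left h6 h7
      _ = _ := by ring
  have h8 : 0 ≤ nv := le_trans (by positivity) lv
  have h9 : 0 ≤ nw := le_trans (by positivity) lw
  rw [div_mul_eq_mul_div, one_mul, div_le_iff₀ hM0]
  refine h4.trans ?_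
  have h10 : (nv + nw) * M = |a| * (nv + nw) + (|a| * (1 + S) + S) / (c * c₁ ^ 2) * (nv + nw) +
      (nv + nw) := by
    rw [hM]
    ring
  rw [h10]
  linarith

theorem mainQ (hI : S_IMM) (hQ : S_QB) (hHH : S_HH)
    (hKer : S_KER) (hSm : S_SM) (hCap : S_CAP) (hPa : S_PATCHP) (hd : 1 ≤ d)
    [CompactSpace X] [T2Space X] {J : End d X} (hJ : IsAlmostComplex J) {K : Set X}
    (hK : IsClosed K) (hHol : ∀ x ∈ K, HolNear J x)
    (hH : ∀ x₀ : X, μH[(d : ℝ) - 1] (chartAt (E d) x₀ '' (K ∩ (chartAt (E d) x₀).source)) = 0)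
    {σ₀ : Form d X 2} (hσ₀ : IsSmooth σ₀) (hσ₀c : IsClosedForm σ₀) {β : Form d X 1}
    {σ : Form d X 2} (hβ : SmoothOff β K) (hσ : SmoothOff σ K) (hβσ : IsDOff β (σ - σ₀) K)
    (hb1 : ∀ x, BddAt1 β K x) (hqc : ∀ x, QCAt σ J K x)
    (hpos : ∀ x, x ∉ K → ∀ v : TangentSpace (𝓡 d) x, 0 ≤ σ x ![v, J x v])
    (hthin : ∀ z, ¬ UTAt σ J K z →
      ThinAt2 0 0 J (connectedComponentIn {x | ¬ UTAt σ J K x} z) z) :
    ∃ (α : Form d X 1) (ρ : Form d X 2), IsSmooth α ∧ IsSmooth ρ ∧ IsD α ρ ∧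
      IsClosedForm (σ₀ + ρ) ∧ ∀ x, TamesAt (σ₀ + ρ) J x := by
  classical
  obtain ⟨m, F, hF, -, hFi⟩ := exists_embedding_euclidean_of_compact (I := 𝓡 d) (M := X)
  have hFc : IsClosed {x | ¬ UTAt σ J K x} :=
    (isOpen_UTAt hI hF hFi σ J K).isClosed_compl
  have hne : ∃ v : E d, v ≠ 0 := by
    have : Nontrivial (E d) := by
      have : Nonempty (Fin d) := ⟨⟨0, hd⟩⟩
      infer_instance
    exact exists_ne 0
  have hD2 : D2 (0 : Form d X 2) 0 J {x | ¬ UTAt σ J K x} = {x | ¬ UTAt σ J K x} := by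
    apply Subset.antisymm
    · exact fun x hx => hx.1
    · intro x hx
      obtain ⟨v, hv⟩ := hne
      exact ⟨hx, v, hv, rfl, rfl⟩
  obtain ⟨α₁, η, hpair, hη⟩ := level2 Pool.Agent.Y484.SY.t_GEN Pool.Agent.Y108.SY.t_PERT2
    Pool.Agent.Y925.SY.t_PLANAR hJ (σ := 0) (θ := 0) IsSmooth.zero IsSmooth.zero hFc (by
      rw [hD2]
      exact hthin)
  obtain ⟨hα₁, hηs, hαη, hηc⟩ := hpair.props Pool.Agent.Y484.SY.t_GEN
  have hut : ∀ x, UTAt σ J K x ∨ TamesAt η J x := by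
    intro x
    by_cases h : UTAt σ J K x
    · exact Or.inl h
    · exact Or.inr fun v hv => hη x h v hv rfl rfl
  -- the multiple of the exact form
  obtain ⟨s, hs, hpos1⟩ := unif (isCompact_univ (X := X))
    (fun ε y => ∀ s : ℝ, 0 < s → s ≤ ε → y ∉ K →
      ∀ v : TangentSpace (𝓡 d) y, ε * s * nm F y v ^ 2 ≤ (σ + s • η) y ![v, J y v])
    (fun ε ε' y hle hp s hs hsε hy v => by
      refine le_trans ?_ (hp s hs (hsε.trans hle) hy v)
      exact mul_le_mul_of_nonneg_right (mul_le_mul_of_nonneg_right hle hs.le) (sq_nonneg _))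
    (fun x _ => pos_near hI hQ F hF hFi J hJ σ η K hηs hpos x (hut x))
  have hpos2 : ∀ x, x ∉ K → ∀ v : TangentSpace (𝓡 d) x,
      s * s * nm F x v ^ 2 ≤ (σ + s • η) x ![v, J x v] := fun x hx v =>
    hpos1 x (mem_univ x) s hs le_rfl hx v
  have hss : 0 < s * s := mul_pos hs hs
  obtain ⟨δ, hδ, hqc2⟩ := unif (isCompact_univ (X := X))
    (fun δ y => y ∉ K → ∀ v w : TangentSpace (𝓡 d) y,
      δ * |(σ + s • η) y ![v, w]| ≤ (σ + s • η) y ![v, J y v] + (σ + s • η) y ![w, J y w])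
    (fun ε ε' y hle hp hy v w => by
      refine le_trans ?_ (hp hy v w)
      exact mul_le_mul_of_nonneg_right hle (abs_nonneg _))
    (fun x _ => qc_near hI hQ F hF hFi J hJ σ η K hηs s hss hpos2 x (hqc x))
  have hstart : UTQ F J σ₀ (β + s • α₁) (σ + s • η) K := by
    refine ⟨hβ.addSmooth (hα₁.smul s), hσ.addSmooth (hηs.smul s), ?_, ?_,
      ⟨1 / δ, by positivity, ?_⟩, ⟨s * s, hss, hpos2⟩⟩
    · intro U φ hU hφ hKφ p hp
      have h1 := hβσ U φ hU hφ hKφ p hp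
      have h2 := (hαη.smul s) U φ hU hφ p hp
      rw [pb_add, extDeriv_add (hβ.diffAt hU hφ hKφ hp) ((hα₁.smul s).diffAt hU hφ hp), h1, h2]
      have h3 : pb φ (σ + s • η - σ₀) p = pb φ (σ - σ₀) p + pb φ (s • η) p := by
        have e : σ + s • η - σ₀ = (σ - σ₀) + s • η := by abel
        rw [e, pb_add]
        rfl
      rw [h3]
    · refine bdd1_glob hI hF hFi fun x => ?_
      obtain ⟨B, hB⟩ := hb1 x
      have h1 : ContDiffOn ℝ ∞ (pb (chartAt (E d) x).symm (s • α₁)) (chartAt (E d) x).target :=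
        (hα₁.smul s) _ _ (chartAt (E d) x).open_target contMDiffOn_chart_symm
      have h2 : ContinuousAt (pb (chartAt (E d) x).symm (s • α₁)) (chartAt (E d) x x) :=
        h1.continuousOn.continuousAt
          ((chartAt (E d) x).open_target.mem_nhds (mem_chart_target (E d) x))
      refine ⟨B + (‖pb (chartAt (E d) x).symm (s • α₁) (chartAt (E d) x x)‖ + 1), ?_⟩
      filter_upwards [hB, h2.norm.eventually_lt_const (lt_add_one _)] with p hp hp2 hpK
      rw [pb_add, Pi.add_apply]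
      exact (norm_add_le _ _).trans (add_le_add (hp hpK) hp2.le)
    · intro x hx v w
      have h1 := hqc2 x (mem_univ x) hx v w
      rw [one_div, ← div_eq_inv_mul, le_div_iff₀ hδ]
      linarith
  choose W hWo hWz hW using fun z : K => stepQ hI hQ hHH hKer hSm hCap hPa hF hFi hJ hd
    hσ₀ hσ₀c z.1 (hHol z.1 z.2)
  have hfin : ∀ t : Finset K, ∃ (β' : Form d X 1) (w : Form d X 2),
      UTQ F J σ₀ β' w (K \ ⋃ z ∈ t, W z) := by
    intro t
    induction t using Finset.induction_on with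
    | empty =>
      refine ⟨β + s • α₁, σ + s • η, ?_⟩
      have h1 : K \ ⋃ z ∈ (∅ : Finset K), W z = K := by simp
      rw [h1]
      exact hstart
    | insert a t ha ih =>
      obtain ⟨β', w, hw⟩ := ih
      have hop : IsOpen (⋃ z ∈ t, W z) := isOpen_biUnion fun z _ => hWo z
      have hcl : IsClosed (K \ ⋃ z ∈ t, W z) := by
        rw [sdiff_eq]
        exact hK.inter hop.isClosed_compl
      obtain ⟨β'', w', hw'⟩ := hW a _ β' w hcl
        (fun x₀ => measure_mono_null (image_mono (inter_subset_inter_left _ sdiff_subset))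
          (hH x₀)) hw
      refine ⟨β'', w', ?_⟩
      have h1 : K \ ⋃ z ∈ insert a t, W z = (K \ ⋃ z ∈ t, W z) \ W a := by
        rw [Finset.set_biUnion_insert, union_comm, sdiff_sdiff_left]
        rfl
      rw [h1]
      exact hw'
  obtain ⟨t, htc⟩ := hK.isCompact.elim_nhds_subcover' (fun x hx => W ⟨x, hx⟩)
    (fun x hx => (hWo ⟨x, hx⟩).mem_nhds (hWz ⟨x, hx⟩))
  obtain ⟨β', w, hw⟩ := hfin t
  have hempty : K \ ⋃ z ∈ t, W z = ∅ := by
    rw [sdiff_eq_empty]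
    exact htc
  rw [hempty] at hw
  obtain ⟨c, hc, hwc⟩ := hw.pos
  have hβs : IsSmooth β' := fun V φ hV hφ => hw.smβ V φ hV hφ fun p _ => notMem_empty _
  have hws : IsSmooth w := fun V φ hV hφ => hw.smooth V φ hV hφ fun p _ => notMem_empty _
  have hρ : IsSmooth (w - σ₀) := by
    have h7 := hws.add (hσ₀.smul (-1))
    have h8 : w + (-1 : ℝ) • σ₀ = w - σ₀ := by
      funext x
      ext u
      change w x u + (-1 : ℝ) * σ₀ x u = w x u - σ₀ x u
      ring
    rwa [h8] at h7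
  have hd' : IsD β' (w - σ₀) := fun V φ hV hφ => hw.isD V φ hV hφ fun p _ => notMem_empty _
  have hcl : IsClosedForm (σ₀ + (w - σ₀)) := by
    have h1 := hσ₀c.add (closed_of_isD hβs hρ hd') hσ₀ hρ
    rwa [add_zero] at h1
  refine ⟨β', w - σ₀, hβs, hρ, hd', hcl, fun x v hv => ?_⟩
  rw [add_sub_cancel]
  refine lt_of_lt_of_le ?_ (hwc x (notMem_empty _) v)
  have h1 : 0 < nm F x v := by
    refine lt_of_le_of_ne (norm_nonneg _) fun h => hv ?_
    have h2 : (mfderiv (𝓡 d) (𝓡 m) F x v : E m) = 0 := norm_eq_zero.1 h.symm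
    apply hFi x
    rw [map_zero]
    exact h2
  positivity

end

end Pool.Agent.V8H58.BF
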