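import Mathlib

/-!
The regularized maximum of finitely many variables.
-/

set_option autoImplicit false

open Set Filter Topology MeasureTheory
open scoped ContDiff

noncomputable section

namespace Pool.Agent.V8H58.BF

section

variable {m : ℕ} [Nonempty (Fin m)]

/-- the maximum of the coordinates -/
def mx (t : Fin m → ℝ) : ℝ := Finset.univ.sup' Finset.univ_nonempty t

theorem le_mx (t : Fin m → ℝ) (i : Fin m) : t i ≤ mx t := Finset.le_sup' t (Finset.mem_univ i)

theorem mx_le {t : Fin m → ℝ} {c : ℝ} (h : ∀ i, t i ≤ c) : mx t ≤ c :=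
  Finset.sup'_le _ _ fun i _ => h i

theorem mx_eq (t : Fin m → ℝ) : ∃ i, mx t = t i := by
  obtain ⟨i, -, h⟩ := Finset.exists_mem_eq_sup' Finset.univ_nonempty t
  exact ⟨i, h⟩

theorem mx_mono {t t' : Fin m → ℝ} (h : ∀ i, t i ≤ t' i) : mx t ≤ mx t' :=
  mx_le fun i => (h i).trans (le_mx t' i)

theorem mx_const (t : Fin m → ℝ) (c : ℝ) : mx (fun i => t i + c) = mx t + c := by
  apply le_antisymm
  · exact mx_le fun i => by
      have := le_mx t i
      linarith
  · obtain ⟨i, h⟩ := mx_eq t
    have h1 : t i + c ≤ mx (fun i => t i + c) := le_mx (fun i => t i + c) i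
    linarith

theorem mx_lip (t t' : Fin m → ℝ) : mx t ≤ mx t' + dist t t' := by
  obtain ⟨i, h⟩ := mx_eq t
  have h1 := le_mx t' i
  have h2 := norm_le_pi_norm (t - t') i
  have h3 := le_abs_self ((t - t') i)
  rw [Real.norm_eq_abs] at h2
  simp only [Pi.sub_apply] at h2 h3
  rw [dist_eq_norm]
  linarith

theorem mx_cont : Continuous (mx (m := m)) := (LipschitzWith.of_le_add mx_lip).continuous

/-- the basis vectors -/
def bv (i : Fin m) : Fin m → ℝ := Pi.single i 1

omit [Nonempty (Fin m)] in
theorem bv_self (i : Fin m) : bv i i = 1 := by simp [bv]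

omit [Nonempty (Fin m)] in
theorem bv_ne {i j : Fin m} (h : j ≠ i) : bv i j = 0 := by simp [bv, h]

omit [Nonempty (Fin m)] in
theorem bv_nonneg (i j : Fin m) : 0 ≤ bv i j := by
  by_cases h : j = i
  · rw [h, bv_self]
    exact zero_le_one
  · rw [bv_ne h]

omit [Nonempty (Fin m)] in
theorem bv_le (i j : Fin m) : bv i j ≤ 1 := by
  by_cases h : j = i
  · rw [h, bv_self]
  · rw [bv_ne h]
    exact zero_le_one

theorem mx_sub {i j : Fin m} (hij : i ≠ j) (A : Fin m → ℝ) {a b : ℝ} (ha : 0 ≤ a) (hb : 0 ≤ b) :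
    mx (A + a • bv i + b • bv j) + mx A ≤ mx (A + a • bv i) + mx (A + b • bv j) := by
  obtain ⟨k, hk⟩ := mx_eq (A + a • bv i + b • bv j)
  have n1 : mx A ≤ mx (A + a • bv i) := mx_mono fun l => by
    have := mul_nonneg ha (bv_nonneg i l)
    simp only [Pi.add_apply, Pi.smul_apply, smul_eq_mul]
    linarith
  have n2 : mx A ≤ mx (A + b • bv j) := mx_mono fun l => by
    have := mul_nonneg hb (bv_nonneg j l)
    simp only [Pi.add_apply, Pi.smul_apply, smul_eq_mul]
    linarith
  by_cases hkj : k = j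
  · have h1 := le_mx (A + b • bv j) k
    rw [hk]
    simp only [Pi.add_apply, Pi.smul_apply, smul_eq_mul] at h1 ⊢
    rw [hkj] at h1 ⊢
    rw [bv_ne hij.symm]
    linarith
  · have h1 := le_mx (A + a • bv i) k
    rw [hk]
    simp only [Pi.add_apply, Pi.smul_apply, smul_eq_mul] at h1 ⊢
    rw [bv_ne hkj]
    linarith

/-- the kernel -/
def ker (m : ℕ) : (Fin m → ℝ) → ℝ :=
  ContDiffBump.normed (⟨1 / 2, 1, by norm_num, by norm_num⟩ : ContDiffBump (0 : Fin m → ℝ)) volume

omit [Nonempty (Fin m)] in
theorem ker_nonneg (y : Fin m → ℝ) : 0 ≤ ker m y := ContDiffBump.nonneg_normed _ y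

omit [Nonempty (Fin m)] in
theorem ker_int : ∫ y, ker m y = 1 := ContDiffBump.integral_normed _

omit [Nonempty (Fin m)] in
theorem ker_smooth : ContDiff ℝ ∞ (ker m) := ContDiffBump.contDiff_normed _

omit [Nonempty (Fin m)] in
theorem ker_cs : HasCompactSupport (ker m) := ContDiffBump.hasCompactSupport_normed _

omit [Nonempty (Fin m)] in
theorem ker_supp : Function.support (ker m) = Metric.ball 0 1 :=
  ContDiffBump.support_normed_eq _

omit [Nonempty (Fin m)] in
theorem ker_zero {y : Fin m → ℝ} (h : ¬ ‖y‖ < 1) : ker m y = 0 := by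
  by_contra h1
  have h2 : y ∈ Function.support (ker m) := h1
  rw [ker_supp, mem_ball_zero_iff] at h2
  exact h h2

omit [Nonempty (Fin m)] in
theorem ker_ne {y : Fin m → ℝ} (h : ‖y‖ < 1) : ker m y ≠ 0 := by
  have h2 : y ∈ Function.support (ker m) := by
    rw [ker_supp, mem_ball_zero_iff]
    exact h
  exact h2

omit [Nonempty (Fin m)] in
theorem ker_ii {g : (Fin m → ℝ) → ℝ} (hg : Continuous g) :
    Integrable (fun y => ker m y * g y) :=
  (ker_smooth.continuous.mul hg).integrable_of_hasCompactSupport ker_cs.mul_right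

/-- the regularized maximum -/
def rM (t : Fin m → ℝ) : ℝ := ∫ y, ker m y * mx (t - y)

theorem rM_smooth : ContDiff ℝ ∞ (rM (m := m)) :=
  HasCompactSupport.contDiff_convolution_left (μ := volume) (n := ⊤)
    (ContinuousLinearMap.mul ℝ ℝ) ker_cs ker_smooth mx_cont.locallyIntegrable

theorem mx_cont' (t : Fin m → ℝ) : Continuous fun y => mx (t - y) :=
  mx_cont.comp (continuous_const.sub continuous_id)

theorem rM_cmp {A B C D : Fin m → ℝ} (h : ∀ y : Fin m → ℝ, ‖y‖ < 1 →
    mx (A - y) + mx (B - y) ≤ mx (C - y) + mx (D - y)) : rM A + rM B ≤ rM C + rM D := by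
  unfold rM
  rw [← integral_add (ker_ii (mx_cont' A)) (ker_ii (mx_cont' B)),
    ← integral_add (ker_ii (mx_cont' C)) (ker_ii (mx_cont' D))]
  refine integral_mono ((ker_ii (mx_cont' A)).add (ker_ii (mx_cont' B)))
    ((ker_ii (mx_cont' C)).add (ker_ii (mx_cont' D))) fun y => ?_
  simp only
  by_cases hy : ‖y‖ < 1
  · have h1 := mul_le_mul_of_nonneg_left (h y hy) (ker_nonneg y)
    linarith
  · rw [ker_zero hy]
    simp

theorem rM_cmp1 {A C : Fin m → ℝ} (h : ∀ y : Fin m → ℝ, ‖y‖ < 1 → mx (A - y) ≤ mx (C - y)) :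
    rM A ≤ rM C := by
  have h1 := rM_cmp (A := A) (B := A) (C := C) (D := A) fun y hy => by
    have := h y hy
    linarith
  linarith

theorem rM_const (t : Fin m → ℝ) (c : ℝ) : rM (fun i => t i + c) = rM t + c := by
  have h1 : ∀ y : Fin m → ℝ, ker m y * mx ((fun i => t i + c) - y) =
      ker m y * mx (t - y) + ker m y * c := by
    intro y
    have h2 : mx ((fun i => t i + c) - y) = mx (t - y) + c := by
      rw [← mx_const]
      congr 1
      funext i
      simp only [Pi.sub_apply]
      ring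
    rw [h2, mul_add]
  unfold rM
  simp_rw [h1]
  rw [integral_add (ker_ii (mx_cont' t)) (ker_ii continuous_const), integral_mul_const, ker_int,
    one_mul]

/-- the partial derivatives of the regularized maximum -/
def rp (i : Fin m) (t : Fin m → ℝ) : ℝ := fderiv ℝ rM t (bv i)

theorem rp_smooth (i : Fin m) : ContDiff ℝ ∞ (rp (m := m) i) :=
  (rM_smooth.fderiv_right (m := ∞) (by simp)).clm_apply contDiff_const

omit [Nonempty (Fin m)] in
theorem line_deriv {f : (Fin m → ℝ) → ℝ} (hf : ContDiff ℝ ∞ f) (t e : Fin m → ℝ) (a : ℝ) :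
    HasDerivAt (fun a : ℝ => f (t + a • e)) (fderiv ℝ f (t + a • e) e) a := by
  have h1 : HasFDerivAt f (fderiv ℝ f (t + a • e)) (t + a • e) :=
    (hf.differentiable (by simp) _).hasFDerivAt
  have h2 : HasDerivAt (fun a : ℝ => t + a • e) ((1 : ℝ) • e) a :=
    ((hasDerivAt_id a).smul_const e).const_add t
  rw [one_smul] at h2
  exact h1.comp_hasDerivAt a h2

theorem rp_nonneg (i : Fin m) (t : Fin m → ℝ) : 0 ≤ rp i t := by
  have h1 := (line_deriv rM_smooth t (bv i) 0).deriv
  rw [zero_smul, add_zero] at h1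
  unfold rp
  rw [← h1]
  apply Monotone.deriv_nonneg
  intro a b hab
  refine rM_cmp1 fun y _ => mx_mono fun k => ?_
  simp only [Pi.add_apply, Pi.smul_apply, smul_eq_mul, Pi.sub_apply]
  have := mul_le_mul_of_nonneg_right hab (bv_nonneg i k)
  linarith

omit [Nonempty (Fin m)] in
theorem sum_bv : ∑ i : Fin m, bv i = fun _ => (1 : ℝ) := by
  funext k
  rw [Finset.sum_apply, Finset.sum_eq_single k (fun i _ h => bv_ne h.symm) (by simp), bv_self]

theorem rp_sum (t : Fin m → ℝ) : ∑ i, rp i t = 1 := by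
  unfold rp
  rw [← map_sum, sum_bv]
  have h1 := (line_deriv rM_smooth t (fun _ => (1 : ℝ)) 0)
  rw [zero_smul, add_zero] at h1
  have h2 : (fun a : ℝ => rM (t + a • fun _ => (1 : ℝ))) = fun a => rM t + a := by
    funext a
    rw [← rM_const]
    congr 1
    funext i
    simp
  rw [h2] at h1
  have h3 : HasDerivAt (fun a : ℝ => rM t + a) 1 0 := (hasDerivAt_id (0 : ℝ)).const_add (rM t)
  exact h1.unique h3

theorem rp_zero {i j : Fin m} {t : Fin m → ℝ} (h : t i + 2 < t j) : rp i t = 0 := by
  have h1 := (line_deriv rM_smooth t (bv i) 0)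
  rw [zero_smul, add_zero] at h1
  have hij : j ≠ i := by
    rintro rfl
    linarith
  have h2 : (fun a : ℝ => rM (t + a • bv i)) =ᶠ[𝓝 0] fun _ => rM t := by
    filter_upwards [Metric.ball_mem_nhds (0 : ℝ) (sub_pos.2 h)] with a ha
    rw [mem_ball_zero_iff, Real.norm_eq_abs, abs_lt] at ha
    have key : ∀ y : Fin m → ℝ, ‖y‖ < 1 → mx (t + a • bv i - y) = mx (t - y) := by
      intro y hy
      have hyi := (norm_le_pi_norm y i).trans_lt hy
      have hyj := (norm_le_pi_norm y j).trans_lt hy
      rw [Real.norm_eq_abs, abs_lt] at hyi hyj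
      apply le_antisymm
      · refine mx_le fun k => ?_
        by_cases hk : k = i
        · have := le_mx (t - y) j
          rw [hk]
          simp only [Pi.add_apply, Pi.smul_apply, smul_eq_mul, Pi.sub_apply, bv_self] at this ⊢
          linarith
        · have := le_mx (t - y) k
          simp only [Pi.add_apply, Pi.smul_apply, smul_eq_mul, Pi.sub_apply, bv_ne hk] at this ⊢
          linarith
      · refine mx_le fun k => ?_
        by_cases hk : k = i
        · have := le_mx (t + a • bv i - y) j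
          rw [hk]
          simp only [Pi.add_apply, Pi.smul_apply, smul_eq_mul, Pi.sub_apply, bv_ne hij] at this ⊢
          linarith
        · have := le_mx (t + a • bv i - y) k
          simp only [Pi.add_apply, Pi.smul_apply, smul_eq_mul, Pi.sub_apply, bv_ne hk] at this ⊢
          linarith
    exact le_antisymm (rM_cmp1 fun y hy => (key y hy).le) (rM_cmp1 fun y hy => (key y hy).ge)
  exact (h1.congr_of_eventuallyEq h2.symm).unique (hasDerivAt_const 0 _)

/-- the second derivatives -/
theorem rp_fderiv (i : Fin m) (t v : Fin m → ℝ) :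
    fderiv ℝ (rp i) t v = fderiv ℝ (fderiv ℝ rM) t v (bv i) := by
  have h1 : HasFDerivAt (fderiv ℝ (rM (m := m))) (fderiv ℝ (fderiv ℝ rM) t) t :=
    ((rM_smooth.fderiv_right (m := ∞) (by simp)).differentiable (by simp) _).hasFDerivAt
  have h2 := (h1.clm_apply (hasFDerivAt_const (bv i) t)).fderiv
  have h3 : fderiv ℝ (rp i) t = fderiv ℝ (fun y => fderiv ℝ rM y (bv i)) t := rfl
  rw [h3, h2]
  simp

theorem rp_symm (i j : Fin m) (t : Fin m → ℝ) :
    fderiv ℝ (rp i) t (bv j) = fderiv ℝ (rp j) t (bv i) := by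
  rw [rp_fderiv, rp_fderiv]
  have h2 : minSmoothness ℝ 2 ≤ (∞ : WithTop ℕ∞) := by
    rw [minSmoothness_of_isRCLikeNormedField]
    exact WithTop.coe_le_coe.2 le_top
  exact (rM_smooth.contDiffAt.isSymmSndFDerivAt h2) (bv j) (bv i)

theorem rp_nonpos {i j : Fin m} (hij : i ≠ j) (t : Fin m → ℝ) :
    fderiv ℝ (rp i) t (bv j) ≤ 0 := by
  have h1 := (line_deriv (rp_smooth i) t (bv j) 0).deriv
  rw [zero_smul, add_zero] at h1
  rw [← h1]
  apply Antitone.deriv_nonpos
  intro b b' hb
  simp only
  have e1 := line_deriv rM_smooth (t + b' • bv j) (bv i) 0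
  have e2 := line_deriv rM_smooth (t + b • bv j) (bv i) 0
  rw [zero_smul, add_zero] at e1 e2
  have e3 := (e1.sub e2).deriv
  have e4 : rp i (t + b' • bv j) - rp i (t + b • bv j) ≤ 0 := by
    unfold rp
    rw [← e3]
    apply Antitone.deriv_nonpos
    intro a a' ha
    simp only [Pi.sub_apply]
    have h5 := rM_cmp (A := t + b' • bv j + a' • bv i) (B := t + b • bv j + a • bv i)
      (C := t + b' • bv j + a • bv i) (D := t + b • bv j + a' • bv i) fun y _ => by
        have h6 := mx_sub hij (t + b • bv j + a • bv i - y) (sub_nonneg.2 ha) (sub_nonneg.2 hb)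
        have g1 : t + b • bv j + a • bv i - y + (a' - a) • bv i + (b' - b) • bv j =
            t + b' • bv j + a' • bv i - y := by
          funext k
          simp only [Pi.add_apply, Pi.smul_apply, smul_eq_mul, Pi.sub_apply]
          ring
        have g2 : t + b • bv j + a • bv i - y + (a' - a) • bv i =
            t + b • bv j + a' • bv i - y := by
          funext k
          simp only [Pi.add_apply, Pi.smul_apply, smul_eq_mul, Pi.sub_apply]
          ring
        have g3 : t + b • bv j + a • bv i - y + (b' - b) • bv j =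
            t + b' • bv j + a • bv i - y := by
          funext k
          simp only [Pi.add_apply, Pi.smul_apply, smul_eq_mul, Pi.sub_apply]
          ring
        rw [g1, g2, g3] at h6
        linarith
    linarith
  linarith

end

end Pool.Agent.V8H58.BF
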