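import Pool.Agent.V8H58.BF.RgA

/-!
The regularized maximum: bounds for the derivatives.
-/

set_option autoImplicit false

open Set Filter Topology MeasureTheory
open scoped ContDiff

noncomputable section

namespace Pool.Agent.V8H58.BF

section

variable {m : ℕ}

/-- the kernel is continuous in the mean -/
theorem ker_shift : ∃ K : ℝ, 0 ≤ K ∧ ∀ (e : Fin m → ℝ), ‖e‖ ≤ 1 → ∀ b : ℝ, 0 ≤ b →
    ∀ g : (Fin m → ℝ) → ℝ, Continuous g → ∀ a : ℝ, (∀ y, 0 ≤ g y) → (∀ y, g y ≤ a) →
      -(K * b * a) ≤ ∫ y, (ker m (y + b • e) - ker m y) * g y := by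
  obtain ⟨L, hL⟩ := ContDiff.lipschitzWith_of_hasCompactSupport (ker_cs (m := m))
    (ker_smooth (m := m)) (by simp)
  obtain ⟨V, hV⟩ : ∃ V : ℝ, V = (volume : Measure (Fin m → ℝ)).real (Metric.ball 0 1) := ⟨_, rfl⟩
  have hV0 : 0 ≤ V := by rw [hV]; exact measureReal_nonneg
  refine ⟨L * (2 * V), by positivity, fun e he b hb g hg a hg0 hga => ?_⟩
  have ha : 0 ≤ a := (hg0 0).trans (hga 0)
  have hc1 : Continuous fun y : Fin m → ℝ => ker m (y + b • e) :=
    ker_smooth.continuous.comp (continuous_id.add continuous_const)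
  have hcs1 : HasCompactSupport fun y : Fin m → ℝ => ker m (y + b • e) := by
    have h := (ker_cs (m := m)).comp_homeomorph (Homeomorph.addRight (b • e))
    exact h
  -- indicators
  have hi1 : Integrable (fun y : Fin m → ℝ => (Metric.ball (0 : Fin m → ℝ) 1).indicator
      (fun _ => L * b * a) y) := by
    refine (integrable_indicator_iff Metric.isOpen_ball.measurableSet).2 ?_
    exact integrableOn_const (hs := measure_ball_lt_top.ne)
  have hi2 : Integrable (fun y : Fin m → ℝ => (Metric.ball (0 : Fin m → ℝ) 1).indicator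
      (fun _ => L * b * a) (y + b • e)) := hi1.comp_add_right (b • e)
  have hI1 : ∫ y : Fin m → ℝ, (Metric.ball (0 : Fin m → ℝ) 1).indicator
      (fun _ => L * b * a) y = V * (L * b * a) := by
    rw [integral_indicator Metric.isOpen_ball.measurableSet, setIntegral_const, ← hV, smul_eq_mul]
  have hI2 : ∫ y : Fin m → ℝ, (Metric.ball (0 : Fin m → ℝ) 1).indicator
      (fun _ => L * b * a) (y + b • e) = V * (L * b * a) := by
    rw [integral_add_right_eq_self (fun y : Fin m → ℝ =>
      (Metric.ball (0 : Fin m → ℝ) 1).indicator (fun _ => L * b * a) y) (b • e), hI1]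
  have hint : Integrable fun y : Fin m → ℝ => (ker m (y + b • e) - ker m y) * g y := by
    have h1 : Integrable fun y : Fin m → ℝ => ker m (y + b • e) * g y :=
      (hc1.mul hg).integrable_of_hasCompactSupport hcs1.mul_right
    have h2 := h1.sub (ker_ii hg)
    refine h2.congr (Eventually.of_forall fun y => ?_)
    simp only [Pi.sub_apply]
    ring
  have key : ∫ y, -((Metric.ball (0 : Fin m → ℝ) 1).indicator (fun _ => L * b * a) y +
      (Metric.ball (0 : Fin m → ℝ) 1).indicator (fun _ => L * b * a) (y + b • e)) ≤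
      ∫ y, (ker m (y + b • e) - ker m y) * g y := by
    refine integral_mono (hi1.add hi2).neg hint fun y => ?_
    simp only
    have hd : -(L * b) ≤ ker m (y + b • e) - ker m y := by
      have h1 := hL.dist_le_mul (y + b • e) y
      rw [Real.dist_eq, dist_eq_norm, add_sub_cancel_left, norm_smul, Real.norm_eq_abs,
        abs_of_nonneg hb] at h1
      have h2 := neg_abs_le (ker m (y + b • e) - ker m y)
      have h3 : (L : ℝ) * (b * ‖e‖) ≤ L * (b * 1) :=
        mul_le_mul_of_nonneg_left (mul_le_mul_of_nonneg_left he hb) L.coe_nonneg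
      linarith
    have hLb : (0 : ℝ) ≤ L * b := mul_nonneg L.coe_nonneg hb
    have hLba : (0 : ℝ) ≤ L * b * a := mul_nonneg hLb ha
    have hd2 : -(L * b * a) ≤ (ker m (y + b • e) - ker m y) * g y := by
      have h1 : -(L * b) * g y ≤ (ker m (y + b • e) - ker m y) * g y :=
        mul_le_mul_of_nonneg_right hd (hg0 y)
      have h2 : L * b * g y ≤ L * b * a := mul_le_mul_of_nonneg_left (hga y) hLb
      linarith
    have hn1 : 0 ≤ (Metric.ball (0 : Fin m → ℝ) 1).indicator (fun _ => (L : ℝ) * b * a) y :=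
      indicator_nonneg (fun _ _ => hLba) y
    have hn2 : 0 ≤ (Metric.ball (0 : Fin m → ℝ) 1).indicator (fun _ => (L : ℝ) * b * a)
        (y + b • e) := indicator_nonneg (fun _ _ => hLba) _
    by_cases h1 : y ∈ Metric.ball (0 : Fin m → ℝ) 1
    · have e1 : (Metric.ball (0 : Fin m → ℝ) 1).indicator (fun _ => (L : ℝ) * b * a) y =
          L * b * a := indicator_of_mem h1 _
      linarith
    · by_cases h2 : y + b • e ∈ Metric.ball (0 : Fin m → ℝ) 1
      · have e1 : (Metric.ball (0 : Fin m → ℝ) 1).indicator (fun _ => (L : ℝ) * b * a)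
            (y + b • e) = L * b * a := indicator_of_mem h2 _
        linarith
      · rw [mem_ball_zero_iff] at h1 h2
        rw [ker_zero h1, ker_zero h2]
        simp only [sub_zero, zero_mul]
        linarith
  rw [integral_neg, integral_add hi1 hi2, hI1, hI2] at key
  linarith

variable [Nonempty (Fin m)]

theorem rM_double {K : ℝ} (hK : ∀ (e : Fin m → ℝ), ‖e‖ ≤ 1 → ∀ b : ℝ, 0 ≤ b →
    ∀ g : (Fin m → ℝ) → ℝ, Continuous g → ∀ a : ℝ, (∀ y, 0 ≤ g y) → (∀ y, g y ≤ a) →
      -(K * b * a) ≤ ∫ y, (ker m (y + b • e) - ker m y) * g y)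
    (i j : Fin m) (s : Fin m → ℝ) {a b : ℝ} (ha : 0 ≤ a) (hb : 0 ≤ b) :
    -(K * b * a) ≤ (rM (s + b • bv j + a • bv i) - rM (s + b • bv j)) -
      (rM (s + a • bv i) - rM s) := by
  obtain ⟨g, hg⟩ : ∃ g : (Fin m → ℝ) → ℝ, g = fun y => mx (s + a • bv i - y) - mx (s - y) :=
    ⟨_, rfl⟩
  have hgc : Continuous g := by
    rw [hg]
    exact (mx_cont' _).sub (mx_cont' _)
  have hg0 : ∀ y, 0 ≤ g y := fun y => by
    rw [hg]
    refine sub_nonneg.2 (mx_mono fun k => ?_)
    simp only [Pi.add_apply, Pi.smul_apply, smul_eq_mul, Pi.sub_apply]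
    have := mul_nonneg ha (bv_nonneg i k)
    linarith
  have hga : ∀ y, g y ≤ a := fun y => by
    rw [hg]
    simp only
    rw [sub_le_iff_le_add', ← mx_const]
    refine mx_mono fun k => ?_
    simp only [Pi.add_apply, Pi.smul_apply, smul_eq_mul, Pi.sub_apply]
    have := mul_le_mul_of_nonneg_left (bv_le i k) ha
    linarith
  have hne : ‖(bv j : Fin m → ℝ)‖ ≤ 1 := by
    refine (pi_norm_le_iff_of_nonneg zero_le_one).2 fun k => ?_
    rw [Real.norm_eq_abs, abs_of_nonneg (bv_nonneg j k)]
    exact bv_le j k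
  have h1 := hK (bv j) hne b hb g hgc a hg0 hga
  refine h1.trans (le_of_eq ?_)
  -- the first difference, after a translation
  have hc1 : Continuous fun y : Fin m → ℝ => ker m (y + b • bv j) :=
    ker_smooth.continuous.comp (continuous_id.add continuous_const)
  have hcs1 : HasCompactSupport fun y : Fin m → ℝ => ker m (y + b • bv j) :=
    (ker_cs (m := m)).comp_homeomorph (Homeomorph.addRight (b • bv j))
  have hi : Integrable fun y : Fin m → ℝ => ker m (y + b • bv j) * g y :=
    (hc1.mul hgc).integrable_of_hasCompactSupport hcs1.mul_right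
  have e1 : rM (s + b • bv j + a • bv i) - rM (s + b • bv j) =
      ∫ y, ker m (y + b • bv j) * g y := by
    unfold rM
    rw [← integral_sub (ker_ii (mx_cont' _)) (ker_ii (mx_cont' _)),
      ← integral_add_right_eq_self (fun y : Fin m → ℝ =>
        ker m y * mx (s + b • bv j + a • bv i - y) - ker m y * mx (s + b • bv j - y)) (b • bv j)]
    refine integral_congr_ae (Eventually.of_forall fun y => ?_)
    simp only
    rw [hg, ← mul_sub]
    have g1 : s + b • bv j + a • bv i - (y + b • bv j) = s + a • bv i - y := by abel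
    have g2 : s + b • bv j - (y + b • bv j) = s - y := by abel
    rw [g1, g2]
  have e2 : rM (s + a • bv i) - rM s = ∫ y, ker m y * g y := by
    unfold rM
    rw [← integral_sub (ker_ii (mx_cont' _)) (ker_ii (mx_cont' _))]
    refine integral_congr_ae (Eventually.of_forall fun y => ?_)
    simp only
    rw [hg, ← mul_sub]
  rw [e1, e2, ← integral_sub hi (ker_ii hgc)]
  refine integral_congr_ae (Eventually.of_forall fun y => ?_)
  simp only
  ring

theorem rp_lower : ∃ K : ℝ, 0 ≤ K ∧ ∀ (i j : Fin m) (t : Fin m → ℝ),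
    -K ≤ fderiv ℝ (rp i) t (bv j) := by
  obtain ⟨K, hK0, hK⟩ := ker_shift (m := m)
  refine ⟨K, hK0, fun i j t => ?_⟩
  -- the first derivatives
  have h1 : ∀ (s : Fin m → ℝ) (b : ℝ), 0 ≤ b → -(K * b) ≤ rp i (s + b • bv j) - rp i s := by
    intro s b hb
    have e1 := line_deriv rM_smooth (s + b • bv j) (bv i) 0
    have e2 := line_deriv rM_smooth s (bv i) 0
    rw [zero_smul, add_zero] at e1 e2
    have e3 := ((e1.sub e2).add ((hasDerivAt_id (0 : ℝ)).const_mul (K * b))).deriv
    have e4 : 0 ≤ rp i (s + b • bv j) - rp i s + K * b * 1 := by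
      unfold rp
      rw [← e3]
      apply Monotone.deriv_nonneg
      intro a a' ha
      simp only [Pi.sub_apply, Pi.add_apply, id]
      have h5 := rM_double hK i j (s + a • bv i) (sub_nonneg.2 ha) hb
      have g1 : s + a • bv i + b • bv j + (a' - a) • bv i = s + b • bv j + a' • bv i := by
        funext k
        simp only [Pi.add_apply, Pi.smul_apply, smul_eq_mul]
        ring
      have g2 : s + a • bv i + b • bv j = s + b • bv j + a • bv i := by abel
      have g3 : s + a • bv i + (a' - a) • bv i = s + a' • bv i := by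
        funext k
        simp only [Pi.add_apply, Pi.smul_apply, smul_eq_mul]
        ring
      rw [g1, g2, g3] at h5
      linarith
    linarith
  have e1 := line_deriv (rp_smooth i) t (bv j) 0
  rw [zero_smul, add_zero] at e1
  have e2 := (e1.add ((hasDerivAt_id (0 : ℝ)).const_mul K)).deriv
  have e3 : 0 ≤ fderiv ℝ (rp i) t (bv j) + K * 1 := by
    rw [← e2]
    apply Monotone.deriv_nonneg
    intro b b' hb
    simp only [Pi.add_apply, id]
    have h2 := h1 (t + b • bv j) (b' - b) (sub_nonneg.2 hb)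
    have g1 : t + b • bv j + (b' - b) • bv j = t + b' • bv j := by
      funext k
      simp only [Pi.add_apply, Pi.smul_apply, smul_eq_mul]
      ring
    rw [g1] at h2
    linarith
  linarith

/-- the columns of the second derivative sum to zero -/
theorem rp_col (t v : Fin m → ℝ) : ∑ i, fderiv ℝ (rp i) t v = 0 := by
  have h1 : HasFDerivAt (fun t : Fin m → ℝ => ∑ i, rp i t) (∑ i, fderiv ℝ (rp (m := m) i) t) t :=
    HasFDerivAt.fun_sum fun i _ => ((rp_smooth i).differentiable (by simp) t).hasFDerivAt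
  have h2 : (fun t : Fin m → ℝ => ∑ i, rp i t) = fun _ => (1 : ℝ) := by
    funext t
    exact rp_sum t
  rw [h2] at h1
  have h3 := h1.unique (hasFDerivAt_const (1 : ℝ) t)
  have h4 := congrArg (fun L => L v) h3
  simpa using h4

theorem rp_diag (i : Fin m) (t : Fin m → ℝ) : 0 ≤ fderiv ℝ (rp i) t (bv i) := by
  have h1 := rp_col t (bv i)
  rw [← Finset.add_sum_erase Finset.univ _ (Finset.mem_univ i)] at h1
  have h2 : ∑ j ∈ Finset.univ.erase i, fderiv ℝ (rp j) t (bv i) ≤ 0 :=
    Finset.sum_nonpos fun j hj => rp_nonpos (Finset.ne_of_mem_erase hj) t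
  linarith

theorem rp_large : ∃ c : ℝ, 0 < c ∧ ∀ (i : Fin m) (t : Fin m → ℝ),
    (∀ j, t j ≤ t i + 1 / 8) → c ≤ rp i t := by
  obtain ⟨φ, hφ⟩ : ∃ φ : Fin m → (Fin m → ℝ) → ℝ,
    φ = fun i y => max 0 (1 / 4 - 2 * ‖y + (1 / 2 : ℝ) • bv i‖) := ⟨_, rfl⟩
  have hφc : ∀ i, Continuous (φ i) := fun i => by
    rw [hφ]
    exact continuous_const.max (continuous_const.sub
      (continuous_const.mul (continuous_id.add continuous_const).norm))
  have hφ0 : ∀ i y, 0 ≤ φ i y := fun i y => by
    rw [hφ]
    exact le_max_left _ _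
  have hpos : ∀ i, 0 < ∫ y, ker m y * φ i y := by
    intro i
    refine (ker_smooth.continuous.mul (hφc i)).integral_pos_of_hasCompactSupport_nonneg_nonzero
      ker_cs.mul_right (fun y => mul_nonneg (ker_nonneg y) (hφ0 i y))
      (x := -((1 / 2 : ℝ) • bv i)) (mul_ne_zero (ker_ne ?_) ?_)
    · rw [norm_neg, norm_smul]
      have h1 : ‖(bv i : Fin m → ℝ)‖ ≤ 1 := by
        refine (pi_norm_le_iff_of_nonneg zero_le_one).2 fun k => ?_
        rw [Real.norm_eq_abs, abs_of_nonneg (bv_nonneg i k)]
        exact bv_le i k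
      have h2 : ‖(1 / 2 : ℝ)‖ = 1 / 2 := by norm_num
      rw [h2]
      linarith
    · rw [hφ]
      simp only
      rw [neg_add_cancel, norm_zero, mul_zero, sub_zero]
      exact (lt_of_lt_of_le (by norm_num) (le_max_right _ _)).ne'
  obtain ⟨i₀, hi₀⟩ := Finite.exists_min fun i : Fin m => ∫ y, ker m y * φ i y
  refine ⟨_, hpos i₀, fun i t ht => (hi₀ i).trans ?_⟩
  -- the mean value theorem
  obtain ⟨ξ, hξ, hξ2⟩ := exists_hasDerivAt_eq_slope (fun a : ℝ => rM (t + a • bv i))
    (fun a : ℝ => rp i (t + a • bv i)) (a := -1) (b := 0) (by norm_num)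
    (fun a _ => (line_deriv rM_smooth t (bv i) a).continuousAt.continuousWithinAt)
    (fun a _ => line_deriv rM_smooth t (bv i) a)
  have hmono : Monotone fun a : ℝ => rp i (t + a • bv i) := by
    refine monotone_of_deriv_nonneg
      (fun a => (line_deriv (rp_smooth i) t (bv i) a).differentiableAt) fun a => ?_
    rw [(line_deriv (rp_smooth i) t (bv i) a).deriv]
    exact rp_diag i _
  have h1 : rp i (t + ξ • bv i) ≤ rp i t := by
    have h2 := hmono hξ.2.le
    simp only [zero_smul, add_zero] at h2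
    exact h2
  refine le_trans ?_ h1
  rw [hξ2]
  simp only [zero_smul, add_zero, sub_neg_eq_add, zero_add, div_one]
  unfold rM
  rw [← integral_sub (ker_ii (mx_cont' _)) (ker_ii (mx_cont' _))]
  refine integral_mono (ker_ii (hφc i)) ((ker_ii (mx_cont' _)).sub (ker_ii (mx_cont' _)))
    fun y => ?_
  simp only [Pi.sub_apply]
  rw [← mul_sub]
  refine mul_le_mul_of_nonneg_left ?_ (ker_nonneg y)
  have hr : ∀ k, |y k + 1 / 2 * bv i k| ≤ ‖y + (1 / 2 : ℝ) • bv i‖ := fun k => by
    have := norm_le_pi_norm (y + (1 / 2 : ℝ) • bv i) k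
    simpa [Real.norm_eq_abs] using this
  obtain ⟨r, hrr⟩ : ∃ r, r = ‖y + (1 / 2 : ℝ) • bv i‖ := ⟨_, rfl⟩
  rw [← hrr] at hr
  have hr0 : 0 ≤ r := by rw [hrr]; exact norm_nonneg _
  rw [hφ]
  simp only
  rw [← hrr]
  refine max_le ?_ ?_
  · refine sub_nonneg.2 (mx_mono fun k => ?_)
    simp only [Pi.add_apply, Pi.smul_apply, smul_eq_mul, Pi.sub_apply]
    have := bv_nonneg i k
    linarith
  · have h3 : mx (t + (-1 : ℝ) • bv i - y) ≤ mx (t - y) - (1 / 4 - 2 * r) := by
      refine mx_le fun k => ?_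
      have h4 := le_mx (t - y) i
      have h5 := abs_le.1 (hr i)
      have h6 := abs_le.1 (hr k)
      rw [bv_self] at h5
      simp only [Pi.add_apply, Pi.smul_apply, smul_eq_mul, Pi.sub_apply] at h4 ⊢
      by_cases hk : k = i
      · rw [hk, bv_self]
        linarith
      · rw [bv_ne hk] at h6 ⊢
        have := ht k
        linarith
    linarith

end

end Pool.Agent.V8H58.BF
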