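import Pool.Agent.V8H58.BF.GlueB
import Pool.Agent.V8H58.BF.RgB

/-!
Gluing by the regularized maximum: preparations.
-/

set_option autoImplicit false

open Set Filter Topology MeasureTheory
open scoped Manifold ContDiff

noncomputable section

namespace Pool.Agent.V8H58.BF

open Pool.Agent.Y501.SY Pool.Agent.Y484.SY Pool.Agent.Y658.SY

/-- symmetric matrices with vanishing row sums -/
theorem cross_one {m : ℕ} (P : Fin m → Fin m → ℝ) (hs : ∀ i j, P i j = P j i)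
    (hr : ∀ i, ∑ j, P i j = 0) (a b : Fin m → ℝ) :
    ∑ i, ∑ j, P i j * (a j * b i) =
      -(1 / 2) * ∑ i, ∑ j, P i j * ((a i - a j) * (b i - b j)) := by
  have h1 : ∑ i, ∑ j, P i j * (a i * b i) = 0 := by
    refine Finset.sum_eq_zero fun i _ => ?_
    rw [← Finset.sum_mul, hr i, zero_mul]
  have h2 : ∑ i, ∑ j, P i j * (a j * b j) = 0 := by
    rw [Finset.sum_comm]
    refine Finset.sum_eq_zero fun j _ => ?_
    rw [← Finset.sum_mul]
    have h3 : ∑ i, P i j = 0 := by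
      rw [← hr j]
      exact Finset.sum_congr rfl fun i _ => hs i j
    rw [h3, zero_mul]
  have h3 : ∑ i, ∑ j, P i j * (a i * b j) = ∑ i, ∑ j, P i j * (a j * b i) := by
    rw [Finset.sum_comm]
    exact Finset.sum_congr rfl fun i _ => Finset.sum_congr rfl fun j _ => by rw [hs j i]
  have h4 : ∑ i, ∑ j, P i j * ((a i - a j) * (b i - b j)) =
      ∑ i, ∑ j, P i j * (a i * b i) - ∑ i, ∑ j, P i j * (a i * b j) -
        ∑ i, ∑ j, P i j * (a j * b i) + ∑ i, ∑ j, P i j * (a j * b j) := by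
    simp only [← Finset.sum_sub_distrib, ← Finset.sum_add_distrib]
    exact Finset.sum_congr rfl fun i _ => Finset.sum_congr rfl fun j _ => by ring
  rw [h4, h1, h2, h3]
  ring

theorem cross_two {m : ℕ} (P : Fin m → Fin m → ℝ) (hs : ∀ i j, P i j = P j i)
    (hr : ∀ i, ∑ j, P i j = 0) (a a' b b' : Fin m → ℝ) :
    ∑ i, ((∑ j, P i j * a j) * b' i - (∑ j, P i j * a' j) * b i) =
      -(1 / 2) * ∑ i, ∑ j, P i j * ((a i - a j) * (b' i - b' j) - (a' i - a' j) * (b i - b j)) := by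
  have h1 := cross_one P hs hr a b'
  have h2 := cross_one P hs hr a' b
  have h3 : ∑ i, ((∑ j, P i j * a j) * b' i - (∑ j, P i j * a' j) * b i) =
      ∑ i, ∑ j, P i j * (a j * b' i) - ∑ i, ∑ j, P i j * (a' j * b i) := by
    rw [← Finset.sum_sub_distrib]
    refine Finset.sum_congr rfl fun i _ => ?_
    rw [Finset.sum_mul, Finset.sum_mul]
    congr 1 <;> exact Finset.sum_congr rfl fun j _ => by ring
  have h4 : ∑ i, ∑ j, P i j * ((a i - a j) * (b' i - b' j) - (a' i - a' j) * (b i - b j)) =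
      ∑ i, ∑ j, P i j * ((a i - a j) * (b' i - b' j)) -
        ∑ i, ∑ j, P i j * ((a' i - a' j) * (b i - b j)) := by
    rw [← Finset.sum_sub_distrib]
    refine Finset.sum_congr rfl fun i _ => ?_
    rw [← Finset.sum_sub_distrib]
    exact Finset.sum_congr rfl fun j _ => by ring
  rw [h3, h4, h1, h2]
  ring

/-- the truncation -/
theorem trunc_fn (T : ℝ) : ∃ Ψ : ℝ → ℝ, ContDiff ℝ ∞ Ψ ∧ (∀ t, t ≤ -T - 1 → Ψ t = -T) ∧
    (∀ t, -T ≤ t → Ψ t = t) ∧ ∀ t, t ≤ -T → Ψ t ≤ -T := by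
  refine ⟨fun t => -T + (t + T) * Real.smoothTransition (t + T + 1), ?_, ?_, ?_, ?_⟩
  · exact contDiff_const.add ((contDiff_id.add contDiff_const).mul
      (Real.smoothTransition.contDiff.comp ((contDiff_id.add contDiff_const).add contDiff_const)))
  · intro t ht
    simp only
    rw [Real.smoothTransition.zero_of_nonpos (by linarith)]
    ring
  · intro t ht
    simp only
    rw [Real.smoothTransition.one_of_one_le (by linarith)]
    ring
  · intro t ht
    have h1 := Real.smoothTransition.nonneg (t + T + 1)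
    simp only
    nlinarith

section

variable {d : ℕ} {X : Type} [TopologicalSpace X] [ChartedSpace (E d) X]
  [IsManifold (𝓡 d) ∞ X]

omit [IsManifold (𝓡 d) ∞ X] in
/-- truncation of a function tending to `-∞` at `F` -/
theorem reg_trunc {F : Set X} (hF : IsClosed F) {u : X → ℝ}
    (hu : ContMDiffOn (𝓡 d) 𝓘(ℝ, ℝ) ∞ u Fᶜ)
    (hlim : ∀ x ∈ F, ∀ B : ℝ, ∀ᶠ y in 𝓝 x, y ∉ F → u y < B) (T : ℝ) :
    ∃ U : X → ℝ, SmoothFun (d := d) U ∧ (∀ x ∈ F, ∀ᶠ y in 𝓝 x, U y = -T) ∧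
      (∀ x, x ∉ F → -T < u x → U =ᶠ[𝓝 x] u) ∧
      ∀ x, U x ≤ -T ∨ (x ∉ F ∧ -T < u x ∧ U x = u x) := by
  classical
  obtain ⟨Ψ, hΨ, hΨ1, hΨ2, hΨ3⟩ := trunc_fn T
  obtain ⟨U, hU⟩ : ∃ U : X → ℝ, U = fun x => if x ∈ F then -T else Ψ (u x) := ⟨_, rfl⟩
  have hUF : ∀ x ∈ F, ∀ᶠ y in 𝓝 x, U y = -T := by
    intro x hx
    filter_upwards [hlim x hx (-T - 1)] with y hy
    rw [hU]
    simp only
    split_ifs with h1
    · rfl
    · exact hΨ1 _ (hy h1).le
  have hUe : ∀ x, x ∉ F → U =ᶠ[𝓝 x] fun y => Ψ (u y) := by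
    intro x hx
    filter_upwards [hF.isOpen_compl.mem_nhds hx] with y hy
    rw [hU]
    simp only
    rw [if_neg hy]
  have humd : ∀ x, x ∉ F → ContMDiffAt (𝓡 d) 𝓘(ℝ, ℝ) ∞ u x := fun x hx =>
    hu.contMDiffAt (hF.isOpen_compl.mem_nhds hx)
  refine ⟨U, ?_, hUF, ?_, ?_⟩
  · intro x
    by_cases hx : x ∈ F
    · exact contMDiffAt_const.congr_of_eventuallyEq (hUF x hx)
    · have h1 : ContMDiffAt (𝓡 d) 𝓘(ℝ, ℝ) ∞ (fun y => Ψ (u y)) x :=
        hΨ.contMDiff.contMDiffAt.comp x (humd x hx)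
      exact h1.congr_of_eventuallyEq (hUe x hx)
  · intro x hx hux
    filter_upwards [hUe x hx, (humd x hx).continuousAt.eventually_const_lt hux] with y hy1 hy2
    rw [hy1]
    exact hΨ2 _ hy2.le
  · intro x
    by_cases hx : x ∈ F
    · left
      exact (hUF x hx).self_of_nhds.le
    · have h1 := (hUe x hx).self_of_nhds
      by_cases h2 : -T < u x
      · right
        exact ⟨hx, h2, by rw [h1]; exact hΨ2 _ h2.le⟩
      · left
        rw [h1]
        exact hΨ3 _ (not_lt.1 h2)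

/-- a form which is smooth off `F` agrees near a point outside `F` with a smooth form -/
theorem ext_two [CompactSpace X] [T2Space X] {F : Set X} (hF : IsClosed F) {σ : Form d X 2}
    (hσ : SmoothOff σ F) {x : X} (hx : x ∉ F) :
    ∃ σ' : Form d X 2, IsSmooth σ' ∧ ∀ᶠ y in 𝓝 x, σ' y = σ y := by
  have hd : Disjoint F {x} := by
    rw [Set.disjoint_singleton_right]
    exact hx
  obtain ⟨ψ, hψ0, hψ1, hψ⟩ := exists_contMDiffMap_zero_one_nhds_of_isClosed (n := (⊤ : ℕ∞)) (𝓡 d)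
    hF isClosed_singleton hd
  have hψs : SmoothFun (d := d) (fun x => ψ x) := ψ.contMDiff
  have e0 : ∀ y ∈ F, ∀ᶠ z in 𝓝 y, ψ z = 0 := fun y hy => hψ0.filter_mono (nhds_le_nhdsSet hy)
  have e1 : ∀ᶠ z in 𝓝 x, ψ z = 1 := hψ1.filter_mono (nhds_le_nhdsSet (mem_singleton x))
  refine ⟨fun y => ψ y • σ y, ?_, ?_⟩
  · intro U φ hU hφ p hp
    by_cases hpF : φ p ∈ F
    · have hc : ContinuousAt φ p := hφ.continuousOn.continuousAt (hU.mem_nhds hp)
      have h1 : pb φ (fun y => ψ y • σ y : Form d X 2) =ᶠ[𝓝 p] (fun _ => 0) := by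
        filter_upwards [hc.eventually (e0 _ hpF)] with q hq
        unfold pb
        simp only [hq, zero_smul]
        ext v
        rfl
      exact (contDiffAt_const.congr_of_eventuallyEq h1).contDiffWithinAt
    · have ho : IsOpen (U ∩ φ ⁻¹' Fᶜ) :=
        hφ.continuousOn.isOpen_inter_preimage hU hF.isOpen_compl
      have h1 : ContDiffOn ℝ ∞ (pb φ (fun y => ψ y • σ y : Form d X 2)) (U ∩ φ ⁻¹' Fᶜ) :=
        (comp_smooth (hφ.mono inter_subset_left) hψs).smul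
          (hσ _ φ ho (hφ.mono inter_subset_left) fun q hq => hq.2)
      exact (h1.contDiffAt (ho.mem_nhds ⟨hp, hpF⟩)).contDiffWithinAt
  · filter_upwards [e1] with y hy
    rw [hy, one_smul]

/-- near a point where the sum of the regular forms is taming it dominates a multiple of `τ` -/
theorem dom_sum [CompactSpace X] [T2Space X] {J : End d X} (hJ : IsAlmostComplex J)
    {τ : Form d X 2} (hτs : IsSmooth τ) {m : ℕ} {F : Fin m → Set X}
    (hF : ∀ i, IsClosed (F i)) {σ : Fin m → Form d X 2} (hσ : ∀ i, SmoothOff (σ i) (F i))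
    (s : Finset (Fin m)) {x : X} (hx : ∀ i ∈ s, x ∉ F i)
    (ht : ∀ v : TangentSpace (𝓡 d) x, v ≠ 0 → 0 < ∑ i ∈ s, σ i x ![v, J x v]) :
    ∃ c : ℝ, 0 < c ∧ ∀ᶠ y in 𝓝 x, ∀ v : TangentSpace (𝓡 d) y,
      c * τ y ![v, J y v] ≤ ∑ i ∈ s, σ i y ![v, J y v] := by
  classical
  have h1 : ∀ i : Fin m, ∃ σ' : Form d X 2, IsSmooth σ' ∧
      (i ∈ s → ∀ᶠ y in 𝓝 x, σ' y = σ i y) := by
    intro i
    by_cases hi : i ∈ s
    · obtain ⟨σ', h1, h2⟩ := ext_two (hF i) (hσ i) (hx i hi)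
      exact ⟨σ', h1, fun _ => h2⟩
    · exact ⟨0, IsSmooth.zero, fun h => absurd h hi⟩
  choose σ' hσ's hσ'e using h1
  have hev : ∀ᶠ y in 𝓝 x, ∀ i ∈ s, σ' i y = σ i y :=
    (Finset.eventually_all s).2 fun i hi => hσ'e i hi
  have hsum : ∀ (y : X), (∀ i ∈ s, σ' i y = σ i y) → ∀ v : TangentSpace (𝓡 d) y,
      (∑ i ∈ s, σ' i) y ![v, J y v] = ∑ i ∈ s, σ i y ![v, J y v] := by
    intro y hy v
    rw [sum_apply2]
    exact Finset.sum_congr rfl fun i hi => by rw [hy i hi]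
  have htame : TamesAt (∑ i ∈ s, σ' i) J x := by
    intro v hv
    rw [hsum x hev.self_of_nhds v]
    exact ht v hv
  obtain ⟨ε, hε, h2⟩ := dom_of_tames hJ (IsSmooth.sum s fun i _ => hσ's i) hτs htame
  refine ⟨ε, hε, ?_⟩
  filter_upwards [h2, hev] with y hy1 hy2 v
  rw [← hsum y hy2 v]
  exact hy1 ε (by rw [abs_of_pos hε]) v

end

end Pool.Agent.V8H58.BF
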