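import Pool.Agent.V8H58.BF.RgC

/-!
Gluing by the regularized maximum.
-/

set_option autoImplicit false

open Set Filter Topology MeasureTheory
open scoped Manifold ContDiff

noncomputable section

namespace Pool.Agent.V8H58.BF

open Pool.Agent.Y501.SY Pool.Agent.Y484.SY Pool.Agent.Y658.SY

section

variable {d : ℕ} {X : Type} [TopologicalSpace X] [ChartedSpace (E d) X]
  [IsManifold (𝓡 d) ∞ X]

omit [IsManifold (𝓡 d) ∞ X] in
theorem smooth_pi {m : ℕ} {p : (Fin m → ℝ) → ℝ} (hp : ContDiff ℝ ∞ p) {U : Fin m → X → ℝ}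
    (hU : ∀ i, SmoothFun (d := d) (U i)) :
    SmoothFun (d := d) (fun y => p (fun j => U j y)) := by
  have h1 : ContMDiff (𝓡 d) 𝓘(ℝ, Fin m → ℝ) ∞ (fun (y : X) (j : Fin m) => U j y) :=
    contMDiff_pi_space.2 hU
  exact hp.contMDiff.comp h1

omit [IsManifold (𝓡 d) ∞ X] in
theorem dd_comp_pi {m : ℕ} {p : (Fin m → ℝ) → ℝ} (hp : ContDiff ℝ ∞ p) {U : Fin m → X → ℝ}
    (hU : ∀ i, SmoothFun (d := d) (U i)) (x : X) (v : TangentSpace (𝓡 d) x) :
    dd (d := d) (fun y => p (fun j => U j y)) x v =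
      ∑ j, fderiv ℝ p (fun j => U j x) (bv j) * dd (U j) x v := by
  obtain ⟨G, hG⟩ : ∃ G : X → (Fin m → ℝ), G = fun (y : X) (j : Fin m) => U j y := ⟨_, rfl⟩
  have hGs : ContMDiff (𝓡 d) 𝓘(ℝ, Fin m → ℝ) ∞ G := by
    rw [hG]
    exact contMDiff_pi_space.2 hU
  have hGd : HasMFDerivAt (𝓡 d) 𝓘(ℝ, Fin m → ℝ) G x (mfderiv (𝓡 d) 𝓘(ℝ, Fin m → ℝ) G x) :=
    ((hGs x).mdifferentiableAt (by simp)).hasMFDerivAt
  have hpd : HasMFDerivAt 𝓘(ℝ, Fin m → ℝ) 𝓘(ℝ, ℝ) p (G x) (fderiv ℝ p (G x)) :=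
    (hp.differentiable (by simp) _).hasFDerivAt.hasMFDerivAt
  have h1 := (hpd.comp x hGd).mfderiv
  have h2 := congrArg (fun L => L v) h1
  obtain ⟨w, hw⟩ : ∃ w : Fin m → ℝ, w = mfderiv (𝓡 d) 𝓘(ℝ, Fin m → ℝ) G x v := ⟨_, rfl⟩
  have h3 : dd (d := d) (fun y => p (fun j => U j y)) x v = fderiv ℝ p (G x) w := by
    have e1 : (fun y => p (fun j => U j y)) = p ∘ G := by
      rw [hG]
      rfl
    rw [hw]
    unfold dd
    rw [e1]
    exact h2
  have h4 : ∀ j, w j = dd (U j) x v := by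
    intro j
    have hj : HasMFDerivAt 𝓘(ℝ, Fin m → ℝ) 𝓘(ℝ, ℝ)
        (ContinuousLinearMap.proj (R := ℝ) (φ := fun _ : Fin m => ℝ) j) (G x)
        (ContinuousLinearMap.proj (R := ℝ) (φ := fun _ : Fin m => ℝ) j) :=
      (ContinuousLinearMap.proj (R := ℝ) (φ := fun _ : Fin m => ℝ) j).hasFDerivAt.hasMFDerivAt
    have e1 := (hj.comp x hGd).mfderiv
    have e2 := congrArg (fun L => L v) e1
    have e3 : U j = (ContinuousLinearMap.proj (R := ℝ) (φ := fun _ : Fin m => ℝ) j) ∘ G := by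
      rw [hG]
      rfl
    unfold dd
    rw [e3, hw]
    exact e2.symm
  have h5 : w = ∑ j, w j • bv j := by
    funext k
    rw [Finset.sum_apply, Finset.sum_eq_single k]
    · simp [bv_self]
    · intro b _ hb
      simp [bv_ne hb.symm]
    · simp
  rw [h3, h5, map_sum]
  refine Finset.sum_congr rfl fun j _ => ?_
  rw [map_smul, smul_eq_mul, h4, mul_comm, hG]

omit [IsManifold (𝓡 d) ∞ X] in
theorem dd_scale {f : X → ℝ} (hf : SmoothFun (d := d) f) (κ : ℝ) (x : X)
    (v : TangentSpace (𝓡 d) x) : dd (d := d) (fun y => κ * f y) x v = κ * dd f x v := by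
  have h1 : HasDerivAt (fun t : ℝ => κ * t) (κ * 1) (f x) := (hasDerivAt_id (f x)).const_mul κ
  have h2 := dd_comp_at (P := fun t : ℝ => κ * t) h1.differentiableAt
    ((hf x).mdifferentiableAt (by simp)) v
  rw [h1.deriv, mul_one] at h2
  exact h2

omit [IsManifold (𝓡 d) ∞ X] in
theorem isD_sum {ι : Type} (s : Finset ι) {α : ι → Form d X 1} {ρ : ι → Form d X 2}
    (h : ∀ i, IsSmooth (α i) ∧ IsSmooth (ρ i) ∧ IsD (α i) (ρ i)) :
    IsSmooth (∑ i ∈ s, α i) ∧ IsSmooth (∑ i ∈ s, ρ i) ∧ IsD (∑ i ∈ s, α i) (∑ i ∈ s, ρ i) := by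
  classical
  refine ⟨IsSmooth.sum s fun i _ => (h i).1, IsSmooth.sum s fun i _ => (h i).2.1, ?_⟩
  induction s using Finset.induction_on with
  | empty => simpa using IsD.zero
  | insert a s ha ih =>
    rw [Finset.sum_insert ha, Finset.sum_insert ha]
    exact (h a).2.2.add ih (h a).1 (IsSmooth.sum s fun i _ => (h i).1)

theorem rp_ne {m : ℕ} [Nonempty (Fin m)] {i : Fin m} {t v : Fin m → ℝ}
    (h : fderiv ℝ (rp i) t v ≠ 0) : rp i t ≠ 0 := by
  intro h1
  have h2 : IsLocalMin (rp i) t := Eventually.of_forall fun y => by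
    rw [h1]
    exact rp_nonneg i y
  rw [h2.fderiv_eq_zero] at h
  exact h rfl

theorem glueM (hd : 1 ≤ d) [CompactSpace X] [T2Space X] {J : End d X} (hJ : IsAlmostComplex J)
    {τ : Form d X 2} (hτs : IsSmooth τ) (hτ : ∀ x, TamesAt τ J x) {m : ℕ}
    {F : Fin m → Set X} (hF : ∀ i, IsClosed (F i)) (hFe : ∀ x, ∃ i, x ∉ F i)
    {σ₀ : Form d X 2} (hσ₀ : IsSmooth σ₀)
    {β : Fin m → Form d X 1} {σ : Fin m → Form d X 2} (hβ : ∀ i, SmoothOff (β i) (F i))
    (hσ : ∀ i, SmoothOff (σ i) (F i)) (hD : ∀ i, IsDOff (β i) (σ i - σ₀) (F i))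
    (hpos : ∀ i x, x ∉ F i → ∀ v : TangentSpace (𝓡 d) x, 0 ≤ σ i x ![v, J x v])
    {u : Fin m → X → ℝ} (hu : ∀ i, ContMDiffOn (𝓡 d) 𝓘(ℝ, ℝ) ∞ (u i) (F i)ᶜ)
    (hlim : ∀ i, ∀ x ∈ F i, ∀ B : ℝ, ∀ᶠ y in 𝓝 x, y ∉ F i → u i y < B) {C : ℝ}
    (hwedge : ∀ i j, i ≠ j → ∀ x, x ∉ F i → x ∉ F j → ∀ v : TangentSpace (𝓡 d) x,
      -(C * τ x ![v, J x v]) ≤
        (dd (u i) x v - dd (u j) x v) * (β i x ![J x v] - β j x ![J x v]) -
        (dd (u i) x (J x v) - dd (u j) x (J x v)) * (β i x ![v] - β j x ![v]))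
    (S : Set X) (hS : S = {x | ∃ v : TangentSpace (𝓡 d) x, v ≠ 0 ∧
      ∀ i, x ∉ F i → σ i x ![v, J x v] = 0})
    (hthin : ∀ z ∈ S, ThinAt2 0 0 J (connectedComponentIn S z) z) :
    ∃ (α : Form d X 1) (ρ : Form d X 2), IsSmooth α ∧ IsSmooth ρ ∧ IsD α ρ ∧
      ∀ x, TamesAt (σ₀ + ρ) J x := by
  classical
  rcases isEmpty_or_nonempty X with hX | ⟨⟨x₀⟩⟩
  · exact ⟨0, 0, IsSmooth.zero, IsSmooth.zero, IsD.zero, fun x => (hX.false x).elim⟩
  have : Nonempty (Fin m) := ⟨(hFe x₀).choose⟩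
  -- local domination
  have hloc : ∀ x, x ∉ S → ∃ c : ℝ, 0 < c ∧ ∀ᶠ y in 𝓝 x, ∀ v : TangentSpace (𝓡 d) y,
      c * τ y ![v, J y v] ≤
        ∑ i ∈ Finset.univ.filter (fun i => x ∉ F i), σ i y ![v, J y v] := by
    intro x hx
    refine dom_sum hJ hτs hF hσ _ (fun i hi => (Finset.mem_filter.1 hi).2) fun v hv => ?_
    have h1 : ∃ i, x ∉ F i ∧ σ i x ![v, J x v] ≠ 0 := by
      by_contra hcon
      push Not at hcon
      exact hx (by rw [hS]; exact ⟨v, hv, hcon⟩)
    obtain ⟨i, hi, hne⟩ := h1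
    exact Finset.sum_pos' (fun j hj => hpos j x (Finset.mem_filter.1 hj).2 v)
      ⟨i, Finset.mem_filter.2 ⟨Finset.mem_univ i, hi⟩, lt_of_le_of_ne (hpos i x hi v) hne.symm⟩
  have hoff : ∀ x, ∀ᶠ y in 𝓝 x, ∀ i, x ∉ F i → y ∉ F i := by
    intro x
    refine eventually_all.2 fun i => ?_
    by_cases hi : x ∈ F i
    · exact Eventually.of_forall fun y h => absurd hi h
    · filter_upwards [(hF i).isOpen_compl.mem_nhds hi] with y hy _
      exact hy
  have hucont : ∀ i x, x ∉ F i → ContinuousAt (u i) x := fun i x hx =>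
    (hu i).continuousOn.continuousAt ((hF i).isOpen_compl.mem_nhds hx)
  have hScl : IsClosed S := by
    rw [← isOpen_compl_iff, isOpen_iff_eventually]
    intro x hx
    obtain ⟨c, hc, h1⟩ := hloc x hx
    filter_upwards [h1, hoff x] with y hy1 hy2 hyS
    rw [hS] at hyS
    obtain ⟨v, hv, h3⟩ := hyS
    have h4 := hy1 v
    rw [Finset.sum_eq_zero fun i hi => h3 i (hy2 i (Finset.mem_filter.1 hi).2)] at h4
    have := mul_pos hc (hτ y v hv)
    linarith
  have hne : ∃ v : E d, v ≠ 0 := by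
    have : Nontrivial (E d) := by
      have : Nonempty (Fin d) := ⟨⟨0, hd⟩⟩
      infer_instance
    exact exists_ne 0
  have hD2 : D2 (0 : Form d X 2) 0 J S = S := by
    apply Subset.antisymm
    · exact fun x hx => hx.1
    · intro x hx
      obtain ⟨v, hv⟩ := hne
      exact ⟨hx, v, hv, rfl, rfl⟩
  obtain ⟨α₁, η, hpair, hη⟩ := level2 Pool.Agent.Y484.SY.t_GEN Pool.Agent.Y108.SY.t_PERT2
    Pool.Agent.Y925.SY.t_PLANAR hJ (σ := 0) (θ := 0) IsSmooth.zero IsSmooth.zero hScl (by
      rw [hD2]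
      exact hthin)
  obtain ⟨hα₁, hηs, hαη, hηc⟩ := hpair.props Pool.Agent.Y484.SY.t_GEN
  obtain ⟨c₀, hc₀, hc₀p⟩ := rp_large (m := m)
  obtain ⟨K, hK0, hK⟩ := rp_lower (m := m)
  have hgood : ∀ (T T' : ℝ), T ≤ T' → ∀ y (v : TangentSpace (𝓡 d) y),
      (∑ i, if y ∉ F i ∧ -T < u i y then σ i y ![v, J y v] else 0) ≤
        ∑ i, if y ∉ F i ∧ -T' < u i y then σ i y ![v, J y v] else 0 := by
    intro T T' hTT y v
    refine Finset.sum_le_sum fun i _ => ?_
    by_cases h1 : y ∉ F i ∧ -T < u i y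
    · rw [if_pos h1, if_pos ⟨h1.1, by linarith [h1.2]⟩]
    · rw [if_neg h1]
      split_ifs with h2
      · exact hpos i y h2.1 v
      · exact le_rfl
  have hgood0 : ∀ (T : ℝ) y (v : TangentSpace (𝓡 d) y),
      0 ≤ (∑ i, if y ∉ F i ∧ -T < u i y then σ i y ![v, J y v] else 0) := by
    intro T y v
    refine Finset.sum_nonneg fun i _ => ?_
    split_ifs with h2
    · exact hpos i y h2.1 v
    · exact le_rfl
  -- the multiple of the exact form
  obtain ⟨s, hs, hst⟩ := unif (isCompact_univ (X := X))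
    (fun (ε : ℝ) (y : X) => 0 < ε → ∀ s : ℝ, 0 < s → s ≤ ε → ∀ v : TangentSpace (𝓡 d) y,
      s * ε * τ y ![v, J y v] ≤
        c₀ * (∑ i, if y ∉ F i ∧ -(1 / ε) < u i y then σ i y ![v, J y v] else 0) +
          s * η y ![v, J y v])
    (fun ε ε' y hle hp hε' s hs hsε v => by
      have h1 : 1 / ε ≤ 1 / ε' := one_div_le_one_div_of_le hε' hle
      have h2 := hp (hε'.trans_le hle) s hs (hsε.trans hle) v
      have h3 := mul_le_mul_of_nonneg_left (hgood (1 / ε) (1 / ε') h1 y v) hc₀.le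
      have h4 : s * ε' * τ y ![v, J y v] ≤ s * ε * τ y ![v, J y v] :=
        mul_le_mul_of_nonneg_right (mul_le_mul_of_nonneg_left hle hs.le) (tame_nonneg (hτ y) v)
      linarith)
    (fun x _ => by
      by_cases hxS : x ∈ S
      · have h1 : TamesAt η J x := fun v hv => hη x hxS v hv rfl rfl
        obtain ⟨ε, hε, h2⟩ := dom_of_tames hJ hηs hτs h1
        refine ⟨ε, hε, ?_⟩
        filter_upwards [h2] with y hy _ s hs hsε v
        have h3 := mul_nonneg hc₀.le (hgood0 (1 / ε) y v)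
        have h4 := mul_le_mul_of_nonneg_left (hy ε (by rw [abs_of_pos hε]) v) hs.le
        linarith
      · obtain ⟨c, hc, hcd⟩ := hloc x hxS
        obtain ⟨ε₂, hε₂, h2⟩ := dom_of_tames hJ hτs hηs (hτ x)
        obtain ⟨R, hR⟩ : ∃ R : ℝ, R = ∑ i, |u i x| := ⟨_, rfl⟩
        have hRi : ∀ i, |u i x| ≤ R := fun i => by
          rw [hR]
          exact Finset.single_le_sum (f := fun i => |u i x|) (fun _ _ => abs_nonneg _)
            (Finset.mem_univ i)
        have hR0 : 0 ≤ R := (abs_nonneg _).trans (hRi (Classical.arbitrary _))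
        have hue : ∀ᶠ y in 𝓝 x, ∀ i, x ∉ F i → -(R + 1) < u i y := by
          refine eventually_all.2 fun i => ?_
          by_cases hi : x ∈ F i
          · exact Eventually.of_forall fun y h => absurd hi h
          · have h3 : -(R + 1) < u i x := by
              have h4 := neg_abs_le (u i x)
              have h5 := hRi i
              linarith
            filter_upwards [(hucont i x hi).eventually_const_lt h3] with y hy _
            exact hy
        obtain ⟨ε, hεd⟩ : ∃ ε, ε = min (min (c₀ * c * ε₂ / 2) (c₀ * c / 2))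
          (min 1 (1 / (R + 1))) := ⟨_, rfl⟩
        have hε : 0 < ε := by
          rw [hεd]
          exact lt_min (lt_min (by positivity) (by positivity)) (lt_min one_pos (by positivity))
        have e1 : ε ≤ c₀ * c * ε₂ / 2 := by
          rw [hεd]; exact (min_le_left _ _).trans (min_le_left _ _)
        have e2 : ε ≤ c₀ * c / 2 := by
          rw [hεd]; exact (min_le_left _ _).trans (min_le_right _ _)
        have e3 : ε ≤ 1 := by rw [hεd]; exact (min_le_right _ _).trans (min_le_left _ _)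
        have e4 : ε ≤ 1 / (R + 1) := by
          rw [hεd]; exact (min_le_right _ _).trans (min_le_right _ _)
        have e5 : R + 1 ≤ 1 / ε := by
          rw [le_div_iff₀ hε]
          have h3 := mul_le_mul_of_nonneg_left e4 (by linarith : (0 : ℝ) ≤ R + 1)
          have h4 : (R + 1) * (1 / (R + 1)) = 1 := by
            field_simp
          linarith
        refine ⟨ε, hε, ?_⟩
        filter_upwards [hcd, h2, hoff x, hue] with y hy1 hy2 hy3 hy4 _ s hs hsε v
        have hτ0 := tame_nonneg (hτ y) v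
        have n1 := hy1 v
        have n2 := hy2 (-ε₂) (by rw [abs_neg, abs_of_pos hε₂]) v
        have n3 : -(c₀ * c / 2 * τ y ![v, J y v]) ≤ s * η y ![v, J y v] := by
          have n4 : s * (-ε₂ * η y ![v, J y v]) ≤ s * τ y ![v, J y v] :=
            mul_le_mul_of_nonneg_left n2 hs.le
          have n5 : s * τ y ![v, J y v] ≤ (c₀ * c * ε₂ / 2) * τ y ![v, J y v] :=
            mul_le_mul_of_nonneg_right (hsε.trans e1) hτ0
          have n6 : ε₂ * (-(c₀ * c / 2 * τ y ![v, J y v])) ≤ ε₂ * (s * η y ![v, J y v]) := by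
            nlinarith
          exact le_of_mul_le_mul_left n6 hε₂
        have n7 : s * ε * τ y ![v, J y v] ≤ c₀ * c / 2 * τ y ![v, J y v] := by
          refine mul_le_mul_of_nonneg_right ?_ hτ0
          calc s * ε ≤ 1 * (c₀ * c / 2) := mul_le_mul (hsε.trans e3) e2 hε.le zero_le_one
            _ = c₀ * c / 2 := one_mul _
        have n8 : ∑ i ∈ Finset.univ.filter (fun i => x ∉ F i), σ i y ![v, J y v] ≤
            ∑ i, if y ∉ F i ∧ -(1 / ε) < u i y then σ i y ![v, J y v] else 0 := by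
          rw [Finset.sum_filter]
          refine Finset.sum_le_sum fun i _ => ?_
          by_cases hi : x ∉ F i
          · have h5 := hy4 i hi
            rw [if_pos hi, if_pos ⟨hy3 i hi, by linarith⟩]
          · rw [if_neg hi]
            split_ifs with h2
            · exact hpos i y h2.1 v
            · exact le_rfl
        have n9 := mul_le_mul_of_nonneg_left (n1.trans n8) hc₀.le
        linarith)
  have hdom : ∀ y, ∀ v : TangentSpace (𝓡 d) y, s * s * τ y ![v, J y v] ≤
        c₀ * (∑ i, if y ∉ F i ∧ -(1 / s) < u i y then σ i y ![v, J y v] else 0) +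
          s * η y ![v, J y v] := fun y => hst y (mem_univ y) hs s hs le_rfl
  -- upper bounds
  obtain ⟨r₁, hr₁, hR₁⟩ := unif (isCompact_univ (X := X))
    (fun (ε : ℝ) (y : X) => 0 < ε → ∀ i, y ∉ F i → u i y ≤ 1 / ε)
    (fun ε ε' y hle hp hε' i hi =>
      (hp (hε'.trans_le hle) i hi).trans (one_div_le_one_div_of_le hε' hle))
    (fun x _ => by
      obtain ⟨R, hR⟩ : ∃ R : ℝ, R = ∑ i, |u i x| := ⟨_, rfl⟩
      have hRi : ∀ i, |u i x| ≤ R := fun i => by
        rw [hR]
        exact Finset.single_le_sum (f := fun i => |u i x|) (fun _ _ => abs_nonneg _)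
          (Finset.mem_univ i)
      have hR0 : 0 ≤ R := (abs_nonneg _).trans (hRi (Classical.arbitrary _))
      refine ⟨1 / (R + 1), by positivity, ?_⟩
      have h1 : ∀ᶠ y in 𝓝 x, ∀ i, y ∉ F i → u i y < R + 1 := by
        refine eventually_all.2 fun i => ?_
        by_cases hi : x ∈ F i
        · exact hlim i x hi (R + 1)
        · have h3 : u i x < R + 1 := by
            have h4 := le_abs_self (u i x)
            have h5 := hRi i
            linarith
          filter_upwards [(hucont i x hi).eventually_lt_const h3] with y hy _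
          exact hy
      filter_upwards [h1] with y hy _ i hi
      rw [one_div_one_div]
      exact (hy i hi).le)
  -- lower bounds for the maximum
  obtain ⟨r₂, hr₂, hR₂⟩ := unif (isCompact_univ (X := X))
    (fun (ε : ℝ) (y : X) => 0 < ε → ∃ i, y ∉ F i ∧ -(1 / ε) ≤ u i y)
    (fun ε ε' y hle hp hε' => by
      obtain ⟨i, hi, h1⟩ := hp (hε'.trans_le hle)
      have h2 := one_div_le_one_div_of_le hε' hle
      exact ⟨i, hi, by linarith⟩)
    (fun x _ => by
      obtain ⟨i, hi⟩ := hFe x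
      refine ⟨1 / (|u i x| + 1), by positivity, ?_⟩
      have h3 : -(|u i x| + 1) < u i x := by
        have h4 := neg_abs_le (u i x)
        linarith
      filter_upwards [(hucont i x hi).eventually_const_lt h3, (hF i).isOpen_compl.mem_nhds hi]
        with y hy1 hy2 _
      refine ⟨i, hy2, ?_⟩
      rw [one_div_one_div]
      exact hy1.le)
  have hR₁' : ∀ y i, y ∉ F i → u i y ≤ 1 / r₁ := fun y => hR₁ y (mem_univ y) hr₁
  have hR₂' : ∀ y, ∃ i, y ∉ F i ∧ -(1 / r₂) ≤ u i y := fun y => hR₂ y (mem_univ y) hr₂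
  clear hR₁ hR₂ hst
  obtain ⟨T₀, hT₀⟩ : ∃ T₀, T₀ = 1 / s := ⟨_, rfl⟩
  obtain ⟨R₁, hR₁⟩ : ∃ R₁, R₁ = 1 / r₁ := ⟨_, rfl⟩
  obtain ⟨L, hL⟩ : ∃ L, L = 1 / r₂ := ⟨_, rfl⟩
  have hT₀0 : 0 < T₀ := by rw [hT₀]; positivity
  have hR₁0 : 0 < R₁ := by rw [hR₁]; positivity
  have hL0 : 0 < L := by rw [hL]; positivity
  rw [← hT₀] at hdom
  rw [← hR₁] at hR₁'
  rw [← hL] at hR₂'
  -- the scale
  obtain ⟨N, hN⟩ : ∃ N : ℝ, N = m * m * (K * |C|) := ⟨_, rfl⟩
  have hN0 : 0 ≤ N := by rw [hN]; positivity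
  obtain ⟨κ, hκ⟩ : ∃ κ, κ = min (1 / (8 * (R₁ + T₀))) (s * s / (N + 1)) := ⟨_, rfl⟩
  have hκ0 : 0 < κ := by
    rw [hκ]
    exact lt_min (by positivity) (by positivity)
  have hκ1 : κ * (R₁ + T₀) ≤ 1 / 8 := by
    have h1 : κ ≤ 1 / (8 * (R₁ + T₀)) := by rw [hκ]; exact min_le_left _ _
    have h2 := mul_le_mul_of_nonneg_right h1 (by linarith : 0 ≤ R₁ + T₀)
    have h3 : 1 / (8 * (R₁ + T₀)) * (R₁ + T₀) = 1 / 8 := by field_simp
    linarith
  have hκ2 : κ * N ≤ s * s := by
    have h1 : κ ≤ s * s / (N + 1) := by rw [hκ]; exact min_le_right _ _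
    have h2 := mul_le_mul_of_nonneg_right h1 (by linarith : 0 ≤ N + 1)
    have h3 : s * s / (N + 1) * (N + 1) = s * s := by field_simp
    nlinarith
  obtain ⟨T, hT⟩ : ∃ T, T = L + 2 / κ + T₀ := ⟨_, rfl⟩
  have hTL : L < T := by
    rw [hT]
    have : 0 < 2 / κ := by positivity
    linarith
  have hTT : T₀ ≤ T := by
    rw [hT]
    have : 0 < 2 / κ := by positivity
    linarith
  choose U hU1 hU2 hU3 hU4 using fun i => reg_trunc (hF i) (hu i) (hlim i) T
  -- active indices
  have hact : ∀ i x, rp i (fun j => κ * U j x) ≠ 0 → x ∉ F i ∧ -T < u i x ∧ U i x = u i x := by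
    intro i x hne0
    rcases hU4 i x with h | h
    · exfalso
      apply hne0
      obtain ⟨j, hj, hj2⟩ := hR₂' x
      have h1 := (hU3 j x hj (by linarith)).self_of_nhds
      refine rp_zero (j := j) ?_
      rw [h1]
      have h2 : κ * U i x ≤ κ * -T := mul_le_mul_of_nonneg_left h hκ0.le
      have h3 : κ * -L ≤ κ * u j x := mul_le_mul_of_nonneg_left hj2 hκ0.le
      have h4 : κ * -T = κ * -L - 2 - κ * T₀ := by
        rw [hT]
        field_simp
        ring
      have h5 := mul_pos hκ0 hT₀0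
      linarith
    · exact h
  obtain ⟨W, hW⟩ : ∃ W : Fin m → X → ℝ, W = fun i x => rp i (fun j => κ * U j x) := ⟨_, rfl⟩
  have hUs : ∀ j, SmoothFun (d := d) (fun y => κ * U j y) := fun j =>
    (SmoothFun.const κ).mul (hU1 j)
  have hWs : ∀ i, SmoothFun (d := d) (W i) := fun i => by
    rw [hW]
    exact smooth_pi (rp_smooth i) hUs
  have hW0 : ∀ i, ∀ x ∈ F i, ∀ᶠ y in 𝓝 x, W i y = 0 := by
    intro i x hx
    filter_upwards [hU2 i x hx] with y hy
    by_contra h
    rw [hW] at h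
    obtain ⟨-, h2, h3⟩ := hact i y h
    rw [hy] at h3
    linarith
  have hσd : ∀ i, SmoothOff (σ i - σ₀) (F i) := by
    intro i U φ hU hφ hφF
    exact (hσ i U φ hU hφ hφF).sub (hσ₀ U φ hU hφ)
  obtain ⟨q1, q2, q3⟩ := isD_sum (Finset.univ : Finset (Fin m))
    (α := fun i => (fun x => W i x • β i x : Form d X 1))
    (ρ := fun i => prodD (W i) (β i) (σ i - σ₀))
    (fun i => cut_prod (hF i) (hWs i) (hW0 i) (hβ i) (hσd i) (hD i))
  refine ⟨s • α₁ + ∑ i, (fun x => W i x • β i x : Form d X 1),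
    s • η + ∑ i, prodD (W i) (β i) (σ i - σ₀), (hα₁.smul s).add q1, (hηs.smul s).add q2,
    (hαη.smul s).add q3 (hα₁.smul s) q1, ?_⟩
  intro x v hv
  have hτp : 0 < τ x ![v, J x v] := hτ x v hv
  have hW1 : ∑ i, W i x = 1 := by
    rw [hW]
    exact rp_sum _
  have hWn : ∀ i, 0 ≤ W i x := fun i => by
    rw [hW]
    exact rp_nonneg _ _
  have hval : (σ₀ + (s • η + ∑ i, prodD (W i) (β i) (σ i - σ₀))) x ![v, J x v] =
      s * η x ![v, J x v] + ∑ i, W i x * σ i x ![v, J x v] +
      ∑ i, (dd (W i) x v * β i x ![J x v] - dd (W i) x (J x v) * β i x ![v]) := by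
    change σ₀ x ![v, J x v] + (s * η x ![v, J x v] +
      (∑ i, prodD (W i) (β i) (σ i - σ₀)) x ![v, J x v]) = _
    rw [sum_apply2]
    have h1 : ∀ i, prodD (W i) (β i) (σ i - σ₀) x ![v, J x v] =
        (dd (W i) x v * β i x ![J x v] - dd (W i) x (J x v) * β i x ![v]) +
        (W i x * σ i x ![v, J x v] - W i x * σ₀ x ![v, J x v]) := by
      intro i
      rw [prodD_apply]
      change dd (W i) x v * β i x ![J x v] - dd (W i) x (J x v) * β i x ![v] +
        W i x * (σ i x ![v, J x v] - σ₀ x ![v, J x v]) = _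
      ring
    rw [Finset.sum_congr rfl fun i _ => h1 i, Finset.sum_add_distrib, Finset.sum_sub_distrib
      (f := fun i => W i x * σ i x ![v, J x v]), ← Finset.sum_mul, hW1]
    ring
  rw [hval]
  -- the mixed terms
  obtain ⟨P, hP⟩ : ∃ P : Fin m → Fin m → ℝ,
    P = fun i j => fderiv ℝ (rp i) (fun j => κ * U j x) (bv j) := ⟨_, rfl⟩
  have hdW : ∀ i (w : TangentSpace (𝓡 d) x), dd (W i) x w = ∑ j, P i j * (κ * dd (U j) x w) := by
    intro i w
    have h1 := dd_comp_pi (rp_smooth i) hUs x w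
    rw [hW, hP]
    refine h1.trans (Finset.sum_congr rfl fun j _ => ?_)
    rw [dd_scale (hU1 j)]
  have hPs : ∀ i j, P i j = P j i := fun i j => by
    rw [hP]
    exact rp_symm i j _
  have hPr : ∀ i, ∑ j, P i j = 0 := by
    intro i
    rw [Finset.sum_congr rfl fun j _ => hPs i j, hP]
    exact rp_col _ _
  have hcross : -(1 / 2 * (s * s) * τ x ![v, J x v]) ≤
      ∑ i, (dd (W i) x v * β i x ![J x v] - dd (W i) x (J x v) * β i x ![v]) := by
    have h1 := cross_two P hPs hPr (fun j => κ * dd (U j) x v) (fun j => κ * dd (U j) x (J x v))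
      (fun i => β i x ![v]) (fun i => β i x ![J x v])
    have h2 : ∑ i, (dd (W i) x v * β i x ![J x v] - dd (W i) x (J x v) * β i x ![v]) =
        ∑ i, ((∑ j, P i j * (κ * dd (U j) x v)) * β i x ![J x v] -
          (∑ j, P i j * (κ * dd (U j) x (J x v))) * β i x ![v]) :=
      Finset.sum_congr rfl fun i _ => by rw [hdW, hdW]
    rw [h2, h1]
    have h3 : ∀ i j, P i j * ((κ * dd (U i) x v - κ * dd (U j) x v) *
        (β i x ![J x v] - β j x ![J x v]) - (κ * dd (U i) x (J x v) - κ * dd (U j) x (J x v)) *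
        (β i x ![v] - β j x ![v])) ≤ κ * (K * |C|) * τ x ![v, J x v] := by
      intro i j
      have hnn : 0 ≤ κ * (K * |C|) * τ x ![v, J x v] := by positivity
      by_cases hij : i = j
      · subst hij
        simp only [sub_self, mul_zero]
        exact hnn
      · by_cases hP0 : P i j = 0
        · rw [hP0, zero_mul]
          exact hnn
        · have k1 : rp i (fun j => κ * U j x) ≠ 0 := by
            rw [hP] at hP0
            exact rp_ne hP0
          have k2 : rp j (fun j => κ * U j x) ≠ 0 := by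
            rw [hPs, hP] at hP0
            exact rp_ne hP0
          obtain ⟨a1, a2, a3⟩ := hact i x k1
          obtain ⟨b1, b2, b3⟩ := hact j x k2
          have g1 : ∀ w : TangentSpace (𝓡 d) x, dd (d := d) (U i) x w = dd (u i) x w := by
            intro w
            unfold dd
            rw [(hU3 i x a1 a2).mfderiv_eq]
          have g2 : ∀ w : TangentSpace (𝓡 d) x, dd (d := d) (U j) x w = dd (u j) x w := by
            intro w
            unfold dd
            rw [(hU3 j x b1 b2).mfderiv_eq]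
          rw [g1, g1, g2, g2]
          have k3 := hwedge i j hij x a1 b1 v
          have k4 : P i j ≤ 0 := by
            rw [hP]
            exact rp_nonpos hij _
          have k5 : -K ≤ P i j := by
            rw [hP]
            exact hK i j _
          have k6 : C * τ x ![v, J x v] ≤ |C| * τ x ![v, J x v] :=
            mul_le_mul_of_nonneg_right (le_abs_self C) hτp.le
          have k7 : κ * -(|C| * τ x ![v, J x v]) ≤ κ * ((dd (u i) x v - dd (u j) x v) *
              (β i x ![J x v] - β j x ![J x v]) - (dd (u i) x (J x v) - dd (u j) x (J x v)) *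
              (β i x ![v] - β j x ![v])) :=
            mul_le_mul_of_nonneg_left (by linarith) hκ0.le
          have k8 := mul_le_mul_of_nonpos_left k7 k4
          have k9 : (-P i j) * (κ * (|C| * τ x ![v, J x v])) ≤
              K * (κ * (|C| * τ x ![v, J x v])) :=
            mul_le_mul_of_nonneg_right (by linarith) (by positivity)
          have k10 : P i j * ((κ * dd (u i) x v - κ * dd (u j) x v) *
              (β i x ![J x v] - β j x ![J x v]) -
              (κ * dd (u i) x (J x v) - κ * dd (u j) x (J x v)) * (β i x ![v] - β j x ![v])) =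
              P i j * (κ * ((dd (u i) x v - dd (u j) x v) *
              (β i x ![J x v] - β j x ![J x v]) - (dd (u i) x (J x v) - dd (u j) x (J x v)) *
              (β i x ![v] - β j x ![v]))) := by ring
          rw [k10]
          linarith
    have h4 : ∑ i, ∑ j, P i j * ((κ * dd (U i) x v - κ * dd (U j) x v) *
        (β i x ![J x v] - β j x ![J x v]) - (κ * dd (U i) x (J x v) - κ * dd (U j) x (J x v)) *
        (β i x ![v] - β j x ![v])) ≤ κ * N * τ x ![v, J x v] := by
      calc _ ≤ ∑ i : Fin m, ∑ j : Fin m, κ * (K * |C|) * τ x ![v, J x v] :=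
            Finset.sum_le_sum fun i _ => Finset.sum_le_sum fun j _ => h3 i j
        _ = κ * N * τ x ![v, J x v] := by
            simp only [Finset.sum_const, Finset.card_univ, Fintype.card_fin, nsmul_eq_mul]
            rw [hN]
            ring
    have h5 : κ * N * τ x ![v, J x v] ≤ s * s * τ x ![v, J x v] :=
      mul_le_mul_of_nonneg_right hκ2 hτp.le
    linarith
  -- the main terms
  have hmain : c₀ * (∑ i, if x ∉ F i ∧ -T₀ < u i x then σ i x ![v, J x v] else 0) ≤
      ∑ i, W i x * σ i x ![v, J x v] := by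
    rw [Finset.mul_sum]
    refine Finset.sum_le_sum fun i _ => ?_
    by_cases hi : x ∉ F i ∧ -T₀ < u i x
    · rw [if_pos hi]
      refine mul_le_mul_of_nonneg_right ?_ (hpos i x hi.1 v)
      rw [hW]
      refine hc₀p i _ fun j => ?_
      have h1 : U i x = u i x := (hU3 i x hi.1 (by linarith [hi.2])).self_of_nhds
      have h2 : U j x ≤ R₁ := by
        rcases hU4 j x with h | h
        · linarith
        · rw [h.2.2]
          exact hR₁' x j h.1
      have h3 : U j x - U i x ≤ R₁ + T₀ := by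
        rw [h1]
        linarith [hi.2]
      have h4 := mul_le_mul_of_nonneg_left h3 hκ0.le
      linarith
    · rw [if_neg hi, mul_zero]
      by_cases hWi : W i x = 0
      · rw [hWi, zero_mul]
      · have h1 := hWi
        rw [hW] at h1
        exact mul_nonneg (hWn i) (hpos i x (hact i x h1).1 v)
  have h1 := hdom x v
  have h2 : 0 < s * s * τ x ![v, J x v] := by positivity
  linarith

end

end Pool.Agent.V8H58.BF
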